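import Mathlib

/-!
# Definitions for the statements about ordinates
-/

open Complex Set

namespace Pool.Agent.Lib.MP_ec260d_nt

/-- The set `Γ` of positive ordinates: the real `γ > 0` with `ζ(β + iγ) = 0` for some real `β`. -/
def Gam : Set ℝ := {γ : ℝ | 0 < γ ∧ ∃ β : ℝ, riemannZeta (β + γ * I) = 0}

/-- `N(T)`: the number of zeros `ρ` of `ζ` with `0 < Im ρ ≤ T`, counted with multiplicity. -/
noncomputable def zeroCount (T : ℝ) : ℕ :=
  ∑ᶠ ρ ∈ {ρ : ℂ | riemannZeta ρ = 0 ∧ 0 < ρ.im ∧ ρ.im ≤ T}, analyticOrderNatAt riemannZeta ρ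

end Pool.Agent.Lib.MP_ec260d_nt
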