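import Mathlib

/-!
# JOB DigammaReal: the series of the digamma function on the positive reals

Let `g = Real.log ∘ Real.Gamma` on `(0, ∞)`: convex (`Real.convexOn_log_Gamma`), differentiable, `g (x + 1) = g x + log x`
(`Real.Gamma_add_one`). Let `ψ x = deriv Real.Gamma x / Real.Gamma x = g' x`. Then `ψ (x + 1) = ψ x + 1 / x` (differentiate the
functional equation, or `Complex.digamma_apply_add_one` on reals), so `ψ (x + n) = ψ x + ∑_{k < n} 1 / (x + k)`.
Convexity (slopes, `ConvexOn.deriv_le_slope`, `ConvexOn.slope_le_deriv` or similar): for `n ≥ 1`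
`log (x + n - 1) = g (x + n) - g (x + n - 1) ≤ ψ (x + n) ≤ g (x + n + 1) - g (x + n) = log (x + n)`.
So `ψ (x + n) - log n → 0`. With `∑_{k < n} 1 / (k + 1) - log n → γ` (`Real.tendsto_harmonic_sub_log`):
`∑_{k < n} (1/(k+1) - 1/(k+x)) → ψ x + γ`. The terms are `O(1/k^2)` (`= (x - 1) / ((k + 1) (k + x))`), so the series is
summable and `HasSum` follows from the limit of partial sums (`Summable.hasSum_iff_tendsto_nat`).
-/

open Real Set Filter Topology

namespace Pool.Agent.Lib.MP_ec260d_nt

theorem digamma_real {x : ℝ} (hx : 0 < x) :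
    HasSum (fun n : ℕ => 1 / ((n : ℝ) + 1) - 1 / ((n : ℝ) + x))
      (deriv Real.Gamma x / Real.Gamma x + Real.eulerMascheroniConstant) := by
  set f : ℝ → ℝ := Real.log ∘ Real.Gamma with hf
  have hpos (y : ℝ) (hy : 0 < y) (m : ℕ) : y ≠ -(m : ℝ) := by
    have h0 : (0 : ℝ) ≤ m := m.cast_nonneg
    exact ne_of_gt (by linarith)
  have hder {y : ℝ} (hy : 0 < y) : DifferentiableAt ℝ f y :=
    (Real.differentiableAt_Gamma (hpos y hy)).log (Real.Gamma_ne_zero (hpos y hy))
  have hderiv : deriv f x = deriv Real.Gamma x / Real.Gamma x := by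
    rw [hf, Function.comp_def, deriv.log (Real.differentiableAt_Gamma (hpos x hx))
      (Real.Gamma_ne_zero (hpos x hx))]
  have hc : ConvexOn ℝ (Ioi 0) f := Real.convexOn_log_Gamma
  have h_rec (y : ℝ) (hy : 0 < y) : f (y + 1) = f y + Real.log y := by
    simp only [hf, Function.comp_apply, Real.Gamma_add_one hy.ne',
      Real.log_mul hy.ne' (Real.Gamma_pos_of_pos hy).ne', add_comm]
  have hder_rec (y : ℝ) (hy : 0 < y) : deriv f (y + 1) = deriv f y + 1 / y := by
    rw [← deriv_comp_add_const, one_div, ← Real.deriv_log,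
      ← deriv_add (hder hy) (Real.differentiableAt_log hy.ne')]
    apply EventuallyEq.deriv_eq
    filter_upwards [eventually_gt_nhds hy] using h_rec
  have hsum (n : ℕ) : deriv f (n + x) = deriv f x + ∑ k ∈ Finset.range n, 1 / ((k : ℝ) + x) := by
    induction n with
    | zero => simp
    | succ n hn =>
      rw [Finset.sum_range_succ, ← add_assoc, ← hn, ← hder_rec (n + x) (by positivity)]
      push_cast
      congr 1
      ring
  have hUB (n : ℕ) : deriv f (n + x) ≤ Real.log (n + x) := by
    have h0 : (0 : ℝ) < n + x := by positivity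
    refine (hc.deriv_le_slope (x := n + x) (y := n + x + 1) (mem_Ioi.2 h0)
      (mem_Ioi.2 (by linarith)) (by linarith) (hder h0)).trans (le_of_eq ?_)
    rw [slope_def_field, h_rec _ h0, add_sub_cancel_left, add_sub_cancel_left, div_one]
  have hLB (n : ℕ) : Real.log (n + x) - 1 / (n + x) ≤ deriv f (n + x) := by
    have h0 : (0 : ℝ) < n + x := by positivity
    have h1 : Real.log (n + x) ≤ deriv f (n + x + 1) := by
      refine (le_of_eq ?_).trans (hc.slope_le_deriv (x := n + x) (y := n + x + 1) (mem_Ioi.2 h0)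
        (mem_Ioi.2 (by linarith)) (by linarith) (hder (by linarith)))
      rw [slope_def_field, h_rec _ h0, add_sub_cancel_left, add_sub_cancel_left, div_one]
    rw [hder_rec _ h0] at h1
    linarith
  have hinv : Tendsto (fun n : ℕ => 1 / ((n : ℝ) + x)) atTop (𝓝 0) := by
    simp only [one_div]
    exact tendsto_inv_atTop_zero.comp (tendsto_atTop_add_const_right _ _ tendsto_natCast_atTop_atTop)
  have h1 : Tendsto (fun n : ℕ => deriv f (n + x) - Real.log (n + x)) atTop (𝓝 0) := by
    refine tendsto_of_tendsto_of_tendsto_of_le_of_le (g := fun n : ℕ => -(1 / ((n : ℝ) + x)))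
      (h := fun _ => (0 : ℝ)) ?_ tendsto_const_nhds ?_ ?_
    · simpa using hinv.neg
    · intro n
      have := hLB n
      simp only
      linarith
    · intro n
      have := hUB n
      simp only
      linarith
  have h2 : Tendsto (fun n : ℕ => Real.log (n + x) - Real.log n) atTop (𝓝 0) :=
    (Real.tendsto_log_comp_add_sub_log x).comp tendsto_natCast_atTop_atTop
  have hS : Summable (fun n : ℕ => 1 / ((n : ℝ) + 1) - 1 / ((n : ℝ) + x)) := by
    have hb : Summable (fun n : ℕ => |x - 1| / min 1 x * (1 / ((n : ℝ) + 1) ^ 2)) := by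
      apply Summable.mul_left
      have := (summable_nat_add_iff 1).2 (Real.summable_one_div_nat_pow.2 (one_lt_two))
      simpa using this
    refine Summable.of_norm_bounded hb ?_
    intro n
    have hm : 0 < min 1 x := lt_min one_pos hx
    have hn : (0 : ℝ) ≤ n := n.cast_nonneg
    have h3 : min 1 x * ((n : ℝ) + 1) ≤ n + x := by
      have h4 : min 1 x * (n : ℝ) ≤ 1 * n := by gcongr; exact min_le_left _ _
      have h5 : min 1 x ≤ x := min_le_right _ _
      linarith
    have h6 : 1 / ((n : ℝ) + 1) - 1 / ((n : ℝ) + x) = (x - 1) / (((n : ℝ) + x) * (n + 1)) := by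
      have : (n : ℝ) + x ≠ 0 := by positivity
      have : (n : ℝ) + 1 ≠ 0 := by positivity
      field_simp
      ring
    have h7 : |x - 1| / min 1 x * (1 / ((n : ℝ) + 1) ^ 2) =
        |x - 1| / ((min 1 x * ((n : ℝ) + 1)) * (n + 1)) := by
      have : (n : ℝ) + 1 ≠ 0 := by positivity
      field_simp
    rw [h6, h7, Real.norm_eq_abs, abs_div, abs_of_pos (show (0 : ℝ) < (n + x) * (n + 1) by positivity)]
    gcongr
  rw [hS.hasSum_iff_tendsto_nat, ← hderiv]
  have h3 : Tendsto (fun n : ℕ => ((harmonic n : ℚ) : ℝ) - Real.log n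
      - ((deriv f (n + x) - Real.log (n + x)) + (Real.log (n + x) - Real.log n)) + deriv f x)
      atTop (𝓝 (Real.eulerMascheroniConstant - (0 + 0) + deriv f x)) :=
    (Real.tendsto_harmonic_sub_log.sub (h1.add h2)).add_const _
  rw [show Real.eulerMascheroniConstant - (0 + 0) + deriv f x =
    deriv f x + Real.eulerMascheroniConstant by ring] at h3
  refine h3.congr ?_
  intro n
  rw [Finset.sum_sub_distrib, hsum n, harmonic]
  push_cast
  simp only [one_div]
  ring

end Pool.Agent.Lib.MP_ec260d_nt
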