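import Mathlib
import Pool.Agent.Lib.MP_ec260d_nt.DigammaReal

/-!
# JOB DigammaC: the series of the complex digamma function for `Re z > 0`

The terms are `(z - 1) / ((n + 1) (n + z))`, bounded on `{Re z > 0, ‖z‖ < R}` by `(R + 1) / ((n + 1) n)` for `n ≥ 1`
(`‖n + z‖ ≥ n`), and the `n = 0` term is fine; so the sum is summable, and differentiable on `Re z > 0`
(`differentiableOn_tsum_of_summable_norm` on the open sets `{Re z > δ, ‖z‖ < R}` or locally uniformly).
`Complex.digamma = logDeriv Gamma` is differentiable on `Re z > 0` (`Complex.differentiableAt_Gamma`, `Complex.Gamma_ne_zero_of_re_pos`). Both sides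
agree at real `x > 0` by `digamma_real` (`Complex.Gamma_ofReal`, `deriv Complex.Gamma x = deriv Real.Gamma x`:
`HasDerivAt.real_of_complex`), a set with accumulation point `1`; the half plane is preconnected; identity theorem
(`AnalyticOnNhd.eqOn_of_preconnected_of_frequently_eq`).
-/

open Complex Set Filter Topology

namespace Pool.Agent.Lib.MP_ec260d_nt

private lemma DigammaC_bound {δ R : ℝ} (hδ : 0 < δ) (hδ1 : δ ≤ 1) {z : ℂ} (hz : δ < z.re)
    (hR : ‖z‖ < R) (n : ℕ) :
    ‖1 / ((n : ℂ) + 1) - 1 / ((n : ℂ) + z)‖ ≤ (R + 1) / δ * (1 / ((n : ℝ) + 1) ^ 2) := by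
  have hn : (0 : ℝ) ≤ n := Nat.cast_nonneg n
  have h1 : (n : ℂ) + 1 ≠ 0 := Nat.cast_add_one_ne_zero n
  have hre : ((n : ℂ) + z).re = n + z.re := by simp
  have h2 : (n : ℂ) + z ≠ 0 := by
    intro h
    have h3 := congrArg Complex.re h
    rw [hre, Complex.zero_re] at h3
    linarith
  have e : 1 / ((n : ℂ) + 1) - 1 / ((n : ℂ) + z) = (z - 1) / (((n : ℂ) + 1) * ((n : ℂ) + z)) := by
    rw [div_sub_div _ _ h1 h2]
    congr 1
    ring
  have hn1 : ‖(n : ℂ) + 1‖ = (n : ℝ) + 1 := by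
    have : ((n : ℂ) + 1) = (((n : ℝ) + 1 : ℝ) : ℂ) := by push_cast; rfl
    rw [this, Complex.norm_real, Real.norm_of_nonneg (by linarith)]
  have hn2 : δ * ((n : ℝ) + 1) ≤ ‖(n : ℂ) + z‖ := by
    have h4 : ((n : ℂ) + z).re ≤ ‖(n : ℂ) + z‖ := Complex.re_le_norm _
    rw [hre] at h4
    have h5 : δ * (n : ℝ) ≤ n := mul_le_of_le_one_left hn hδ1
    linarith
  have hn3 : ‖z - 1‖ ≤ R + 1 := by
    have h6 := norm_sub_le z 1
    rw [norm_one] at h6
    linarith
  rw [e, norm_div, norm_mul, hn1]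
  have hpos : 0 < (n : ℝ) + 1 := by linarith
  have hden : 0 < ((n : ℝ) + 1) * (δ * ((n : ℝ) + 1)) := by positivity
  have hR0 : 0 ≤ R + 1 := (norm_nonneg _).trans hn3
  calc ‖z - 1‖ / (((n : ℝ) + 1) * ‖(n : ℂ) + z‖)
      ≤ (R + 1) / (((n : ℝ) + 1) * (δ * ((n : ℝ) + 1))) :=
        div_le_div₀ hR0 hn3 hden (mul_le_mul_of_nonneg_left hn2 hpos.le)
    _ = (R + 1) / δ * (1 / ((n : ℝ) + 1) ^ 2) := by
        field_simp

private lemma DigammaC_summable (c : ℝ) :
    Summable (fun n : ℕ => c * (1 / ((n : ℝ) + 1) ^ 2)) := by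
  refine Summable.mul_left c ?_
  have h := (summable_nat_add_iff 1).2 (Real.summable_one_div_nat_pow.2 (by norm_num : 1 < 2))
  refine h.congr fun n => ?_
  push_cast
  rfl

private lemma DigammaC_sum {z : ℂ} (hz : 0 < z.re) :
    Summable (fun n : ℕ => 1 / ((n : ℂ) + 1) - 1 / ((n : ℂ) + z)) := by
  have hδ : 0 < min (z.re / 2) 1 := lt_min (by linarith) one_pos
  refine Summable.of_norm_bounded (DigammaC_summable ((‖z‖ + 1 + 1) / min (z.re / 2) 1)) fun n => ?_
  refine DigammaC_bound hδ (min_le_right _ _) ?_ (lt_add_one _) n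
  exact lt_of_le_of_lt (min_le_left _ _) (by linarith)

private lemma DigammaC_diff :
    DifferentiableOn ℂ (fun z : ℂ => ∑' n : ℕ, (1 / ((n : ℂ) + 1) - 1 / ((n : ℂ) + z)))
      {z : ℂ | 0 < z.re} := by
  intro z hz
  have hz : 0 < z.re := hz
  have hδ : 0 < min (z.re / 2) 1 := lt_min (by linarith) one_pos
  have hδz : min (z.re / 2) 1 < z.re := lt_of_le_of_lt (min_le_left _ _) (by linarith)
  have hU : IsOpen {w : ℂ | min (z.re / 2) 1 < w.re ∧ ‖w‖ < ‖z‖ + 1} :=
    (isOpen_lt continuous_const Complex.continuous_re).inter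
      (isOpen_lt continuous_norm continuous_const)
  have hzU : z ∈ {w : ℂ | min (z.re / 2) 1 < w.re ∧ ‖w‖ < ‖z‖ + 1} := ⟨hδz, lt_add_one _⟩
  have hmain : DifferentiableOn ℂ
      (fun w : ℂ => ∑' n : ℕ, (1 / ((n : ℂ) + 1) - 1 / ((n : ℂ) + w)))
      {w : ℂ | min (z.re / 2) 1 < w.re ∧ ‖w‖ < ‖z‖ + 1} := by
    refine Complex.differentiableOn_tsum_of_summable_norm
      (F := fun (n : ℕ) (w : ℂ) => 1 / ((n : ℂ) + 1) - 1 / ((n : ℂ) + w))
      (DigammaC_summable ((‖z‖ + 1 + 1) / min (z.re / 2) 1)) ?_ hU ?_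
    · intro n w hw
      have hne : (n : ℂ) + w ≠ 0 := by
        intro h
        have h3 := congrArg Complex.re h
        have h4 : ((n : ℂ) + w).re = n + w.re := by simp
        rw [h4, Complex.zero_re] at h3
        have hn : (0 : ℝ) ≤ n := Nat.cast_nonneg n
        have := hw.1
        linarith
      refine DifferentiableAt.differentiableWithinAt ?_
      refine (differentiableAt_const _).sub ?_
      exact (differentiableAt_const _).div ((differentiableAt_const _).add differentiableAt_id) hne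
    · intro n w hw
      exact DigammaC_bound hδ (min_le_right _ _) hw.1 hw.2 n
  exact (hmain.differentiableAt (hU.mem_nhds hzU)).differentiableWithinAt

private lemma DigammaC_gamma {x : ℝ} (hx : 0 < x) :
    Complex.digamma (x : ℂ) = ((deriv Real.Gamma x / Real.Gamma x : ℝ) : ℂ) := by
  have h1 : DifferentiableAt ℂ Complex.Gamma (x : ℂ) := by
    refine Complex.differentiableAt_Gamma _ fun m h => ?_
    have h2 := congrArg Complex.re h
    simp only [Complex.ofReal_re, Complex.neg_re, Complex.natCast_re] at h2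
    have : (0 : ℝ) ≤ m := Nat.cast_nonneg m
    linarith
  have h3 : HasDerivAt (fun y : ℝ => Complex.Gamma (y : ℂ)) (deriv Complex.Gamma (x : ℂ)) x :=
    h1.hasDerivAt.comp_ofReal
  have h4 : HasDerivAt Real.Gamma (deriv Real.Gamma x) x := by
    refine DifferentiableAt.hasDerivAt (Real.differentiableAt_Gamma fun m h => ?_)
    have : (0 : ℝ) ≤ m := Nat.cast_nonneg m
    linarith
  have h5 : HasDerivAt (fun y : ℝ => ((Real.Gamma y : ℝ) : ℂ)) ((deriv Real.Gamma x : ℝ) : ℂ) x :=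
    h4.ofReal_comp
  have h6 : (fun y : ℝ => Complex.Gamma (y : ℂ)) = fun y : ℝ => ((Real.Gamma y : ℝ) : ℂ) := by
    funext y
    exact Complex.Gamma_ofReal y
  rw [h6] at h3
  rw [Complex.digamma_def, logDeriv_apply, h3.unique h5, Complex.Gamma_ofReal]
  push_cast
  rfl

theorem digamma_hasSum {z : ℂ} (hz : 0 < z.re) :
    HasSum (fun n : ℕ => 1 / ((n : ℂ) + 1) - 1 / ((n : ℂ) + z))
      (Complex.digamma z + Real.eulerMascheroniConstant) := by
  have hUo : IsOpen {z : ℂ | 0 < z.re} := isOpen_lt continuous_const Complex.continuous_re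
  have hg : AnalyticOnNhd ℂ (fun z : ℂ => ∑' n : ℕ, (1 / ((n : ℂ) + 1) - 1 / ((n : ℂ) + z)))
      {z : ℂ | 0 < z.re} := DigammaC_diff.analyticOnNhd hUo
  have hGd : DifferentiableOn ℂ Complex.Gamma {z : ℂ | 0 < z.re} := by
    intro w hw
    have hw : 0 < w.re := hw
    refine DifferentiableAt.differentiableWithinAt ?_
    refine Complex.differentiableAt_Gamma _ fun m h => ?_
    have h2 := congrArg Complex.re h
    simp only [Complex.neg_re, Complex.natCast_re] at h2
    have : (0 : ℝ) ≤ m := Nat.cast_nonneg m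
    linarith
  have hGa : AnalyticOnNhd ℂ Complex.Gamma {z : ℂ | 0 < z.re} := hGd.analyticOnNhd hUo
  have hf : AnalyticOnNhd ℂ (fun z : ℂ => Complex.digamma z + Real.eulerMascheroniConstant)
      {z : ℂ | 0 < z.re} := by
    intro w hw
    refine AnalyticAt.add ?_ analyticAt_const
    have h1 : AnalyticAt ℂ (fun z => deriv Complex.Gamma z / Complex.Gamma z) w :=
      (hGa w hw).deriv.div (hGa w hw) (Complex.Gamma_ne_zero_of_re_pos hw)
    exact h1
  have hpre : IsPreconnected {z : ℂ | 0 < z.re} := (convex_halfSpace_re_gt 0).isPreconnected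
  have h1mem : (1 : ℂ) ∈ {z : ℂ | 0 < z.re} := by
    show 0 < (1 : ℂ).re
    rw [Complex.one_re]
    exact one_pos
  have hreal : ∀ x : ℝ, 0 < x → (fun z : ℂ => Complex.digamma z + Real.eulerMascheroniConstant)
      (x : ℂ) = (fun z : ℂ => ∑' n : ℕ, (1 / ((n : ℂ) + 1) - 1 / ((n : ℂ) + z))) (x : ℂ) := by
    intro x hx
    have h2 := Complex.hasSum_ofReal.2 (digamma_real hx)
    have h3 : HasSum (fun n : ℕ => 1 / ((n : ℂ) + 1) - 1 / ((n : ℂ) + (x : ℂ)))
        (((deriv Real.Gamma x / Real.Gamma x + Real.eulerMascheroniConstant : ℝ)) : ℂ) := by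
      refine h2.congr_fun ?_
      intro n
      push_cast
      rfl
    show Complex.digamma (x : ℂ) + Real.eulerMascheroniConstant =
      ∑' n : ℕ, (1 / ((n : ℂ) + 1) - 1 / ((n : ℂ) + (x : ℂ)))
    rw [h3.tsum_eq, DigammaC_gamma hx]
    push_cast
    rfl
  have htend : Tendsto (fun n : ℕ => (((1 : ℝ) + 1 / ((n : ℝ) + 1) : ℝ) : ℂ)) atTop
      (𝓝[≠] (1 : ℂ)) := by
    refine tendsto_nhdsWithin_iff.2 ⟨?_, Eventually.of_forall fun n => ?_⟩
    · have h4 : Tendsto (fun n : ℕ => (1 : ℝ) + 1 / ((n : ℝ) + 1)) atTop (𝓝 (1 + 0)) :=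
        tendsto_const_nhds.add tendsto_one_div_add_atTop_nhds_zero_nat
      rw [add_zero] at h4
      have h5 := (Complex.continuous_ofReal.tendsto 1).comp h4
      rw [Complex.ofReal_one] at h5
      exact h5
    · show (((1 : ℝ) + 1 / ((n : ℝ) + 1) : ℝ) : ℂ) ≠ 1
      intro h6
      have h7 : (1 : ℝ) + 1 / ((n : ℝ) + 1) = 1 := by exact_mod_cast h6
      have h8 : 0 < 1 / ((n : ℝ) + 1) := Nat.one_div_pos_of_nat
      linarith
  have hfreq : ∃ᶠ w in 𝓝[≠] (1 : ℂ),
      (fun z : ℂ => Complex.digamma z + Real.eulerMascheroniConstant) w =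
      (fun z : ℂ => ∑' n : ℕ, (1 / ((n : ℂ) + 1) - 1 / ((n : ℂ) + z))) w := by
    refine htend.frequently ?_
    refine Eventually.frequently (Eventually.of_forall fun n => ?_)
    refine hreal _ ?_
    have h8 : 0 < 1 / ((n : ℝ) + 1) := Nat.one_div_pos_of_nat
    linarith
  have heq := hf.eqOn_of_preconnected_of_frequently_eq hg hpre h1mem hfreq hz
  have heq' : Complex.digamma z + Real.eulerMascheroniConstant =
      ∑' n : ℕ, (1 / ((n : ℂ) + 1) - 1 / ((n : ℂ) + z)) := heq
  rw [heq']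
  exact (DigammaC_sum hz).hasSum

end Pool.Agent.Lib.MP_ec260d_nt
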