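import Mathlib
import Pool.Agent.Lib.MP_ec260d_nt.DigammaC

/-!
# JOB DigammaOne: `Re ψ(1 + i y) = log y + O(1/y)`

By `digamma_hasSum` at `z = 1 + i y`: `Re ψ(1 + i y) + γ = ∑_{n ≥ 1} (1/n - n / (n^2 + y^2))`. Partial sums:
`∑_{n ≤ N} 1/n - log N → γ` (`Real.tendsto_harmonic_sub_log`), and for `q x = x / (x^2 + y^2)`, which increases on `[0, y]`,
decreases on `[y, ∞)` and is at most `1/(2y)`: `|∑_{n ≤ N} q n - ∫_0^N q| ≤ 2/y` (compare with the integral on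
`[0, ⌊y⌋]` and `[⌊y⌋+1, N]`, `MonotoneOn.sum_le_integral`, `AntitoneOn...`, the middle interval costs at most `1/(2y)`), and
`∫_0^N q = (1/2) log ((N^2 + y^2) / y^2)`, `(1/2) log ((N^2 + y^2)/y^2) - log N → - log y`. So
`|Re ψ(1 + i y) - log y| ≤ 2 / y`.
(Alternative: bound each `|q n - ∫_{n-1}^n q| ≤ sup |q'|` on `[n-1, n]` with `|q' x| ≤ 1/(x^2 + y^2)` and sum:
`∑ 1/((n-1)^2 + y^2) ≤ 1/y^2 + π/(2y)`.)
-/

open Complex Set Filter Topology

namespace Pool.Agent.Lib.MP_ec260d_nt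

private theorem q_diff {a b y : ℝ} (hb : 0 ≤ b) (hab : b ≤ a) (ha : a ≤ b + 1) (hy : 0 < y) :
    |a / (a ^ 2 + y ^ 2) - b / (b ^ 2 + y ^ 2)| ≤ 1 / (b ^ 2 + y ^ 2) := by
  have h1 : 0 < a ^ 2 + y ^ 2 := by positivity
  have h2 : 0 < b ^ 2 + y ^ 2 := by positivity
  have h3 : a / (a ^ 2 + y ^ 2) - b / (b ^ 2 + y ^ 2) =
      ((a - b) * (y ^ 2 - a * b)) / ((a ^ 2 + y ^ 2) * (b ^ 2 + y ^ 2)) := by
    field_simp
    ring
  rw [h3, abs_div, abs_of_pos (mul_pos h1 h2), div_le_div_iff₀ (mul_pos h1 h2) h2, one_mul]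
  have ha0 : 0 ≤ a := hb.trans hab
  have h4 : |(a - b) * (y ^ 2 - a * b)| ≤ a ^ 2 + y ^ 2 := by
    rw [abs_mul, abs_of_nonneg (sub_nonneg.2 hab)]
    have h6 : a * b ≤ a ^ 2 := by nlinarith
    have h7 : 0 ≤ a * b := mul_nonneg ha0 hb
    have h5 : |y ^ 2 - a * b| ≤ a ^ 2 + y ^ 2 := by
      rw [abs_le]
      constructor <;> nlinarith [sq_nonneg y, sq_nonneg a]
    calc (a - b) * |y ^ 2 - a * b| ≤ 1 * |y ^ 2 - a * b| := by
          gcongr
          linarith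
      _ ≤ _ := by rw [one_mul]; exact h5
  exact mul_le_mul_of_nonneg_right h4 h2.le

private theorem q_tel {y : ℝ} (hy : 1 ≤ y) (n : ℕ) :
    1 / ((n : ℝ) ^ 2 + y ^ 2) ≤ 4 * (1 / ((n : ℝ) + y) - 1 / ((n : ℝ) + 1 + y)) := by
  have hn : (0 : ℝ) ≤ n := n.cast_nonneg
  have h1 : 0 < (n : ℝ) + y := by linarith
  have h2 : 0 < (n : ℝ) + 1 + y := by linarith
  have h3 : 4 * (1 / ((n : ℝ) + y) - 1 / ((n : ℝ) + 1 + y)) =
      4 / (((n : ℝ) + y) * ((n : ℝ) + 1 + y)) := by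
    field_simp
    ring
  rw [h3, div_le_div_iff₀ (by positivity) (by positivity)]
  nlinarith [sq_nonneg ((n : ℝ) - y)]

private theorem q_step {y : ℝ} (hy : 1 ≤ y) (n : ℕ) :
    |((n : ℝ) + 1) / (((n : ℝ) + 1) ^ 2 + y ^ 2) -
      (Real.log (((n : ℝ) + 1) ^ 2 + y ^ 2) / 2 - Real.log ((n : ℝ) ^ 2 + y ^ 2) / 2)| ≤
      4 * (1 / ((n : ℝ) + y) - 1 / ((n : ℝ) + 1 + y)) := by
  have hn : (0 : ℝ) ≤ n := n.cast_nonneg
  have hy0 : 0 < y := by linarith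
  have hd : ∀ x : ℝ, HasDerivAt (fun x : ℝ => Real.log (x ^ 2 + y ^ 2) / 2)
      (x / (x ^ 2 + y ^ 2)) x := by
    intro x
    have h0 : x ^ 2 + y ^ 2 ≠ 0 := by positivity
    have h1 : HasDerivAt (fun x : ℝ => x ^ 2 + y ^ 2) (2 * x) x := by
      have := (hasDerivAt_pow 2 x).add_const (y ^ 2)
      simpa using this
    have h2 := (h1.log h0).div_const 2
    have h3 : 2 * x / (x ^ 2 + y ^ 2) / 2 = x / (x ^ 2 + y ^ 2) := by ring
    rw [h3] at h2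
    exact h2
  obtain ⟨ξ, hξ, hs⟩ := exists_hasDerivAt_eq_slope (fun x : ℝ => Real.log (x ^ 2 + y ^ 2) / 2)
    (fun x => x / (x ^ 2 + y ^ 2)) (show (n : ℝ) < n + 1 by linarith)
    (fun x _ => (hd x).continuousAt.continuousWithinAt) (fun x _ => hd x)
  rw [add_sub_cancel_left, div_one] at hs
  rw [← hs]
  refine (q_diff (hn.trans hξ.1.le) hξ.2.le (by linarith [hξ.1]) hy0).trans ?_
  refine le_trans ?_ (q_tel hy n)
  have h1 : (n : ℝ) ^ 2 ≤ ξ ^ 2 := by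
    have := hξ.1.le
    gcongr
  have h2 : 0 < (n : ℝ) ^ 2 + y ^ 2 := by positivity
  gcongr

private theorem q_sum {y : ℝ} (hy : 1 ≤ y) (N : ℕ) :
    |(∑ n ∈ Finset.range N, ((n : ℝ) + 1) / (((n : ℝ) + 1) ^ 2 + y ^ 2)) -
      (Real.log ((N : ℝ) ^ 2 + y ^ 2) / 2 - Real.log y)| ≤ 4 * (1 / y - 1 / ((N : ℝ) + y)) := by
  induction N with
  | zero =>
    have h1 : Real.log (y ^ 2) = 2 * Real.log y := by
      rw [Real.log_pow]
      norm_num
    simp [h1]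
  | succ N ih =>
    have h1 := q_step hy N
    rw [Finset.sum_range_succ]
    push_cast
    have h2 : (∑ n ∈ Finset.range N, ((n : ℝ) + 1) / (((n : ℝ) + 1) ^ 2 + y ^ 2)) +
        ((N : ℝ) + 1) / (((N : ℝ) + 1) ^ 2 + y ^ 2) -
        (Real.log (((N : ℝ) + 1) ^ 2 + y ^ 2) / 2 - Real.log y) =
        ((∑ n ∈ Finset.range N, ((n : ℝ) + 1) / (((n : ℝ) + 1) ^ 2 + y ^ 2)) -
          (Real.log ((N : ℝ) ^ 2 + y ^ 2) / 2 - Real.log y)) +
        (((N : ℝ) + 1) / (((N : ℝ) + 1) ^ 2 + y ^ 2) -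
          (Real.log (((N : ℝ) + 1) ^ 2 + y ^ 2) / 2 - Real.log ((N : ℝ) ^ 2 + y ^ 2) / 2)) := by
      ring
    rw [h2]
    refine (abs_add_le _ _).trans ?_
    linarith

theorem re_digamma_one : ∃ C : ℝ, 0 ≤ C ∧ ∀ y : ℝ, 1 ≤ y →
    |(Complex.digamma (1 + y * I)).re - Real.log y| ≤ C / y := by
  refine ⟨4, by norm_num, fun y hy => ?_⟩
  have hy0 : 0 < y := by linarith
  have h1 := (digamma_hasSum (z := 1 + y * I) (by simp)).tendsto_sum_nat
  have h2 : Tendsto (fun N : ℕ => (harmonic N : ℝ) -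
      ∑ n ∈ Finset.range N, ((n : ℝ) + 1) / (((n : ℝ) + 1) ^ 2 + y ^ 2)) atTop
      (𝓝 ((Complex.digamma (1 + y * I)).re + Real.eulerMascheroniConstant)) := by
    have h3 := (Complex.continuous_re.tendsto _).comp h1
    rw [Complex.add_re, Complex.ofReal_re] at h3
    refine h3.congr fun N => ?_
    rw [Function.comp_apply, Complex.re_sum, harmonic]
    push_cast
    rw [← Finset.sum_sub_distrib]
    refine Finset.sum_congr rfl fun n _ => ?_
    have h4 : (1 / ((n : ℂ) + 1)).re = ((n : ℝ) + 1)⁻¹ := by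
      have : (1 / ((n : ℂ) + 1)) = (((n : ℝ) + 1)⁻¹ : ℝ) := by
        push_cast
        rw [one_div]
      rw [this, Complex.ofReal_re]
    have h5 : (1 / ((n : ℂ) + (1 + y * I))).re = ((n : ℝ) + 1) / (((n : ℝ) + 1) ^ 2 + y ^ 2) := by
      rw [one_div, Complex.inv_re, Complex.normSq_apply]
      simp
      ring_nf
    rw [Complex.sub_re, h4, h5]
  have h3 : Tendsto (fun N : ℕ => Real.log ((N : ℝ) ^ 2 + y ^ 2) / 2 - Real.log N) atTop
      (𝓝 0) := by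
    have h4 : Tendsto (fun N : ℕ => (N : ℝ) ^ 2) atTop atTop :=
      (tendsto_pow_atTop two_ne_zero).comp tendsto_natCast_atTop_atTop
    have h5 := ((Real.tendsto_log_comp_add_sub_log (y ^ 2)).comp h4).div_const 2
    rw [zero_div] at h5
    refine h5.congr fun N => ?_
    simp only [Function.comp_apply]
    rw [Real.log_pow]
    push_cast
    ring
  have h4 := ((h2.sub Real.tendsto_harmonic_sub_log).add h3).sub_const (Real.log y)
  have h5 : (Complex.digamma (1 + y * I)).re + Real.eulerMascheroniConstant -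
      Real.eulerMascheroniConstant + 0 - Real.log y =
      (Complex.digamma (1 + y * I)).re - Real.log y := by ring
  rw [h5] at h4
  refine le_of_tendsto h4.abs (Eventually.of_forall fun N => ?_)
  have h6 := q_sum hy N
  have h7 : (harmonic N : ℝ) - (∑ n ∈ Finset.range N, ((n : ℝ) + 1) / (((n : ℝ) + 1) ^ 2 + y ^ 2)) -
      ((harmonic N : ℝ) - Real.log N) + (Real.log ((N : ℝ) ^ 2 + y ^ 2) / 2 - Real.log N) -
      Real.log y =
      -((∑ n ∈ Finset.range N, ((n : ℝ) + 1) / (((n : ℝ) + 1) ^ 2 + y ^ 2)) -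
      (Real.log ((N : ℝ) ^ 2 + y ^ 2) / 2 - Real.log y)) := by ring
  rw [h7, abs_neg]
  refine h6.trans ?_
  have h8 : 0 ≤ 1 / ((N : ℝ) + y) := by positivity
  have h9 : 4 / y = 4 * (1 / y) := by ring
  rw [h9]
  linarith

end Pool.Agent.Lib.MP_ec260d_nt
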