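import Mathlib
import Pool.Agent.Lib.MP_ec260d_nt.DigammaOne

/-!
# JOB DigammaUnif: `Re ψ(x + i y) = log |y| + O(1)` uniformly for `1/2 ≤ x ≤ 4`, `|y| ≥ 1`

Subtract `digamma_hasSum` at `z = x + i y` and at `z' = 1 + i y`: the difference of the `n`-th terms is
`1/(n + z') - 1/(n + z) = (z - z') / ((n + z) (n + z'))`, of norm at most `3 / ‖n + z‖‖n + z'‖ ≤ 3 / (|y| |y|) ≤ 3` for `n = 0` and `≤ 3 / n^2` for
`n ≥ 1`. So `‖ψ z - ψ z'‖ ≤ 3 + 3 ∑ 1/n^2 ≤ 9`. For `y < 0` use `ψ (conj z) = conj (ψ z)` (or the series: the real part of the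
sum is even in `y`), so `|Re ψ(1 + i y) - log |y|| ≤ C / |y| ≤ C` by `re_digamma_one`.
-/

open Complex Set Filter Topology

namespace Pool.Agent.Lib.MP_ec260d_nt

private theorem DigammaUnif_alg (a b y : ℝ) (ha : 0 < a) (hb' : 1 / 2 ≤ b) (h1 : a ≤ b + 1 / 2) (h2 : |b - a| ≤ 3) :
    |a / (a ^ 2 + y ^ 2) - b / (b ^ 2 + y ^ 2)| ≤ 6 / a ^ 2 := by
  have hb : 0 < b := by linarith
  have hA : 0 < a ^ 2 + y ^ 2 := by positivity
  have hB : 0 < b ^ 2 + y ^ 2 := by positivity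
  have e : a / (a ^ 2 + y ^ 2) - b / (b ^ 2 + y ^ 2) =
      (b - a) * (a * b - y ^ 2) / ((a ^ 2 + y ^ 2) * (b ^ 2 + y ^ 2)) := by
    field_simp
    ring
  rw [e, abs_div, abs_mul, abs_of_pos (mul_pos hA hB)]
  have h3 : |a * b - y ^ 2| ≤ 2 * (b ^ 2 + y ^ 2) := by
    rw [abs_le]
    constructor
    · nlinarith only [mul_pos ha hb, sq_nonneg y, sq_nonneg b]
    · nlinarith only [mul_le_mul_of_nonneg_right h1 hb.le, sq_nonneg y, mul_le_mul_of_nonneg_right hb' hb.le]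
  have h4 : |b - a| * |a * b - y ^ 2| ≤ 3 * (2 * (b ^ 2 + y ^ 2)) :=
    mul_le_mul h2 h3 (abs_nonneg _) (by norm_num)
  calc |b - a| * |a * b - y ^ 2| / ((a ^ 2 + y ^ 2) * (b ^ 2 + y ^ 2))
      ≤ 3 * (2 * (b ^ 2 + y ^ 2)) / ((a ^ 2 + y ^ 2) * (b ^ 2 + y ^ 2)) :=
        div_le_div_of_nonneg_right h4 (mul_pos hA hB).le
    _ = 6 / (a ^ 2 + y ^ 2) := by
        field_simp
        norm_num
    _ ≤ 6 / a ^ 2 := by
        apply div_le_div_of_nonneg_left (by norm_num) (by positivity)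
        nlinarith only [sq_nonneg y]

private theorem DigammaUnif_re (n : ℕ) (z : ℂ) :
    (1 / ((n : ℂ) + 1) - 1 / ((n : ℂ) + z)).re =
      (1 / ((n : ℂ) + 1)).re - (n + z.re) / ((n + z.re) ^ 2 + z.im ^ 2) := by
  rw [Complex.sub_re]
  congr 1
  rw [one_div, Complex.inv_re, Complex.normSq_apply]
  simp only [Complex.add_re, Complex.natCast_re, Complex.add_im, Complex.natCast_im, zero_add]
  rw [sq, sq]

theorem re_digamma_unif : ∃ C : ℝ, 0 ≤ C ∧ ∀ z : ℂ, 1 / 2 ≤ z.re → z.re ≤ 4 → 1 ≤ |z.im| →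
    |(Complex.digamma z).re - Real.log (|z.im|)| ≤ C := by
  obtain ⟨C0, hC0, h0⟩ := re_digamma_one
  have hs : Summable (fun n : ℕ => 6 / ((n : ℝ) + 1) ^ 2) := by
    have h1 : Summable (fun n : ℕ => 1 / (n : ℝ) ^ 2) := Real.summable_one_div_nat_pow.mpr (by norm_num)
    have h2 := ((summable_nat_add_iff 1).mpr h1).mul_left 6
    refine h2.congr fun n => ?_
    push_cast
    ring
  refine ⟨(∑' n : ℕ, 6 / ((n : ℝ) + 1) ^ 2) + C0, add_nonneg (tsum_nonneg fun n => by positivity) hC0, ?_⟩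
  intro z hz1 hz2 hz3
  set y : ℝ := |z.im| with hy
  have hy0 : 0 < y := lt_of_lt_of_le one_pos hz3
  set w : ℂ := 1 + y * I with hw
  have hwre : w.re = 1 := by simp [hw]
  have hwim : w.im = y := by simp [hw]
  have s1 := Complex.reCLM.hasSum (digamma_hasSum (z := z) (by linarith))
  have s2 := Complex.reCLM.hasSum (digamma_hasSum (z := w) (by rw [hwre]; norm_num))
  have s3 := s1.sub s2
  have hb : ‖Complex.reCLM (Complex.digamma z + Real.eulerMascheroniConstant) -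
      Complex.reCLM (Complex.digamma w + Real.eulerMascheroniConstant)‖ ≤ ∑' n : ℕ, 6 / ((n : ℝ) + 1) ^ 2 := by
    refine s3.norm_le_of_bounded hs.hasSum fun n => ?_
    simp only [Complex.reCLM_apply]
    rw [DigammaUnif_re, DigammaUnif_re, hwre, hwim, Real.norm_eq_abs]
    have hn : (0 : ℝ) ≤ n := Nat.cast_nonneg n
    have h1 := DigammaUnif_alg ((n : ℝ) + 1) (n + z.re) y (by linarith) (by linarith) (by linarith) (by
      rw [abs_le]; constructor <;> linarith)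
    have e1 : z.im ^ 2 = y ^ 2 := by rw [hy, sq_abs]
    rw [e1]
    refine le_trans (le_of_eq ?_) h1
    congr 1
    ring
  have hb2 : |(Complex.digamma z).re - (Complex.digamma w).re| ≤ ∑' n : ℕ, 6 / ((n : ℝ) + 1) ^ 2 := by
    refine le_trans (le_of_eq ?_) hb
    rw [Real.norm_eq_abs]
    congr 1
    simp only [Complex.reCLM_apply, Complex.add_re, Complex.ofReal_re]
    ring
  have h5 : |(Complex.digamma w).re - Real.log y| ≤ C0 := by
    refine (h0 y hz3).trans ?_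
    rw [div_le_iff₀ hy0]
    nlinarith only [hC0, hz3]
  calc |(Complex.digamma z).re - Real.log y|
      = |((Complex.digamma z).re - (Complex.digamma w).re) + ((Complex.digamma w).re - Real.log y)| := by
        congr 1; ring
    _ ≤ _ := (abs_add_le _ _).trans (add_le_add hb2 h5)

end Pool.Agent.Lib.MP_ec260d_nt
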