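import Mathlib
import Pool.Agent.Lib.MP_00e05b_nt.Factor

/-!
# JOB DiscCount: Jensen's bound for the number of zeros in a disc

Translate so that `z0 = 0`: `F z = f (z + z0)`. By `exists_factor'` (`MP_00e05b_nt/Factor.lean`) or `exists_factor` there is an
entire `g` with `F z = (∏ a ∈ S, (z - a) ^ m a) * g z`, `m a` the order. Let `n = ∑ m a` and
`h z = (∏ a ∈ S, ((R ^ 2 - conj a * z) / R) ^ m a) * g z`, entire. For `‖z‖ = R` one has
`‖R ^ 2 - conj a * z‖ = R ‖z - a‖` (`R ^ 2 = z conj z`), so `‖h z‖ = ‖F z‖ ≤ M`; maximum principle: `‖h 0‖ ≤ M`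
(`Complex.norm_le_of_forall_mem_frontier_norm_le`, compare `norm_le_of_sphere` in `Count.lean`), i.e. `R ^ n ‖g 0‖ ≤ M`. And
`‖F 0‖ = (∏ ‖a‖ ^ m a) ‖g 0‖ ≤ r ^ n ‖g 0‖ ≤ (r / R) ^ n M`. Take logarithms (`F 0 ≠ 0`).
Alternatively use Mathlib's `MeromorphicOn.circleAverage_log_norm` (Jensen's formula).
-/

open Complex Metric Set Filter Topology

namespace Pool.Agent.Lib.MP_ec260d_nt

theorem disc_count {f : ℂ → ℂ} (hf : Differentiable ℂ f) (z0 : ℂ) (r R M : ℝ) (hr : 0 < r)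
    (hrR : r < R) (h0 : f z0 ≠ 0) (hM : ∀ z, ‖z - z0‖ ≤ R → ‖f z‖ ≤ M) (S : Finset ℂ)
    (hS : ∀ a ∈ S, f a = 0 ∧ ‖a - z0‖ ≤ r) :
    (∑ a ∈ S, (analyticOrderNatAt f a : ℝ)) * Real.log (R / r) ≤
      Real.log M - Real.log ‖f z0‖ := by
  have hR : 0 < R := hr.trans hrR
  obtain ⟨g, hg, hfg, -⟩ := Pool.Agent.Lib.MP_00e05b_nt.exists_factor hf h0 S
  set n : ℕ := ∑ a ∈ S, analyticOrderNatAt f a with hn
  set h : ℂ → ℂ := fun z => (∏ a ∈ S, (((R : ℂ) ^ 2 - (starRingEnd ℂ) (a - z0) * (z - z0)) / R) ^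
    (analyticOrderNatAt f a)) * g z with hh
  have hhd : Differentiable ℂ h := by
    rw [hh]
    fun_prop
  have hfac : ∀ a z : ℂ, ‖z - z0‖ = R →
      ‖((R : ℂ) ^ 2 - (starRingEnd ℂ) (a - z0) * (z - z0)) / R‖ = ‖z - a‖ := by
    intro a z hz
    have h1 : ((R : ℂ) ^ 2) = (starRingEnd ℂ) (z - z0) * (z - z0) := by
      rw [Complex.conj_mul', hz]
    rw [h1, ← sub_mul, ← map_sub, norm_div, norm_mul, RCLike.norm_conj, hz, Complex.norm_real,
      Real.norm_of_nonneg hR.le, sub_sub_sub_cancel_right]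
    field_simp
  have hsph : ∀ z, ‖z - z0‖ = R → ‖h z‖ ≤ M := by
    intro z hz
    refine le_trans (le_of_eq ?_) (hM z hz.le)
    rw [hh, hfg z, norm_mul, norm_mul, norm_prod, norm_prod]
    congr 1
    refine Finset.prod_congr rfl fun a _ => ?_
    rw [norm_pow, norm_pow, hfac a z hz]
  have hcen : ‖h z0‖ ≤ M := by
    have h1 : DiffContOnCl ℂ h (ball z0 R) := hhd.diffContOnCl
    refine Complex.norm_le_of_forall_mem_frontier_norm_le isBounded_ball h1 ?_ ?_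
    · intro w hw
      rw [frontier_ball _ hR.ne'] at hw
      exact hsph w (by simpa [dist_eq_norm] using hw)
    · rw [closure_ball _ hR.ne']
      simp [hR.le]
  have hcen2 : ‖h z0‖ = R ^ n * ‖g z0‖ := by
    rw [hh]
    simp only [sub_self, mul_zero, sub_zero]
    rw [norm_mul, norm_prod, hn, ← Finset.prod_pow_eq_pow_sum]
    congr 1
    refine Finset.prod_congr rfl fun a _ => ?_
    rw [norm_pow]
    congr 1
    rw [norm_div, norm_pow, Complex.norm_real, Real.norm_of_nonneg hR.le]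
    field_simp
  have hf0 : ‖f z0‖ ≤ r ^ n * ‖g z0‖ := by
    rw [hfg z0, norm_mul, norm_prod, hn, ← Finset.prod_pow_eq_pow_sum]
    gcongr with a ha
    rw [norm_pow]
    gcongr
    rw [norm_sub_rev]
    exact (hS a ha).2
  have hfp : 0 < ‖f z0‖ := norm_pos_iff.2 h0
  have hgp : 0 < ‖g z0‖ := by
    rw [norm_pos_iff]
    intro hg0
    rw [hg0, norm_zero, mul_zero] at hf0
    linarith
  have hMp : 0 < M := lt_of_lt_of_le hfp (hM z0 (by simp [hR.le]))
  have h5 : ‖f z0‖ * R ^ n ≤ r ^ n * M := by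
    calc ‖f z0‖ * R ^ n ≤ (r ^ n * ‖g z0‖) * R ^ n := by gcongr
      _ = r ^ n * (R ^ n * ‖g z0‖) := by ring
      _ ≤ r ^ n * M := by
        rw [← hcen2]
        gcongr
  have h6 := Real.log_le_log (by positivity) h5
  rw [Real.log_mul hfp.ne' (by positivity), Real.log_mul (by positivity) hMp.ne', Real.log_pow,
    Real.log_pow] at h6
  have h7 : (n : ℝ) = ∑ a ∈ S, (analyticOrderNatAt f a : ℝ) := by
    rw [hn]; push_cast; rfl
  rw [← h7, Real.log_div hR.ne' hr.ne']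
  linarith

end Pool.Agent.Lib.MP_ec260d_nt
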