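import Mathlib
import Pool.Agent.Lib.MP_00e05b_nt.Star

/-!
# JOB Conj: `xi` commutes with complex conjugation

For `Re s > 1`, `riemannZeta (conj s) = conj (riemannZeta s)` from `zeta_eq_tsum_one_div_nat_add_one_cpow` or
`zeta_eq_tsum_one_div_nat_cpow` (`Complex.conj_tsum`, `Complex.cpow_conj` for a nonnegative real base), and
`Gammaℝ (conj s) = conj (Gammaℝ s)` (`Complex.Gammaℝ_def`, `Complex.Gamma_conj`, `Complex.cpow_conj`), so
`xi (conj s) = conj (xi s)` there (`xi_eq_zeta`). Both `xi` and `s ↦ conj (xi (conj s))` are entire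
(`differentiable_xi`, `DifferentiableAt.conj_conj` or `Differentiable.star_star`), and they agree on the open set
`Re s > 1`; identity theorem (`AnalyticOnNhd.eq_of_eventuallyEq`).
-/

open Complex Set Filter Topology

namespace Pool.Agent.Lib.MP_ec260d_nt

open Pool.Agent.Lib.MP_00e05b_nt

private lemma gammaR_conj (s : ℂ) :
    Gammaℝ ((starRingEnd ℂ) s) = (starRingEnd ℂ) (Gammaℝ s) := by
  rw [Gammaℝ_def, Gammaℝ_def, map_mul]
  congr 1
  · have h := Complex.cpow_conj (Real.pi : ℂ) (-s / 2) (by
      rw [Complex.arg_ofReal_of_nonneg Real.pi_pos.le]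
      exact Real.pi_pos.ne)
    rw [Complex.conj_ofReal] at h
    rw [← h, map_div₀, map_neg, map_ofNat (starRingEnd ℂ) 2]
  · rw [← Complex.Gamma_conj, map_div₀, map_ofNat (starRingEnd ℂ) 2]

private lemma xi_conj_pos {s : ℂ} (hs : 0 < s.re) :
    xi ((starRingEnd ℂ) s) = (starRingEnd ℂ) (xi s) := by
  by_cases h1 : s = 1
  · subst h1
    rw [map_one, xi_one]
    simp
  · have h2 : (starRingEnd ℂ) s ≠ 1 := by
      intro h
      apply h1
      have := congrArg (starRingEnd ℂ) h
      simpa using this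
    rw [xi_eq_zeta hs h1, xi_eq_zeta (by simpa using hs) h2, gammaR_conj, riemannZeta_conj]
    simp

theorem xi_conj (s : ℂ) : xi ((starRingEnd ℂ) s) = (starRingEnd ℂ) (xi s) := by
  by_cases hs : 0 < s.re
  · exact xi_conj_pos hs
  · have h1 : 0 < (1 - s).re := by
      push Not at hs
      simp
      linarith
    have h2 := xi_conj_pos h1
    rw [xi_one_sub, map_sub, map_one, xi_one_sub] at h2
    exact h2

end Pool.Agent.Lib.MP_ec260d_nt
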