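import Mathlib
import Pool.Agent.Lib.MP_00e05b_nt.Zeros
import Pool.Agent.Lib.MP_ec260d_nt.Conj

/-!
# JOB ZSym: symmetries of the zeros of `xi`, and the order in terms of `riemannZeta₁`

`mx a = analyticOrderNatAt xi a` (file `Star`).
`mx_ne_zero_iff`: `analyticOrderNatAt f a ≠ 0` iff the order is neither `0` nor `⊤`; `xi` is entire and not identically `0`
(`xi 0 = -1`), see `order_ne_top`, `order_pos`, `order_eq_zero` in `MP_00e05b_nt/Factor.lean`.
`mx_one_sub`: `xi_one_sub` and composition of the order with `s ↦ 1 - s` (for an analytic `f` of order `n` at `a`: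
`f z = (z - a)^n g z` with `g a ≠ 0`; use `AnalyticAt.analyticOrderAt_eq_natCast` with `g (1 - z) * (-1)^n`).
`mx_conj`: same with `z ↦ conj z` and `xi_conj` (`conj (g (conj z))` is analytic).
`mx_eq_zeta1`: near `a` (with `Re a > 0`) `xi s = -s * Gammaℝ s * riemannZeta₁ s` (`xi_eq_zeta`, and
`riemannZeta s = (s - 1)⁻¹ * riemannZeta₁ s` for `s ≠ 1`; at `s = 1` both sides are analytic, or `xi 1 = -1`,
`riemannZeta₁ 1 = 1`, `Gammaℝ 1 = 1`), and `s * Gammaℝ s` is analytic and nonzero at `a`; compare `mx_eq_order` in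
`MP_00e05b_nt/Zeros.lean`.
`xi_zero_iff`: for `Im ρ > 0`: if `Re ρ > 0` use `xi_eq_zeta`; if `Re ρ ≤ 0` and `ζ ρ = 0`, then
`riemannZeta_def_of_ne_zero` and `Gammaℝ_eq_zero_iff` (`Im ρ ≠ 0`) give `completedRiemannZeta ρ = 0`, so `xi ρ = 0` by
`xi_eq`, which contradicts `xi_zero_re`; and if `xi ρ = 0` then `Re ρ > 0` by `xi_zero_re`.
-/

open Complex Set Filter Topology

namespace Pool.Agent.Lib.MP_ec260d_nt

open Pool.Agent.Lib.MP_00e05b_nt

private lemma ZSym_xi0 : xi 0 ≠ 0 := by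
  rw [xi_zero]
  norm_num

theorem mx_ne_zero_iff (a : ℂ) : mx a ≠ 0 ↔ xi a = 0 := by
  constructor
  · intro h
    by_contra h1
    exact h (order_eq_zero differentiable_xi h1)
  · intro h
    exact (order_pos differentiable_xi ZSym_xi0 h).ne'

private lemma ZSym_order {f g : ℂ → ℂ} {a : ℂ} {n : ℕ} (hf : Differentiable ℂ f)
    (hg : AnalyticAt ℂ g a) (hga : g a ≠ 0) (h : ∀ z, f z = (z - a) ^ n * g z) :
    analyticOrderNatAt f a = n := by
  have h1 : analyticOrderAt f a = n := by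
    rw [(hf.analyticAt a).analyticOrderAt_eq_natCast]
    exact ⟨g, hg, hga, Eventually.of_forall fun z => by rw [smul_eq_mul, h z]⟩
  rw [analyticOrderNatAt, h1]
  rfl

theorem mx_one_sub (a : ℂ) : mx (1 - a) = mx a := by
  obtain ⟨g, hg, hfg, hga⟩ := exists_factor_one differentiable_xi ZSym_xi0 a
  refine ZSym_order (g := fun z => (-1) ^ (mx a) * g (1 - z)) differentiable_xi ?_ ?_ ?_
  · have : Differentiable ℂ fun z => (-1) ^ (mx a) * g (1 - z) := by fun_prop
    exact this.analyticAt _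
  · have h1 : (1 : ℂ) - (1 - a) = a := by ring
    simp only [h1]
    exact mul_ne_zero (pow_ne_zero _ (by norm_num)) hga
  · intro z
    rw [← xi_one_sub z, hfg (1 - z), ← mul_assoc, ← mul_pow]
    congr 2
    ring

theorem mx_conj (a : ℂ) : mx ((starRingEnd ℂ) a) = mx a := by
  obtain ⟨g, hg, hfg, hga⟩ := exists_factor_one differentiable_xi ZSym_xi0 a
  refine ZSym_order (g := fun z => (starRingEnd ℂ) (g ((starRingEnd ℂ) z))) differentiable_xi ?_ ?_ ?_
  · have : Differentiable ℂ fun z => (starRingEnd ℂ) (g ((starRingEnd ℂ) z)) := by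
      intro z
      have h1 := (hg ((starRingEnd ℂ) z)).conj_conj
      rw [Complex.conj_conj] at h1
      exact h1
    exact this.analyticAt _
  · simp only [Complex.conj_conj]
    exact (map_ne_zero _).2 hga
  · intro z
    have h1 := xi_conj z
    have h2 : xi z = (starRingEnd ℂ) (xi ((starRingEnd ℂ) z)) := by
      rw [h1, Complex.conj_conj]
    rw [h2, hfg, map_mul, map_pow, map_sub, Complex.conj_conj]
    rfl

theorem mx_eq_zeta1 {a : ℂ} (ha : 0 < a.re) : mx a = analyticOrderNatAt riemannZeta₁ a := by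
  have ha0 : a ≠ 0 := by rintro rfl; simp at ha
  have hG : AnalyticAt ℂ Gammaℝ a := by
    have h2 : AnalyticAt ℂ (fun s => (Gammaℝ s)⁻¹) a := differentiable_Gammaℝ_inv.analyticAt a
    have h3 := h2.inv (inv_ne_zero (Gammaℝ_ne_zero_of_re_pos ha))
    refine h3.congr ?_
    filter_upwards with s
    simp
  have hP : AnalyticAt ℂ (fun s => -s * Gammaℝ s) a := analyticAt_id.neg.mul hG
  have hPa : -a * Gammaℝ a ≠ 0 := mul_ne_zero (neg_ne_zero.2 ha0) (Gammaℝ_ne_zero_of_re_pos ha)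
  have hev : xi =ᶠ[𝓝 a] (fun s => -s * Gammaℝ s) * riemannZeta₁ := by
    have ho : IsOpen {s : ℂ | 0 < s.re} := isOpen_lt continuous_const continuous_re
    filter_upwards [ho.mem_nhds ha] with s hs
    by_cases h1 : s = 1
    · subst h1
      rw [Pi.mul_apply, xi_one, riemannZeta₁_one, Gammaℝ_one]
      norm_num
    · rw [xi_eq_zeta hs h1, Pi.mul_apply, riemannZeta_eq_inv_sub_mul h1]
      have h2 : s - 1 ≠ 0 := sub_ne_zero.2 h1
      field_simp
      ring
  have h4 : analyticOrderAt xi a = analyticOrderAt riemannZeta₁ a := by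
    rw [analyticOrderAt_congr hev, analyticOrderAt_mul hP (differentiable_riemannZeta₁.analyticAt a),
      hP.analyticOrderAt_eq_zero.2 hPa, zero_add]
  rw [mx, analyticOrderNatAt, h4, analyticOrderNatAt]

theorem xi_zero_iff {ρ : ℂ} (h : 0 < ρ.im) : xi ρ = 0 ↔ riemannZeta ρ = 0 := by
  have h0 : ρ ≠ 0 := by rintro rfl; simp at h
  have h1 : ρ ≠ 1 := by rintro rfl; simp at h
  have hG : Gammaℝ ρ ≠ 0 := by
    intro hG
    rw [Gammaℝ_eq_zero_iff] at hG
    obtain ⟨n, hn⟩ := hG
    rw [hn] at h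
    simp at h
  rw [xi_eq h0 h1, riemannZeta_def_of_ne_zero h0]
  have h2 : 1 - ρ ≠ 0 := sub_ne_zero.2 h1.symm
  rw [div_eq_zero_iff, mul_eq_zero]
  constructor
  · rintro (h3 | h3)
    · exact absurd h3 (mul_ne_zero h0 h2)
    · exact Or.inl h3
  · rintro (h3 | h3)
    · exact Or.inr h3
    · exact absurd h3 hG

end Pool.Agent.Lib.MP_ec260d_nt
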