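import Mathlib
import Pool.Agent.Lib.MP_9c2ea5_nt.AZser
import Pool.Agent.Lib.MP_ec260d_nt.ZSym
import Pool.Agent.Lib.MP_ec260d_nt.DiscCount

/-!
# JOB LocalCount: at most `C log (2 + |t|)` zeros with `|Im - t| ≤ 1`

1. Bound for `riemannZeta₁` (entire, `riemannZeta₁ s = 1 + (s - 1) * riemannZeta₀ s`): for `Re s ≥ 1/10`,
   `zeta0_le s _ 1` gives `‖riemannZeta₀ s‖ ≤ 2 + 10 ‖s‖`, so `‖riemannZeta₁ s‖ ≤ 1 + (‖s‖ + 1) (2 + 10 ‖s‖)`; on the disc
   `‖z - (2 + i t)‖ ≤ 19/10` this is `≤ 1000 (2 + |t|) ^ 2`.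
2. Lower bound at the centre: `‖riemannZeta (2 + i t)‖ ≥ 1/4` (`zeta_eq_tsum_one_div_nat_add_one_cpow`: the sum over `n ≥ 2` is at most
   `ζ(2) - 1 = π²/6 - 1 < 3/4`, `riemannZeta_two`; or the lemma `zeta_right_ge` of `MP_9c2ea5_nt/ARight.lean`), and
   `‖(2 + i t) - 1‖ ≥ 1`, so `‖riemannZeta₁ (2 + i t)‖ ≥ 1/4`.
3. Let `S'` be a finite set of zeros `a` of `xi` with `Re a ≥ 1/2`, `|Im a - t| ≤ 1`. Then `Re a < 1` (`xi_zero_re`), so
   `‖a - (2 + i t)‖ ≤ 181/100` (`(3/2)^2 + 1 = 3.25 ≤ 3.2761`); `riemannZeta₁ a = 0` because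
   `mx a = analyticOrderNatAt riemannZeta₁ a ≠ 0` (`mx_eq_zeta1`, `mx_ne_zero_iff`; if `riemannZeta₁ a ≠ 0` the order is `0`).
   `disc_count` with `r = 181/100`, `R = 19/10` gives
   `(∑ a ∈ S', mx a) * log (190/181) ≤ log (1000 (2+|t|)^2) + log 4 ≤ C' log (2 + |t|)`.
4. For `S` as in the theorem split into `Re a ≥ 1/2` and `Re a < 1/2`; the map `a ↦ 1 - conj a` sends the second part
   injectively to zeros with `Re > 1/2`, the same imaginary part and the same `mx` (`mx_one_sub`, `mx_conj`,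
   `mx_ne_zero_iff`). So the total is at most `2 C'' log (2 + |t|)`.
-/

open Complex Metric Set Filter Topology

namespace Pool.Agent.Lib.MP_ec260d_nt

open Pool.Agent.Lib.MP_00e05b_nt Pool.Agent.Lib.MP_9c2ea5_nt.An

theorem localCount_low (t : ℝ) : 1 / 4 ≤ ‖riemannZeta (2 + t * I)‖ := by
  have hre : (2 + (t : ℂ) * I).re = 2 := by simp
  have hz := zeta_eq_tsum_one_div_nat_add_one_cpow (s := 2 + (t : ℂ) * I) (by rw [hre]; norm_num)
  have hn : ∀ n : ℕ, ‖1 / ((n : ℂ) + 1) ^ (2 + (t : ℂ) * I)‖ = 1 / (((n + 1 : ℕ) : ℝ)) ^ 2 := by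
    intro n
    have e : ((n : ℂ) + 1) = (((n + 1 : ℕ) : ℝ) : ℂ) := by push_cast; ring
    rw [norm_div, norm_one, e, Complex.norm_cpow_eq_rpow_re_of_pos (by positivity), hre]
    norm_num
  have hs2 := hasSum_zeta_two
  have hsh : HasSum (fun n : ℕ => 1 / (((n + 1 : ℕ) : ℝ)) ^ 2) (Real.pi ^ 2 / 6) := by
    have := (hasSum_nat_add_iff' (f := fun n : ℕ => 1 / ((n : ℕ) : ℝ) ^ 2) 1).2 hs2
    simpa using this
  have hsh2 : HasSum (fun n : ℕ => 1 / (((n + 1 + 1 : ℕ) : ℝ)) ^ 2) (Real.pi ^ 2 / 6 - 1) := by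
    have := (hasSum_nat_add_iff' (f := fun n : ℕ => 1 / (((n + 1 : ℕ) : ℝ)) ^ 2) 1).2 hsh
    simpa using this
  have hsum : Summable (fun n : ℕ => 1 / ((n : ℂ) + 1) ^ (2 + (t : ℂ) * I)) := by
    apply Summable.of_norm
    simp only [hn]
    exact hsh.summable
  rw [hsum.tsum_eq_zero_add] at hz
  have h0 : 1 / (((0 : ℕ) : ℂ) + 1) ^ (2 + (t : ℂ) * I) = 1 := by simp
  rw [h0] at hz
  have hn2 : ∀ n : ℕ, ‖1 / (((n + 1 : ℕ) : ℂ) + 1) ^ (2 + (t : ℂ) * I)‖ =
      1 / (((n + 1 + 1 : ℕ) : ℝ)) ^ 2 := fun n => hn (n + 1)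
  have htail : ‖∑' n : ℕ, 1 / (((n + 1 : ℕ) : ℂ) + 1) ^ (2 + (t : ℂ) * I)‖ ≤
      Real.pi ^ 2 / 6 - 1 := by
    refine le_trans (norm_tsum_le_tsum_norm ?_) ?_
    · simp only [hn2]
      exact hsh2.summable
    · simp only [hn2]
      exact hsh2.tsum_eq.le
  have hpi : Real.pi ^ 2 ≤ 10 := by
    have := Real.pi_lt_d2
    nlinarith [Real.pi_pos]
  rw [hz]
  have h3 := norm_sub_le (1 + ∑' n : ℕ, 1 / (((n + 1 : ℕ) : ℂ) + 1) ^ (2 + (t : ℂ) * I))
    (∑' n : ℕ, 1 / (((n + 1 : ℕ) : ℂ) + 1) ^ (2 + (t : ℂ) * I))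
  rw [add_sub_cancel_right, norm_one] at h3
  linarith

theorem localCount_up (t : ℝ) (z : ℂ) (hz : ‖z - (2 + t * I)‖ ≤ 19 / 10) :
    ‖riemannZeta₁ z‖ ≤ 1000 * (2 + |t|) ^ 2 := by
  have hu : 2 ≤ 2 + |t| := by linarith [abs_nonneg t]
  have hre : 1 / 10 ≤ z.re := by
    have h1 := (abs_le.1 ((Complex.abs_re_le_norm _).trans hz)).1
    have h2 : (z - (2 + t * I)).re = z.re - 2 := by simp
    rw [h2] at h1
    linarith
  have hnz : ‖z‖ ≤ 2 * (2 + |t|) := by
    have h1 : ‖z‖ ≤ ‖z - (2 + t * I)‖ + ‖(2 + t * I : ℂ)‖ := by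
      have := norm_add_le (z - (2 + t * I)) (2 + t * I : ℂ)
      rwa [sub_add_cancel] at this
    have h2 : ‖(2 + t * I : ℂ)‖ ≤ 2 + |t| := by
      refine (norm_add_le _ _).trans ?_
      simp
    linarith
  have h0 := zeta0_le z (by linarith) 1 le_rfl
  have hpos : 0 < z.re := by linarith
  have h3 : ‖riemannZeta₀ z‖ ≤ 2 + 10 * ‖z‖ := by
    have e1 : ∑ k ∈ Finset.Ioc (0 : ℕ) 1, (k : ℝ) ^ (-z.re) = 1 := by simp
    rw [e1, Nat.cast_one, Real.one_rpow, mul_one, mul_one] at h0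
    have h4 : ‖z‖ / z.re ≤ 10 * ‖z‖ := by
      rw [div_le_iff₀ hpos]
      nlinarith [norm_nonneg z]
    linarith
  have h5 : ‖riemannZeta₁ z‖ ≤ 1 + (‖z‖ + 1) * (2 + 10 * ‖z‖) := by
    unfold riemannZeta₁
    refine (norm_add_le _ _).trans ?_
    rw [norm_one, norm_mul]
    have h6 : ‖z - 1‖ ≤ ‖z‖ + 1 := by
      refine (norm_sub_le _ _).trans ?_
      rw [norm_one]
    have := mul_le_mul h6 h3 (norm_nonneg _) (by positivity)
    linarith
  refine h5.trans ?_
  have h7 : 0 ≤ ‖z‖ := norm_nonneg z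
  have h8 : (‖z‖ + 1) * (2 + 10 * ‖z‖) ≤
      (2 * (2 + |t|) + 1) * (2 + 10 * (2 * (2 + |t|))) := by
    apply mul_le_mul
    · linarith
    · linarith
    · positivity
    · positivity
  nlinarith

theorem localCount_half (t : ℝ) (S : Finset ℂ)
    (hS : ∀ a ∈ S, xi a = 0 ∧ |a.im - t| ≤ 1 ∧ 1 / 2 ≤ a.re) :
    ∑ a ∈ S, (mx a : ℝ) ≤ 14 / Real.log (190 / 181) * Real.log (2 + |t|) := by
  have hl : 0 < Real.log (190 / 181) := Real.log_pos (by norm_num)
  have hu : 2 ≤ 2 + |t| := by linarith [abs_nonneg t]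
  have hu0 : 0 < 2 + |t| := by linarith
  have hlow : 1 / 4 ≤ ‖riemannZeta₁ (2 + t * I)‖ := by
    have hne : (2 + t * I : ℂ) ≠ 1 := by
      intro h
      have := congrArg Complex.re h
      simp at this
    have h1 : riemannZeta₁ (2 + t * I) = (2 + t * I - 1) * riemannZeta (2 + t * I) := by
      have h9 : (2 + t * I - 1 : ℂ) ≠ 0 := sub_ne_zero.2 hne
      have h2 : riemannZeta₀ (2 + t * I) =
          riemannZeta (2 + t * I) - (2 + t * I - 1 : ℂ)⁻¹ := by
        simp [riemannZeta₀, hne]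
      unfold riemannZeta₁
      rw [h2, mul_sub, mul_inv_cancel₀ h9]
      ring
    rw [h1, norm_mul]
    have h3 : 1 ≤ ‖(2 + t * I - 1 : ℂ)‖ := by
      have h4 := Complex.abs_re_le_norm (2 + t * I - 1 : ℂ)
      have h5 : (2 + t * I - 1 : ℂ).re = 1 := by
        simp
        norm_num
      rw [h5, abs_one] at h4
      exact h4
    have h6 := localCount_low t
    nlinarith [norm_nonneg (riemannZeta (2 + t * I))]
  have hd := disc_count (f := riemannZeta₁) differentiable_riemannZeta₁ (2 + t * I) (181 / 100)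
    (19 / 10) (1000 * (2 + |t|) ^ 2) (by norm_num) (by norm_num)
    (by
      intro h
      rw [h, norm_zero] at hlow
      norm_num at hlow)
    (fun z hz => localCount_up t z hz) S (by
      intro a ha
      obtain ⟨h1, h2, h3⟩ := hS a ha
      have h4 := xi_zero_re h1
      constructor
      · by_contra h5
        have h6 : analyticOrderAt riemannZeta₁ a = 0 :=
          (differentiable_riemannZeta₁.analyticAt a).analyticOrderAt_eq_zero.2 h5
        have h7 : mx a ≠ 0 := (mx_ne_zero_iff a).2 h1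
        rw [mx_eq_zeta1 h4.1] at h7
        apply h7
        unfold analyticOrderNatAt
        rw [h6]
        rfl
      · have e1 : (a - (2 + t * I)).re = a.re - 2 := by simp
        have e2 : (a - (2 + t * I)).im = a.im - t := by simp
        have h5 : ‖a - (2 + t * I)‖ ^ 2 ≤ (181 / 100) ^ 2 := by
          rw [← Complex.normSq_eq_norm_sq, Complex.normSq_apply, e1, e2]
          have h6 := abs_le.1 h2
          nlinarith
        exact le_of_sq_le_sq h5 (by norm_num))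
  have e3 : (19 / 10 : ℝ) / (181 / 100) = 190 / 181 := by norm_num
  rw [e3] at hd
  have e4 : ∑ a ∈ S, (mx a : ℝ) = ∑ a ∈ S, (analyticOrderNatAt riemannZeta₁ a : ℝ) := by
    refine Finset.sum_congr rfl fun a ha => ?_
    rw [mx_eq_zeta1 (xi_zero_re (hS a ha).1).1]
  rw [e4]
  have h9 : Real.log (1000 * (2 + |t|) ^ 2) - Real.log ‖riemannZeta₁ (2 + t * I)‖ ≤
      14 * Real.log (2 + |t|) := by
    have h10 : Real.log (1 / 4) ≤ Real.log ‖riemannZeta₁ (2 + t * I)‖ :=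
      Real.log_le_log (by norm_num) hlow
    have h11 : Real.log (1 / 4) = -Real.log 4 := by
      rw [one_div, Real.log_inv]
    have h12 : Real.log (1000 * (2 + |t|) ^ 2) = Real.log 1000 + 2 * Real.log (2 + |t|) := by
      rw [Real.log_mul (by norm_num) (by positivity), Real.log_pow]
      norm_num
    have h13 : Real.log 1000 + Real.log 4 ≤ 12 * Real.log (2 + |t|) := by
      rw [← Real.log_mul (by norm_num) (by norm_num)]
      have h14 : Real.log (1000 * 4) ≤ Real.log ((2 : ℝ) ^ 12) :=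
        Real.log_le_log (by norm_num) (by norm_num)
      rw [Real.log_pow] at h14
      have h15 : Real.log 2 ≤ Real.log (2 + |t|) := Real.log_le_log (by norm_num) hu
      push_cast at h14
      linarith
    rw [h12]
    linarith
  rw [div_mul_eq_mul_div, le_div_iff₀ hl]
  linarith

theorem local_count : ∃ C : ℝ, 0 ≤ C ∧ ∀ (t : ℝ) (S : Finset ℂ),
    (∀ a ∈ S, xi a = 0 ∧ |a.im - t| ≤ 1) → ∑ a ∈ S, (mx a : ℝ) ≤ C * Real.log (2 + |t|) := by
  have hl : 0 < Real.log (190 / 181) := Real.log_pos (by norm_num)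
  refine ⟨2 * (14 / Real.log (190 / 181)), by positivity, fun t S hS => ?_⟩
  classical
  have hu : 0 < Real.log (2 + |t|) := Real.log_pos (by linarith [abs_nonneg t])
  have h1 := localCount_half t (S.filter fun a => 1 / 2 ≤ a.re) (by
    intro a ha
    have h := (Finset.mem_filter.1 ha)
    exact ⟨(hS a h.1).1, (hS a h.1).2, h.2⟩)
  have h2 := localCount_half t ((S.filter fun a => ¬ 1 / 2 ≤ a.re).image
    fun a => 1 - (starRingEnd ℂ) a) (by
    intro b hb
    obtain ⟨a, ha, rfl⟩ := Finset.mem_image.1 hb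
    have h := (Finset.mem_filter.1 ha)
    have h3 := hS a h.1
    refine ⟨?_, ?_, ?_⟩
    · rw [← mx_ne_zero_iff, mx_one_sub, mx_conj, mx_ne_zero_iff]
      exact h3.1
    · simpa using h3.2
    · have h4 := h.2
      push Not at h4
      have : (1 - (starRingEnd ℂ) a).re = 1 - a.re := by simp
      rw [this]
      linarith)
  rw [Finset.sum_image (by
    intro a _ b _ hab
    have h3 : (starRingEnd ℂ) a = (starRingEnd ℂ) b := by
      have : 1 - (starRingEnd ℂ) a = 1 - (starRingEnd ℂ) b := hab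
      exact sub_right_injective this
    exact (starRingEnd ℂ).injective h3)] at h2
  have h4 : ∑ a ∈ S.filter (fun a => ¬ 1 / 2 ≤ a.re), (mx (1 - (starRingEnd ℂ) a) : ℝ) =
      ∑ a ∈ S.filter (fun a => ¬ 1 / 2 ≤ a.re), (mx a : ℝ) := by
    refine Finset.sum_congr rfl fun a _ => ?_
    rw [mx_one_sub, mx_conj]
  rw [h4] at h2
  have h5 := Finset.sum_filter_add_sum_filter_not S (fun a : ℂ => 1 / 2 ≤ a.re)
    (fun a => (mx a : ℝ))
  calc ∑ a ∈ S, (mx a : ℝ) ≤ 14 / Real.log (190 / 181) * Real.log (2 + |t|) +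
        14 / Real.log (190 / 181) * Real.log (2 + |t|) := by
        rw [← h5]
        exact add_le_add h1 h2
    _ = 2 * (14 / Real.log (190 / 181)) * Real.log (2 + |t|) := by ring

end Pool.Agent.Lib.MP_ec260d_nt
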