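import Mathlib
import Pool.Agent.Lib.MP_ec260d_nt.LocalCount

/-!
# JOB ZeroSum: sums over the zeros

Let `C₀` be the constant of `local_count`. For a finite set `S` of complex numbers (drop the `a` with `mx a = 0`; by
`mx_ne_zero_iff` the others are zeros of `xi`) group the `a ∈ S` by the integer `k = ⌊a.im - t⌋`, so `|a.im - (t + k)| ≤ 1`
and `|t - a.im| ≥ |k| - 1`, hence `1 + |t - a.im| ≥ (1 + |k|) / 2`. So
`∑_{a ∈ S} mx a / (1 + |t - a.im|)^p ≤ ∑_k (2 / (1 + |k|))^p * C₀ log (2 + |t + k|)` and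
`log (2 + |t + k|) ≤ log ((2 + |t|) (2 + |k|)) = log (2 + |t|) + log (2 + |k|) ≤ 4 log (2 + |t|) (1 + log (2 + |k|))`
(`log (2 + |t|) ≥ log 2 ≥ 1/2`). The series `∑_{k : ℤ} (2 / (1 + |k|))^p (1 + log (2 + |k|))` converges as `p > 1`
(`log (2 + x) ≤ c (1 + x)^((p-1)/2)`, `Real.summable_nat_rpow_inv`, sum over `ℤ` from `ℕ`). All finite partial
sums are bounded by `C log (2 + |t|)`: `summable_of_sum_le`, `Real.tsum_le_of_sum_le` / `tsum_le_of_sum_le'`.
-/

open Complex Metric Set Filter Topology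

namespace Pool.Agent.Lib.MP_ec260d_nt

open Pool.Agent.Lib.MP_00e05b_nt

private lemma ZeroSum_nat (p : ℝ) (hp : 1 < p) :
    Summable (fun n : ℕ => (2 / (1 + (n : ℝ))) ^ p * (1 + Real.log (2 + (n : ℝ)))) := by
  set e : ℝ := (p - 1) / 2 with he
  have he0 : 0 < e := by rw [he]; linarith
  have hbase : Summable (fun n : ℕ => 1 / |(n : ℝ) + 1| ^ (p - e)) := by
    rw [Real.summable_one_div_nat_add_rpow]
    rw [he]; linarith
  refine Summable.of_nonneg_of_le (fun n => ?_) (fun n => ?_)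
    (hbase.mul_left (2 ^ p * (1 + 2 ^ e / e)))
  · have h1 : (0 : ℝ) ≤ n := Nat.cast_nonneg n
    have h2 : 0 ≤ Real.log (2 + (n : ℝ)) := Real.log_nonneg (by linarith)
    positivity
  · have h1 : (0 : ℝ) ≤ n := Nat.cast_nonneg n
    have h1' : (0 : ℝ) < 1 + (n : ℝ) := by linarith
    have hlog : Real.log (2 + (n : ℝ)) ≤ (2 * (1 + (n : ℝ))) ^ e / e := by
      calc Real.log (2 + (n : ℝ)) ≤ Real.log (2 * (1 + (n : ℝ))) :=
            Real.log_le_log (by linarith) (by linarith)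
        _ ≤ (2 * (1 + (n : ℝ))) ^ e / e := Real.log_le_rpow_div (by linarith) he0
    have hone : (1 : ℝ) ≤ (1 + (n : ℝ)) ^ e := Real.one_le_rpow (by linarith) he0.le
    have hsum : 1 + Real.log (2 + (n : ℝ)) ≤ (1 + 2 ^ e / e) * (1 + (n : ℝ)) ^ e := by
      rw [Real.mul_rpow (by norm_num) h1'.le] at hlog
      have : (2 : ℝ) ^ e * (1 + (n : ℝ)) ^ e / e = 2 ^ e / e * (1 + (n : ℝ)) ^ e := by ring
      rw [this] at hlog
      nlinarith
    have hx : (2 / (1 + (n : ℝ))) ^ p = 2 ^ p / (1 + (n : ℝ)) ^ p :=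
      Real.div_rpow (by norm_num) h1'.le p
    have habs : |(n : ℝ) + 1| = 1 + (n : ℝ) := by
      rw [abs_of_nonneg (by linarith)]; ring
    rw [hx, habs, Real.rpow_sub h1']
    have hp0 : 0 < (1 + (n : ℝ)) ^ p := Real.rpow_pos_of_pos h1' p
    have he1 : 0 < (1 + (n : ℝ)) ^ e := Real.rpow_pos_of_pos h1' e
    calc 2 ^ p / (1 + (n : ℝ)) ^ p * (1 + Real.log (2 + (n : ℝ)))
        ≤ 2 ^ p / (1 + (n : ℝ)) ^ p * ((1 + 2 ^ e / e) * (1 + (n : ℝ)) ^ e) :=
          mul_le_mul_of_nonneg_left hsum (by positivity)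
      _ = 2 ^ p * (1 + 2 ^ e / e) * (1 / ((1 + (n : ℝ)) ^ p / (1 + (n : ℝ)) ^ e)) := by
          field_simp

private lemma ZeroSum_int (p : ℝ) (hp : 1 < p) :
    Summable (fun k : ℤ => (2 / (1 + |(k : ℝ)|)) ^ p * (1 + Real.log (2 + |(k : ℝ)|))) := by
  have h := ZeroSum_nat p hp
  refine Summable.of_nat_of_neg ?_ ?_
  · simpa using h
  · simpa using h

theorem zero_sum (p : ℝ) (hp : 1 < p) : ∃ C : ℝ, 0 ≤ C ∧ ∀ t : ℝ,
    Summable (fun a : ℂ => (mx a : ℝ) / (1 + |t - a.im|) ^ p) ∧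
    ∑' a : ℂ, (mx a : ℝ) / (1 + |t - a.im|) ^ p ≤ C * Real.log (2 + |t|) := by
  classical
  obtain ⟨C0, hC0, hloc⟩ := local_count
  set w : ℤ → ℝ := fun k => (2 / (1 + |(k : ℝ)|)) ^ p * (1 + Real.log (2 + |(k : ℝ)|)) with hw
  have hwsum : Summable w := ZeroSum_int p hp
  have hw0 : ∀ k, 0 ≤ w k := by
    intro k
    have h1 : 0 ≤ |(k : ℝ)| := abs_nonneg _
    have h2 : 0 ≤ Real.log (2 + |(k : ℝ)|) := Real.log_nonneg (by linarith)
    simp only [hw]
    positivity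
  set W : ℝ := ∑' k, w k with hW
  have hW0 : 0 ≤ W := tsum_nonneg hw0
  have key : ∀ (t : ℝ) (S : Finset ℂ),
      ∑ a ∈ S, (mx a : ℝ) / (1 + |t - a.im|) ^ p ≤ 4 * C0 * W * Real.log (2 + |t|) := by
    intro t S
    set κ : ℂ → ℤ := fun a => ⌊a.im - t⌋ with hκ
    have hlt : (1 / 2 : ℝ) ≤ Real.log (2 + |t|) := by
      have h1 : Real.log 2 ≤ Real.log (2 + |t|) :=
        Real.log_le_log (by norm_num) (by linarith [abs_nonneg t])
      have h2 := Real.log_two_gt_d9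
      linarith
    -- the termwise bound
    have hterm : ∀ a : ℂ, (mx a : ℝ) / (1 + |t - a.im|) ^ p
        ≤ (2 / (1 + |(κ a : ℝ)|)) ^ p * (mx a : ℝ) := by
      intro a
      have h1 : ((κ a : ℤ) : ℝ) ≤ a.im - t := Int.floor_le _
      have h2 : a.im - t < ((κ a : ℤ) : ℝ) + 1 := Int.lt_floor_add_one _
      have h3 : |((κ a : ℤ) : ℝ)| ≤ |t - a.im| + 1 := by
        rcases abs_cases (t - a.im) with ⟨h, _⟩ | ⟨h, _⟩ <;>
        rcases abs_cases ((κ a : ℤ) : ℝ) with ⟨h', _⟩ | ⟨h', _⟩ <;>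
        rw [h, h'] <;> linarith
      have h4 : (1 + |((κ a : ℤ) : ℝ)|) / 2 ≤ 1 + |t - a.im| := by
        have := abs_nonneg (t - a.im)
        linarith
      have h5 : 0 < (1 + |((κ a : ℤ) : ℝ)|) / 2 := by
        have := abs_nonneg ((κ a : ℤ) : ℝ)
        linarith
      have h6 : ((1 + |((κ a : ℤ) : ℝ)|) / 2) ^ p ≤ (1 + |t - a.im|) ^ p :=
        Real.rpow_le_rpow h5.le h4 (by linarith)
      have h7 : (2 / (1 + |((κ a : ℤ) : ℝ)|)) ^ p = 1 / ((1 + |((κ a : ℤ) : ℝ)|) / 2) ^ p := by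
        rw [show (2 / (1 + |((κ a : ℤ) : ℝ)|)) = ((1 + |((κ a : ℤ) : ℝ)|) / 2)⁻¹ by
          rw [inv_div], Real.inv_rpow h5.le, one_div]
      rw [h7, div_eq_mul_one_div, mul_comm]
      refine mul_le_mul_of_nonneg_right ?_ (Nat.cast_nonneg _)
      exact one_div_le_one_div_of_le (Real.rpow_pos_of_pos h5 p) h6
    -- the count in a group
    have hgroup : ∀ k : ℤ, ∑ a ∈ S.filter (fun a => κ a = k), (mx a : ℝ)
        ≤ C0 * Real.log (2 + |t + k|) := by
      intro k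
      have h1 : ∑ a ∈ S.filter (fun a => κ a = k), (mx a : ℝ)
          = ∑ a ∈ (S.filter (fun a => κ a = k)).filter (fun a => (mx a : ℝ) ≠ 0), (mx a : ℝ) :=
        (Finset.sum_filter_ne_zero _).symm
      rw [h1]
      refine hloc (t + k) _ ?_
      intro a ha
      simp only [Finset.mem_filter] at ha
      obtain ⟨⟨_, hk⟩, hne⟩ := ha
      refine ⟨(mx_ne_zero_iff a).1 (by exact_mod_cast hne), ?_⟩
      have e1 : ((κ a : ℤ) : ℝ) ≤ a.im - t := Int.floor_le _
      have e2 : a.im - t < ((κ a : ℤ) : ℝ) + 1 := Int.lt_floor_add_one _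
      rw [hk] at e1 e2
      rw [abs_le]
      constructor <;> linarith
    have hlog : ∀ k : ℤ, Real.log (2 + |t + k|)
        ≤ 4 * Real.log (2 + |t|) * (1 + Real.log (2 + |(k : ℝ)|)) := by
      intro k
      have h1 : 2 + |t + k| ≤ (2 + |t|) * (2 + |(k : ℝ)|) := by
        have := abs_add_le t (k : ℝ)
        nlinarith [abs_nonneg t, abs_nonneg (k : ℝ)]
      have hk0 : 0 ≤ |(k : ℝ)| := abs_nonneg _
      have ht0 : 0 ≤ |t| := abs_nonneg _
      have h2 : Real.log (2 + |t + k|) ≤ Real.log (2 + |t|) + Real.log (2 + |(k : ℝ)|) := by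
        rw [← Real.log_mul (by linarith) (by linarith)]
        exact Real.log_le_log (by linarith [abs_nonneg (t + k)]) h1
      have h3 : 0 ≤ Real.log (2 + |(k : ℝ)|) := Real.log_nonneg (by linarith)
      nlinarith
    calc ∑ a ∈ S, (mx a : ℝ) / (1 + |t - a.im|) ^ p
        ≤ ∑ a ∈ S, (2 / (1 + |(κ a : ℝ)|)) ^ p * (mx a : ℝ) := Finset.sum_le_sum (fun a _ => hterm a)
      _ = ∑ k ∈ S.image κ, ∑ a ∈ S.filter (fun a => κ a = k),
            (2 / (1 + |(κ a : ℝ)|)) ^ p * (mx a : ℝ) := by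
          rw [Finset.sum_fiberwise_of_maps_to]
          intro a ha
          exact Finset.mem_image_of_mem κ ha
      _ ≤ ∑ k ∈ S.image κ, 4 * C0 * Real.log (2 + |t|) * w k := by
          refine Finset.sum_le_sum (fun k _ => ?_)
          have e1 : ∑ a ∈ S.filter (fun a => κ a = k), (2 / (1 + |(κ a : ℝ)|)) ^ p * (mx a : ℝ)
              = (2 / (1 + |(k : ℝ)|)) ^ p * ∑ a ∈ S.filter (fun a => κ a = k), (mx a : ℝ) := by
            rw [Finset.mul_sum]
            refine Finset.sum_congr rfl (fun a ha => ?_)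
            rw [(Finset.mem_filter.1 ha).2]
          rw [e1]
          have hpos : 0 ≤ (2 / (1 + |(k : ℝ)|)) ^ p := by positivity
          calc (2 / (1 + |(k : ℝ)|)) ^ p * ∑ a ∈ S.filter (fun a => κ a = k), (mx a : ℝ)
              ≤ (2 / (1 + |(k : ℝ)|)) ^ p * (C0 * Real.log (2 + |t + k|)) :=
                mul_le_mul_of_nonneg_left (hgroup k) hpos
            _ ≤ (2 / (1 + |(k : ℝ)|)) ^ p
                * (C0 * (4 * Real.log (2 + |t|) * (1 + Real.log (2 + |(k : ℝ)|)))) :=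
                mul_le_mul_of_nonneg_left (mul_le_mul_of_nonneg_left (hlog k) hC0) hpos
            _ = 4 * C0 * Real.log (2 + |t|) * w k := by simp only [hw]; ring
      _ = 4 * C0 * Real.log (2 + |t|) * ∑ k ∈ S.image κ, w k := by rw [Finset.mul_sum]
      _ ≤ 4 * C0 * Real.log (2 + |t|) * W := by
          refine mul_le_mul_of_nonneg_left (hwsum.sum_le_tsum _ (fun k _ => hw0 k)) ?_
          have : 0 ≤ Real.log (2 + |t|) := by linarith
          positivity
      _ = 4 * C0 * W * Real.log (2 + |t|) := by ring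
  refine ⟨4 * C0 * W, by positivity, fun t => ?_⟩
  have hnn : ∀ a : ℂ, 0 ≤ (mx a : ℝ) / (1 + |t - a.im|) ^ p := by
    intro a
    have := abs_nonneg (t - a.im)
    positivity
  exact ⟨summable_of_sum_le hnn (key t), Real.tsum_le_of_sum_le hnn (key t)⟩

end Pool.Agent.Lib.MP_ec260d_nt
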