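import Mathlib
import Pool.Agent.Lib.MP_ec260d_nt.ZeroSum

/-!
# JOB FFDef: the sum over zeros `FF`

`FF z = ∑ a, mx a (1/(z - a) - 1/(2 - a))`. Fix `z` with `xi z ≠ 0`. `xi` is continuous, so there is `ρ ∈ (0, 1]` with
`xi ≠ 0` on `ball z (2 ρ)`; hence `‖w - a‖ ≥ ρ` for every zero `a` and `w ∈ ball z ρ`. Also
`‖w - a‖ ≥ |a.im - w.im| ≥ |a.im| - ‖z‖ - 1`. Together `‖w - a‖ ≥ c (1 + |0 - a.im|)` with
`c = ρ / (3 + ‖z‖)` (if `1 + |a.im| ≤ 3 + ‖z‖` trivial, otherwise `|a.im| - ‖z‖ - 1 ≥ (1 + |a.im|) / (3 + ‖z‖)`: put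
`x = 1 + |a.im| ≥ A = 3 + ‖z‖`, then `x - (A - 1) ≥ x / A`). And `‖2 - a‖ ≥ 1` and `≥ |a.im|`, so `‖2 - a‖ ≥ (1 + |a.im|) / 2`
(`0 < Re a < 1`, `xi_zero_re`). The `a`-th term is `mx a (2 - w) / ((w - a) (2 - a))`, so it is bounded on the ball by
`u a = (3 + ‖z‖) (2 / c) * (mx a / (1 + |0 - a.im|) ^ 2)`, summable by `zero_sum 2` (`Real.rpow_two` / `rpow_natCast`). Terms with
`mx a = 0` vanish identically. Each term is differentiable on the ball (for a zero `a`, `w ≠ a`).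
`FF_summable`: this bound at `w = z`. `FF_analytic`: `differentiableOn_tsum_of_summable_norm`, open set.
`FF_deriv2`: apply `hasSum_deriv_of_summable_norm` twice (first to the terms, then to their derivatives
`-mx a / (w - a)^2`, bounded by `mx a / (c (1 + |a.im|))^2`); the second derivative of the term is
`2 mx a / (z - a) ^ 3`. (One can use that `deriv FF = ∑' a, -mx a / (w - a)^2` on the whole ball.)
-/

open Complex Metric Set Filter Topology

namespace Pool.Agent.Lib.MP_ec260d_nt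

open Pool.Agent.Lib.MP_00e05b_nt

/-- the regularised sum `∑ 1/(z - a)` over the zeros `a` of `xi` -/
noncomputable def FF (z : ℂ) : ℂ := ∑' a : ℂ, (mx a : ℂ) * (1 / (z - a) - 1 / (2 - a))

private lemma FFDef_d1 (m : ℂ) (a w : ℂ) (h : m ≠ 0 → w ≠ a) :
    HasDerivAt (fun w : ℂ => m * (1 / (w - a) - 1 / (2 - a))) (-m / (w - a) ^ 2) w := by
  by_cases hm : m = 0
  · subst hm
    simpa using hasDerivAt_const w (0 : ℂ)
  · have hw : w - a ≠ 0 := sub_ne_zero.2 (h hm)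
    have h1 : HasDerivAt (fun w : ℂ => w - a) 1 w := (hasDerivAt_id w).sub_const a
    have h2 := ((hasDerivAt_const w (1 : ℂ)).div h1 hw).sub_const (1 / (2 - a))
    have h3 := h2.const_mul m
    refine h3.congr_deriv ?_
    field_simp
    ring

private lemma FFDef_d2 (m : ℂ) (a w : ℂ) (h : m ≠ 0 → w ≠ a) :
    HasDerivAt (fun w : ℂ => -m / (w - a) ^ 2) (2 * m / (w - a) ^ 3) w := by
  by_cases hm : m = 0
  · subst hm
    simpa using hasDerivAt_const w (0 : ℂ)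
  · have hw : w - a ≠ 0 := sub_ne_zero.2 (h hm)
    have h1 : HasDerivAt (fun w : ℂ => w - a) 1 w := (hasDerivAt_id w).sub_const a
    have h2 := (hasDerivAt_const w (-m)).div (h1.pow 2) (pow_ne_zero 2 hw)
    refine h2.congr_deriv ?_
    simp only [Pi.pow_apply]
    push_cast
    field_simp
    ring

private lemma FFDef_loc {z : ℂ} (hz : xi z ≠ 0) : ∃ ρ c : ℝ, 0 < ρ ∧ ρ ≤ 1 ∧ 0 < c ∧
    ∀ w ∈ ball z ρ, ∀ a : ℂ, mx a ≠ 0 → c * (1 + |0 - a.im|) ≤ ‖w - a‖ := by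
  have hcont : ContinuousAt xi z := differentiable_xi.continuous.continuousAt
  obtain ⟨r, hr, hball⟩ := Metric.eventually_nhds_iff_ball.1 (hcont.eventually_ne hz)
  have hA : (0 : ℝ) < 3 + ‖z‖ := by have := norm_nonneg z; linarith
  have hρ : 0 < min (r / 2) 1 := lt_min (by linarith) one_pos
  refine ⟨min (r / 2) 1, min (r / 2) 1 / (3 + ‖z‖), hρ, min_le_right _ _,
    div_pos hρ hA, ?_⟩
  intro w hw a ha
  rw [mem_ball, dist_eq_norm] at hw
  rw [zero_sub, abs_neg]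
  have hxa : xi a = 0 := (mx_ne_zero_iff a).1 ha
  have h1 : min (r / 2) 1 ≤ ‖w - a‖ := by
    by_contra hlt
    push Not at hlt
    apply hball a _ hxa
    rw [mem_ball, dist_eq_norm]
    have h2 : ‖a - z‖ ≤ ‖w - a‖ + ‖w - z‖ := by
      have h3 : a - z = (w - z) - (w - a) := by ring
      rw [h3]
      have := norm_sub_le (w - z) (w - a)
      linarith
    have h4 : min (r / 2) 1 ≤ r / 2 := min_le_left _ _
    linarith
  have h2 : |a.im| - ‖z‖ - 1 ≤ ‖w - a‖ := by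
    have h3 : |(w - a).im| ≤ ‖w - a‖ := Complex.abs_im_le_norm _
    have h4 : |w.im| ≤ ‖w‖ := Complex.abs_im_le_norm _
    have h5 : ‖w‖ ≤ ‖z‖ + 1 := by
      have h6 : ‖w‖ ≤ ‖w - z‖ + ‖z‖ := by
        have := norm_add_le (w - z) z
        rwa [sub_add_cancel] at this
      have h7 : min (r / 2) 1 ≤ 1 := min_le_right _ _
      linarith
    have h8 : |a.im| ≤ |(w - a).im| + |w.im| := by
      have h9 : a.im = w.im - (w - a).im := by rw [Complex.sub_im]; ring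
      rw [h9]
      have := abs_sub (w.im) ((w - a).im)
      linarith
    linarith
  rcases le_or_gt (1 + |a.im|) (3 + ‖z‖) with h3 | h3
  · calc min (r / 2) 1 / (3 + ‖z‖) * (1 + |a.im|)
        ≤ min (r / 2) 1 / (3 + ‖z‖) * (3 + ‖z‖) :=
          mul_le_mul_of_nonneg_left h3 (div_pos hρ hA).le
      _ = min (r / 2) 1 := by field_simp
      _ ≤ _ := h1
  · have h4 : min (r / 2) 1 / (3 + ‖z‖) * (1 + |a.im|) ≤ 1 / (3 + ‖z‖) * (1 + |a.im|) := by
      apply mul_le_mul_of_nonneg_right _ (by positivity)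
      exact div_le_div_of_nonneg_right (min_le_right _ _) hA.le
    have h5 : 1 / (3 + ‖z‖) * (1 + |a.im|) ≤ (1 + |a.im|) - (3 + ‖z‖ - 1) := by
      rw [div_mul_eq_mul_div, one_mul, div_le_iff₀ hA]
      have h6 : 0 ≤ ‖z‖ := norm_nonneg z
      nlinarith
    linarith

private lemma FFDef_two {a : ℂ} (ha : mx a ≠ 0) : (1 + |0 - a.im|) / 2 ≤ ‖2 - a‖ := by
  have hxa : xi a = 0 := (mx_ne_zero_iff a).1 ha
  obtain ⟨h0, h1⟩ := xi_zero_re hxa
  rw [zero_sub, abs_neg]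
  have h2 : |(2 - a).re| ≤ ‖2 - a‖ := Complex.abs_re_le_norm _
  have h3 : |(2 - a).im| ≤ ‖2 - a‖ := Complex.abs_im_le_norm _
  have h4 : (2 - a).re = 2 - a.re := by simp
  have h5 : (2 - a).im = -a.im := by simp
  rw [h4] at h2
  rw [h5, abs_neg] at h3
  have h6 := le_abs_self (2 - a.re)
  linarith

private lemma FFDef_sum2 : Summable (fun a : ℂ => (mx a : ℝ) / (1 + |0 - a.im|) ^ 2) := by
  obtain ⟨C, -, h⟩ := zero_sum 2 (by norm_num)
  have h1 := (h 0).1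
  simpa only [Real.rpow_two] using h1

private lemma FFDef_main {z : ℂ} (hz : xi z ≠ 0) : ∃ ρ K K' : ℝ, 0 < ρ ∧
    (∀ w ∈ ball z ρ, ∀ a : ℂ, mx a ≠ 0 → w ≠ a) ∧
    (∀ a : ℂ, ∀ w ∈ ball z ρ, ‖(mx a : ℂ) * (1 / (w - a) - 1 / (2 - a))‖ ≤
      K * ((mx a : ℝ) / (1 + |0 - a.im|) ^ 2)) ∧
    (∀ a : ℂ, ∀ w ∈ ball z ρ, ‖-(mx a : ℂ) / (w - a) ^ 2‖ ≤
      K' * ((mx a : ℝ) / (1 + |0 - a.im|) ^ 2)) := by
  obtain ⟨ρ, c, hρ, hρ1, hc, hloc⟩ := FFDef_loc hz
  refine ⟨ρ, (3 + ‖z‖) * (2 / c), 1 / c ^ 2, hρ, ?_, ?_, ?_⟩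
  · intro w hw a ha h
    have h1 := hloc w hw a ha
    rw [h, sub_self, norm_zero] at h1
    have h2 : 0 < c * (1 + |0 - a.im|) := by positivity
    linarith
  · intro a w hw
    by_cases ha : mx a = 0
    · rw [ha]
      simp
    · have h1 := hloc w hw a ha
      have h2 := FFDef_two ha
      have h3 : 0 < c * (1 + |0 - a.im|) := by positivity
      have h4 : (0 : ℝ) < (1 + |0 - a.im|) / 2 := by positivity
      have hwa : w - a ≠ 0 := norm_pos_iff.1 (h3.trans_le h1)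
      have h2a : (2 : ℂ) - a ≠ 0 := norm_pos_iff.1 (h4.trans_le h2)
      have e1 : (mx a : ℂ) * (1 / (w - a) - 1 / (2 - a)) =
          (mx a : ℂ) * ((2 - w) / ((w - a) * (2 - a))) := by
        field_simp
        ring
      rw [e1, norm_mul, norm_div, norm_mul, Complex.norm_natCast]
      have h5 : ‖2 - w‖ ≤ 3 + ‖z‖ := by
        rw [mem_ball, dist_eq_norm] at hw
        have h6 : ‖2 - w‖ ≤ ‖(2 : ℂ) - z‖ + ‖w - z‖ := by
          have h7 : (2 : ℂ) - w = (2 - z) - (w - z) := by ring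
          rw [h7]
          exact norm_sub_le _ _
        have h8 : ‖(2 : ℂ) - z‖ ≤ 2 + ‖z‖ := by
          have := norm_sub_le (2 : ℂ) z
          simpa using this
        linarith
      have h6 : ‖2 - w‖ / (‖w - a‖ * ‖2 - a‖) ≤
          (3 + ‖z‖) / (c * (1 + |0 - a.im|) * ((1 + |0 - a.im|) / 2)) :=
        div_le_div₀ (by positivity) h5 (by positivity)
          (mul_le_mul h1 h2 h4.le (norm_nonneg _))
      calc (mx a : ℝ) * (‖2 - w‖ / (‖w - a‖ * ‖2 - a‖))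
          ≤ (mx a : ℝ) * ((3 + ‖z‖) / (c * (1 + |0 - a.im|) * ((1 + |0 - a.im|) / 2))) :=
            mul_le_mul_of_nonneg_left h6 (Nat.cast_nonneg _)
        _ = _ := by
            have h7 : (1 + |0 - a.im|) ≠ 0 := by positivity
            field_simp
  · intro a w hw
    by_cases ha : mx a = 0
    · rw [ha]
      simp
    · have h1 := hloc w hw a ha
      have h3 : 0 < c * (1 + |0 - a.im|) := by positivity
      rw [norm_div, norm_neg, norm_pow, Complex.norm_natCast]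
      have h6 : (mx a : ℝ) / ‖w - a‖ ^ 2 ≤ (mx a : ℝ) / (c * (1 + |0 - a.im|)) ^ 2 :=
        div_le_div_of_nonneg_left (Nat.cast_nonneg _) (by positivity)
          (pow_le_pow_left₀ h3.le h1 2)
      refine h6.trans (le_of_eq ?_)
      have h7 : (1 + |0 - a.im|) ≠ 0 := by positivity
      field_simp

theorem FF_summable {z : ℂ} (hz : xi z ≠ 0) :
    Summable (fun a : ℂ => (mx a : ℂ) * (1 / (z - a) - 1 / (2 - a))) := by
  obtain ⟨ρ, K, K', hρ, -, h1, -⟩ := FFDef_main hz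
  exact Summable.of_norm_bounded (FFDef_sum2.mul_left K) (fun a => h1 a z (mem_ball_self hρ))

private lemma FFDef_diff {z : ℂ} {ρ : ℝ} (hne : ∀ w ∈ ball z ρ, ∀ a : ℂ, mx a ≠ 0 → w ≠ a) (a : ℂ) :
    DifferentiableOn ℂ (fun w : ℂ => (mx a : ℂ) * (1 / (w - a) - 1 / (2 - a))) (ball z ρ) := by
  intro w hw
  refine (FFDef_d1 (mx a : ℂ) a w (fun h => hne w hw a ?_)).differentiableAt.differentiableWithinAt
  exact_mod_cast h

private lemma FFDef_diff2 {z : ℂ} {ρ : ℝ} (hne : ∀ w ∈ ball z ρ, ∀ a : ℂ, mx a ≠ 0 → w ≠ a) (a : ℂ) :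
    DifferentiableOn ℂ (fun w : ℂ => -(mx a : ℂ) / (w - a) ^ 2) (ball z ρ) := by
  intro w hw
  refine (FFDef_d2 (mx a : ℂ) a w (fun h => hne w hw a ?_)).differentiableAt.differentiableWithinAt
  exact_mod_cast h

theorem FF_analytic {z : ℂ} (hz : xi z ≠ 0) : AnalyticAt ℂ FF z := by
  obtain ⟨ρ, K, K', hρ, hne, h1, -⟩ := FFDef_main hz
  have h2 : DifferentiableOn ℂ FF (ball z ρ) :=
    differentiableOn_tsum_of_summable_norm (FFDef_sum2.mul_left K) (FFDef_diff hne) isOpen_ball h1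
  exact h2.analyticAt (ball_mem_nhds z hρ)

theorem FF_deriv2 {z : ℂ} (hz : xi z ≠ 0) :
    deriv (deriv FF) z = ∑' a : ℂ, 2 * (mx a : ℂ) / (z - a) ^ 3 := by
  obtain ⟨ρ, K, K', hρ, hne, h1, h2⟩ := FFDef_main hz
  have h3 : ∀ w ∈ ball z ρ, deriv FF w = ∑' a : ℂ, -(mx a : ℂ) / (w - a) ^ 2 := by
    intro w hw
    have h4 := (hasSum_deriv_of_summable_norm (FFDef_sum2.mul_left K) (FFDef_diff hne) isOpen_ball
      h1 hw).tsum_eq
    have h5 : deriv FF w = deriv (fun w : ℂ => ∑' a : ℂ, (mx a : ℂ) * (1 / (w - a) - 1 / (2 - a))) w :=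
      rfl
    rw [h5, ← h4]
    congr 1
    funext a
    refine (FFDef_d1 (mx a : ℂ) a w (fun h => hne w hw a ?_)).deriv
    exact_mod_cast h
  have h4 : deriv FF =ᶠ[𝓝 z] fun w => ∑' a : ℂ, -(mx a : ℂ) / (w - a) ^ 2 := by
    filter_upwards [ball_mem_nhds z hρ] with w hw
    exact h3 w hw
  rw [h4.deriv_eq]
  have h5 := (hasSum_deriv_of_summable_norm (FFDef_sum2.mul_left K') (FFDef_diff2 hne) isOpen_ball
    h2 (mem_ball_self hρ)).tsum_eq
  rw [← h5]
  congr 1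
  funext a
  refine (FFDef_d2 (mx a : ℂ) a z (fun h => hne z (mem_ball_self hρ) a ?_)).deriv
  exact_mod_cast h

end Pool.Agent.Lib.MP_ec260d_nt
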