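import Mathlib
import Pool.Agent.Lib.MP_ec260d_nt.FFDef

/-!
# JOB FFMain: `xi'/xi = FF + A + B z`

`xi_growth` (`MP_00e05b_nt/Xi.lean`) and `partial_fraction` (`PF.lean`) give, when `xi z ≠ 0`,
`deriv (deriv (logDeriv xi)) z = ∑' a, 2 * (analyticOrderNatAt xi a) / (z - a) ^ 3 = deriv (deriv FF) z` (`FF_deriv2`;
`mx a = analyticOrderNatAt xi a` by definition). Let `U = {z | xi z ≠ 0}`: open; its complement is countable (the zeros of
norm `≤ r` are finite, `finite_zeros` in `Count.lean`), so `U` is path connected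
(`Set.Countable.isPathConnected_compl_of_one_lt_rank`, `Complex.rank_real_complex`), hence preconnected. `G = logDeriv xi - FF` is analytic
on `U` with `deriv (deriv G) = 0` on `U`. So `deriv G` is constant `= B` on `U` (`IsOpen.is_const_of_deriv_eq_zero` or
`IsOpen.exists_is_const_of_fderiv_eq_zero`-type lemma) and then `G z - B z` is constant `= A`.
-/

open Complex Metric Set Filter Topology

namespace Pool.Agent.Lib.MP_ec260d_nt

open Pool.Agent.Lib.MP_00e05b_nt

private lemma FFMain_countable : {z : ℂ | xi z = 0}.Countable := by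
  obtain ⟨C, hC⟩ := xi_growth
  have h : {z : ℂ | xi z = 0} ⊆ ⋃ n : ℕ, {a : ℂ | xi a = 0 ∧ ‖a‖ ≤ (n : ℝ)} := by
    intro z hz
    obtain ⟨n, hn⟩ := exists_nat_ge ‖z‖
    exact Set.mem_iUnion.2 ⟨n, hz, hn⟩
  exact (Set.countable_iUnion (fun n : ℕ => (finite_zeros hC (n : ℝ)).countable)).mono h

private lemma FFMain_preconn : IsPreconnected {z : ℂ | xi z ≠ 0} := by
  have h := FFMain_countable.isPathConnected_compl_of_one_lt_rank
    (by rw [Complex.rank_real_complex]; exact Nat.one_lt_ofNat)
  exact h.isConnected.isPreconnected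

private lemma FFMain_open : IsOpen {z : ℂ | xi z ≠ 0} :=
  isOpen_ne_fun differentiable_xi.continuous continuous_const

private lemma FFMain_ld {z : ℂ} (hz : xi z ≠ 0) : AnalyticAt ℂ (logDeriv xi) z := by
  have h1 : AnalyticAt ℂ xi z := differentiable_xi.analyticAt z
  exact h1.deriv.div h1 hz

private lemma FFMain_deriv2 {z : ℂ} (hz : xi z ≠ 0) :
    deriv (deriv (fun w => logDeriv xi w - FF w)) z = 0 := by
  obtain ⟨C, hC⟩ := xi_growth
  have h1 : deriv (fun w => logDeriv xi w - FF w) =ᶠ[𝓝 z]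
      fun w => deriv (logDeriv xi) w - deriv FF w := by
    filter_upwards [FFMain_open.mem_nhds hz] with w hw
    exact deriv_fun_sub (FFMain_ld hw).differentiableAt (FF_analytic hw).differentiableAt
  rw [h1.deriv_eq, deriv_fun_sub (FFMain_ld hz).deriv.differentiableAt
    (FF_analytic hz).deriv.differentiableAt, FF_deriv2 hz,
    ← (partial_fraction hC hz).tsum_eq]
  exact sub_self _

theorem logDeriv_xi_eq : ∃ A B : ℂ, ∀ z : ℂ, xi z ≠ 0 → logDeriv xi z = FF z + A + B * z := by
  have hG : ∀ z ∈ {z : ℂ | xi z ≠ 0}, AnalyticAt ℂ (fun w => logDeriv xi w - FF w) z :=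
    fun z hz => (FFMain_ld hz).sub (FF_analytic hz)
  obtain ⟨B, hB⟩ := FFMain_open.exists_is_const_of_deriv_eq_zero FFMain_preconn
    (f := deriv (fun w => logDeriv xi w - FF w))
    (fun z hz => (hG z hz).deriv.differentiableAt.differentiableWithinAt)
    (fun z hz => FFMain_deriv2 hz)
  have hd : ∀ z ∈ {z : ℂ | xi z ≠ 0},
      HasDerivAt (fun w => logDeriv xi w - FF w - B * w) 0 z := by
    intro z hz
    have h1 : HasDerivAt (fun w => logDeriv xi w - FF w) B z := by
      have h2 := (hG z hz).differentiableAt.hasDerivAt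
      rwa [hB z hz] at h2
    have h3 : HasDerivAt (fun w : ℂ => B * w) (B * 1) z := (hasDerivAt_id z).const_mul B
    have h4 := h1.sub h3
    rw [mul_one, sub_self] at h4
    exact h4
  obtain ⟨A, hA⟩ := FFMain_open.exists_is_const_of_deriv_eq_zero FFMain_preconn
    (f := fun w => logDeriv xi w - FF w - B * w)
    (fun z hz => (hd z hz).differentiableAt.differentiableWithinAt)
    (fun z hz => (hd z hz).deriv)
  refine ⟨A, B, fun z hz => ?_⟩
  have h5 := hA z hz
  rw [← h5]
  ring

end Pool.Agent.Lib.MP_ec260d_nt
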