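import Mathlib
import Pool.Agent.Lib.MP_ec260d_nt.FFMain

/-!
# JOB RePart: the real part of `xi'/xi` on the line `Re = 2`

For `z = 2 + i t` (`xi z ≠ 0`, `xi_ne_zero`): `Re (1/(z - a)) = pz a t` and `Re (FF z) = ∑ mx a (pz a t - pz a 0')` with
`pz a 0' = Re (1/(2 - a)) = pz a 0`. For a zero `a` (`0 < Re a < 1`): `0 < pz a t ≤ 8 / (1 + |t - a.im|)^2`
(`1 < 2 - Re a < 2`; `(2 - Re a)^2 + x^2 ≥ 1 + x^2 ≥ (1 + |x|)^2 / 2`), so `∑ mx a pz a t` converges (`zero_sum 2`).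
So `Re (logDeriv xi (2 + i t)) = ∑' mx a pz a t - ∑' mx a pz a 0 + Re A + Re (B (2 + i t))`
`= ∑' mx a pz a t + α - (Im B) t` with `α = Re A + 2 Re B - ∑' mx a pz a 0`.
Both `t ↦ Re (logDeriv xi (2 + i t))` and `t ↦ ∑' mx a pz a t` are even: `xi_conj` gives
`logDeriv xi (conj z) = conj (logDeriv xi z)` (`deriv` of `z ↦ conj (xi (conj z))`), and
`a ↦ conj a` (an `Equiv`, `mx_conj`) gives `∑' mx a pz a (-t) = ∑' mx a pz a t` (`pz (conj a) (-t) = pz a t`). Hence `(Im B) t = -(Im B) t`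
for `t = 1`, so `Im B = 0`.
-/

open Complex Metric Set Filter Topology

namespace Pool.Agent.Lib.MP_ec260d_nt

open Pool.Agent.Lib.MP_00e05b_nt

/-- `Re (1 / (2 + i t - a))` -/
noncomputable def pz (a : ℂ) (t : ℝ) : ℝ := (2 - a.re) / ((2 - a.re) ^ 2 + (t - a.im) ^ 2)

theorem pz_bound {a : ℂ} (h0 : 0 < a.re) (h1 : a.re < 1) (t : ℝ) :
    0 < pz a t ∧ pz a t ≤ 8 / (1 + |t - a.im|) ^ (2 : ℝ) := by
  have h2 : 0 < 2 - a.re := by linarith
  have h3 : 0 < (2 - a.re) ^ 2 + (t - a.im) ^ 2 := by positivity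
  refine ⟨div_pos h2 h3, ?_⟩
  rw [pz, Real.rpow_two, div_le_div_iff₀ h3 (by positivity)]
  set x := |t - a.im| with hx
  have hx0 : 0 ≤ x := abs_nonneg _
  have hx2 : (t - a.im) ^ 2 = x ^ 2 := (sq_abs _).symm
  rw [hx2]
  have h4 : (1 + x) ^ 2 ≤ 2 * (1 + x ^ 2) := by nlinarith [sq_nonneg (1 - x)]
  have h5 : (2 - a.re) * (1 + x) ^ 2 ≤ 2 * (2 * (1 + x ^ 2)) := by
    have : (2 - a.re) * (1 + x) ^ 2 ≤ 2 * (1 + x) ^ 2 := by
      apply mul_le_mul_of_nonneg_right (by linarith) (by positivity)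
    linarith
  have h6 : 1 ≤ (2 - a.re) ^ 2 := by nlinarith
  nlinarith

/-- The real part of a term. -/
private theorem re_term (a : ℂ) (t : ℝ) : (1 / (2 + t * I - a)).re = pz a t := by
  rw [one_div, Complex.inv_re, Complex.normSq_apply, pz]
  simp only [Complex.sub_re, Complex.add_re, Complex.sub_im, Complex.add_im, Complex.mul_re,
    Complex.mul_im, Complex.ofReal_re, Complex.ofReal_im, Complex.I_re, Complex.I_im,
    Complex.re_ofNat, Complex.im_ofNat]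
  ring_nf

private theorem mx_zero {a : ℂ} (h : mx a ≠ 0) : 0 < a.re ∧ a.re < 1 :=
  xi_zero_re ((mx_ne_zero_iff a).1 h)

private theorem pz_summable (t : ℝ) : Summable (fun a : ℂ => (mx a : ℝ) * pz a t) := by
  obtain ⟨C, _, hC⟩ := zero_sum 2 one_lt_two
  have h1 := (hC t).1.mul_left 8
  refine Summable.of_norm_bounded h1 fun a => ?_
  by_cases ha : mx a = 0
  · simp [ha]
  · obtain ⟨h2, h3⟩ := mx_zero ha
    obtain ⟨h4, h5⟩ := pz_bound h2 h3 t
    rw [Real.norm_eq_abs, abs_of_nonneg (mul_nonneg (Nat.cast_nonneg _) h4.le)]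
    calc (mx a : ℝ) * pz a t ≤ (mx a : ℝ) * (8 / (1 + |t - a.im|) ^ (2 : ℝ)) := by gcongr
      _ = 8 * ((mx a : ℝ) / (1 + |t - a.im|) ^ (2 : ℝ)) := by ring

private theorem logDeriv_conj (z : ℂ) :
    logDeriv xi ((starRingEnd ℂ) z) = (starRingEnd ℂ) (logDeriv xi z) := by
  have h1 : (starRingEnd ℂ) ∘ xi ∘ (starRingEnd ℂ) = xi := by
    funext s
    simp only [Function.comp_apply]
    rw [xi_conj, Complex.conj_conj]
  have h2 : deriv xi ((starRingEnd ℂ) z) = (starRingEnd ℂ) (deriv xi z) := by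
    have h3 := congrFun (deriv_conj_conj (f := xi)) ((starRingEnd ℂ) z)
    rw [h1] at h3
    rw [h3]
    simp
  rw [logDeriv_apply, logDeriv_apply, h2, xi_conj, map_div₀]

theorem re_logDeriv_xi : ∃ α : ℝ, ∀ t : ℝ,
    (logDeriv xi (2 + t * I)).re = (∑' a : ℂ, (mx a : ℝ) * pz a t) + α := by
  obtain ⟨A, B, hAB⟩ := logDeriv_xi_eq
  have hne : ∀ t : ℝ, xi (2 + t * I) ≠ 0 := fun t => xi_ne_zero (by simp)
  have hF : ∀ t : ℝ, (FF (2 + t * I)).re =
      (∑' a : ℂ, (mx a : ℝ) * pz a t) - ∑' a : ℂ, (mx a : ℝ) * pz a 0 := by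
    intro t
    rw [FF, Complex.re_tsum (FF_summable (hne t)), ← (pz_summable t).tsum_sub (pz_summable 0)]
    refine tsum_congr fun a => ?_
    have h0 := re_term a 0
    rw [Complex.ofReal_zero, zero_mul, add_zero] at h0
    rw [← Complex.ofReal_natCast, Complex.re_ofReal_mul, Complex.sub_re, re_term, h0]
    ring
  have hre : ∀ t : ℝ, (logDeriv xi (2 + t * I)).re =
      (∑' a : ℂ, (mx a : ℝ) * pz a t) - (∑' a : ℂ, (mx a : ℝ) * pz a 0) + A.re +
        (2 * B.re - B.im * t) := by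
    intro t
    rw [hAB _ (hne t), Complex.add_re, Complex.add_re, hF t, Complex.mul_re]
    simp
    ring
  have hsymm : ∑' a : ℂ, (mx a : ℝ) * pz a (-1) = ∑' a : ℂ, (mx a : ℝ) * pz a 1 := by
    rw [← Equiv.tsum_eq (starRingAut : ℂ ≃+* ℂ).toEquiv (fun a : ℂ => (mx a : ℝ) * pz a (-1))]
    refine tsum_congr fun a => ?_
    have h1 : (starRingAut : ℂ ≃+* ℂ).toEquiv a = (starRingEnd ℂ) a := rfl
    rw [h1, mx_conj, pz, pz, Complex.conj_re, Complex.conj_im]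
    congr 2
    ring
  have hB : B.im = 0 := by
    have h1 := hre 1
    have h2 := hre (-1)
    have h3 : (2 + ((-1 : ℝ) : ℂ) * I) = (starRingEnd ℂ) (2 + ((1 : ℝ) : ℂ) * I) := by
      simp [Complex.conj_ofNat]
    rw [h3, logDeriv_conj, Complex.conj_re, hsymm] at h2
    linarith
  refine ⟨-(∑' a : ℂ, (mx a : ℝ) * pz a 0) + A.re + 2 * B.re, fun t => ?_⟩
  rw [hre t, hB]
  ring

end Pool.Agent.Lib.MP_ec260d_nt
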