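import Mathlib
import Pool.Agent.Lib.MP_ec260d_nt.RePart

/-!
# JOB PzInt: the integral of `pz a` over `[0, T]`
-/

open Complex Set Filter Topology MeasureTheory

namespace Pool.Agent.Lib.MP_ec260d_nt

private lemma pzInt_arctan_le {y : ℝ} (hy : 0 ≤ y) : Real.arctan y ≤ y := by
  rcases hy.eq_or_lt with h | h
  · rw [← h, Real.arctan_zero]
  · have h1 : 0 < Real.arctan y := by
      rw [← Real.arctan_zero]
      exact Real.arctan_strictMono h
    have h2 := Real.lt_tan h1 (Real.arctan_lt_pi_div_two y)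
    rw [Real.tan_arctan] at h2
    exact h2.le

private lemma pzInt_h {b x : ℝ} (hb1 : 1 < b) (hb2 : b < 2) (hx : 0 ≤ x) :
    0 ≤ Real.pi / 2 - Real.arctan (x / b) ∧ Real.pi / 2 - Real.arctan (x / b) ≤ 4 / (1 + x) := by
  refine ⟨by linarith [Real.arctan_lt_pi_div_two (x / b)], ?_⟩
  rcases le_or_gt x 1 with h | h
  · have h1 : 0 ≤ Real.arctan (x / b) := by
      rw [← Real.arctan_zero]
      exact Real.arctan_strictMono.monotone (by positivity)
    have h2 : (2 : ℝ) ≤ 4 / (1 + x) := by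
      rw [le_div_iff₀ (by linarith)]
      linarith
    linarith [Real.pi_le_four]
  · have hxb : 0 < x / b := div_pos (by linarith) (by linarith)
    have h1 := Real.arctan_inv_of_pos hxb
    rw [← h1]
    have h2 : (x / b)⁻¹ = b / x := by rw [inv_div]
    rw [h2]
    refine (pzInt_arctan_le (by positivity)).trans ?_
    rw [div_le_div_iff₀ (by linarith) (by linarith)]
    nlinarith

private lemma pzInt_A {T y : ℝ} (hT : 1 ≤ T) (hy : 1 ≤ y) (hyT : y ≤ 4 * T) :
    4 / y ≤ 16 * T ^ ((1 : ℝ) / 4) * (1 / y ^ ((5 : ℝ) / 4)) := by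
  have hy0 : 0 < y := by linarith
  have h1 : y ^ ((5 : ℝ) / 4) = y * y ^ ((1 : ℝ) / 4) := by
    rw [show (5 : ℝ) / 4 = 1 + 1 / 4 by norm_num, Real.rpow_add hy0, Real.rpow_one]
  have h2 : y ^ ((1 : ℝ) / 4) ≤ 4 * T ^ ((1 : ℝ) / 4) := by
    calc y ^ ((1 : ℝ) / 4) ≤ (4 * T) ^ ((1 : ℝ) / 4) :=
          Real.rpow_le_rpow hy0.le hyT (by norm_num)
      _ = 4 ^ ((1 : ℝ) / 4) * T ^ ((1 : ℝ) / 4) := Real.mul_rpow (by norm_num) (by linarith)
      _ ≤ 4 * T ^ ((1 : ℝ) / 4) := by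
          refine mul_le_mul_of_nonneg_right ?_ (Real.rpow_nonneg (by linarith) _)
          calc (4 : ℝ) ^ ((1 : ℝ) / 4) ≤ 4 ^ (1 : ℝ) :=
                Real.rpow_le_rpow_of_exponent_le (by norm_num) (by norm_num)
            _ = 4 := Real.rpow_one 4
  have h3 : 0 < y ^ ((1 : ℝ) / 4) := Real.rpow_pos_of_pos hy0 _
  rw [h1, mul_one_div, div_le_div_iff₀ hy0 (mul_pos hy0 h3)]
  nlinarith

private lemma pzInt_B {T y : ℝ} (hT : 1 ≤ T) (hyT : T ≤ y) :
    4 * T / y ^ 2 ≤ 16 * T ^ ((1 : ℝ) / 4) * (1 / y ^ ((5 : ℝ) / 4)) := by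
  have hT0 : 0 < T := by linarith
  have hy0 : 0 < y := by linarith
  have h1 : y ^ ((5 : ℝ) / 4) * y ^ ((3 : ℝ) / 4) = y ^ 2 := by
    rw [← Real.rpow_add hy0]
    norm_num
  have h2 : T ^ ((1 : ℝ) / 4) * T ^ ((3 : ℝ) / 4) = T := by
    rw [← Real.rpow_add hT0]
    norm_num
  have h3 : T ^ ((3 : ℝ) / 4) ≤ y ^ ((3 : ℝ) / 4) := Real.rpow_le_rpow hT0.le hyT (by norm_num)
  have h4 : 0 < y ^ ((5 : ℝ) / 4) := Real.rpow_pos_of_pos hy0 _
  have h5 : 0 < T ^ ((1 : ℝ) / 4) := Real.rpow_pos_of_pos hT0 _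
  have h6 : 0 < y ^ ((3 : ℝ) / 4) := Real.rpow_pos_of_pos hy0 _
  rw [mul_one_div, div_le_div_iff₀ (by positivity) h4, ← h1]
  have h7 : T * y ^ ((5 : ℝ) / 4) ≤ T ^ ((1 : ℝ) / 4) * (y ^ ((5 : ℝ) / 4) * y ^ ((3 : ℝ) / 4)) := by
    calc T * y ^ ((5 : ℝ) / 4) = (T ^ ((1 : ℝ) / 4) * T ^ ((3 : ℝ) / 4)) * y ^ ((5 : ℝ) / 4) := by
          rw [h2]
      _ = (T ^ ((1 : ℝ) / 4) * y ^ ((5 : ℝ) / 4)) * T ^ ((3 : ℝ) / 4) := by ring
      _ ≤ (T ^ ((1 : ℝ) / 4) * y ^ ((5 : ℝ) / 4)) * y ^ ((3 : ℝ) / 4) :=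
          mul_le_mul_of_nonneg_left h3 (by positivity)
      _ = _ := by ring
  have h8 : 0 ≤ T ^ ((1 : ℝ) / 4) * (y ^ ((5 : ℝ) / 4) * y ^ ((3 : ℝ) / 4)) := by positivity
  linarith

private lemma pzInt_C {b u T : ℝ} (hb1 : 1 < b) (hb2 : b < 2) (hu : 0 ≤ u) (hT : 1 ≤ T) :
    0 ≤ Real.arctan ((u + T) / b) - Real.arctan (u / b) ∧
    Real.arctan ((u + T) / b) - Real.arctan (u / b) ≤
      16 * T ^ ((1 : ℝ) / 4) * (1 / (1 + u) ^ ((5 : ℝ) / 4)) := by
  have hb0 : 0 < b := by linarith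
  refine ⟨?_, ?_⟩
  · have : Real.arctan (u / b) ≤ Real.arctan ((u + T) / b) :=
      Real.arctan_strictMono.monotone (div_le_div_of_nonneg_right (by linarith) hb0.le)
    linarith
  · rcases le_or_gt (1 + u) (4 * T) with h | h
    · refine le_trans ?_ (pzInt_A hT (by linarith) h)
      have h1 := (pzInt_h hb1 hb2 hu).2
      have h2 := (pzInt_h hb1 hb2 (show 0 ≤ u + T by linarith)).1
      linarith
    · refine le_trans ?_ (pzInt_B hT (by linarith : T ≤ 1 + u))
      have h1 : ((u + T) / b) * (-(u / b)) < 1 := by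
        have : 0 ≤ ((u + T) / b) * (u / b) := by positivity
        linarith
      have h2 := Real.arctan_add h1
      rw [Real.arctan_neg] at h2
      rw [sub_eq_add_neg, h2]
      have h3 : 0 ≤ ((u + T) / b) * (u / b) := by positivity
      have h4 : ((u + T) / b + -(u / b)) / (1 - (u + T) / b * -(u / b))
          = (b * T) / (b ^ 2 + (u + T) * u) := by
        have hden : 0 < b ^ 2 + (u + T) * u := by positivity
        have h4a : 1 - (u + T) / b * -(u / b) = (b ^ 2 + (u + T) * u) / b ^ 2 := by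
          field_simp
          ring
        have h4b : (u + T) / b + -(u / b) = T / b := by ring
        rw [h4a, h4b, div_div_div_eq, div_eq_div_iff (by positivity) (by positivity)]
        ring
      rw [h4]
      refine (pzInt_arctan_le (by positivity)).trans ?_
      rw [div_le_div_iff₀ (by positivity) (by positivity)]
      have hT0 : 0 < T := by linarith
      have h5 : b * (1 + u) ^ 2 ≤ 4 * (b ^ 2 + (u + T) * u) := by
        nlinarith [mul_nonneg hu hT0.le, sq_nonneg (u - 1)]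
      calc b * T * (1 + u) ^ 2 = T * (b * (1 + u) ^ 2) := by ring
        _ ≤ T * (4 * (b ^ 2 + (u + T) * u)) := mul_le_mul_of_nonneg_left h5 hT0.le
        _ = _ := by ring

private lemma pzInt_eq {a : ℂ} (h1 : a.re < 1) (T : ℝ) :
    (∫ t in (0 : ℝ)..T, pz a t) =
      Real.arctan ((T - a.im) / (2 - a.re)) + Real.arctan (a.im / (2 - a.re)) := by
  set b := 2 - a.re with hb
  have hb0 : 0 < b := by rw [hb]; linarith
  have hd : ∀ t : ℝ, HasDerivAt (fun t : ℝ => Real.arctan ((t - a.im) / b)) (pz a t) t := by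
    intro t
    have h2 : HasDerivAt (fun t : ℝ => (t - a.im) / b) (1 / b) t :=
      ((hasDerivAt_id t).sub_const a.im).div_const b
    have h3 := h2.arctan
    refine h3.congr_deriv ?_
    unfold pz
    rw [← hb]
    have h4 : 0 < b ^ 2 + (t - a.im) ^ 2 := by positivity
    field_simp
  have hc : Continuous (fun t : ℝ => pz a t) := by
    unfold pz
    refine continuous_const.div (by fun_prop) ?_
    intro t
    rw [← hb]
    positivity
  rw [intervalIntegral.integral_eq_sub_of_hasDerivAt (fun t _ => hd t) (hc.intervalIntegrable _ _)]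
  have h5 : (0 - a.im) / b = -(a.im / b) := by ring
  rw [h5, Real.arctan_neg, sub_neg_eq_add]

theorem pz_int {a : ℂ} (h0 : 0 < a.re) (h1 : a.re < 1) {T : ℝ} (hT : 1 ≤ T) :
    |(∫ t in (0 : ℝ)..T, pz a t) - Real.pi * (if 0 < a.im ∧ a.im ≤ T then 1 else 0)| ≤
      16 * T ^ ((1 : ℝ) / 4) * (1 / (1 + |0 - a.im|) ^ ((5 : ℝ) / 4) +
        1 / (1 + |T - a.im|) ^ ((5 : ℝ) / 4)) := by
  rw [pzInt_eq h1]
  set b := 2 - a.re with hb
  set g := a.im with hg
  have hb1 : 1 < b := by rw [hb]; linarith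
  have hb2 : b < 2 := by rw [hb]; linarith
  have hT4 : 0 < T ^ ((1 : ℝ) / 4) := Real.rpow_pos_of_pos (by linarith) _
  have hp1 : 0 ≤ 16 * T ^ ((1 : ℝ) / 4) * (1 / (1 + |0 - g|) ^ ((5 : ℝ) / 4)) := by positivity
  have hp2 : 0 ≤ 16 * T ^ ((1 : ℝ) / 4) * (1 / (1 + |T - g|) ^ ((5 : ℝ) / 4)) := by positivity
  rw [mul_add]
  rcases le_or_gt g 0 with hg0 | hg0
  · rw [if_neg (by rintro ⟨h, _⟩; linarith)]
    have h2 := pzInt_C hb1 hb2 (show 0 ≤ -g by linarith) hT
    have h3 : |0 - g| = -g := by rw [zero_sub, abs_of_nonneg (by linarith)]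
    have h4 : (-g + T) / b = (T - g) / b := by ring
    have h5 : (-g) / b = -(g / b) := by ring
    rw [h4, h5, Real.arctan_neg, sub_neg_eq_add] at h2
    rw [h3] at hp1 ⊢
    rw [mul_zero, sub_zero, abs_of_nonneg h2.1]
    linarith [h2.2]
  · rcases le_or_gt g T with hgT | hgT
    · rw [if_pos ⟨hg0, hgT⟩, mul_one]
      have h2 := pzInt_h hb1 hb2 (show 0 ≤ T - g by linarith)
      have h3 := pzInt_h hb1 hb2 hg0.le
      have h4 : |0 - g| = g := by rw [zero_sub, abs_neg, abs_of_pos hg0]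
      have h5 : |T - g| = T - g := abs_of_nonneg (by linarith)
      rw [h4, h5]
      have h6 := pzInt_A hT (show 1 ≤ 1 + (T - g) by linarith) (by linarith)
      have h7 := pzInt_A hT (show 1 ≤ 1 + g by linarith) (by linarith)
      rw [abs_le]
      constructor <;> linarith [h2.1, h2.2, h3.1, h3.2]
    · rw [if_neg (by rintro ⟨_, h⟩; linarith)]
      have h2 := pzInt_C hb1 hb2 (show 0 ≤ g - T by linarith) hT
      have h3 : |T - g| = g - T := by rw [abs_of_neg (by linarith)]; ring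
      have h4 : (g - T + T) / b = g / b := by ring
      have h5 : (g - T) / b = -((T - g) / b) := by ring
      rw [h4, h5, Real.arctan_neg, sub_neg_eq_add] at h2
      rw [h3] at hp2 ⊢
      rw [mul_zero, sub_zero, add_comm (Real.arctan ((T - g) / b)), abs_of_nonneg h2.1]
      linarith [h2.2]

end Pool.Agent.Lib.MP_ec260d_nt
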