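import Mathlib
import Pool.Agent.Lib.MP_00e05b_nt.Star

/-!
# JOB LogDerivXi: `xi'/xi` in terms of digamma and zeta, for `Re s > 1`

Near `s`, `xi w = w * (1 - w) * Gammaℝ w * riemannZeta w` (`xi_eq_zeta`) and `Gammaℝ w = π ^ (-w/2) * Gamma (w/2)`
(`Gammaℝ_def`). Use `logDeriv_mul` (all factors nonzero and differentiable at `s`), `logDeriv` of `π ^ (-w/2)` is
`-(log π)/2`, `logDeriv (fun w => Gamma (w/2)) s = digamma (s/2) / 2` (`logDeriv_comp`), `logDeriv (1 - w) = -1/(1 - s) = 1/(s - 1)`.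
Compare `logDeriv_shift` in `MP_00e05b_nt/Star.lean`.
-/

open Complex Set Filter Topology

namespace Pool.Agent.Lib.MP_ec260d_nt

open Pool.Agent.Lib.MP_00e05b_nt

theorem logDeriv_xi_formula {s : ℂ} (hs : 1 < s.re) :
    logDeriv xi s = 1 / s + 1 / (s - 1) - (Real.log Real.pi : ℂ) / 2 +
      Complex.digamma (s / 2) / 2 + logDeriv riemannZeta s := by
  have hs0 : s ≠ 0 := by rintro rfl; simp at hs; linarith
  have hs1 : s ≠ 1 := by rintro rfl; simp at hs
  have hs1' : (1 : ℂ) - s ≠ 0 := sub_ne_zero.2 (Ne.symm hs1)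
  have hs1'' : s - 1 ≠ 0 := sub_ne_zero.2 hs1
  have hpi : (Real.pi : ℂ) ≠ 0 := by exact_mod_cast Real.pi_ne_zero
  have hre : 0 < (s / 2).re := by
    have : (s / 2).re = s.re / 2 := by simp
    rw [this]
    linarith
  have hG : Complex.Gamma (s / 2) ≠ 0 := Complex.Gamma_ne_zero_of_re_pos hre
  have hz : riemannZeta s ≠ 0 := riemannZeta_ne_zero_of_one_lt_re hs
  have hp : (Real.pi : ℂ) ^ (-s / 2) ≠ 0 := by
    rw [Ne, Complex.cpow_eq_zero_iff]
    exact fun h => hpi h.1
  have hdz : DifferentiableAt ℂ riemannZeta s := differentiableAt_riemannZeta hs1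
  have hdG0 : DifferentiableAt ℂ Complex.Gamma (s / 2) := by
    refine Complex.differentiableAt_Gamma _ ?_
    intro m h
    have h2 := congrArg Complex.re h
    have h3 : (-(m : ℂ)).re = -(m : ℝ) := by simp
    rw [h3] at h2
    have h4 : (0 : ℝ) ≤ m := Nat.cast_nonneg m
    linarith
  have hdh : DifferentiableAt ℂ (fun w : ℂ => w / 2) s := by fun_prop
  have hdG : DifferentiableAt ℂ (fun w : ℂ => Complex.Gamma (w / 2)) s :=
    DifferentiableAt.comp s (f := fun w : ℂ => w / 2) hdG0 hdh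
  have hdp : HasDerivAt (fun w : ℂ => (Real.pi : ℂ) ^ (-w / 2))
      ((Real.pi : ℂ) ^ (-s / 2) * Complex.log Real.pi * (-1 / 2)) s := by
    refine HasDerivAt.const_cpow ?_ (Or.inl hpi)
    exact (hasDerivAt_neg s).div_const 2
  have hev : xi =ᶠ[𝓝 s] fun w => w * ((1 - w) * ((Real.pi : ℂ) ^ (-w / 2) *
      (Complex.Gamma (w / 2) * riemannZeta w))) := by
    filter_upwards [isOpen_re_gt'.mem_nhds hs] with w hw
    have hw1 : w ≠ 1 := by
      rintro rfl
      simp only [Complex.one_re] at hw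
      exact lt_irrefl _ hw
    have hw0 : 0 < w.re := lt_trans one_pos hw
    rw [xi_eq_zeta hw0 hw1, Gammaℝ_def]
    ring
  have hld := (logDeriv_congr_nhds hev).self_of_nhds
  have d4 : DifferentiableAt ℂ (fun w : ℂ => Complex.Gamma (w / 2) * riemannZeta w) s :=
    hdG.mul hdz
  have d3 : DifferentiableAt ℂ (fun w : ℂ => (Real.pi : ℂ) ^ (-w / 2) *
      (Complex.Gamma (w / 2) * riemannZeta w)) s := hdp.differentiableAt.mul d4
  have d1 : DifferentiableAt ℂ (fun w : ℂ => 1 - w) s := by fun_prop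
  have d2 : DifferentiableAt ℂ (fun w : ℂ => (1 - w) * ((Real.pi : ℂ) ^ (-w / 2) *
      (Complex.Gamma (w / 2) * riemannZeta w))) s := d1.mul d3
  have m1 : logDeriv (fun w : ℂ => w * ((1 - w) * ((Real.pi : ℂ) ^ (-w / 2) *
      (Complex.Gamma (w / 2) * riemannZeta w)))) s = logDeriv (fun w : ℂ => w) s +
      logDeriv (fun w : ℂ => (1 - w) * ((Real.pi : ℂ) ^ (-w / 2) *
      (Complex.Gamma (w / 2) * riemannZeta w))) s :=
    logDeriv_mul (f := fun w : ℂ => w) s hs0
      (mul_ne_zero hs1' (mul_ne_zero hp (mul_ne_zero hG hz))) differentiableAt_id d2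
  have m2 : logDeriv (fun w : ℂ => (1 - w) * ((Real.pi : ℂ) ^ (-w / 2) *
      (Complex.Gamma (w / 2) * riemannZeta w))) s = logDeriv (fun w : ℂ => 1 - w) s +
      logDeriv (fun w : ℂ => (Real.pi : ℂ) ^ (-w / 2) *
      (Complex.Gamma (w / 2) * riemannZeta w)) s :=
    logDeriv_mul (f := fun w : ℂ => 1 - w) s hs1' (mul_ne_zero hp (mul_ne_zero hG hz)) d1 d3
  have m3 : logDeriv (fun w : ℂ => (Real.pi : ℂ) ^ (-w / 2) *
      (Complex.Gamma (w / 2) * riemannZeta w)) s =
      logDeriv (fun w : ℂ => (Real.pi : ℂ) ^ (-w / 2)) s +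
      logDeriv (fun w : ℂ => Complex.Gamma (w / 2) * riemannZeta w) s :=
    logDeriv_mul (f := fun w : ℂ => (Real.pi : ℂ) ^ (-w / 2)) s hp (mul_ne_zero hG hz)
      hdp.differentiableAt d4
  have m4 : logDeriv (fun w : ℂ => Complex.Gamma (w / 2) * riemannZeta w) s =
      logDeriv (fun w : ℂ => Complex.Gamma (w / 2)) s + logDeriv riemannZeta s :=
    logDeriv_mul (f := fun w : ℂ => Complex.Gamma (w / 2)) s hG hz hdG hdz
  have e1 : logDeriv (fun w : ℂ => w) s = 1 / s := by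
    rw [logDeriv_apply]
    simp
  have e2 : logDeriv (fun w : ℂ => 1 - w) s = 1 / (s - 1) := by
    rw [logDeriv_apply]
    have : deriv (fun w : ℂ => 1 - w) s = -1 := by
      rw [deriv_const_sub, deriv_id'']
    rw [this]
    field_simp
    ring
  have e3 : logDeriv (fun w : ℂ => (Real.pi : ℂ) ^ (-w / 2)) s =
      -((Real.log Real.pi : ℂ) / 2) := by
    rw [logDeriv_apply, hdp.deriv, ← Complex.ofReal_log Real.pi_pos.le]
    field_simp
  have e4 : logDeriv (fun w : ℂ => Complex.Gamma (w / 2)) s =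
      Complex.digamma (s / 2) / 2 := by
    have h := logDeriv_comp (f := Complex.Gamma) (g := fun w : ℂ => w / 2) (x := s) hdG0 hdh
    have hd : deriv (fun w : ℂ => w / 2) s = 1 / 2 := by
      simp
    rw [hd] at h
    have h' : logDeriv (fun w : ℂ => Complex.Gamma (w / 2)) s =
        logDeriv Complex.Gamma (s / 2) * (1 / 2) := h
    rw [h', Complex.digamma_def]
    ring
  rw [hld, m1, m2, m3, m4, e1, e2, e3, e4]
  ring

end Pool.Agent.Lib.MP_ec260d_nt
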