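import Mathlib

/-!
# JOB ZetaInt: bounds for `ζ'/ζ` to the right of `1`

`logDeriv_zeta_bdd`: `ArithmeticFunction.LSeries_vonMangoldt_eq_deriv_riemannZeta_div`: `LSeries Λ s = -ζ' s / ζ s` for `Re s > 1`; so
`‖logDeriv riemannZeta s‖ ≤ ∑ ‖term‖ ≤ ∑ ‖term at 3/2‖` (`LSeries.norm_term_le_of_re_le_re`, `LSeriesSummable` at `3/2`).
`zeta_int_bdd`: for real `t`, `‖riemannZeta (2 + t I) - 1‖ ≤ π²/6 - 1 < 1` (`zeta_eq_tsum_one_div_nat_add_one_cpow`,
`riemannZeta_two`; or `LSeries` bounds), so `riemannZeta (2 + t I)` has positive real part, `h t = Complex.log (riemannZeta (2 + t I))` is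
differentiable with derivative `I * logDeriv riemannZeta (2 + t I)`, so `∫_0^T logDeriv = -I (h T - h 0)` and
`‖h t‖` is bounded (`‖log z‖ ≤ |log ‖z‖| + π`, `1/4 ≤ ‖ζ(2 + it)‖ ≤ 2`). The real part of the integral is the integral of the
real part (continuity of the integrand).
-/

open Complex Set Filter Topology

namespace Pool.Agent.Lib.MP_ec260d_nt

theorem ZetaInt_cont : Continuous (fun t : ℝ => logDeriv riemannZeta (2 + t * I)) := by
  rw [continuous_iff_continuousAt]
  intro t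
  have hre : 1 < (2 + (t : ℂ) * I).re := by simp
  have hne : (2 + (t : ℂ) * I) ≠ 1 := by
    intro h0
    rw [h0] at hre
    simp at hre
  have ha : AnalyticAt ℂ riemannZeta (2 + (t : ℂ) * I) := by
    have hd : DifferentiableOn ℂ riemannZeta {s | s ≠ 1} := fun s hs =>
      (differentiableAt_riemannZeta hs).differentiableWithinAt
    exact hd.analyticAt (isOpen_ne.mem_nhds hne)
  have hd : ContinuousAt (deriv riemannZeta) (2 + (t : ℂ) * I) := ha.deriv.continuousAt
  have h0 : riemannZeta (2 + (t : ℂ) * I) ≠ 0 := riemannZeta_ne_zero_of_one_lt_re hre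
  have h1 : ContinuousAt (logDeriv riemannZeta) (2 + (t : ℂ) * I) := hd.div ha.continuousAt h0
  have h2 : Continuous (fun t : ℝ => 2 + (t : ℂ) * I) := by fun_prop
  exact ContinuousAt.comp (g := logDeriv riemannZeta) (f := fun t : ℝ => 2 + (t : ℂ) * I) h1 h2.continuousAt

theorem ZetaInt_norm (t : ℝ) : ‖riemannZeta (2 + t * I) - 1‖ < 1 := by
  have hre : 1 < (2 + (t : ℂ) * I).re := by simp
  have hz := zeta_eq_tsum_one_div_nat_add_one_cpow hre
  have hnorm : ∀ n : ℕ, ‖1 / ((n : ℂ) + 1) ^ (2 + (t : ℂ) * I)‖ = 1 / ((n : ℝ) + 1) ^ 2 := by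
    intro n
    have h1 : ((n : ℂ) + 1) = ((n + 1 : ℝ) : ℂ) := by push_cast; ring
    rw [norm_div, norm_one, h1, Complex.norm_cpow_eq_rpow_re_of_pos (by positivity)]
    have h2 : (2 + (t : ℂ) * I).re = 2 := by simp
    rw [h2, Real.rpow_two]
  have hs2 : Summable (fun n : ℕ => 1 / ((n : ℝ) + 1) ^ 2) := by
    have h3 := (summable_nat_add_iff (f := fun n : ℕ => (1 : ℝ) / (n : ℝ) ^ 2) 1).mpr hasSum_zeta_two.summable
    refine h3.congr fun n => ?_
    push_cast
    rfl
  have hs : Summable (fun n : ℕ => 1 / ((n : ℂ) + 1) ^ (2 + (t : ℂ) * I)) := by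
    apply Summable.of_norm
    refine hs2.congr fun n => (hnorm n).symm
  have hval : ∑' n : ℕ, 1 / ((n : ℝ) + 1) ^ 2 = Real.pi ^ 2 / 6 := by
    have h4 := hasSum_zeta_two.tsum_eq
    rw [hasSum_zeta_two.summable.tsum_eq_zero_add] at h4
    simp only [Nat.cast_zero, ne_eq, OfNat.ofNat_ne_zero, not_false_eq_true, zero_pow, div_zero, zero_add,
      Nat.cast_add, Nat.cast_one] at h4
    exact h4
  rw [hz, hs.tsum_eq_zero_add]
  simp only [Nat.cast_zero, zero_add, Complex.one_cpow, div_one, add_sub_cancel_left]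
  have hs2' : Summable (fun n : ℕ => 1 / (((n + 1 : ℕ) : ℝ) + 1) ^ 2) :=
    (summable_nat_add_iff (f := fun n : ℕ => 1 / ((n : ℝ) + 1) ^ 2) 1).mpr hs2
  have hsn : Summable (fun n : ℕ => ‖1 / (((n + 1 : ℕ) : ℂ) + 1) ^ (2 + (t : ℂ) * I)‖) :=
    hs2'.congr fun n => (hnorm (n + 1)).symm
  have hle : ‖∑' n : ℕ, 1 / (((n + 1 : ℕ) : ℂ) + 1) ^ (2 + (t : ℂ) * I)‖ ≤
      ∑' n : ℕ, 1 / (((n + 1 : ℕ) : ℝ) + 1) ^ 2 := by
    refine (norm_tsum_le_tsum_norm hsn).trans (le_of_eq ?_)
    exact tsum_congr fun n => hnorm (n + 1)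
  have hv2 : ∑' n : ℕ, 1 / (((n + 1 : ℕ) : ℝ) + 1) ^ 2 = Real.pi ^ 2 / 6 - 1 := by
    have h5 := hs2.tsum_eq_zero_add
    rw [hval] at h5
    simp only [Nat.cast_zero, zero_add, one_pow, div_one] at h5
    linarith
  rw [hv2] at hle
  have hpi : Real.pi ^ 2 < 12 := by
    have h6 := Real.pi_lt_d2
    have h7 := Real.pi_pos
    nlinarith
  refine lt_of_le_of_lt hle ?_
  linarith

theorem ZetaInt_re_pos (t : ℝ) : 0 < (riemannZeta (2 + t * I)).re := by
  have h1 := ZetaInt_norm t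
  have h2 := Complex.abs_re_le_norm (riemannZeta (2 + t * I) - 1)
  have h3 := (abs_lt.mp (lt_of_le_of_lt h2 h1)).1
  rw [Complex.sub_re, Complex.one_re] at h3
  linarith

theorem logDeriv_zeta_bdd : ∃ C : ℝ, 0 ≤ C ∧ ∀ s : ℂ, 3 / 2 ≤ s.re →
    ‖logDeriv riemannZeta s‖ ≤ C := by
  have h32 : LSeriesSummable (fun n => (ArithmeticFunction.vonMangoldt n : ℂ)) (3 / 2 : ℂ) :=
    ArithmeticFunction.LSeriesSummable_vonMangoldt (by norm_num)
  have hs32 : Summable (fun n => ‖LSeries.term (fun n => (ArithmeticFunction.vonMangoldt n : ℂ)) (3 / 2 : ℂ) n‖) :=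
    h32.norm
  refine ⟨∑' n, ‖LSeries.term (fun n => (ArithmeticFunction.vonMangoldt n : ℂ)) (3 / 2 : ℂ) n‖,
    tsum_nonneg fun n => norm_nonneg _, fun s hs => ?_⟩
  have hs1 : 1 < s.re := by linarith
  have h1 : logDeriv riemannZeta s =
      - LSeries (fun n => (ArithmeticFunction.vonMangoldt n : ℂ)) s := by
    have h2 := ArithmeticFunction.LSeries_vonMangoldt_eq_deriv_riemannZeta_div hs1
    rw [h2, logDeriv_apply, neg_div, neg_neg]
  rw [h1, norm_neg]
  have hle : ∀ n, ‖LSeries.term (fun n => (ArithmeticFunction.vonMangoldt n : ℂ)) s n‖ ≤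
      ‖LSeries.term (fun n => (ArithmeticFunction.vonMangoldt n : ℂ)) (3 / 2 : ℂ) n‖ := fun n =>
    LSeries.norm_term_le_of_re_le_re _ (by
      have : ((3 / 2 : ℂ)).re = 3 / 2 := by norm_num
      rw [this]
      exact hs) n
  have hsum : Summable (fun n => ‖LSeries.term (fun n => (ArithmeticFunction.vonMangoldt n : ℂ)) s n‖) :=
    Summable.of_nonneg_of_le (fun n => norm_nonneg _) hle hs32
  exact (norm_tsum_le_tsum_norm hsum).trans (hsum.tsum_le_tsum hle hs32)

theorem zeta_int_bdd : ∃ C : ℝ, 0 ≤ C ∧ ∀ T : ℝ, 0 ≤ T →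
    |∫ t in (0 : ℝ)..T, (logDeriv riemannZeta (2 + t * I)).re| ≤ C := by
  refine ⟨2 * Real.pi, by positivity, fun T hT => ?_⟩
  set h : ℝ → ℂ := fun t => Complex.log (riemannZeta (2 + t * I)) with hh
  have hder : ∀ t : ℝ, HasDerivAt (fun t : ℝ => (h t).im) (logDeriv riemannZeta (2 + t * I)).re t := by
    intro t
    have hre : 1 < (2 + (t : ℂ) * I).re := by simp
    have hne : (2 + (t : ℂ) * I) ≠ 1 := by
      intro h0
      rw [h0] at hre
      simp at hre
    have h1 : HasDerivAt riemannZeta (deriv riemannZeta (2 + t * I)) (2 + (t : ℂ) * I) :=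
      (differentiableAt_riemannZeta hne).hasDerivAt
    have h2 : HasDerivAt (fun t : ℝ => 2 + (t : ℂ) * I) I t := by
      have h3 : HasDerivAt (fun t : ℝ => (t : ℂ)) 1 t := Complex.ofRealCLM.hasDerivAt
      have h4 := (h3.mul_const I).const_add 2
      simpa using h4
    have h5 : HasDerivAt (fun t : ℝ => riemannZeta (2 + t * I)) (deriv riemannZeta (2 + t * I) * I) t :=
      HasDerivAt.comp (h₂ := riemannZeta) (h := fun t : ℝ => 2 + (t : ℂ) * I) t h1 h2
    have hmem : riemannZeta (2 + t * I) ∈ slitPlane := Or.inl (ZetaInt_re_pos t)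
    have h6 : HasDerivAt h (deriv riemannZeta (2 + t * I) * I / riemannZeta (2 + t * I)) t :=
      h5.clog_real hmem
    have h7 := Complex.imCLM.hasFDerivAt.comp_hasDerivAt t h6
    have h8 : (deriv riemannZeta (2 + t * I) * I / riemannZeta (2 + t * I)).im =
        (logDeriv riemannZeta (2 + t * I)).re := by
      rw [logDeriv_apply, mul_comm, mul_div_assoc, Complex.mul_im]
      simp
    rw [← h8]
    exact h7
  have hcont : Continuous (fun t : ℝ => (logDeriv riemannZeta (2 + t * I)).re) :=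
    Complex.continuous_re.comp ZetaInt_cont
  rw [intervalIntegral.integral_eq_sub_of_hasDerivAt (fun t _ => hder t) (hcont.intervalIntegrable _ _)]
  have hb : ∀ t : ℝ, |(h t).im| ≤ Real.pi := by
    intro t
    rw [hh, Complex.log_im]
    exact Complex.abs_arg_le_pi _
  have := abs_sub (h T).im (h 0).im
  calc |(h T).im - (h 0).im| ≤ |(h T).im| + |(h 0).im| := abs_sub _ _
    _ ≤ 2 * Real.pi := by
      have a := hb T
      have b := hb 0
      linarith

end Pool.Agent.Lib.MP_ec260d_nt
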