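import Mathlib
import Pool.Agent.Lib.MP_ec260d_nt.DigammaOne
import Pool.Agent.Lib.MP_ec260d_nt.LogDerivXi
import Pool.Agent.Lib.MP_ec260d_nt.ZetaInt

/-!
# JOB Theta: `∫_0^T Re (xi'/xi)(2 + i t) dt = (T/2) log T + c T + O(1 + log T)`

By `logDeriv_xi_formula` at `s = 2 + i t`: `Re (1/s) = 2/(4 + t²)` and `Re (1/(s-1)) = 1/(1 + t²)` are bounded by `2/(1 + t²)`, so their
integrals are bounded (`integral_inv_one_add_sq`/arctan; `≤ π`); the constant `-(log π)/2` contributes to `c T`; `zeta_int_bdd` for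
the last term; and `(1/2) Re ψ(1 + i t/2)`: for `t ≥ 2` it is `(1/2) log (t/2) + O(1/t)` (`re_digamma_one`), for
`0 ≤ t ≤ 2` it is continuous, contributing a bounded amount. `∫_2^T (1/2) log (t/2) dt = (T/2) log T - (T/2)(1 + log 2) + 1`,
`∫_2^T C/t = C log (T/2)`. So `c = -(log π)/2 - (1 + log 2)/2`. (For `1 ≤ T ≤ 2` everything is bounded.)
Continuity/integrability: all functions are continuous in `t` (`digamma` is continuous on `Re > 0`, `logDeriv riemannZeta` on
`Re > 1`).
-/

open Complex Set Filter Topology MeasureTheory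

namespace Pool.Agent.Lib.MP_ec260d_nt

open Pool.Agent.Lib.MP_00e05b_nt

theorem Theta_contD : Continuous (fun t : ℝ => Complex.digamma (1 + ((t / 2 : ℝ) : ℂ) * I)) := by
  rw [continuous_iff_continuousAt]
  intro t
  have hre : 0 < (1 + ((t / 2 : ℝ) : ℂ) * I).re := by simp
  have ha : AnalyticAt ℂ Complex.Gamma (1 + ((t / 2 : ℝ) : ℂ) * I) := by
    have hd : DifferentiableOn ℂ Complex.Gamma {s | 0 < s.re} := by
      intro s hs
      refine (Complex.differentiableAt_Gamma s fun m h => ?_).differentiableWithinAt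
      have h1 : 0 < s.re := hs
      rw [h] at h1
      simp at h1
      have h2 : (0 : ℝ) ≤ m := Nat.cast_nonneg m
      linarith
    exact hd.analyticAt ((isOpen_lt continuous_const Complex.continuous_re).mem_nhds hre)
  have h0 : Complex.Gamma (1 + ((t / 2 : ℝ) : ℂ) * I) ≠ 0 := Complex.Gamma_ne_zero_of_re_pos hre
  have h1 : ContinuousAt Complex.digamma (1 + ((t / 2 : ℝ) : ℂ) * I) :=
    ha.deriv.continuousAt.div ha.continuousAt h0
  have h2 : Continuous (fun t : ℝ => 1 + ((t / 2 : ℝ) : ℂ) * I) := by fun_prop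
  exact ContinuousAt.comp (g := Complex.digamma) (f := fun t : ℝ => 1 + ((t / 2 : ℝ) : ℂ) * I) h1
    h2.continuousAt

theorem Theta_formula (t : ℝ) : (logDeriv xi (2 + t * I)).re =
    (1 / (2 + (t : ℂ) * I)).re + (1 / (2 + (t : ℂ) * I - 1)).re - Real.log Real.pi / 2 +
      (Complex.digamma (1 + ((t / 2 : ℝ) : ℂ) * I)).re / 2 + (logDeriv riemannZeta (2 + t * I)).re := by
  have hre : 1 < (2 + (t : ℂ) * I).re := by simp
  rw [logDeriv_xi_formula hre]
  have h1 : (2 + (t : ℂ) * I) / 2 = 1 + ((t / 2 : ℝ) : ℂ) * I := by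
    push_cast
    ring
  have h2 : (Real.log Real.pi : ℂ) / 2 = ((Real.log Real.pi / 2 : ℝ) : ℂ) := by
    push_cast
    ring
  have h3 : (Complex.digamma (1 + ((t / 2 : ℝ) : ℂ) * I) / 2).re =
      (Complex.digamma (1 + ((t / 2 : ℝ) : ℂ) * I)).re / 2 := by
    simp
  rw [h1, h2, Complex.add_re, Complex.add_re, Complex.sub_re, Complex.add_re, Complex.ofReal_re, h3]

theorem Theta_contL : Continuous (fun t : ℝ => (logDeriv xi (2 + t * I)).re) := by
  have he : (fun t : ℝ => (logDeriv xi (2 + t * I)).re) = fun t : ℝ =>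
      (1 / (2 + (t : ℂ) * I)).re + (1 / (2 + (t : ℂ) * I - 1)).re - Real.log Real.pi / 2 +
      (Complex.digamma (1 + ((t / 2 : ℝ) : ℂ) * I)).re / 2 + (logDeriv riemannZeta (2 + t * I)).re :=
    funext Theta_formula
  rw [he]
  have c1 : Continuous (fun t : ℝ => (1 / (2 + (t : ℂ) * I)).re) := by
    refine Complex.continuous_re.comp (Continuous.div continuous_const (by fun_prop) ?_)
    intro t h
    have := congrArg Complex.re h
    simp at this
  have c2 : Continuous (fun t : ℝ => (1 / (2 + (t : ℂ) * I - 1)).re) := by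
    refine Complex.continuous_re.comp (Continuous.div continuous_const (by fun_prop) ?_)
    intro t h
    have := congrArg Complex.re h
    simp at this
    norm_num at this
  have c3 := Complex.continuous_re.comp Theta_contD
  have c4 := Complex.continuous_re.comp ZetaInt_cont
  exact (((c1.add c2).sub continuous_const).add (c3.div_const 2)).add c4

theorem Theta_D : ∃ C : ℝ, 0 ≤ C ∧ ∀ t : ℝ, 0 ≤ t →
    |(Complex.digamma (1 + ((t / 2 : ℝ) : ℂ) * I)).re - Real.log (1 + t / 2)| ≤ C / (1 + t) := by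
  obtain ⟨C0, hC0, h0⟩ := re_digamma_one
  have hc : ContinuousOn (fun t : ℝ => (Complex.digamma (1 + ((t / 2 : ℝ) : ℂ) * I)).re -
      Real.log (1 + t / 2)) (Icc 0 2) := by
    refine (Complex.continuous_re.comp Theta_contD).continuousOn.sub (ContinuousOn.log (by fun_prop) ?_)
    intro t ht
    have := ht.1
    positivity
  obtain ⟨M, hM⟩ := isCompact_Icc.exists_bound_of_continuousOn hc
  refine ⟨max (3 * M) (3 / 2 * (2 * C0 + 2)), le_max_of_le_right (by positivity), fun t ht => ?_⟩
  rcases le_total t 2 with h2 | h2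
  · have h3 := hM t ⟨ht, h2⟩
    rw [Real.norm_eq_abs] at h3
    have hM0 : 0 ≤ M := (abs_nonneg _).trans h3
    refine h3.trans ?_
    rw [le_div_iff₀ (by positivity)]
    refine le_trans ?_ (le_max_left _ _)
    nlinarith
  · have hy : 1 ≤ t / 2 := by linarith
    have h3 := h0 (t / 2) hy
    have h4 : |Real.log (t / 2) - Real.log (1 + t / 2)| ≤ 1 / (t / 2) := by
      have e1 : Real.log (1 + t / 2) = Real.log (t / 2) + Real.log (1 + 1 / (t / 2)) := by
        rw [← Real.log_mul (by positivity) (by positivity)]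
        congr 1
        field_simp
        ring
      have e2 : 0 ≤ 1 / (t / 2) := by positivity
      have e3 := Real.log_le_sub_one_of_pos (show 0 < 1 + 1 / (t / 2) by positivity)
      have e4 : 0 ≤ Real.log (1 + 1 / (t / 2)) := Real.log_nonneg (by linarith)
      rw [e1, abs_le]
      constructor <;> linarith
    have h5 : |(Complex.digamma (1 + ((t / 2 : ℝ) : ℂ) * I)).re - Real.log (1 + t / 2)| ≤
        C0 / (t / 2) + 1 / (t / 2) := by
      have e : (Complex.digamma (1 + ((t / 2 : ℝ) : ℂ) * I)).re - Real.log (1 + t / 2) =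
          ((Complex.digamma (1 + ((t / 2 : ℝ) : ℂ) * I)).re - Real.log (t / 2)) +
          (Real.log (t / 2) - Real.log (1 + t / 2)) := by ring
      rw [e]
      exact (abs_add_le _ _).trans (add_le_add h3 h4)
    refine h5.trans ?_
    have h6 : C0 / (t / 2) + 1 / (t / 2) ≤ 3 / 2 * (2 * C0 + 2) / (1 + t) := by
      have htp : 0 < t := by linarith
      have e : C0 / (t / 2) + 1 / (t / 2) = (2 * C0 + 2) / t := by
        field_simp
      rw [e, div_le_div_iff₀ htp (by positivity)]
      nlinarith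
    refine h6.trans ?_
    gcongr
    exact le_max_right _ _

theorem Theta_R : ∃ C : ℝ, 0 ≤ C ∧ ∀ t : ℝ, 0 ≤ t →
    |(logDeriv xi (2 + t * I)).re - (logDeriv riemannZeta (2 + t * I)).re -
        (-(Real.log Real.pi / 2) + 1 / 2 * Real.log (1 + t / 2))| ≤ C / (1 + t) := by
  obtain ⟨C0, hC0, h0⟩ := Theta_D
  refine ⟨4 + C0, by positivity, fun t ht => ?_⟩
  have e : (logDeriv xi (2 + t * I)).re - (logDeriv riemannZeta (2 + t * I)).re -
        (-(Real.log Real.pi / 2) + 1 / 2 * Real.log (1 + t / 2)) =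
      (1 / (2 + (t : ℂ) * I)).re + (1 / (2 + (t : ℂ) * I - 1)).re +
      1 / 2 * ((Complex.digamma (1 + ((t / 2 : ℝ) : ℂ) * I)).re - Real.log (1 + t / 2)) := by
    rw [Theta_formula]
    ring
  rw [e]
  have hn : ∀ z : ℂ, 1 ≤ z.re → z.im = t → |(1 / z).re| ≤ 2 / (1 + t) := by
    intro z hz1 hz2
    have h1 : (1 + t) / 2 ≤ ‖z‖ := by
      rcases le_total t 1 with h | h
      · have := (le_abs_self z.re).trans (Complex.abs_re_le_norm z)
        linarith
      · have := (le_abs_self z.im).trans (Complex.abs_im_le_norm z)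
        linarith
    refine (Complex.abs_re_le_norm _).trans ?_
    rw [norm_div, norm_one, div_le_div_iff₀ (lt_of_lt_of_le (by positivity) h1) (by positivity)]
    linarith
  have a1 := hn (2 + (t : ℂ) * I) (by simp) (by simp)
  have a2 := hn (2 + (t : ℂ) * I - 1) (by simp; norm_num) (by simp)
  have a3 := h0 t ht
  have a4 : |1 / 2 * ((Complex.digamma (1 + ((t / 2 : ℝ) : ℂ) * I)).re - Real.log (1 + t / 2))| ≤
      C0 / (1 + t) := by
    rw [abs_mul, abs_of_pos (by norm_num : (0 : ℝ) < 1 / 2)]
    have : 0 ≤ |(Complex.digamma (1 + ((t / 2 : ℝ) : ℂ) * I)).re - Real.log (1 + t / 2)| := abs_nonneg _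
    linarith
  refine (abs_add_le _ _).trans ?_
  refine (add_le_add (abs_add_le _ _) le_rfl).trans ?_
  have e2 : (4 + C0) / (1 + t) = 2 / (1 + t) + 2 / (1 + t) + C0 / (1 + t) := by ring
  rw [e2]
  exact add_le_add (add_le_add a1 a2) a4

theorem theta_asymp : ∃ c C : ℝ, 0 ≤ C ∧ ∀ T : ℝ, 1 ≤ T →
    |(∫ t in (0 : ℝ)..T, (logDeriv xi (2 + t * I)).re) - (T / 2 * Real.log T + c * T)| ≤
      C * (1 + Real.log T) := by
  obtain ⟨C1, hC1, hR⟩ := Theta_R
  obtain ⟨C2, hC2, hZ⟩ := zeta_int_bdd
  refine ⟨-(Real.log Real.pi / 2) - (1 + Real.log 2) / 2, C1 + C2 + 2, by positivity, fun T hT => ?_⟩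
  have hT0 : 0 ≤ T := by linarith
  have hlT : 0 ≤ Real.log T := Real.log_nonneg hT
  have hcL := Theta_contL
  have hcZ : Continuous (fun t : ℝ => (logDeriv riemannZeta (2 + t * I)).re) :=
    Complex.continuous_re.comp ZetaInt_cont
  have hcP : ContinuousOn (fun t : ℝ => -(Real.log Real.pi / 2) + 1 / 2 * Real.log (1 + t / 2)) (uIcc 0 T) := by
    rw [uIcc_of_le hT0]
    refine continuousOn_const.add (continuousOn_const.mul ?_)
    refine ContinuousOn.log (by fun_prop) ?_
    intro t ht
    have := ht.1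
    positivity
  have iL : IntervalIntegrable (fun t : ℝ => (logDeriv xi (2 + t * I)).re) volume 0 T := hcL.intervalIntegrable _ _
  have iZ : IntervalIntegrable (fun t : ℝ => (logDeriv riemannZeta (2 + t * I)).re) volume 0 T :=
    hcZ.intervalIntegrable _ _
  have iP := hcP.intervalIntegrable (μ := volume)
  have hsplit : ∫ t in (0 : ℝ)..T, (logDeriv xi (2 + t * I)).re =
      (∫ t in (0 : ℝ)..T, ((logDeriv xi (2 + t * I)).re - (logDeriv riemannZeta (2 + t * I)).re -
        (-(Real.log Real.pi / 2) + 1 / 2 * Real.log (1 + t / 2)))) +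
      (∫ t in (0 : ℝ)..T, (logDeriv riemannZeta (2 + t * I)).re) +
      ∫ t in (0 : ℝ)..T, (-(Real.log Real.pi / 2) + 1 / 2 * Real.log (1 + t / 2)) := by
    rw [intervalIntegral.integral_sub (iL.sub iZ) iP, intervalIntegral.integral_sub iL iZ]
    ring
  have hP : ∫ t in (0 : ℝ)..T, (-(Real.log Real.pi / 2) + 1 / 2 * Real.log (1 + t / 2)) =
      -(Real.log Real.pi / 2) * T + ((1 + T / 2) * Real.log (1 + T / 2) - T / 2) := by
    have hder : ∀ t ∈ uIcc 0 T, HasDerivAt (fun t : ℝ => -(Real.log Real.pi / 2) * t +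
        ((1 + t / 2) * Real.log (1 + t / 2) - t / 2))
        (-(Real.log Real.pi / 2) + 1 / 2 * Real.log (1 + t / 2)) t := by
      intro t ht
      rw [uIcc_of_le hT0] at ht
      have ht0 := ht.1
      have h1 : (1 + t / 2) ≠ 0 := by positivity
      have h2 : HasDerivAt (fun t : ℝ => 1 + t / 2) (1 / 2) t := by
        simpa using ((hasDerivAt_id t).div_const 2).const_add 1
      have h3 := h2.mul (h2.log h1)
      have h4 : HasDerivAt (fun t : ℝ => t / 2) (1 / 2) t := by
        simpa using (hasDerivAt_id t).div_const 2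
      have h5 : HasDerivAt (fun t : ℝ => -(Real.log Real.pi / 2) * t) (-(Real.log Real.pi / 2)) t := by
        simpa using (hasDerivAt_id t).const_mul (-(Real.log Real.pi / 2))
      have h6 := h5.add (h3.sub h4)
      refine h6.congr_deriv ?_
      field_simp
      ring
    rw [intervalIntegral.integral_eq_sub_of_hasDerivAt hder iP]
    simp
  have hRi : |∫ t in (0 : ℝ)..T, ((logDeriv xi (2 + t * I)).re - (logDeriv riemannZeta (2 + t * I)).re -
        (-(Real.log Real.pi / 2) + 1 / 2 * Real.log (1 + t / 2)))| ≤ C1 * Real.log (1 + T) := by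
    have hg : ContinuousOn (fun t : ℝ => C1 / (1 + t)) (uIcc 0 T) := by
      rw [uIcc_of_le hT0]
      refine ContinuousOn.div continuousOn_const (by fun_prop) ?_
      intro t ht
      have := ht.1
      positivity
    have hbd := intervalIntegral.norm_integral_le_of_norm_le (μ := volume) hT0
      (f := fun t : ℝ => ((logDeriv xi (2 + t * I)).re - (logDeriv riemannZeta (2 + t * I)).re -
        (-(Real.log Real.pi / 2) + 1 / 2 * Real.log (1 + t / 2)))) (g := fun t : ℝ => C1 / (1 + t))
      (Filter.Eventually.of_forall fun t ht => by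
        rw [Real.norm_eq_abs]
        exact hR t ht.1.le) hg.intervalIntegrable
    rw [Real.norm_eq_abs] at hbd
    refine hbd.trans (le_of_eq ?_)
    have hder : ∀ t ∈ uIcc 0 T, HasDerivAt (fun t : ℝ => C1 * Real.log (1 + t)) (C1 / (1 + t)) t := by
      intro t ht
      rw [uIcc_of_le hT0] at ht
      have ht0 := ht.1
      have h1 : (1 + t) ≠ 0 := by positivity
      have h2 : HasDerivAt (fun t : ℝ => 1 + t) 1 t := (hasDerivAt_id t).const_add 1
      have h3 := (h2.log h1).const_mul C1
      refine h3.congr_deriv ?_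
      ring
    rw [intervalIntegral.integral_eq_sub_of_hasDerivAt hder hg.intervalIntegrable]
    simp
  have hZi := hZ T hT0
  rw [hsplit, hP]
  have hl1 : Real.log (1 + T) ≤ 1 + Real.log T := by
    have h1 : Real.log (1 + T) ≤ Real.log (2 * T) := Real.log_le_log (by positivity) (by linarith)
    rw [Real.log_mul (by norm_num) (by positivity)] at h1
    have h2 := Real.log_two_lt_d9
    linarith
  have hmain : |(1 + T / 2) * Real.log (1 + T / 2) - T / 2 -
      (T / 2 * Real.log T - T / 2 * (1 + Real.log 2))| ≤ 2 * (1 + Real.log T) := by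
    have hTp : 0 < T := by linarith
    have e1 : Real.log (1 + T / 2) = Real.log (T / 2) + Real.log (1 + 2 / T) := by
      rw [← Real.log_mul (by positivity) (by positivity)]
      congr 1
      field_simp
      ring
    have e2 : Real.log (T / 2) = Real.log T - Real.log 2 := Real.log_div (by positivity) (by norm_num)
    have e3 : Real.log (1 + 2 / T) ≤ 2 / T := by
      have := Real.log_le_sub_one_of_pos (show 0 < 1 + 2 / T by positivity)
      linarith
    have e4 : 0 ≤ Real.log (1 + 2 / T) := Real.log_nonneg (by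
      have : 0 ≤ 2 / T := by positivity
      linarith)
    have e5 : T / 2 * Real.log (1 + 2 / T) ≤ 1 := by
      calc T / 2 * Real.log (1 + 2 / T) ≤ T / 2 * (2 / T) := mul_le_mul_of_nonneg_left e3 (by positivity)
        _ = 1 := by field_simp
    have e6 : 0 ≤ T / 2 * Real.log (1 + 2 / T) := by positivity
    have e7 : Real.log (1 + T / 2) ≤ 1 + Real.log T := by
      refine le_trans (Real.log_le_log (by positivity) ?_) hl1
      linarith
    have e8 : 0 ≤ Real.log (1 + T / 2) := Real.log_nonneg (by linarith)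
    have e9 : (1 + T / 2) * Real.log (1 + T / 2) - T / 2 - (T / 2 * Real.log T - T / 2 * (1 + Real.log 2)) =
        Real.log (1 + T / 2) + T / 2 * Real.log (1 + 2 / T) := by
      have : (1 + T / 2) * Real.log (1 + T / 2) = Real.log (1 + T / 2) +
          T / 2 * (Real.log T - Real.log 2 + Real.log (1 + 2 / T)) := by
        rw [← e2, ← e1]
        ring
      rw [this]
      ring
    rw [e9, abs_of_nonneg (by linarith)]
    linarith
  have hRi2 := hRi.trans (mul_le_mul_of_nonneg_left hl1 hC1)
  rw [abs_le] at hRi2 hZi hmain ⊢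
  have hC2l : C2 ≤ C2 * (1 + Real.log T) := by nlinarith
  constructor <;> nlinarith [hRi2.1, hRi2.2, hZi.1, hZi.2, hmain.1, hmain.2]

end Pool.Agent.Lib.MP_ec260d_nt
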