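import Mathlib
import Pool.Agent.Lib.MP_ec260d_nt.Theta
import Pool.Agent.Lib.MP_ec260d_nt.PzInt

/-!
# JOB RvM: the Riemann - von Mangoldt formula (with an unspecified constant `c`)

`NZ T = ∑' a, mx a * [0 < a.im ≤ T]`. By `re_logDeriv_xi`:
`∫_0^T Re (logDeriv xi (2 + i t)) dt = ∫_0^T ∑' a, mx a pz a t dt + α T = ∑' a, mx a ∫_0^T pz a t dt + α T`; exchange by
`intervalIntegral.hasSum_integral_of_summable_norm` or `hasSum_integral_of_summable_integral_norm`: on `[0, T]`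
`|mx a pz a t| ≤ 8 (1+T)^2 mx a / (1 + |0 - a.im|)^2` (`pz_bound`, `1 + |0 - γ| ≤ (1 + T)(1 + |t - γ|)`), summable by `zero_sum 2`; `pz a` is
continuous for zeros `a` (`0 < Re a < 1`, `xi_zero_re`), and the terms with `mx a = 0` vanish.
By `pz_int` and `zero_sum (5/4)` (at `t = 0` and `t = T`):
`|∑' mx a ∫ pz a - π NZ T| ≤ 16 T^(1/4) (C log 2 + C log (2 + T)) ≤ C' T^(1/2)` (summability of the indicator series too: it is
bounded by the sum of two summable series; `log (2 + T) ≤ C T^(1/4)`). With `theta_asymp`: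
`π NZ T = (T/2) log T + (c₀ - α) T + O(T^(1/2))`, i.e. `NZ T = T/(2π) (log T - c) + O(T^(1/2))`, `c = -2 (c₀ - α)`.
-/

open Complex Set Filter Topology MeasureTheory

namespace Pool.Agent.Lib.MP_ec260d_nt

open Pool.Agent.Lib.MP_00e05b_nt

/-- number of zeros with ordinate in `(0, T]`, with multiplicity -/
noncomputable def NZ (T : ℝ) : ℝ :=
  ∑' a : ℂ, (mx a : ℝ) * (if 0 < a.im ∧ a.im ≤ T then 1 else 0)

private lemma RvM_re {a : ℂ} (ha : mx a ≠ 0) : 0 < a.re ∧ a.re < 1 :=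
  xi_zero_re ((mx_ne_zero_iff a).1 ha)

private lemma RvM_pz_cont {a : ℂ} (ha : mx a ≠ 0) : Continuous (fun t : ℝ => pz a t) := by
  obtain ⟨h0, h1⟩ := RvM_re ha
  unfold pz
  refine Continuous.div continuous_const (by fun_prop) fun t => ?_
  have : 0 < (2 - a.re) ^ 2 := by
    have : 0 < 2 - a.re := by linarith
    positivity
  positivity

private lemma RvM_term_cont (a : ℂ) : Continuous (fun t : ℝ => (mx a : ℝ) * pz a t) := by
  by_cases ha : mx a = 0
  · simp only [ha, Nat.cast_zero, zero_mul]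
    exact continuous_const
  · exact continuous_const.mul (RvM_pz_cont ha)

private lemma RvM_term_bound (a : ℂ) {t T : ℝ} (ht : 0 ≤ t) (htT : t ≤ T) :
    ‖(mx a : ℝ) * pz a t‖ ≤ 8 * (1 + T) ^ 2 * ((mx a : ℝ) / (1 + |0 - a.im|) ^ (2 : ℝ)) := by
  by_cases ha : mx a = 0
  · simp [ha]
  · obtain ⟨h0, h1⟩ := RvM_re ha
    obtain ⟨p0, p1⟩ := pz_bound h0 h1 t
    have hm : (0 : ℝ) ≤ (mx a : ℝ) := Nat.cast_nonneg _
    rw [norm_mul, Real.norm_of_nonneg hm, Real.norm_of_nonneg p0.le]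
    have hT : 0 ≤ T := ht.trans htT
    have hx : 0 ≤ |t - a.im| := abs_nonneg _
    have hg : |0 - a.im| ≤ T + |t - a.im| := by
      have h3 : (0 : ℝ) - a.im = (t - a.im) - t := by ring
      have h4 := abs_sub (t - a.im) t
      rw [← h3, abs_of_nonneg ht] at h4
      linarith
    have h5 : 1 + |0 - a.im| ≤ (1 + T) * (1 + |t - a.im|) := by
      nlinarith only [hg, mul_nonneg hT hx]
    have h6 : 0 < 1 + |0 - a.im| := by positivity
    have h7 : 0 < 1 + |t - a.im| := by positivity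
    have h8 : pz a t ≤ 8 * (1 + T) ^ 2 / (1 + |0 - a.im|) ^ (2 : ℝ) := by
      refine p1.trans ?_
      have e1 : ∀ x : ℝ, x ^ (2 : ℝ) = x ^ (2 : ℕ) := fun x => by
        rw [← Real.rpow_natCast]
        norm_num
      rw [e1, e1, div_le_div_iff₀ (by positivity) (by positivity)]
      have h9 : (1 + |0 - a.im|) ^ 2 ≤ ((1 + T) * (1 + |t - a.im|)) ^ 2 := pow_le_pow_left₀ h6.le h5 2
      nlinarith only [h9]
    calc (mx a : ℝ) * pz a t ≤ (mx a : ℝ) * (8 * (1 + T) ^ 2 / (1 + |0 - a.im|) ^ (2 : ℝ)) :=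
          mul_le_mul_of_nonneg_left h8 hm
      _ = 8 * (1 + T) ^ 2 * ((mx a : ℝ) / (1 + |0 - a.im|) ^ (2 : ℝ)) := by ring

private lemma RvM_summ {T : ℝ} : Summable (fun a : ℂ =>
    8 * (1 + T) ^ 2 * ((mx a : ℝ) / (1 + |0 - a.im|) ^ (2 : ℝ))) := by
  obtain ⟨C, _, h⟩ := zero_sum 2 (by norm_num)
  exact ((h 0).1).mul_left _

private lemma RvM_countable : ({a : ℂ | mx a ≠ 0}).Countable := by
  obtain ⟨C, _, h⟩ := zero_sum 2 (by norm_num)
  refine ((h 0).1).countable_support.mono fun a ha => ?_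
  simp only [Function.mem_support]
  have : 0 < (1 + |0 - a.im|) ^ (2 : ℝ) := Real.rpow_pos_of_pos (by positivity) _
  exact div_ne_zero (Nat.cast_ne_zero.2 ha) this.ne'

private lemma RvM_contOn (T : ℝ) :
    ContinuousOn (fun t : ℝ => ∑' a : ℂ, (mx a : ℝ) * pz a t) (Icc 0 T) :=
  continuousOn_tsum (fun a => (RvM_term_cont a).continuousOn) RvM_summ
    (fun a _ ht => RvM_term_bound a ht.1 ht.2)

private lemma RvM_hasSum {T : ℝ} (hT : 0 ≤ T) :
    HasSum (fun a : ℂ => (mx a : ℝ) * ∫ t in (0 : ℝ)..T, pz a t)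
      (∫ t in (0 : ℝ)..T, ∑' a : ℂ, (mx a : ℝ) * pz a t) := by
  set S : Set ℂ := {a : ℂ | mx a ≠ 0} with hS
  have : Countable S := RvM_countable.to_subtype
  have hsub : ∀ f : ℂ → ℝ, Function.support (fun a : ℂ => (mx a : ℝ) * f a) ⊆ S := by
    intro f a ha
    simp only [Function.mem_support] at ha
    intro h0
    apply ha
    rw [h0, Nat.cast_zero, zero_mul]
  have h1 : HasSum (fun a : S => ∫ t in (0 : ℝ)..T, (mx (a : ℂ) : ℝ) * pz (a : ℂ) t)
      (∫ t in (0 : ℝ)..T, ∑' a : ℂ, (mx a : ℝ) * pz a t) := by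
    refine intervalIntegral.hasSum_integral_of_dominated_convergence
      (fun (a : S) (_ : ℝ) => 8 * (1 + T) ^ 2 * ((mx (a : ℂ) : ℝ) / (1 + |0 - (a : ℂ).im|) ^ (2 : ℝ)))
      (fun a => (RvM_term_cont a).aestronglyMeasurable) ?_ ?_ ?_ ?_
    · intro a
      refine Eventually.of_forall fun t ht => ?_
      rw [uIoc_of_le hT] at ht
      exact RvM_term_bound a ht.1.le ht.2
    · refine Eventually.of_forall fun t _ => ?_
      exact RvM_summ.subtype S
    · exact intervalIntegrable_const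
    · refine Eventually.of_forall fun t ht => ?_
      rw [uIoc_of_le hT] at ht
      have hs : Summable (fun a : ℂ => (mx a : ℝ) * pz a t) :=
        Summable.of_norm_bounded RvM_summ (fun a => RvM_term_bound a ht.1.le ht.2)
      exact (hasSum_subtype_iff_of_support_subset (hsub (fun a => pz a t))).2 hs.hasSum
  have h2 : HasSum ((fun a : ℂ => (mx a : ℝ) * ∫ t in (0 : ℝ)..T, pz a t) ∘ ((↑) : S → ℂ))
      (∫ t in (0 : ℝ)..T, ∑' a : ℂ, (mx a : ℝ) * pz a t) := by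
    refine h1.congr_fun ?_
    intro a
    simp only [Function.comp_apply]
    rw [intervalIntegral.integral_const_mul]
  exact (hasSum_subtype_iff_of_support_subset (hsub (fun a => ∫ t in (0 : ℝ)..T, pz a t))).1 h2

theorem rvm : ∃ c C : ℝ, 0 ≤ C ∧ ∀ T : ℝ, 1 ≤ T →
    |NZ T - T / (2 * Real.pi) * (Real.log T - c)| ≤ C * T ^ ((1 : ℝ) / 2) := by
  obtain ⟨c0, C1, hC1, hth⟩ := theta_asymp
  obtain ⟨α, hα⟩ := re_logDeriv_xi
  obtain ⟨C2, hC2, hz⟩ := zero_sum (5 / 4) (by norm_num)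
  refine ⟨-2 * (c0 - α), 144 * C2 + 3 * C1, by positivity, fun T hT => ?_⟩
  have hT0 : 0 ≤ T := by linarith
  have hπ := Real.pi_pos
  set F : ℝ → ℝ := fun t => ∑' a : ℂ, (mx a : ℝ) * pz a t with hF
  have hFi : IntervalIntegrable F volume 0 T := by
    refine ContinuousOn.intervalIntegrable ?_
    rw [uIcc_of_le hT0]
    exact RvM_contOn T
  have e1 : (∫ t in (0 : ℝ)..T, (logDeriv xi (2 + t * I)).re) = (∫ t in (0 : ℝ)..T, F t) + α * T := by
    rw [intervalIntegral.integral_congr (g := fun t => F t + α) (fun t _ => hα t),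
      intervalIntegral.integral_add hFi intervalIntegrable_const, intervalIntegral.integral_const,
      smul_eq_mul]
    ring
  have hsum := RvM_hasSum hT0
  -- the difference series
  set J : ℂ → ℝ := fun a => ∫ t in (0 : ℝ)..T, pz a t with hJ
  set ind : ℂ → ℝ := fun a => if 0 < a.im ∧ a.im ≤ T then 1 else 0 with hind
  set u : ℂ → ℝ := fun a => (mx a : ℝ) / (1 + |0 - a.im|) ^ ((5 : ℝ) / 4) with hu
  set v : ℂ → ℝ := fun a => (mx a : ℝ) / (1 + |T - a.im|) ^ ((5 : ℝ) / 4) with hv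
  have hus : Summable u := (hz 0).1
  have hvs : Summable v := (hz T).1
  have hub : ∑' a, u a ≤ C2 * Real.log 2 := by
    have := (hz 0).2
    rwa [abs_zero, add_zero] at this
  have hvb : ∑' a, v a ≤ C2 * Real.log (2 + T) := by
    have := (hz T).2
    rwa [abs_of_nonneg hT0] at this
  have hb : ∀ a, ‖(mx a : ℝ) * (J a - Real.pi * ind a)‖ ≤ 16 * T ^ ((1 : ℝ) / 4) * (u a + v a) := by
    intro a
    by_cases ha : mx a = 0
    · simp [ha, hu, hv]
    · obtain ⟨h0, h1⟩ := RvM_re ha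
      have hm : (0 : ℝ) ≤ (mx a : ℝ) := Nat.cast_nonneg _
      have := mul_le_mul_of_nonneg_left (pz_int h0 h1 hT) hm
      rw [norm_mul, Real.norm_of_nonneg hm, Real.norm_eq_abs]
      refine this.trans (le_of_eq ?_)
      simp only [hu, hv]
      ring
  have hgs : Summable (fun a => (mx a : ℝ) * (J a - Real.pi * ind a)) :=
    Summable.of_norm_bounded ((hus.add hvs).mul_left _) hb
  have hG : |∑' a, (mx a : ℝ) * (J a - Real.pi * ind a)| ≤
      16 * T ^ ((1 : ℝ) / 4) * (C2 * Real.log 2 + C2 * Real.log (2 + T)) := by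
    have h1 : ‖∑' a, (mx a : ℝ) * (J a - Real.pi * ind a)‖ ≤ ∑' a, 16 * T ^ ((1 : ℝ) / 4) * (u a + v a) :=
      tsum_of_norm_bounded ((hus.add hvs).mul_left _).hasSum hb
    rw [tsum_mul_left, hus.tsum_add hvs, Real.norm_eq_abs] at h1
    exact h1.trans (mul_le_mul_of_nonneg_left (add_le_add hub hvb) (by positivity))
  have hNZ : HasSum (fun a : ℂ => (mx a : ℝ) * ind a)
      (((∫ t in (0 : ℝ)..T, F t) - ∑' a, (mx a : ℝ) * (J a - Real.pi * ind a)) / Real.pi) := by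
    have h1 := (hsum.sub hgs.hasSum).div_const Real.pi
    refine h1.congr_fun ?_
    intro a
    field_simp
    ring
  have hNZ2 : NZ T = ((∫ t in (0 : ℝ)..T, F t) - ∑' a, (mx a : ℝ) * (J a - Real.pi * ind a)) / Real.pi :=
    hNZ.tsum_eq
  set G := ∑' a, (mx a : ℝ) * (J a - Real.pi * ind a) with hGdef
  set E := (∫ t in (0 : ℝ)..T, (logDeriv xi (2 + t * I)).re) - (T / 2 * Real.log T + c0 * T) with hE
  have hE1 : |E| ≤ C1 * (1 + Real.log T) := hth T hT
  have hmain : NZ T - T / (2 * Real.pi) * (Real.log T - -2 * (c0 - α)) = (E - G) / Real.pi := by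
    rw [hNZ2, hE, e1]
    field_simp
    ring
  rw [hmain, abs_div, abs_of_pos hπ]
  -- elementary bounds
  have q1 : (1 : ℝ) ≤ T ^ ((1 : ℝ) / 4) := Real.one_le_rpow hT (by norm_num)
  have q2 : (1 : ℝ) ≤ T ^ ((1 : ℝ) / 2) := Real.one_le_rpow hT (by norm_num)
  have q3 : T ^ ((1 : ℝ) / 4) * T ^ ((1 : ℝ) / 4) = T ^ ((1 : ℝ) / 2) := by
    rw [← Real.rpow_add (by linarith)]
    norm_num
  have q4 : Real.log T ≤ 2 * T ^ ((1 : ℝ) / 2) := by
    have := Real.log_le_rpow_div hT0 (by norm_num : (0 : ℝ) < 1 / 2)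
    linarith
  have q5 : Real.log (2 + T) ≤ 8 * T ^ ((1 : ℝ) / 4) := by
    have h1 := Real.log_le_rpow_div (by linarith : (0 : ℝ) ≤ 2 + T) (by norm_num : (0 : ℝ) < 1 / 4)
    have h2 : (2 + T) ^ ((1 : ℝ) / 4) ≤ (16 * T) ^ ((1 : ℝ) / 4) :=
      Real.rpow_le_rpow (by linarith) (by linarith) (by norm_num)
    have h3 : (16 * T) ^ ((1 : ℝ) / 4) = 2 * T ^ ((1 : ℝ) / 4) := by
      rw [Real.mul_rpow (by norm_num) hT0]
      congr 1
      rw [show (16 : ℝ) = 2 ^ (4 : ℝ) by norm_num, ← Real.rpow_mul (by norm_num)]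
      norm_num
    linarith
  have q6 : Real.log 2 ≤ 1 := by
    have := Real.log_two_lt_d9
    linarith
  have hGb : |G| ≤ 144 * C2 * T ^ ((1 : ℝ) / 2) := by
    refine hG.trans ?_
    have h1 : C2 * Real.log 2 + C2 * Real.log (2 + T) ≤ 9 * C2 * T ^ ((1 : ℝ) / 4) := by
      have a1 := mul_le_mul_of_nonneg_left (q6.trans q1) hC2
      have a2 := mul_le_mul_of_nonneg_left q5 hC2
      linarith
    calc 16 * T ^ ((1 : ℝ) / 4) * (C2 * Real.log 2 + C2 * Real.log (2 + T))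
        ≤ 16 * T ^ ((1 : ℝ) / 4) * (9 * C2 * T ^ ((1 : ℝ) / 4)) :=
          mul_le_mul_of_nonneg_left h1 (by positivity)
      _ = 144 * C2 * (T ^ ((1 : ℝ) / 4) * T ^ ((1 : ℝ) / 4)) := by ring
      _ = 144 * C2 * T ^ ((1 : ℝ) / 2) := by rw [q3]
  have hEb : |E| ≤ 3 * C1 * T ^ ((1 : ℝ) / 2) := by
    refine hE1.trans ?_
    have := mul_le_mul_of_nonneg_left (add_le_add q2 q4) hC1
    linarith
  have hEG : |E - G| ≤ (144 * C2 + 3 * C1) * T ^ ((1 : ℝ) / 2) := by
    have := abs_sub E G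
    linarith
  have hpi1 : 1 ≤ Real.pi := by
    have := Real.pi_gt_three
    linarith
  exact (div_le_self (abs_nonneg _) hpi1).trans hEG

end Pool.Agent.Lib.MP_ec260d_nt
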