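import Mathlib
import Pool.Agent.Lib.MP_ec260d_nt.ZDefs
import Pool.Agent.Lib.MP_ec260d_nt.RvM

/-!
# JOB ZCount: `zeroCount T = NZ T`; the set `Gam`

For `Im ρ > 0`, `ζ ρ = 0` iff `xi ρ = 0` (`xi_zero_iff`) and then `0 < Re ρ < 1` (`xi_zero_re`) and
`mx ρ = analyticOrderNatAt riemannZeta ρ` (`mx_eq_order` in `MP_00e05b_nt/Zeros.lean`). The set
`{ρ | ζ ρ = 0, 0 < Im ρ ≤ T}` is finite (`finite_zeros` for `xi`, `xi_growth`, norm `≤ 1 + T`).
`zeroCount_eq`: `finsum_mem_eq_finite_toFinset_sum` and `tsum_eq_sum` on that finite set (elsewhere the term is `0`: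
either the indicator is `0` or `mx a = 0`, `mx_ne_zero_iff`).
`mem_Gam_iff`: `γ ∈ Gam ↔ 0 < γ ∧ ∃ a, xi a = 0 ∧ a.im = γ` (take `a = β + iγ`; conversely `β = a.re`).
-/

open Complex Set Filter Topology

namespace Pool.Agent.Lib.MP_ec260d_nt

open Pool.Agent.Lib.MP_00e05b_nt

private lemma ZCount_xi {ρ : ℂ} (h : riemannZeta ρ = 0) (h0 : 0 < ρ.im) : xi ρ = 0 :=
  (xi_zero_iff h0).2 h

private lemma ZCount_finite (T : ℝ) :
    {ρ : ℂ | riemannZeta ρ = 0 ∧ 0 < ρ.im ∧ ρ.im ≤ T}.Finite := by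
  obtain ⟨C, hC⟩ := xi_growth
  refine (finite_zeros hC (1 + T)).subset ?_
  rintro ρ ⟨h1, h2, h3⟩
  have h4 := ZCount_xi h1 h2
  refine ⟨h4, ?_⟩
  obtain ⟨h5, h6⟩ := xi_zero_re h4
  refine (Complex.norm_le_abs_re_add_abs_im ρ).trans ?_
  rw [abs_of_pos h5, abs_of_pos h2]
  linarith

private lemma ZCount_mx {ρ : ℂ} (h : riemannZeta ρ = 0) (h0 : 0 < ρ.im) :
    mx ρ = analyticOrderNatAt riemannZeta ρ := by
  have h4 := ZCount_xi h h0
  obtain ⟨h5, h6⟩ := xi_zero_re h4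
  refine mx_eq_order h5 ?_
  rintro rfl
  simp at h0

theorem zeroCount_eq (T : ℝ) : (zeroCount T : ℝ) = NZ T := by
  have hf := ZCount_finite T
  unfold zeroCount NZ
  rw [finsum_mem_eq_finite_toFinset_sum _ hf, tsum_eq_sum (s := hf.toFinset) ?_]
  · push_cast
    refine Finset.sum_congr rfl ?_
    intro a ha
    obtain ⟨h1, h2, h3⟩ := (Set.Finite.mem_toFinset hf).1 ha
    rw [ZCount_mx h1 h2, if_pos ⟨h2, h3⟩, mul_one]
  · intro a ha
    by_cases h : 0 < a.im ∧ a.im ≤ T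
    · have h1 : mx a = 0 := by
        by_contra h2
        have h3 := (mx_ne_zero_iff a).1 h2
        exact ha ((Set.Finite.mem_toFinset hf).2 ⟨(xi_zero_iff h.1).1 h3, h.1, h.2⟩)
      rw [h1, Nat.cast_zero, zero_mul]
    · rw [if_neg h, mul_zero]

theorem mem_Gam_iff (γ : ℝ) : γ ∈ Gam ↔ 0 < γ ∧ ∃ a : ℂ, xi a = 0 ∧ a.im = γ := by
  constructor
  · rintro ⟨h1, β, h2⟩
    have him : ((β : ℂ) + (γ : ℂ) * I).im = γ := by simp
    exact ⟨h1, β + γ * I, ZCount_xi h2 (by rw [him]; exact h1), him⟩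
  · rintro ⟨h1, a, h2, rfl⟩
    refine ⟨h1, a.re, ?_⟩
    rw [Complex.re_add_im]
    exact (xi_zero_iff h1).1 h2

end Pool.Agent.Lib.MP_ec260d_nt
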