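import Mathlib
import Pool.Agent.Lib.MP_ec260d_nt.DigammaUnif
import Pool.Agent.Lib.MP_ec260d_nt.LogDerivXi
import Pool.Agent.Lib.MP_ec260d_nt.ZetaInt

/-!
# JOB ReUnif: `Re (xi'/xi)(s) = (1/2) log Im s + O(1)` for `3/2 ≤ Re s ≤ 5`, `Im s ≥ 2`

`logDeriv_xi_formula`, `‖1/s‖ ≤ 1`, `‖1/(s-1)‖ ≤ 2`, `re_digamma_unif` at `s/2` (`3/4 ≤ Re ≤ 5/2`, `|Im| = Im s / 2 ≥ 1`,
`log (Im s / 2) = log (Im s) - log 2`), `logDeriv_zeta_bdd`.
-/

open Complex Set Filter Topology

namespace Pool.Agent.Lib.MP_ec260d_nt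

open Pool.Agent.Lib.MP_00e05b_nt

theorem re_logDeriv_unif : ∃ C : ℝ, 0 ≤ C ∧ ∀ s : ℂ, 3 / 2 ≤ s.re → s.re ≤ 5 → 2 ≤ s.im →
    |(logDeriv xi s).re - 1 / 2 * Real.log s.im| ≤ C := by
  obtain ⟨C1, hC1, h1⟩ := re_digamma_unif
  obtain ⟨C2, hC2, h2⟩ := logDeriv_zeta_bdd
  refine ⟨1 + 2 + |Real.log Real.pi| / 2 + C1 / 2 + |Real.log 2| / 2 + C2, by positivity, ?_⟩
  intro s hs1 hs2 hs3
  have hs0 : 1 < s.re := by linarith
  rw [logDeriv_xi_formula hs0]
  have e1 : |(1 / s).re| ≤ 1 := by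
    refine (Complex.abs_re_le_norm _).trans ?_
    rw [norm_div, norm_one, div_le_one (by
      refine norm_pos_iff.2 ?_
      intro h0
      rw [h0] at hs0
      simp at hs0
      linarith)]
    exact hs0.le.trans (Complex.re_le_norm s)
  have e2 : |(1 / (s - 1)).re| ≤ 2 := by
    refine (Complex.abs_re_le_norm _).trans ?_
    have h3 : 1 / 2 ≤ ‖s - 1‖ := by
      have h4 : (s - 1).re ≤ ‖s - 1‖ := Complex.re_le_norm _
      rw [Complex.sub_re, Complex.one_re] at h4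
      linarith
    rw [norm_div, norm_one, div_le_iff₀ (by linarith)]
    linarith
  have hre : (s / 2).re = s.re / 2 := by simp
  have him : (s / 2).im = s.im / 2 := by simp
  have e3 := h1 (s / 2) (by rw [hre]; linarith) (by rw [hre]; linarith) (by
    rw [him, abs_of_nonneg (by linarith)]; linarith)
  rw [him, abs_of_nonneg (show (0 : ℝ) ≤ s.im / 2 by linarith),
    Real.log_div (by linarith) (by norm_num)] at e3
  have e4 : |(logDeriv riemannZeta s).re| ≤ C2 :=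
    (Complex.abs_re_le_norm _).trans (h2 s hs1)
  have e5 : ((Real.log Real.pi : ℂ) / 2).re = Real.log Real.pi / 2 := by simp
  have e6 : (Complex.digamma (s / 2) / 2).re = (Complex.digamma (s / 2)).re / 2 := by simp
  rw [Complex.add_re, Complex.add_re, Complex.sub_re, Complex.add_re, e5, e6]
  have e7 := le_abs_self (Real.log Real.pi)
  have e8 := neg_abs_le (Real.log Real.pi)
  have e9 := le_abs_self (Real.log 2)
  have e10 := neg_abs_le (Real.log 2)
  rw [abs_le] at e1 e2 e3 e4 ⊢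
  constructor <;> linarith [e1.1, e1.2, e2.1, e2.2, e3.1, e3.2, e4.1, e4.2]

end Pool.Agent.Lib.MP_ec260d_nt
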