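import Mathlib

/-!
# JOB SmallDisc: propagation of smallness from a small disc to a larger one

Take `f` differentiable on `ball z0 R`, `‖f‖ ≤ C` there and `‖f‖ ≤ κ` on `ball z0 r`. The Taylor series at `z0` converges to
`f` on `ball z0 R` (`DifferentiableOn.hasFPowerSeriesOnBall` or `Complex.hasSum_taylorSeries_on_ball`), with coefficients
`c n = iteratedDeriv n f z0 / n!`. Cauchy estimates: `‖c n‖ ≤ κ / r₁^n` for every `r₁ < r` and `‖c n‖ ≤ C / R₁^n` for every `R₁ < R`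
(`Complex.norm_iteratedDeriv_le_of_forall_mem_sphere_norm_le`). Choose `R₁ ∈ (ρ, R)`, `r₁ = r / 2` and `N` with
`∑_{n ≥ N} C (ρ / R₁)^n ≤ η / 2`; then `κ` with `κ ∑_{n < N} (ρ / r₁)^n ≤ η / 2`. For `‖z - z0‖ ≤ ρ`:
`‖f z‖ ≤ ∑_{n < N} ‖c n‖ ρ^n + ∑_{n ≥ N} ‖c n‖ ρ^n ≤ η`.
(Alternatively Hadamard's three circles.)
-/

open Complex Metric Set Filter Topology

namespace Pool.Agent.Lib.MP_ec260d_nt

private theorem small_disc_term {f : ℂ → ℂ} {z0 z : ℂ} {r1 R M ρ : ℝ} (h1 : 0 < r1) (h2 : r1 < R)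
    (hf : DifferentiableOn ℂ f (ball z0 R)) (hM : ∀ z ∈ closedBall z0 r1, ‖f z‖ ≤ M)
    (hz : ‖z - z0‖ ≤ ρ) (n : ℕ) :
    ‖(n.factorial : ℂ)⁻¹ • (z - z0) ^ n • iteratedDeriv n f z0‖ ≤ M * (ρ / r1) ^ n := by
  have hd : DiffContOnCl ℂ f (ball z0 r1) := by
    apply DifferentiableOn.diffContOnCl
    exact hf.mono ((closure_ball_subset_closedBall).trans (closedBall_subset_ball h2))
  have h3 := Complex.norm_iteratedDeriv_le_of_forall_mem_sphere_norm_le n h1 hd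
    (fun z hz => hM z (sphere_subset_closedBall hz))
  have hn : (0 : ℝ) < n.factorial := by exact_mod_cast n.factorial_pos
  have hM0 : 0 ≤ M := (norm_nonneg _).trans (hM z0 (mem_closedBall_self h1.le))
  rw [norm_smul, norm_smul, norm_pow, norm_inv, Complex.norm_natCast]
  have h4 : ‖z - z0‖ ^ n ≤ ρ ^ n := pow_le_pow_left₀ (norm_nonneg _) hz n
  have h5 : 0 ≤ (n.factorial : ℝ) * M / r1 ^ n := by positivity
  calc (n.factorial : ℝ)⁻¹ * (‖z - z0‖ ^ n * ‖iteratedDeriv n f z0‖)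
      ≤ (n.factorial : ℝ)⁻¹ * (ρ ^ n * ((n.factorial : ℝ) * M / r1 ^ n)) := by
        apply mul_le_mul_of_nonneg_left _ (by positivity)
        exact mul_le_mul h4 h3 (norm_nonneg _) ((pow_nonneg (norm_nonneg _) n).trans h4)
    _ = M * (ρ / r1) ^ n := by
        rw [div_pow]
        field_simp

theorem small_disc (r ρ R C η : ℝ) (hr : 0 < r) (hρ : 0 < ρ) (hρR : ρ < R) (hrR : r ≤ R) (hC : 0 ≤ C)
    (hη : 0 < η) : ∃ κ : ℝ, 0 < κ ∧ ∀ (f : ℂ → ℂ) (z0 : ℂ), DifferentiableOn ℂ f (ball z0 R) →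
      (∀ z ∈ ball z0 R, ‖f z‖ ≤ C) → (∀ z ∈ ball z0 r, ‖f z‖ ≤ κ) →
        ∀ z ∈ closedBall z0 ρ, ‖f z‖ ≤ η := by
  set R1 : ℝ := (ρ + R) / 2 with hR1
  have hR1a : ρ < R1 := by rw [hR1]; linarith
  have hR1b : R1 < R := by rw [hR1]; linarith
  have hR1c : 0 < R1 := hρ.trans hR1a
  set t : ℝ := ρ / R1 with ht
  have ht0 : 0 ≤ t := by positivity
  have ht1 : t < 1 := by rw [ht, div_lt_one hR1c]; exact hR1a
  have hlim : Tendsto (fun n : ℕ => C * t ^ n / (1 - t)) atTop (𝓝 (C * 0 / (1 - t))) :=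
    ((tendsto_pow_atTop_nhds_zero_of_lt_one ht0 ht1).const_mul C).div_const _
  have hlim2 : C * 0 / (1 - t) < η / 2 := by
    rw [mul_zero, zero_div]
    positivity
  obtain ⟨N, hN⟩ := (hlim.eventually_le_const hlim2).exists
  set b : ℝ := ρ / (r / 2) with hb
  have hb0 : 0 ≤ b := by positivity
  have hS : 0 ≤ ∑ n ∈ Finset.range N, b ^ n := Finset.sum_nonneg fun n _ => pow_nonneg hb0 n
  refine ⟨η / 2 / (1 + ∑ n ∈ Finset.range N, b ^ n), by positivity, ?_⟩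
  intro f z0 hf hfC hfk z hz
  set κ : ℝ := η / 2 / (1 + ∑ n ∈ Finset.range N, b ^ n) with hκ
  have hκ0 : 0 < κ := by positivity
  have hκ1 : κ * ∑ n ∈ Finset.range N, b ^ n ≤ η / 2 := by
    rw [hκ, div_mul_eq_mul_div, div_le_iff₀ (by positivity)]
    apply mul_le_mul_of_nonneg_left _ (by positivity)
    linarith
  have hz' : ‖z - z0‖ ≤ ρ := by
    rw [mem_closedBall, dist_eq_norm] at hz
    exact hz
  have hzR : z ∈ ball z0 R := by
    rw [mem_ball, dist_eq_norm]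
    exact hz'.trans_lt hρR
  have hsum := Complex.hasSum_taylorSeries_on_ball hf hzR
  have hT := (hasSum_nat_add_iff' N).mpr hsum
  have hsmall : ∀ n, ‖(n.factorial : ℂ)⁻¹ • (z - z0) ^ n • iteratedDeriv n f z0‖ ≤ κ * b ^ n := by
    intro n
    exact small_disc_term (by positivity) (by linarith) hf
      (fun w hw => hfk w (closedBall_subset_ball (by linarith) hw)) hz' n
  have hbig : ∀ n, ‖(n.factorial : ℂ)⁻¹ • (z - z0) ^ n • iteratedDeriv n f z0‖ ≤ C * t ^ n := by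
    intro n
    exact small_disc_term hR1c hR1b hf
      (fun w hw => hfC w (closedBall_subset_ball hR1b hw)) hz' n
  have hg : HasSum (fun n : ℕ => C * t ^ (n + N)) (C * t ^ N / (1 - t)) := by
    have h1 := (hasSum_geometric_of_lt_one ht0 ht1).mul_left (C * t ^ N)
    rw [← div_eq_mul_inv] at h1
    refine h1.congr_fun ?_ |> fun h => h
    intro n
    rw [pow_add]
    ring
  have h2 := hT.norm_le_of_bounded hg (fun n => hbig (n + N))
  have h3 : ‖∑ n ∈ Finset.range N, (n.factorial : ℂ)⁻¹ • (z - z0) ^ n • iteratedDeriv n f z0‖ ≤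
      κ * ∑ n ∈ Finset.range N, b ^ n := by
    rw [Finset.mul_sum]
    exact norm_sum_le_of_le _ fun n _ => hsmall n
  calc ‖f z‖ = ‖(f z - ∑ n ∈ Finset.range N,
        (n.factorial : ℂ)⁻¹ • (z - z0) ^ n • iteratedDeriv n f z0) +
        ∑ n ∈ Finset.range N, (n.factorial : ℂ)⁻¹ • (z - z0) ^ n • iteratedDeriv n f z0‖ := by
        rw [sub_add_cancel]
    _ ≤ η / 2 + η / 2 := (norm_add_le _ _).trans (add_le_add (h2.trans hN) (h3.trans hκ1))
    _ = η := by ring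

end Pool.Agent.Lib.MP_ec260d_nt
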