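import Mathlib
import Pool.Agent.Lib.MP_ec260d_nt.SmallDisc

/-!
# JOB Chain: propagation of smallness along the segment `[1/2, 3]`

Put `x j = 3 - j r / 4`. By induction on `j`, as long as `x j ≥ 1/2 - r/4 …`: for every `η > 0` there is `κ > 0` such that the
hypotheses (with this `κ`) imply `‖f‖ ≤ η` on `ball (x j) (r/4)`. `j = 0`: `κ = η`. Step: `small_disc` with centre `x j`, radii `r/4`
(small disc), `ρ = r/2`, `R = r`: `ball (x j) r` lies in `{0 ≤ Re ≤ 5, |Im| ≤ r}` when `x j - r ≥ 0` (`x j ≥ 1` suffices since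
`r ≤ 1`; for `1/2 ≤ x j < 1` we need `r ≤ 1/2`, which is assumed) and `x j + r ≤ 5`; and
`ball (x (j+1)) (r/4) ⊆ closedBall (x j) (r/2)`. Take `j = ⌈10 / r⌉`-many steps at most, stopping at the first `j` with
`x j ≤ 1/2 + r/4`; then `x j > 1/2` or `x j ∈ (1/2 - …]`: `1/2 ∈ closedBall (x j) (r/4)`, so apply `small_disc` once more
(`1/2 ∈ closedBall (x j) (r/2)`) to get `‖f (1/2)‖ ≤ η`.
(A convenient form: prove `∀ j : ℕ, 1/2 ≤ 3 - j r/4 → ∀ η > 0, ∃ κ > 0, ∀ f, Hyp f κ → ∀ z ∈ ball (3 - j r/4) (r/4), ‖f z‖ ≤ η`.)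
-/

open Complex Metric Set Filter Topology

namespace Pool.Agent.Lib.MP_ec260d_nt

private theorem chain_mem {r : ℝ} {x : ℝ} (hr2 : r ≤ 1 / 2) (hx : 1 / 2 ≤ x) (hx3 : x ≤ 3)
    {z : ℂ} (hz : z ∈ ball (x : ℂ) r) : 0 ≤ z.re ∧ z.re ≤ 5 ∧ |z.im| ≤ r := by
  rw [mem_ball, dist_eq_norm] at hz
  have h1 := Complex.abs_re_le_norm (z - x)
  have h2 := Complex.abs_im_le_norm (z - x)
  rw [Complex.sub_re, Complex.ofReal_re] at h1
  rw [Complex.sub_im, Complex.ofReal_im, sub_zero] at h2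
  have h3 := abs_lt.1 (h1.trans_lt hz)
  refine ⟨by linarith [h3.1], by linarith [h3.2], by linarith⟩

private theorem chain_step (r C : ℝ) (hr : 0 < r) (hr2 : r ≤ 1 / 2) (hC : 0 ≤ C) (j : ℕ) :
    1 / 2 ≤ 3 - j * (r / 4) → ∀ η : ℝ, 0 < η → ∃ κ : ℝ, 0 < κ ∧ ∀ f : ℂ → ℂ,
      (∀ s : ℂ, 0 ≤ s.re → s.re ≤ 5 → |s.im| ≤ r → DifferentiableAt ℂ f s ∧ ‖f s‖ ≤ C) →
      (∀ s ∈ ball (3 : ℂ) (r / 4), ‖f s‖ ≤ κ) →
        ∀ z ∈ ball (((3 - j * (r / 4) : ℝ)) : ℂ) (r / 4), ‖f z‖ ≤ η := by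
  induction j with
  | zero =>
    intro _ η hη
    refine ⟨η, hη, fun f _ hf z hz => hf z ?_⟩
    have h : (((3 - ((0 : ℕ) : ℝ) * (r / 4) : ℝ)) : ℂ) = 3 := by
      push_cast
      ring
    rwa [h] at hz
  | succ j ih =>
    intro hj η hη
    have hj' : 1 / 2 ≤ 3 - (j : ℝ) * (r / 4) := by
      push_cast at hj
      nlinarith
    obtain ⟨κ1, hκ1, h1⟩ := small_disc (r / 4) (r / 2) r C η (by positivity) (by positivity)
      (by linarith) (by linarith) hC hη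
    obtain ⟨κ, hκ, h2⟩ := ih hj' κ1 hκ1
    refine ⟨κ, hκ, fun f hf hfk z hz => ?_⟩
    have hx3 : 3 - (j : ℝ) * (r / 4) ≤ 3 := by
      have : 0 ≤ (j : ℝ) * (r / 4) := by positivity
      linarith
    apply h1 f (((3 - j * (r / 4) : ℝ)) : ℂ)
    · intro w hw
      obtain ⟨a, b, c⟩ := chain_mem hr2 hj' hx3 hw
      exact (hf w a b c).1.differentiableWithinAt
    · intro w hw
      obtain ⟨a, b, c⟩ := chain_mem hr2 hj' hx3 hw
      exact (hf w a b c).2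
    · exact h2 f hf hfk
    · rw [mem_ball] at hz
      rw [mem_closedBall]
      have h3 : dist (((3 - (((j + 1 : ℕ)) : ℝ) * (r / 4) : ℝ)) : ℂ)
          (((3 - (j : ℝ) * (r / 4) : ℝ)) : ℂ) ≤ r / 4 := by
        rw [dist_eq_norm, ← Complex.ofReal_sub, Complex.norm_real, Real.norm_eq_abs]
        push_cast
        rw [show (3 - ((j : ℝ) + 1) * (r / 4) - (3 - (j : ℝ) * (r / 4))) = -(r / 4) by ring,
          abs_neg, abs_of_pos (by positivity)]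
      calc dist z _ ≤ dist z (((3 - (((j + 1 : ℕ)) : ℝ) * (r / 4) : ℝ)) : ℂ) +
          dist (((3 - (((j + 1 : ℕ)) : ℝ) * (r / 4) : ℝ)) : ℂ)
            (((3 - (j : ℝ) * (r / 4) : ℝ)) : ℂ) := dist_triangle _ _ _
        _ ≤ r / 4 + r / 4 := add_le_add hz.le h3
        _ = r / 2 := by ring

theorem chain (r C η : ℝ) (hr : 0 < r) (hr2 : r ≤ 1 / 2) (hC : 0 ≤ C) (hη : 0 < η) :
    ∃ κ : ℝ, 0 < κ ∧ ∀ f : ℂ → ℂ,
      (∀ s : ℂ, 0 ≤ s.re → s.re ≤ 5 → |s.im| ≤ r → DifferentiableAt ℂ f s ∧ ‖f s‖ ≤ C) →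
      (∀ s ∈ ball (3 : ℂ) (r / 4), ‖f s‖ ≤ κ) → ‖f (1 / 2)‖ ≤ η := by
  have h0 : (0 : ℝ) ≤ 10 / r := by positivity
  have h1 := Nat.floor_le h0
  have h2 := Nat.lt_floor_add_one (10 / r)
  set j : ℕ := ⌊10 / r⌋₊ with hj
  rw [le_div_iff₀ hr] at h1
  rw [div_lt_iff₀ hr] at h2
  obtain ⟨κ, hκ, h3⟩ := chain_step r C hr hr2 hC j (by linarith) η hη
  refine ⟨κ, hκ, fun f hf hfk => h3 f hf hfk (1 / 2) ?_⟩
  rw [mem_ball, dist_eq_norm]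
  have h4 : (1 / 2 : ℂ) - (((3 - (j : ℝ) * (r / 4) : ℝ)) : ℂ) =
      (((1 / 2 - (3 - (j : ℝ) * (r / 4)) : ℝ)) : ℂ) := by
    push_cast
    ring
  rw [h4, Complex.norm_real, Real.norm_eq_abs, abs_lt]
  constructor
  · linarith
  · linarith

end Pool.Agent.Lib.MP_ec260d_nt
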