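import Mathlib
import Pool.Agent.Lib.MP_ec260d_nt.FFMain

/-!
# JOB WindowBound: `xi'/xi` in a window free of zeros

Let `A, B` be from `logDeriv_xi_eq`. By hypothesis every zero `a` has `|a.im - T| ≥ ε`, so `xi (s + iT) ≠ 0` for
`|s.im| ≤ ε/2` (otherwise `s + iT` is a zero with `|Im - T| ≤ ε/2 < ε`), same for `3 + iT`. So
`logDeriv xi (s + iT) - logDeriv xi (3 + iT) = FF (s + iT) - FF (3 + iT) + B (s - 3)`, and
`FF (s + iT) - FF (3 + iT) = ∑ mx a (3 - s) / ((s + iT - a) (3 + iT - a))` (difference of two convergent sums,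
`FF_summable`). For a zero `a` put `x = |T - a.im| ≥ ε`: `‖s + iT - a‖ ≥ |T + Im s - a.im| ≥ x - ε/2 ≥ x/2 ≥ (ε/4) (1 + x)`
(`x ≥ (ε/2)(1 + x)` since `ε ≤ 1`), `‖3 + iT - a‖ ≥ max 2 x ≥ (1 + x)/2`. With `‖3 - s‖ ≤ 4`:
`‖FF - FF‖ ≤ (32/ε) ∑ mx a / (1 + |T - a.im|)^2 ≤ (32/ε) C log (2 + T) ≤ C' log T` (`zero_sum 2`, `T ≥ 2`), and
`‖B (s - 3)‖ ≤ 4 ‖B‖ ≤ C'' log T`. (`norm_tsum_le_tsum_norm`, `tsum_le_tsum`; terms with `mx a = 0` vanish.)
-/

open Complex Metric Set Filter Topology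

namespace Pool.Agent.Lib.MP_ec260d_nt

open Pool.Agent.Lib.MP_00e05b_nt

theorem WindowBound_term (ε : ℝ) (hε : 0 < ε) (hε1 : ε ≤ 1) (T : ℝ) (s a : ℂ) (hs3 : ‖s - 3‖ ≤ 4)
    (hsi : |s.im| ≤ ε / 2) (hx : ε ≤ |a.im - T|) (hre : a.re < 1) (m : ℕ) :
    ‖(m : ℂ) * (1 / (s + T * I - a) - 1 / (2 - a)) - (m : ℂ) * (1 / (3 + T * I - a) - 1 / (2 - a))‖ ≤
      32 / ε * ((m : ℝ) / (1 + |T - a.im|) ^ (2 : ℝ)) := by
  rw [abs_sub_comm] at hx
  set x : ℝ := |T - a.im| with hxd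
  have hx0 : 0 < x := lt_of_lt_of_le hε hx
  have hu : ε / 4 * (1 + x) ≤ ‖s + T * I - a‖ := by
    have h1 := Complex.abs_im_le_norm (s + T * I - a)
    have h2 : (s + (T : ℂ) * I - a).im = s.im + (T - a.im) := by
      simp
      ring
    rw [h2] at h1
    have h3 : x - ε / 2 ≤ |s.im + (T - a.im)| := by
      have h4 : x ≤ |s.im + (T - a.im)| + |s.im| := by
        have h5 : T - a.im = (s.im + (T - a.im)) - s.im := by ring
        calc x = |(s.im + (T - a.im)) - s.im| := by rw [hxd]; congr 1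
          _ ≤ |s.im + (T - a.im)| + |s.im| := abs_sub _ _
      linarith
    have h6 : ε / 4 * (1 + x) ≤ x / 2 := by nlinarith
    linarith
  have hv : (1 + x) / 2 ≤ ‖3 + T * I - a‖ := by
    rcases le_total x 3 with h3 | h3
    · have h1 := Complex.abs_re_le_norm (3 + T * I - a)
      have h2 : (3 + (T : ℂ) * I - a).re = 3 - a.re := by simp
      rw [h2] at h1
      have h4 := le_abs_self (3 - a.re)
      linarith
    · have h1 := Complex.abs_im_le_norm (3 + T * I - a)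
      have h2 : (3 + (T : ℂ) * I - a).im = T - a.im := by simp
      rw [h2] at h1
      linarith
  have hu0 : 0 < ‖s + T * I - a‖ := lt_of_lt_of_le (by positivity) hu
  have hv0 : 0 < ‖3 + T * I - a‖ := lt_of_lt_of_le (by positivity) hv
  have hu1 : s + T * I - a ≠ 0 := norm_pos_iff.mp hu0
  have hv1 : 3 + T * I - a ≠ 0 := norm_pos_iff.mp hv0
  have e : (m : ℂ) * (1 / (s + T * I - a) - 1 / (2 - a)) - (m : ℂ) * (1 / (3 + T * I - a) - 1 / (2 - a)) =
      (m : ℂ) * ((3 - s) / ((s + T * I - a) * (3 + T * I - a))) := by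
    have e2 : 1 / (s + T * I - a) - 1 / (3 + T * I - a) =
        (3 - s) / ((s + T * I - a) * (3 + T * I - a)) := by
      rw [div_sub_div _ _ hu1 hv1]
      congr 1
      ring
    rw [← e2]
    ring
  rw [e, norm_mul, norm_div, norm_mul, Complex.norm_natCast, Real.rpow_two]
  have h7 : ‖3 - s‖ ≤ 4 := by
    rw [norm_sub_rev]
    exact hs3
  have h8 : ε / 4 * (1 + x) * ((1 + x) / 2) ≤ ‖s + T * I - a‖ * ‖3 + T * I - a‖ :=
    mul_le_mul hu hv (by positivity) hu0.le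
  have h9 : ‖3 - s‖ / (‖s + T * I - a‖ * ‖3 + T * I - a‖) ≤ 4 / (ε / 4 * (1 + x) * ((1 + x) / 2)) :=
    div_le_div₀ (by norm_num) h7 (by positivity) h8
  calc (m : ℝ) * (‖3 - s‖ / (‖s + T * I - a‖ * ‖3 + T * I - a‖)) ≤
        (m : ℝ) * (4 / (ε / 4 * (1 + x) * ((1 + x) / 2))) :=
          mul_le_mul_of_nonneg_left h9 (Nat.cast_nonneg m)
    _ = 32 / ε * ((m : ℝ) / (1 + x) ^ 2) := by
      field_simp
      ring

theorem window_bound (ε : ℝ) (hε : 0 < ε) (hε1 : ε ≤ 1) : ∃ C : ℝ, 0 ≤ C ∧ ∀ T : ℝ, 2 ≤ T →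
    (∀ a : ℂ, xi a = 0 → ε ≤ |a.im - T|) → ∀ s : ℂ, 0 ≤ s.re → s.re ≤ 5 → |s.im| ≤ ε / 2 →
      ‖logDeriv xi (s + T * I) - logDeriv xi (3 + T * I)‖ ≤ C * Real.log T := by
  obtain ⟨A, B, hAB⟩ := logDeriv_xi_eq
  obtain ⟨C0, hC0, hsum⟩ := zero_sum 2 (by norm_num)
  have hl2 : 0 < Real.log 2 := Real.log_pos (by norm_num)
  refine ⟨32 / ε * (C0 * 2) + 4 * ‖B‖ / Real.log 2, by positivity, fun T hT hfree s hs0 hs5 hsi => ?_⟩
  have hT0 : 0 < T := by linarith
  have hlT : Real.log 2 ≤ Real.log T := Real.log_le_log (by norm_num) hT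
  -- the two points are not zeros
  have hx1 : xi (s + T * I) ≠ 0 := by
    intro h
    have h1 := hfree _ h
    have h2 : (s + T * I).im - T = s.im := by simp
    rw [h2] at h1
    linarith
  have hx2 : xi (3 + T * I) ≠ 0 := by
    intro h
    have h1 := hfree _ h
    have h2 : (3 + (T : ℂ) * I).im - T = 0 := by simp
    rw [h2, abs_zero] at h1
    linarith
  have hS1 := FF_summable hx1
  have hS2 := FF_summable hx2
  rw [hAB _ hx1, hAB _ hx2]
  have e1 : FF (s + T * I) + A + B * (s + T * I) - (FF (3 + T * I) + A + B * (3 + T * I)) =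
      (FF (s + T * I) - FF (3 + T * I)) + B * (s - 3) := by ring
  rw [e1]
  refine (norm_add_le _ _).trans ?_
  have hs3 : ‖s - 3‖ ≤ 4 := by
    refine (Complex.norm_le_abs_re_add_abs_im _).trans ?_
    have h1 : |(s - 3).re| ≤ 3 := by
      rw [Complex.sub_re, abs_le]
      have : (3 : ℂ).re = 3 := by simp
      rw [this]
      constructor <;> linarith
    have h2 : |(s - 3).im| ≤ 1 := by
      rw [Complex.sub_im]
      have : (3 : ℂ).im = 0 := by simp
      rw [this, sub_zero]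
      linarith
    linarith
  have hB : ‖B * (s - 3)‖ ≤ 4 * ‖B‖ / Real.log 2 * Real.log T := by
    rw [norm_mul]
    have h1 : ‖B‖ * ‖s - 3‖ ≤ ‖B‖ * 4 := mul_le_mul_of_nonneg_left hs3 (norm_nonneg _)
    have h2 : 4 * ‖B‖ ≤ 4 * ‖B‖ / Real.log 2 * Real.log T := by
      rw [div_mul_eq_mul_div, le_div_iff₀ hl2]
      exact mul_le_mul_of_nonneg_left hlT (by positivity)
    linarith
  have hF : ‖FF (s + T * I) - FF (3 + T * I)‖ ≤ 32 / ε * (C0 * 2) * Real.log T := by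
    unfold FF
    rw [← hS1.tsum_sub hS2]
    have hbd : ∀ a : ℂ, ‖(mx a : ℂ) * (1 / (s + T * I - a) - 1 / (2 - a)) -
        (mx a : ℂ) * (1 / (3 + T * I - a) - 1 / (2 - a))‖ ≤
        32 / ε * ((mx a : ℝ) / (1 + |T - a.im|) ^ (2 : ℝ)) := by
      intro a
      by_cases hm : mx a = 0
      · simp [hm]
      · have hxa := (mx_ne_zero_iff a).mp hm
        have hx := hfree a hxa
        have hre := xi_zero_re hxa
        exact WindowBound_term ε hε hε1 T s a hs3 hsi hx hre.2 (mx a)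
    have hsT := hsum T
    have hsumm : Summable (fun a : ℂ => 32 / ε * ((mx a : ℝ) / (1 + |T - a.im|) ^ (2 : ℝ))) :=
      hsT.1.mul_left _
    have hnorm : Summable (fun a : ℂ => ‖(mx a : ℂ) * (1 / (s + T * I - a) - 1 / (2 - a)) -
        (mx a : ℂ) * (1 / (3 + T * I - a) - 1 / (2 - a))‖) :=
      Summable.of_nonneg_of_le (fun a => norm_nonneg _) hbd hsumm
    refine (norm_tsum_le_tsum_norm hnorm).trans ((hnorm.tsum_le_tsum hbd hsumm).trans ?_)
    rw [tsum_mul_left]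
    have h3 : Real.log (2 + |T|) ≤ 2 * Real.log T := by
      rw [abs_of_pos hT0]
      have h4 : 2 * Real.log T = Real.log (T ^ 2) := by
        rw [Real.log_pow]
        push_cast
        ring
      rw [h4]
      apply Real.log_le_log (by linarith)
      nlinarith
    have h5 : ∑' a : ℂ, (mx a : ℝ) / (1 + |T - a.im|) ^ (2 : ℝ) ≤ C0 * (2 * Real.log T) :=
      hsT.2.trans (mul_le_mul_of_nonneg_left h3 hC0)
    calc 32 / ε * ∑' a : ℂ, (mx a : ℝ) / (1 + |T - a.im|) ^ (2 : ℝ) ≤ 32 / ε * (C0 * (2 * Real.log T)) :=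
          mul_le_mul_of_nonneg_left h5 (by positivity)
      _ = 32 / ε * (C0 * 2) * Real.log T := by ring
  rw [add_mul]
  exact add_le_add hF hB

end Pool.Agent.Lib.MP_ec260d_nt
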