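import Mathlib
import Pool.Agent.Lib.MP_ec260d_nt.WindowBound
import Pool.Agent.Lib.MP_ec260d_nt.ReUnif
import Pool.Agent.Lib.MP_ec260d_nt.Chain

/-!
# JOB Gap: gaps between consecutive ordinates tend to zero

We may assume `ε ≤ 1`. Let `r = ε/2`, `C₁` from `window_bound ε`, `C₂` from `re_logDeriv_unif`. Let
`κ` be from `chain r C₁ (1/4)`. Suppose `T` is large and no zero has `|a.im - T| < ε`. Put
`f s = (logDeriv xi (s + iT) - logDeriv xi (3 + iT)) / log T`.
* For `0 ≤ Re s ≤ 5`, `|Im s| ≤ r`: `xi (s + iT) ≠ 0`, so `f` is differentiable at `s` (`logDeriv xi = deriv xi / xi`), and `‖f s‖ ≤ C₁`.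
* For `s ∈ ball 3 1`: `xi (s + iT) ≠ 0` (`xi_ne_zero`, `Re ≥ 2`), `f` is differentiable and
  `|Re (f s)| ≤ (2 C₂ + (1/2) |log (T + Im s) - log T|) / log T ≤ (2 C₂ + 1) / log T =: M_T`. `f 3 = 0`. Borel-Carathéodory
  (`Complex.borelCaratheodory_zero`, applied to `z ↦ f (3 + z)` on `ball 0 1`): `‖f s‖ ≤ 2 M_T (1/4) / (1 - 1/4)` for
  `‖s - 3‖ < r/4 ≤ 1/4`, `≤ κ` for `T` large.
* So `‖f (1/2)‖ ≤ 1/4` by `chain`.
* But `Re (logDeriv xi (1/2 + iT)) = 0`: `xi (1 - z) = xi z` gives `logDeriv xi (1 - z) = -logDeriv xi z`, `xi_conj` gives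
  `logDeriv xi (conj z) = conj (logDeriv xi z)`, and `1 - z = conj z` for `z = 1/2 + iT`. And
  `Re (logDeriv xi (3 + iT)) ≥ (1/2) log T - C₂`. So `|Re (f (1/2))| ≥ 1/2 - C₂ / log T > 1/4` for `T` large. Contradiction.
-/

open Complex Metric Set Filter Topology

namespace Pool.Agent.Lib.MP_ec260d_nt

open Pool.Agent.Lib.MP_00e05b_nt

theorem gap_re_zero (T : ℝ) : (logDeriv xi (1 / 2 + T * I)).re = 0 := by
  set z : ℂ := 1 / 2 + T * I with hz
  have hc : (starRingEnd ℂ) z = 1 - z := by
    apply Complex.ext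
    · rw [Complex.conj_re, Complex.sub_re, Complex.one_re]
      have : z.re = 1 / 2 := by simp [hz]
      rw [this]
      norm_num
    · rw [Complex.conj_im, Complex.sub_im, Complex.one_im]
      ring
  have h1 : deriv xi (1 - z) = -deriv xi z := by
    have h2 : (fun w => xi (1 - w)) = xi := by
      funext w
      exact xi_one_sub w
    have h3 : deriv (fun w => xi (1 - w)) z = -deriv xi (1 - z) := by
      have h4 : HasDerivAt (fun w : ℂ => 1 - w) (-1) z := by
        simpa using (hasDerivAt_id z).const_sub 1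
      have h5 : HasDerivAt xi (deriv xi (1 - z)) (1 - z) := (differentiable_xi _).hasDerivAt
      have h6 := HasDerivAt.comp z (h₂ := xi) (h := fun w : ℂ => 1 - w) h5 h4
      have h7 := h6.deriv
      rw [mul_neg_one] at h7
      exact h7
    rw [h2] at h3
    rw [h3, neg_neg]
  have h2 : deriv xi ((starRingEnd ℂ) z) = (starRingEnd ℂ) (deriv xi z) := by
    have h3 : (fun w => (starRingEnd ℂ) (xi ((starRingEnd ℂ) w))) = xi := by
      funext w
      rw [xi_conj, Complex.conj_conj]
    have h4 : HasDerivAt xi (deriv xi z) z := (differentiable_xi _).hasDerivAt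
    have h5 := h4.conj_conj
    have h6 : HasDerivAt xi ((starRingEnd ℂ) (deriv xi z)) ((starRingEnd ℂ) z) := by
      have h7 : ((starRingEnd ℂ) ∘ xi ∘ (starRingEnd ℂ) : ℂ → ℂ) = xi := h3
      rwa [h7] at h5
    exact h6.deriv
  have h3 : (starRingEnd ℂ) (logDeriv xi z) = -logDeriv xi z := by
    rw [logDeriv_apply, map_div₀, ← h2, ← xi_conj, hc, h1, xi_one_sub]
    ring
  have h4 := congrArg Complex.re h3
  rw [Complex.conj_re, Complex.neg_re] at h4
  linarith

theorem gap (ε : ℝ) (hε : 0 < ε) : ∃ T₀ : ℝ, ∀ T : ℝ, T₀ ≤ T →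
    ∃ a : ℂ, xi a = 0 ∧ |a.im - T| < ε := by
  have hε' : 0 < min ε 1 := lt_min hε one_pos
  obtain ⟨C₁, hC₁, hw⟩ := window_bound (min ε 1) hε' (min_le_right _ _)
  obtain ⟨C₂, hC₂, hre⟩ := re_logDeriv_unif
  obtain ⟨κ, hκ, hch⟩ := chain (min ε 1 / 2) C₁ (1 / 4) (by positivity)
    (by linarith [min_le_right ε 1]) hC₁ (by norm_num)
  refine ⟨max 4 (Real.exp (max ((2 * C₂ + 1) / κ) (4 * C₂ + 1))), fun T hT => ?_⟩
  by_contra hcon
  push Not at hcon
  have hT4 : 4 ≤ T := le_trans (le_max_left _ _) hT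
  have hT0 : 0 < T := by linarith
  have hL1 : max ((2 * C₂ + 1) / κ) (4 * C₂ + 1) ≤ Real.log T := by
    rw [Real.le_log_iff_exp_le hT0]
    exact le_trans (le_max_right _ _) hT
  have hLa : (2 * C₂ + 1) / κ ≤ Real.log T := le_trans (le_max_left _ _) hL1
  have hLb : 4 * C₂ + 1 ≤ Real.log T := le_trans (le_max_right _ _) hL1
  have hL : 0 < Real.log T := by linarith
  have hno : ∀ a : ℂ, xi a = 0 → min ε 1 ≤ |a.im - T| := fun a ha =>
    le_trans (min_le_left _ _) (hcon a ha)
  have hne : ∀ s : ℂ, |s.im| ≤ min ε 1 / 2 → xi (s + T * I) ≠ 0 := by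
    intro s hs h
    have h1 := hno _ h
    have h2 : (s + T * I).im - T = s.im := by simp
    rw [h2] at h1
    linarith
  have hdiff : ∀ z : ℂ, xi z ≠ 0 → DifferentiableAt ℂ (logDeriv xi) z := by
    intro z hz
    have h1 : DifferentiableAt ℂ (deriv xi) z :=
      (differentiable_xi.analyticAt z).deriv.differentiableAt
    exact h1.div (differentiable_xi z) hz
  set f : ℂ → ℂ := fun s => (logDeriv xi (s + T * I) - logDeriv xi (3 + T * I)) /
    ((Real.log T : ℝ) : ℂ) with hf
  have hLc : ((Real.log T : ℝ) : ℂ) ≠ 0 := by exact_mod_cast hL.ne'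
  have hfd : ∀ s : ℂ, xi (s + T * I) ≠ 0 → DifferentiableAt ℂ f s := by
    intro s hs
    have h1 : DifferentiableAt ℂ (fun s : ℂ => logDeriv xi (s + T * I)) s :=
      DifferentiableAt.comp s (f := fun s : ℂ => s + T * I) (hdiff _ hs) (by fun_prop)
    exact (h1.sub_const _).div_const _
  have hfn : ∀ s : ℂ, ‖f s‖ = ‖logDeriv xi (s + T * I) - logDeriv xi (3 + T * I)‖ /
      Real.log T := by
    intro s
    simp only [hf]
    rw [norm_div, Complex.norm_real, Real.norm_eq_abs, abs_of_pos hL]
  have hfre : ∀ s : ℂ, (f s).re = ((logDeriv xi (s + T * I)).re -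
      (logDeriv xi (3 + T * I)).re) / Real.log T := by
    intro s
    simp only [hf]
    rw [Complex.div_ofReal_re, Complex.sub_re]
  have h3re : (3 + T * I : ℂ).re = 3 := by simp
  have h3im : (3 + T * I : ℂ).im = T := by simp
  have h3T := hre (3 + T * I) (by rw [h3re]; norm_num) (by rw [h3re]; norm_num)
    (by rw [h3im]; linarith)
  rw [h3im] at h3T
  have key := hch f (by
    intro s hs0 hs5 hs
    refine ⟨hfd s (hne s hs), ?_⟩
    rw [hfn, div_le_iff₀ hL]
    exact hw T (by linarith) hno s hs0 hs5 hs) (by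
    intro s hs
    have hMpos : 0 < (2 * C₂ + 1) / Real.log T := by positivity
    have hMκ : (2 * C₂ + 1) / Real.log T ≤ κ := by
      rw [div_le_iff₀ hL]
      rw [div_le_iff₀ hκ] at hLa
      linarith
    have hbc := Complex.borelCaratheodory_zero (f := fun z => f (3 + z)) (R := 1) (z := s - 3)
      hMpos (by
        intro z hz
        have hz1 : ‖z‖ < 1 := by simpa using hz
        have hz2 := abs_lt.1 (lt_of_le_of_lt (Complex.abs_re_le_norm z) hz1)
        have hxz : xi (3 + z + T * I) ≠ 0 := by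
          apply xi_ne_zero
          simp
          linarith
        exact (DifferentiableAt.comp z (f := fun z : ℂ => 3 + z) (hfd _ hxz)
          (by fun_prop)).differentiableWithinAt) (by
        intro z hz
        have hz1 : ‖z‖ < 1 := by simpa using hz
        have hz2 := abs_lt.1 (lt_of_le_of_lt (Complex.abs_re_le_norm z) hz1)
        have hz3 := abs_lt.1 (lt_of_le_of_lt (Complex.abs_im_le_norm z) hz1)
        have him : (3 + z + T * I).im = z.im + T := by simp
        have hrre : (3 + z + T * I).re = 3 + z.re := by simp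
        have h5 := hre (3 + z + T * I) (by rw [hrre]; linarith) (by rw [hrre]; linarith)
          (by rw [him]; linarith)
        rw [him] at h5
        have h6 : Real.log (z.im + T) ≤ 1 + Real.log T := by
          have h7 : Real.log (z.im + T) ≤ Real.log (Real.exp 1 * T) := by
            apply Real.log_le_log (by linarith)
            have h8 : 2 ≤ Real.exp 1 := by
              have := Real.add_one_le_exp (1 : ℝ)
              linarith
            nlinarith
          rwa [Real.log_mul (Real.exp_pos _).ne' hT0.ne', Real.log_exp] at h7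
        change (f (3 + z)).re ≤ _
        rw [hfre]
        apply div_le_div_of_nonneg_right _ hL.le
        have h9 := (abs_le.1 h5).2
        have h10 := (abs_le.1 h3T).1
        linarith) one_pos (by
        have h1 : ‖s - 3‖ < min ε 1 / 2 / 4 := by
          simpa [dist_eq_norm] using hs
        have h2 : min ε 1 ≤ 1 := min_le_right _ _
        rw [mem_ball_zero_iff]
        linarith) (by simp [hf])
    have h1 : ‖s - 3‖ < min ε 1 / 2 / 4 := by
      simpa [dist_eq_norm] using hs
    have h2 : min ε 1 ≤ 1 := min_le_right _ _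
    have h4 : ‖s - 3‖ ≤ 1 / 3 := by linarith
    rw [show (3 : ℂ) + (s - 3) = s by ring] at hbc
    refine hbc.trans (le_trans ?_ hMκ)
    rw [div_le_iff₀ (by linarith)]
    nlinarith [norm_nonneg (s - 3)])
  have hz0 : (logDeriv xi (1 / 2 + T * I)).re = 0 := gap_re_zero T
  have h11 := Complex.abs_re_le_norm (f (1 / 2))
  rw [hfre, hz0, zero_sub] at h11
  have h12 := (abs_le.1 h3T).1
  have h13 : 1 / 4 < |(-(logDeriv xi (3 + T * I)).re) / Real.log T| := by
    rw [abs_div, abs_neg, abs_of_pos hL, lt_div_iff₀ hL]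
    have h14 := le_abs_self (logDeriv xi (3 + T * I)).re
    linarith
  linarith

end Pool.Agent.Lib.MP_ec260d_nt
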