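import Pool.Agent.Lib.MP_ec260d_nt.MainD

/-!
# MP_ec260d_nt, Q1: no relation of small height for almost all indices

`zeroCount T = N(T)` is the number of zeros `ρ` of `ζ` with `0 < Im ρ ≤ T`, with multiplicity. Let `a₁, …, a_k` be distinct positive
reals, `D` a natural number, `δ > 0`. There are `c > 0` and `C` such that for all `N ≥ 1`, all but at most `C N^(1 - c)` of the
natural numbers `n ≤ N` have the following property: there are no nonzero `P ∈ ℤ[X₀, …, X_k]` of total degree at most `D` with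
coefficients bounded by `n^c` in absolute value and no reals `s₁, …, s_k` with `|N(s_i) - a_i n| ≤ n^(1 - δ)` and `P(n, s₁, …, s_k) = 0`.
-/

namespace Pool.Agent.Lib.MP_ec260d_nt.AlmostAllIndices

open Pool.Agent.Lib.MP_ec260d_nt

open Classical in
theorem result (k D : ℕ) (a : Fin k → ℝ) (ha : ∀ i, 0 < a i) (hinj : Function.Injective a)
    (δ : ℝ) (hδ : 0 < δ) : ∃ c : ℝ, 0 < c ∧ ∃ C : ℝ, ∀ N : ℕ, 1 ≤ N →
      ((((Finset.Icc 1 N).filter (fun n : ℕ =>
        ∃ P : MvPolynomial (Option (Fin k)) ℤ, P ≠ 0 ∧ P.totalDegree ≤ D ∧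
          (∀ m, |((P.coeff m : ℤ) : ℝ)| ≤ (n : ℝ) ^ c) ∧ ∃ s : Fin k → ℝ,
            (∀ i, |(zeroCount (s i) : ℝ) - a i * n| ≤ (n : ℝ) ^ (1 - δ)) ∧
            MvPolynomial.aeval (fun o : Option (Fin k) => o.elim (n : ℝ) (fun i => s i)) P = 0)).card : ℕ) : ℝ)
        ≤ C * (N : ℝ) ^ (1 - c) :=
  mainD k D a ha hinj δ hδ

end Pool.Agent.Lib.MP_ec260d_nt.AlmostAllIndices
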