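import Mathlib

/-!
# JOB Sublevel: sublevel sets of functions with a large `m`-th derivative

Induction on `m ≥ 1`. By replacing all `g j` by `-g j` we may assume `g m ≥ lam` on `[α, β]`.
`m = 1`: `g 0` satisfies `g 0 t' - g 0 t ≥ lam (t' - t)` for `t ≤ t'` in `[α, β]` (mean value theorem,
`Convex.mul_sub_le_image_sub_of_le_deriv` or `exists_hasDerivAt_eq_slope`). If some `t` has `|g 0 t| ≤ η`, let `p` be the infimum
of such `t`, (by the inequality all such `t` lie in `[p, p + 2 η / lam]`): take `S = {(p, p + 2 η / lam)}`; otherwise `S = ∅`.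
(Or: pick one such `t₀` and take the interval `(t₀ - 2η/lam, t₀ + 2η/lam)`: length `4 η/lam`.)
`m + 1` (`m ≥ 1`): put `θ = lam ^ (m/(m+1)) * η ^ (1/(m+1))`. Since `g (m+1) ≥ lam`, `g m` increases with slope `≥ lam`, so
`{t | |g m t| ≤ θ}` is contained in an interval `[p, q] ⊆ [α, β]` of length `≤ 2 θ / lam = 2 (η/lam)^(1/(m+1))`, with `g m ≤ -θ` on
`[α, p]` and `g m ≥ θ` on `[q, β]` (choose `p = sSup {t ∈ [α, β] | g m t ≤ -θ}` or `α` if that set is empty (then there is no left interval), similarly `q`; continuity of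
`g m` for the limits). Apply the induction hypothesis on `[α, p]` and on `[q, β]` with `lam' = θ`: lengths
`≤ 4 (η/θ)^(1/m) = 4 (η/lam)^(1/(m+1))`. Total number `≤ 1 + 2 (2^m - 1) = 2^(m+1) - 1`.
-/

open Set

namespace Pool.Agent.Lib.MP_ec260d_nt

theorem Sublevel_mono (h h' : ℝ → ℝ) (α β lam : ℝ)
    (hd : ∀ t ∈ Icc α β, HasDerivAt h (h' t) t) (hl : ∀ t ∈ Icc α β, lam ≤ h' t)
    (s t : ℝ) (hs : s ∈ Icc α β) (ht : t ∈ Icc α β) (hst : s ≤ t) :
    lam * (t - s) ≤ h t - h s := by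
  refine Convex.mul_sub_le_image_sub_of_le_deriv (convex_Icc α β)
    (fun x hx => (hd x hx).continuousAt.continuousWithinAt)
    (fun x hx => (hd x (interior_subset hx)).differentiableAt.differentiableWithinAt) ?_ s hs t ht hst
  intro x hx
  rw [(hd x (interior_subset hx)).deriv]
  exact hl x (interior_subset hx)

theorem Sublevel_mid (h h' : ℝ → ℝ) (α β lam θ : ℝ) (hlam : 0 < lam)
    (hd : ∀ t ∈ Icc α β, HasDerivAt h (h' t) t) (hl : ∀ t ∈ Icc α β, lam ≤ h' t) :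
    ∃ S : Finset (ℝ × ℝ), S.card ≤ 1 ∧ (∀ J ∈ S, J.2 - J.1 ≤ 4 * (θ / lam)) ∧
      ∀ t ∈ Icc α β, |h t| ≤ θ → ∃ J ∈ S, J.1 ≤ t ∧ t ≤ J.2 := by
  by_cases hex : ∃ t₀ ∈ Icc α β, |h t₀| ≤ θ
  · obtain ⟨t₀, ht₀, h0⟩ := hex
    refine ⟨{(t₀ - 2 * (θ / lam), t₀ + 2 * (θ / lam))}, by simp, ?_, ?_⟩
    · intro J hJ
      rw [Finset.mem_singleton] at hJ
      subst hJ
      dsimp only
      linarith
    · intro t ht h1
      refine ⟨_, Finset.mem_singleton_self _, ?_⟩
      dsimp only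
      have e0 := abs_le.1 h0
      have e1 := abs_le.1 h1
      have key : |t - t₀| ≤ 2 * (θ / lam) := by
        rw [← mul_div_assoc, le_div_iff₀ hlam]
        rcases le_total t₀ t with hle | hle
        · have := Sublevel_mono h h' α β lam hd hl t₀ t ht₀ ht hle
          rw [abs_of_nonneg (by linarith)]
          nlinarith
        · have := Sublevel_mono h h' α β lam hd hl t t₀ ht ht₀ hle
          rw [abs_of_nonpos (by linarith)]
          nlinarith
      have e2 := abs_le.1 key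
      constructor <;> linarith
  · refine ⟨∅, by simp, by simp, ?_⟩
    intro t ht h1
    exact absurd ⟨t, ht, h1⟩ hex

theorem Sublevel_main (m : ℕ) : ∀ (g : ℕ → ℝ → ℝ) (α β lam η : ℝ),
    0 < lam → 0 < η →
    (∀ j < m + 1, ∀ t ∈ Icc α β, HasDerivAt (g j) (g (j + 1) t) t) →
    (∀ t ∈ Icc α β, lam ≤ g (m + 1) t) →
    ∃ S : Finset (ℝ × ℝ), S.card + 1 ≤ 2 ^ (m + 1) ∧
      (∀ J ∈ S, J.2 - J.1 ≤ 4 * (η / lam) ^ ((1 : ℝ) / ((m : ℝ) + 1))) ∧
      ∀ t ∈ Icc α β, |g 0 t| ≤ η → ∃ J ∈ S, J.1 ≤ t ∧ t ≤ J.2 := by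
  classical
  induction m with
  | zero =>
    intro g α β lam η hlam hη hd hg
    obtain ⟨S, h1, h2, h3⟩ := Sublevel_mid (g 0) (g 1) α β lam η hlam (hd 0 (by norm_num)) hg
    refine ⟨S, by omega, ?_, h3⟩
    intro J hJ
    have := h2 J hJ
    rw [Nat.cast_zero, zero_add, div_one, Real.rpow_one]
    exact this
  | succ m ih =>
    intro g α β lam η hlam hη hd hg
    have hm1 : (0 : ℝ) < (m : ℝ) + 1 := by positivity
    have hm2 : (0 : ℝ) < (m : ℝ) + 1 + 1 := by positivity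
    -- the threshold
    set r : ℝ := η / lam with hr
    have hr0 : 0 < r := div_pos hη hlam
    set ρ : ℝ := r ^ ((1 : ℝ) / ((m : ℝ) + 1 + 1)) with hρ
    have hρ0 : 0 < ρ := Real.rpow_pos_of_pos hr0 _
    set θ : ℝ := lam * ρ with hθ
    have hθ0 : 0 < θ := mul_pos hlam hρ0
    have hθl : θ / lam = ρ := by
      rw [hθ, mul_comm, mul_div_assoc, div_self hlam.ne', mul_one]
    have hηθ : (η / θ) ^ ((1 : ℝ) / ((m : ℝ) + 1)) = ρ := by
      have e1 : η / θ = r / ρ := by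
        rw [hθ, hr, div_div]
      have e2 : r / ρ = r ^ (((m : ℝ) + 1) / ((m : ℝ) + 1 + 1)) := by
        rw [hρ, div_eq_iff (Real.rpow_pos_of_pos hr0 _).ne', ← Real.rpow_add hr0]
        have : ((m : ℝ) + 1) / ((m : ℝ) + 1 + 1) + 1 / ((m : ℝ) + 1 + 1) = 1 := by
          field_simp
        rw [this, Real.rpow_one]
      rw [e1, e2, ← Real.rpow_mul hr0.le, hρ]
      congr 1
      field_simp
    have hdm : ∀ t ∈ Icc α β, HasDerivAt (g (m + 1)) (g (m + 1 + 1) t) t :=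
      hd (m + 1) (by omega)
    have hmono := Sublevel_mono (g (m + 1)) (g (m + 1 + 1)) α β lam hdm hg
    have hcont : ContinuousOn (g (m + 1)) (Icc α β) :=
      fun x hx => (hdm x hx).continuousAt.continuousWithinAt
    -- the middle part
    obtain ⟨S₀, a1, a2, a3⟩ := Sublevel_mid (g (m + 1)) (g (m + 1 + 1)) α β lam θ hlam hdm hg
    -- the left part
    have hleft : ∃ S : Finset (ℝ × ℝ), S.card + 1 ≤ 2 ^ (m + 1) ∧
        (∀ J ∈ S, J.2 - J.1 ≤ 4 * ρ) ∧
        ∀ t ∈ Icc α β, g (m + 1) t ≤ -θ → |g 0 t| ≤ η → ∃ J ∈ S, J.1 ≤ t ∧ t ≤ J.2 := by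
      by_cases hne : (Icc α β ∩ g (m + 1) ⁻¹' Iic (-θ)).Nonempty
      · have hcl : IsClosed (Icc α β ∩ g (m + 1) ⁻¹' Iic (-θ)) :=
          hcont.preimage_isClosed_of_isClosed isClosed_Icc isClosed_Iic
        have hcomp : IsCompact (Icc α β ∩ g (m + 1) ⁻¹' Iic (-θ)) :=
          isCompact_Icc.of_isClosed_subset hcl inter_subset_left
        obtain ⟨p, hp, hpmax⟩ := hcomp.exists_isGreatest hne
        have hpI : p ∈ Icc α β := hp.1
        have hpθ : g (m + 1) p ≤ -θ := hp.2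
        have hsub : ∀ t ∈ Icc α p, t ∈ Icc α β := fun t ht => ⟨ht.1, ht.2.trans hpI.2⟩
        obtain ⟨S, b1, b2, b3⟩ := ih (fun j t => -(g j t)) α p θ η hθ0 hη
          (fun j hj t ht => (hd j (by omega) t (hsub t ht)).neg)
          (fun t ht => by
            have h1 := hmono t p (hsub t ht) hpI ht.2
            have h2 : 0 ≤ lam * (p - t) := mul_nonneg hlam.le (by linarith [ht.2])
            show θ ≤ -(g (m + 1) t)
            linarith)
        refine ⟨S, b1, ?_, ?_⟩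
        · intro J hJ
          have := b2 J hJ
          rwa [hηθ] at this
        · intro t ht h1 h2
          refine b3 t ⟨ht.1, hpmax ⟨ht, h1⟩⟩ ?_
          show |-(g 0 t)| ≤ η
          rwa [abs_neg]
      · refine ⟨∅, ?_, by simp, ?_⟩
        · rw [Finset.card_empty, zero_add]
          exact Nat.one_le_two_pow
        · intro t ht h1 _
          exact absurd ⟨t, ht, h1⟩ hne
    -- the right part
    have hright : ∃ S : Finset (ℝ × ℝ), S.card + 1 ≤ 2 ^ (m + 1) ∧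
        (∀ J ∈ S, J.2 - J.1 ≤ 4 * ρ) ∧
        ∀ t ∈ Icc α β, θ ≤ g (m + 1) t → |g 0 t| ≤ η → ∃ J ∈ S, J.1 ≤ t ∧ t ≤ J.2 := by
      by_cases hne : (Icc α β ∩ g (m + 1) ⁻¹' Ici θ).Nonempty
      · have hcl : IsClosed (Icc α β ∩ g (m + 1) ⁻¹' Ici θ) :=
          hcont.preimage_isClosed_of_isClosed isClosed_Icc isClosed_Ici
        have hcomp : IsCompact (Icc α β ∩ g (m + 1) ⁻¹' Ici θ) :=
          isCompact_Icc.of_isClosed_subset hcl inter_subset_left
        obtain ⟨p, hp, hpmin⟩ := hcomp.exists_isLeast hne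
        have hpI : p ∈ Icc α β := hp.1
        have hpθ : θ ≤ g (m + 1) p := hp.2
        have hsub : ∀ t ∈ Icc p β, t ∈ Icc α β := fun t ht => ⟨hpI.1.trans ht.1, ht.2⟩
        obtain ⟨S, b1, b2, b3⟩ := ih g p β θ η hθ0 hη
          (fun j hj t ht => hd j (by omega) t (hsub t ht))
          (fun t ht => by
            have h1 := hmono p t hpI (hsub t ht) ht.1
            have h2 : 0 ≤ lam * (t - p) := mul_nonneg hlam.le (by linarith [ht.1])
            linarith)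
        refine ⟨S, b1, ?_, ?_⟩
        · intro J hJ
          have := b2 J hJ
          rwa [hηθ] at this
        · intro t ht h1 h2
          exact b3 t ⟨hpmin ⟨ht, h1⟩, ht.2⟩ h2
      · refine ⟨∅, ?_, by simp, ?_⟩
        · rw [Finset.card_empty, zero_add]
          exact Nat.one_le_two_pow
        · intro t ht h1 _
          exact absurd ⟨t, ht, h1⟩ hne
    obtain ⟨S₁, b1, b2, b3⟩ := hleft
    obtain ⟨S₂, c1, c2, c3⟩ := hright
    refine ⟨S₀ ∪ S₁ ∪ S₂, ?_, ?_, ?_⟩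
    · have h1 := Finset.card_union_le (S₀ ∪ S₁) S₂
      have h2 := Finset.card_union_le S₀ S₁
      have h3 : 2 ^ (m + 1 + 1) = 2 ^ (m + 1) + 2 ^ (m + 1) := by ring
      omega
    · intro J hJ
      rw [Nat.cast_add, Nat.cast_one, ← hρ]
      rcases Finset.mem_union.1 hJ with h | h
      · rcases Finset.mem_union.1 h with h | h
        · have := a2 J h
          rwa [hθl] at this
        · exact b2 J h
      · exact c2 J h
    · intro t ht h0
      rcases le_or_gt (g (m + 1) t) (-θ) with h1 | h1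
      · obtain ⟨J, hJ, hJt⟩ := b3 t ht h1 h0
        exact ⟨J, Finset.mem_union_left _ (Finset.mem_union_right _ hJ), hJt⟩
      · rcases le_or_gt θ (g (m + 1) t) with h2 | h2
        · obtain ⟨J, hJ, hJt⟩ := c3 t ht h2 h0
          exact ⟨J, Finset.mem_union_right _ hJ, hJt⟩
        · obtain ⟨J, hJ, hJt⟩ := a3 t ht (abs_le.2 ⟨h1.le, h2.le⟩)
          exact ⟨J, Finset.mem_union_left _ (Finset.mem_union_left _ hJ), hJt⟩

theorem sublevel (m : ℕ) (hm : 1 ≤ m) (g : ℕ → ℝ → ℝ) (α β lam η : ℝ) (hαβ : α ≤ β)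
    (hlam : 0 < lam) (hη : 0 < η)
    (hd : ∀ j < m, ∀ t ∈ Icc α β, HasDerivAt (g j) (g (j + 1) t) t)
    (hg : (∀ t ∈ Icc α β, lam ≤ g m t) ∨ (∀ t ∈ Icc α β, g m t ≤ -lam)) :
    ∃ S : Finset (ℝ × ℝ), S.card ≤ 2 ^ m ∧
      (∀ J ∈ S, J.2 - J.1 ≤ 4 * (η / lam) ^ ((1 : ℝ) / m)) ∧
      ∀ t ∈ Icc α β, |g 0 t| ≤ η → ∃ J ∈ S, J.1 ≤ t ∧ t ≤ J.2 := by
  obtain ⟨m, rfl⟩ : ∃ m', m = m' + 1 := ⟨m - 1, by omega⟩
  rcases hg with hg | hg
  · obtain ⟨S, h1, h2, h3⟩ := Sublevel_main m g α β lam η hlam hη hd hg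
    refine ⟨S, by omega, ?_, h3⟩
    rw [Nat.cast_add, Nat.cast_one]
    exact h2
  · obtain ⟨S, h1, h2, h3⟩ := Sublevel_main m (fun j t => -(g j t)) α β lam η hlam hη
      (fun j hj t ht => (hd j hj t ht).neg) (fun t ht => by
        have := hg t ht
        show lam ≤ -(g (m + 1) t)
        linarith)
    refine ⟨S, by omega, ?_, ?_⟩
    · rw [Nat.cast_add, Nat.cast_one]
      exact h2
    · intro t ht h0
      refine h3 t ht ?_
      show |-(g 0 t)| ≤ η
      rwa [abs_neg]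

end Pool.Agent.Lib.MP_ec260d_nt
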