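import Mathlib
import Pool.Agent.Lib.MP_ec260d_nt.Sublevel

/-!
# JOB FinFam: sublevel sets for a finite family of independent analytic functions

1. For `b : ι → ℝ` let `φ_b t = ∑ i, b i * φ i t`, analytic at `0`. The linear maps `b ↦ iteratedDeriv m φ_b 0` (linear in `b`: near `0`
   everything is smooth) have common kernel `0`: if all derivatives of `φ_b` at `0` vanish, `φ_b` vanishes near `0`
   (`AnalyticAt`, power series; `AnalyticAt.eventually_eq_zero_iff…`/`analyticOrderAt`), so `b = 0` by `hind`. The kernels `V_K = {b | all derivatives of order ≤ K vanish}` are a decreasing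
   sequence of subspaces of the finite-dimensional space `ι → ℝ` with intersection `0`, so `V_K = 0` for some `K ≥ 1`
   (dimension; or `Submodule` is Artinian: `monotone_stabilizes_iff_artinian`-type lemma). So
   `b ↦ (iteratedDeriv m φ_b 0)_{m ≤ K}` is injective, hence there is `c₀ > 0` with
   `max_{m ≤ K} |iteratedDeriv m φ_b 0| ≥ c₀ max |b i|` for all `b` (injective linear map of finite-dimensional spaces: antilipschitz,
   `LinearMap.injective_iff_antilipschitz` or `LinearMap.exists_antilipschitzWith`).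
2. Choose `r > 0` such that all `φ i` are analytic at every point of `[-r, r]` and `|iteratedDeriv m (φ i) t - iteratedDeriv m (φ i) 0| ≤ c₀ / (2 (card ι + 1))` for
   `|t| ≤ r`, `m ≤ K` (continuity of the iterated derivatives near `0`). So for `max |b i| = 1` (after scaling) some `m ≤ K` has
   `|iteratedDeriv m φ_b t| ≥ c₀/2` with constant sign for all `t ∈ [0, r]`.
3. Given `b` with `β = max |b i| ≥ 1`, replace `b` by `b / β`: `|φ_{b/β} t| ≤ η / β ≤ η`. If `m ≥ 1` apply `sublevel` with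
   `g j = iteratedDeriv j φ_b` on `[0, r]`, `lam = c₀/2`: at most `2^K` intervals of length `≤ 4 (2 η / c₀)^(1/m) ≤ C η^(1/K)` (`η ≤ 1`, `m ≤ K`; take
   `C ≥ 4 max(1, 2/c₀)`). If `m = 0` and `η < c₀/2` the set is empty; if `η ≥ c₀/2` take the single interval `(0, r)`, of length
   `r ≤ C η^(1/K)` for `C ≥ r max(1, 2/c₀)`.
-/

open Set Filter Topology

namespace Pool.Agent.Lib.MP_ec260d_nt

private theorem finFam_step {ι : Type} [Fintype ι] (D : ℕ → ι → ℝ → ℝ)
    (hD : ∀ m i, ContinuousAt (D m i) 0)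
    (hind : ∀ b : ι → ℝ, (∀ m, ∑ i, b i * D m i 0 = 0) → b = 0) :
    ∃ r c : ℝ, ∃ K : ℕ, 0 < r ∧ 0 < c ∧ 1 ≤ K ∧ ∀ b ∈ Metric.sphere (0 : ι → ℝ) 1, ∃ m ≤ K,
      (∀ t ∈ Icc 0 r, c ≤ ∑ i, b i * D m i t) ∨ (∀ t ∈ Icc 0 r, ∑ i, b i * D m i t ≤ -c) := by
  refine (isCompact_sphere (0 : ι → ℝ) 1).induction_on
    (p := fun s => ∃ r c : ℝ, ∃ K : ℕ, 0 < r ∧ 0 < c ∧ 1 ≤ K ∧ ∀ b ∈ s, ∃ m ≤ K,
      (∀ t ∈ Icc 0 r, c ≤ ∑ i, b i * D m i t) ∨ (∀ t ∈ Icc 0 r, ∑ i, b i * D m i t ≤ -c))
    ?_ ?_ ?_ ?_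
  · exact ⟨1, 1, 1, one_pos, one_pos, le_rfl, fun b hb => absurd hb (Set.notMem_empty b)⟩
  · rintro s t hst ⟨r, c, K, hr, hc, hK, h⟩
    exact ⟨r, c, K, hr, hc, hK, fun b hb => h b (hst hb)⟩
  · rintro s t ⟨r, c, K, hr, hc, hK, h⟩ ⟨r', c', K', hr', hc', hK', h'⟩
    refine ⟨min r r', min c c', max K K', lt_min hr hr', lt_min hc hc', le_max_of_le_left hK, ?_⟩
    rintro b (hb | hb)
    · obtain ⟨m, hm, hh⟩ := h b hb
      refine ⟨m, le_max_of_le_left hm, ?_⟩
      rcases hh with hh | hh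
      · exact Or.inl fun t ht =>
          le_trans (min_le_left _ _) (hh t ⟨ht.1, ht.2.trans (min_le_left _ _)⟩)
      · exact Or.inr fun t ht =>
          le_trans (hh t ⟨ht.1, ht.2.trans (min_le_left _ _)⟩) (neg_le_neg (min_le_left _ _))
    · obtain ⟨m, hm, hh⟩ := h' b hb
      refine ⟨m, le_max_of_le_right hm, ?_⟩
      rcases hh with hh | hh
      · exact Or.inl fun t ht =>
          le_trans (min_le_right _ _) (hh t ⟨ht.1, ht.2.trans (min_le_right _ _)⟩)
      · exact Or.inr fun t ht =>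
          le_trans (hh t ⟨ht.1, ht.2.trans (min_le_right _ _)⟩) (neg_le_neg (min_le_right _ _))
  · intro b hb
    have hb0 : b ≠ 0 := by
      rintro rfl
      simp at hb
    obtain ⟨m, hm⟩ : ∃ m, ∑ i, b i * D m i 0 ≠ 0 := by
      by_contra hcon
      push Not at hcon
      exact hb0 (hind b hcon)
    have hcont : ContinuousAt (fun q : (ι → ℝ) × ℝ => ∑ i, q.1 i * D m i q.2) (b, 0) := by
      refine tendsto_finsetSum _ fun i _ => ?_
      have h1 : ContinuousAt (fun q : (ι → ℝ) × ℝ => q.1 i) (b, 0) :=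
        ((continuous_apply i).comp continuous_fst).continuousAt
      have h2 : ContinuousAt (fun q : (ι → ℝ) × ℝ => D m i q.2) (b, 0) :=
        ContinuousAt.comp (f := fun q : (ι → ℝ) × ℝ => q.2) (hD m i) continuous_snd.continuousAt
      exact h1.mul h2
    rcases lt_or_gt_of_ne hm with hneg | hpos
    · have hev : ∀ᶠ q in 𝓝 (b, (0 : ℝ)), ∑ i, q.1 i * D m i q.2 < (∑ i, b i * D m i 0) / 2 :=
        hcont.eventually_lt_const (by linarith)
      rw [nhds_prod_eq, eventually_prod_iff] at hev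
      obtain ⟨pa, hpa, pb, hpb, hab⟩ := hev
      obtain ⟨r, hr, hrb⟩ := Metric.eventually_nhds_iff.1 hpb
      refine ⟨{x | pa x}, mem_nhdsWithin_of_mem_nhds hpa, r / 2, -((∑ i, b i * D m i 0) / 2),
        max m 1, by linarith, by linarith, le_max_right _ _, ?_⟩
      intro b' hb'
      refine ⟨m, le_max_left _ _, Or.inr fun t ht => ?_⟩
      have hlt : dist t 0 < r := by
        rw [Real.dist_eq, sub_zero, abs_of_nonneg ht.1]
        linarith [ht.2]
      have := hab hb' (hrb hlt)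
      simp only at this
      linarith
    · have hev : ∀ᶠ q in 𝓝 (b, (0 : ℝ)), (∑ i, b i * D m i 0) / 2 < ∑ i, q.1 i * D m i q.2 :=
        hcont.eventually_const_lt (by simpa using by linarith)
      rw [nhds_prod_eq, eventually_prod_iff] at hev
      obtain ⟨pa, hpa, pb, hpb, hab⟩ := hev
      obtain ⟨r, hr, hrb⟩ := Metric.eventually_nhds_iff.1 hpb
      refine ⟨{x | pa x}, mem_nhdsWithin_of_mem_nhds hpa, r / 2, (∑ i, b i * D m i 0) / 2,
        max m 1, by linarith, by linarith, le_max_right _ _, ?_⟩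
      intro b' hb'
      refine ⟨m, le_max_left _ _, Or.inl fun t ht => ?_⟩
      have hlt : dist t 0 < r := by
        rw [Real.dist_eq, sub_zero, abs_of_nonneg ht.1]
        linarith [ht.2]
      have := hab hb' (hrb hlt)
      simp only at this
      linarith

theorem fin_fam {ι : Type} [Fintype ι] (φ : ι → ℝ → ℝ) (hφ : ∀ i, AnalyticAt ℝ (φ i) 0)
    (hind : ∀ b : ι → ℝ, (∀ᶠ t in 𝓝 (0 : ℝ), ∑ i, b i * φ i t = 0) → b = 0) :
    ∃ r C : ℝ, ∃ K n₀ : ℕ, 0 < r ∧ 0 < C ∧ 1 ≤ K ∧ ∀ b : ι → ℝ, (∃ i, 1 ≤ |b i|) →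
      ∀ η : ℝ, 0 < η → η ≤ 1 → ∃ S : Finset (ℝ × ℝ), S.card ≤ n₀ ∧
        (∀ J ∈ S, J.2 - J.1 ≤ C * η ^ ((1 : ℝ) / K)) ∧
        ∀ t ∈ Icc 0 r, |∑ i, b i * φ i t| ≤ η → ∃ J ∈ S, J.1 ≤ t ∧ t ≤ J.2 := by
  classical
  -- a common interval of analyticity
  have hana : ∀ᶠ t in 𝓝 (0 : ℝ), ∀ i, AnalyticAt ℝ (φ i) t :=
    eventually_all.2 fun i => (hφ i).eventually_analyticAt
  obtain ⟨ρ, hρ, hρa⟩ := Metric.eventually_nhds_iff.1 hana
  have hana' : ∀ t : ℝ, |t| < ρ → ∀ i, AnalyticAt ℝ (φ i) t := by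
    intro t ht
    exact hρa (by rwa [Real.dist_eq, sub_zero])
  set D : ℕ → ι → ℝ → ℝ := fun m i => iteratedDeriv m (φ i) with hDdef
  have hDana : ∀ t : ℝ, |t| < ρ → ∀ m i, AnalyticAt ℝ (D m i) t := by
    intro t ht m i
    have := (hana' t ht i).iterated_deriv m
    rw [← iteratedDeriv_eq_iterate] at this
    exact this
  have hDder : ∀ t : ℝ, |t| < ρ → ∀ m i, HasDerivAt (D m i) (D (m + 1) i t) t := by
    intro t ht m i
    have h1 := (hDana t ht m i).differentiableAt.hasDerivAt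
    have h2 : D (m + 1) i t = deriv (D m i) t := by
      simp only [hDdef]
      rw [iteratedDeriv_succ]
    rw [h2]
    exact h1
  -- derivatives of the sum
  have hsum : ∀ b : ι → ℝ, ∀ m, ∀ t : ℝ, |t| < ρ →
      iteratedDeriv m (fun t => ∑ i, b i * φ i t) t = ∑ i, b i * D m i t := by
    intro b m
    induction m with
    | zero =>
      intro t _
      simp [hDdef]
    | succ m ih =>
      intro t ht
      rw [iteratedDeriv_succ]
      have hEq : iteratedDeriv m (fun t => ∑ i, b i * φ i t) =ᶠ[𝓝 t]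
          fun t => ∑ i, b i * D m i t := by
        have hopen : IsOpen {t : ℝ | |t| < ρ} := isOpen_lt continuous_abs continuous_const
        filter_upwards [hopen.mem_nhds ht] with s hs
        exact ih s hs
      rw [hEq.deriv_eq]
      have : HasDerivAt (fun t => ∑ i, b i * D m i t) (∑ i, b i * D (m + 1) i t) t := by
        have := HasDerivAt.fun_sum (u := Finset.univ) (A := fun i t => b i * D m i t)
          (A' := fun i => b i * D (m + 1) i t) (x := t)
          (fun i _ => (hDder t ht m i).const_mul (b i))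
        exact this
      exact this.deriv
  have hind' : ∀ b : ι → ℝ, (∀ m, ∑ i, b i * D m i 0 = 0) → b = 0 := by
    intro b hb
    apply hind b
    have hA : AnalyticAt ℝ (fun t => ∑ i, b i * φ i t) 0 := by
      have := Finset.analyticAt_fun_sum (𝕜 := ℝ) (f := fun i t => b i * φ i t) (c := (0 : ℝ))
        Finset.univ (fun i _ => (analyticAt_const (v := b i)).mul (hφ i))
      exact this
    have h1 := hA.hasFPowerSeriesAt
    have h2 : (FormalMultilinearSeries.ofScalars ℝ
        (fun n ↦ iteratedDeriv n (fun t => ∑ i, b i * φ i t) 0 / (n.factorial : ℝ)))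
        = (0 : FormalMultilinearSeries ℝ ℝ ℝ) := by
      have h3 : (fun n : ℕ ↦ iteratedDeriv n (fun t => ∑ i, b i * φ i t) 0 / (n.factorial : ℝ))
          = 0 := by
        funext n
        rw [hsum b n 0 (by simpa using hρ), hb n]
        simp
      rw [h3]
      ext n
      simp [FormalMultilinearSeries.ofScalars]
    rw [h2] at h1
    exact h1.eventually_eq_zero
  obtain ⟨r₀, c, K, hr₀, hc, hK, hstep⟩ := finFam_step D
    (fun m i => (hDana 0 (by simpa using hρ) m i).continuousAt) hind'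
  set r := min r₀ (ρ / 2) with hrdef
  have hr : 0 < r := lt_min hr₀ (by linarith)
  set M := max 1 (1 / c) with hM
  have hM1 : 1 ≤ M := le_max_left _ _
  have hMc : 1 / c ≤ M := le_max_right _ _
  refine ⟨r, (4 + r) * M, K, 2 ^ K, hr, by positivity, hK, ?_⟩
  rintro b ⟨i₀, hi₀⟩ η hη hη1
  have hβ : 1 ≤ ‖b‖ := hi₀.trans (by simpa using norm_le_pi_norm b i₀)
  have hβ0 : 0 < ‖b‖ := by linarith
  set b' : ι → ℝ := ‖b‖⁻¹ • b with hb'
  have hsph : b' ∈ Metric.sphere (0 : ι → ℝ) 1 := by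
    rw [mem_sphere_zero_iff_norm, hb', norm_smul, norm_inv, norm_norm, inv_mul_cancel₀ hβ0.ne']
  obtain ⟨m, hm, hsign⟩ := hstep b' hsph
  have hηK : 0 < η ^ ((1 : ℝ) / K) := Real.rpow_pos_of_pos hη _
  have hsmall : ∀ t, |∑ i, b i * φ i t| ≤ η → |∑ i, b' i * D 0 i t| ≤ η := by
    intro t ht
    have h1 : ∑ i, b' i * D 0 i t = ‖b‖⁻¹ * ∑ i, b i * φ i t := by
      rw [Finset.mul_sum]
      refine Finset.sum_congr rfl fun i _ => ?_
      simp only [hb', hDdef, Pi.smul_apply, smul_eq_mul, iteratedDeriv_zero]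
      ring
    rw [h1, abs_mul, abs_of_pos (inv_pos.2 hβ0)]
    calc ‖b‖⁻¹ * |∑ i, b i * φ i t| ≤ 1 * η :=
          mul_le_mul (inv_le_one_of_one_le₀ hβ) ht (abs_nonneg _) zero_le_one
      _ = η := one_mul η
  rcases Nat.eq_zero_or_pos m with rfl | hmpos
  · by_cases hcη : η < c
    · refine ⟨∅, by simp, by simp, ?_⟩
      intro t ht hle
      exfalso
      have h1 := hsmall t hle
      have ht' : t ∈ Icc 0 r₀ := ⟨ht.1, ht.2.trans (min_le_left _ _)⟩
      rw [abs_le] at h1
      rcases hsign with h | h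
      · linarith [h t ht', h1.2]
      · linarith [h t ht', h1.1]
    · push Not at hcη
      refine ⟨{(0, r)}, ?_, ?_, ?_⟩
      · simp [Nat.one_le_two_pow]
      · intro J hJ
        rw [Finset.mem_singleton] at hJ
        subst hJ
        simp only [sub_zero]
        have h1 : η ≤ η ^ ((1 : ℝ) / K) := by
          have hKr : (1 : ℝ) ≤ K := by exact_mod_cast hK
          calc η = η ^ (1 : ℝ) := (Real.rpow_one η).symm
            _ ≤ η ^ ((1 : ℝ) / K) := Real.rpow_le_rpow_of_exponent_ge hη hη1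
                ((div_le_one (by linarith)).2 hKr)
        have h2 : 1 ≤ M * η ^ ((1 : ℝ) / K) := by
          calc (1 : ℝ) = 1 / c * c := by field_simp
            _ ≤ M * η ^ ((1 : ℝ) / K) :=
              mul_le_mul hMc (hcη.trans h1) hc.le (by linarith)
        calc r = r * 1 := (mul_one r).symm
          _ ≤ (4 + r) * (M * η ^ ((1 : ℝ) / K)) :=
            mul_le_mul (by linarith) h2 zero_le_one (by linarith)
          _ = (4 + r) * M * η ^ ((1 : ℝ) / K) := by ring
      · intro t ht _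
        exact ⟨(0, r), by simp, ht.1, ht.2⟩
  · have hsub := sublevel m hmpos (fun j t => ∑ i, b' i * D j i t) 0 r c η hr.le hc hη
      (by
        intro j _ t ht
        have htρ : |t| < ρ := by
          rw [abs_of_nonneg ht.1]
          have := ht.2.trans (min_le_right r₀ (ρ / 2))
          linarith
        have := HasDerivAt.fun_sum (u := Finset.univ) (A := fun i t => b' i * D j i t)
          (A' := fun i => b' i * D (j + 1) i t) (x := t)
          (fun i _ => (hDder t htρ j i).const_mul (b' i))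
        exact this)
      (by
        rcases hsign with h | h
        · exact Or.inl fun t ht => h t ⟨ht.1, ht.2.trans (min_le_left _ _)⟩
        · exact Or.inr fun t ht => h t ⟨ht.1, ht.2.trans (min_le_left _ _)⟩)
    obtain ⟨S, hS1, hS2, hS3⟩ := hsub
    refine ⟨S, hS1.trans (Nat.pow_le_pow_right (by norm_num) hm), ?_, ?_⟩
    · intro J hJ
      refine (hS2 J hJ).trans ?_
      have hmr : (1 : ℝ) ≤ m := by exact_mod_cast hmpos
      have hmK : (m : ℝ) ≤ K := by exact_mod_cast hm
      have hm0 : (0 : ℝ) < m := by linarith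
      have h1 : (η / c) ^ ((1 : ℝ) / m) ≤ M * η ^ ((1 : ℝ) / K) := by
        have e1 : η / c = 1 / c * η := by ring
        rw [e1, Real.mul_rpow (by positivity) hη.le]
        refine mul_le_mul ?_ ?_ (Real.rpow_nonneg hη.le _) (by linarith)
        · calc (1 / c) ^ ((1 : ℝ) / m) ≤ M ^ ((1 : ℝ) / m) :=
                Real.rpow_le_rpow (by positivity) hMc (by positivity)
            _ ≤ M ^ (1 : ℝ) := Real.rpow_le_rpow_of_exponent_le hM1
                ((div_le_one hm0).2 hmr)
            _ = M := Real.rpow_one M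
        · exact Real.rpow_le_rpow_of_exponent_ge hη hη1
            (one_div_le_one_div_of_le hm0 hmK)
      have hpos : 0 ≤ M * η ^ ((1 : ℝ) / K) := by positivity
      calc 4 * (η / c) ^ ((1 : ℝ) / m) ≤ 4 * (M * η ^ ((1 : ℝ) / K)) := by linarith
        _ ≤ (4 + r) * (M * η ^ ((1 : ℝ) / K)) := by nlinarith
        _ = (4 + r) * M * η ^ ((1 : ℝ) / K) := by ring
    · intro t ht hle
      exact hS3 t ht (hsmall t hle)

end Pool.Agent.Lib.MP_ec260d_nt
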