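import Pool.Agent.Lib.MP_ec260d_nt.IndepStep

/-!
# JOB Indep: algebraic independence of the functions `lam (a i * ν)`

Induction on `k`. `k = 0`: `Q` is a constant (`MvPolynomial.eq_C_of_isEmpty`), evaluate at one point of `(u, v)`.
`k + 1`: let `i₀` be an index with `a i₀` maximal (`Finite.exists_max`), `σ = Equiv.swap 0 i₀`; apply `indep_step` to `a ∘ σ`
and `Q' = MvPolynomial.rename σ.symm Q` (`MvPolynomial.eval_rename`; `rename` along an equivalence is injective);
`a (σ j.succ) < a (σ 0) = a i₀` by maximality and injectivity.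
-/

open Real Set Filter Topology

namespace Pool.Agent.Lib.MP_ec260d_nt

theorem indep (k : ℕ) : IndepAt k := by
  induction k with
  | zero =>
    intro a _ _ Q u v _ huv h
    have hm : (u + v) / 2 ∈ Ioo u v := ⟨by linarith, by linarith⟩
    have h1 := h _ hm
    rw [MvPolynomial.eq_C_of_isEmpty Q, MvPolynomial.eval_C] at h1
    rw [MvPolynomial.eq_C_of_isEmpty Q, h1, map_zero]
  | succ k ih =>
    intro a ha hinj Q u v hu huv h
    obtain ⟨i₀, hi₀⟩ := Finite.exists_max a
    set σ : Equiv.Perm (Fin (k + 1)) := Equiv.swap 0 i₀ with hσ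
    have hσ0 : σ 0 = i₀ := by rw [hσ]; exact Equiv.swap_apply_left 0 i₀
    have hmax : ∀ j : Fin k, a (σ j.succ) < a (σ 0) := by
      intro j
      refine lt_of_le_of_ne (by rw [hσ0]; exact hi₀ _) ?_
      intro he
      have h1 := σ.injective (hinj he)
      exact Fin.succ_ne_zero j h1
    have key : MvPolynomial.rename σ.symm Q = 0 := by
      refine indep_step k ih (a ∘ σ) (fun i => ha _) (hinj.comp σ.injective) hmax _ u v hu huv ?_
      intro ν hν
      rw [MvPolynomial.eval_rename]
      have he : ((fun i => ((lam ((a ∘ σ) i * ν) : ℝ) : ℂ)) ∘ σ.symm) =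
          fun i => ((lam (a i * ν) : ℝ) : ℂ) := by
        funext i
        simp
      rw [he]
      exact h ν hν
    exact MvPolynomial.rename_injective _ σ.symm.injective (by rw [key, map_zero])

end Pool.Agent.Lib.MP_ec260d_nt
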