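import Mathlib

/-!
# JOB Delta: the analytic solution of `d + log (1 + t d) = A`

If `A = 0` take `d = 0`. If `A ≠ 0`: `τ δ = (exp (A - δ) - 1) / δ` is analytic near `δ = A`, `τ A = 0` and
`τ' A = -1 / A ≠ 0`. By the inverse function theorem for analytic functions there is `d` analytic at `0` with `d 0 = A`
and `τ (d t) = t` near `0` (see `OpenPartialHomeomorph.analyticAt_symm'`, `HasStrictDerivAt.toOpenPartialHomeomorph`, or
`ContDiffAt.to_localInverse` with smoothness `ω`). For `t` near `0`, `d t ≠ 0`, so `1 + t * d t = exp (A - d t) > 0` and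
`log (1 + t * d t) = A - d t`.
-/

open Real Set Filter Topology

namespace Pool.Agent.Lib.MP_ec260d_nt

theorem exists_delta (A : ℝ) : ∃ d : ℝ → ℝ, AnalyticAt ℝ d 0 ∧ d 0 = A ∧
    ∀ᶠ t in 𝓝 (0 : ℝ), 0 < 1 + t * d t ∧ d t + Real.log (1 + t * d t) = A := by
  rcases eq_or_ne A 0 with h0 | h0
  · refine ⟨fun _ => 0, analyticAt_const, h0.symm, ?_⟩
    exact Eventually.of_forall fun t => by simp [h0]
  have hd1 : HasDerivAt (fun x : ℝ => (Real.exp (A - x) - 1) / x) (-1 / A) A := by
    have h1 : HasDerivAt (fun x : ℝ => Real.exp (A - x) - 1) (Real.exp (A - A) * (-1)) A := by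
      have h2 : HasDerivAt (fun x : ℝ => A - x) (-1) A := by
        simpa using (hasDerivAt_id A).const_sub A
      exact (h2.exp).sub_const 1
    have h3 := h1.div (hasDerivAt_id A) h0
    refine h3.congr_deriv ?_
    simp only [sub_self, Real.exp_zero, id_eq, one_mul, zero_mul, sub_zero]
    field_simp
  have ha : AnalyticAt ℝ (fun x : ℝ => (Real.exp (A - x) - 1) / x) A := by
    have h1 : AnalyticAt ℝ (fun x : ℝ => A - x) A := analyticAt_const.sub analyticAt_id
    have h2 : AnalyticAt ℝ (fun x : ℝ => Real.exp (A - x)) A :=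
      (analyticAt_rexp (x := A - A)).fun_comp h1
    exact (h2.sub analyticAt_const).div analyticAt_id h0
  have hd : deriv (fun x : ℝ => (Real.exp (A - x) - 1) / x) A ≠ 0 := by
    rw [hd1.deriv]
    exact div_ne_zero (by norm_num) h0
  have hfA : (Real.exp (A - A) - 1) / A = 0 := by simp
  have hr1 := ha.analyticAt_localInverse hd
  have hr2 := HasStrictFDerivAt.localInverse_apply_image (f := fun x : ℝ => (Real.exp (A - x) - 1) / x)
    (ha.hasStrictDerivAt.hasStrictFDerivAt_equiv hd)
  have hr3 := ha.hasStrictDerivAt.eventually_right_inverse hd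
  rw [hfA] at hr1 hr2 hr3
  refine ⟨_, hr1, hr2, ?_⟩
  have hc := hr1.continuousAt
  have hne : ∀ᶠ t in 𝓝 (0 : ℝ), ha.hasStrictDerivAt.localInverse _ _ _ hd t ≠ 0 := by
    refine hc.eventually_ne ?_
    exact fun h => h0 (hr2.symm.trans h)
  filter_upwards [hr3, hne] with t ht1 ht2
  have h4 : Real.exp (A - ha.hasStrictDerivAt.localInverse _ _ _ hd t) - 1 =
      t * ha.hasStrictDerivAt.localInverse _ _ _ hd t := (div_eq_iff ht2).1 ht1
  have h5 : 1 + t * ha.hasStrictDerivAt.localInverse _ _ _ hd t =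
      Real.exp (A - ha.hasStrictDerivAt.localInverse _ _ _ hd t) := by linarith
  rw [h5]
  refine ⟨Real.exp_pos _, ?_⟩
  rw [Real.log_exp]
  ring

end Pool.Agent.Lib.MP_ec260d_nt
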