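import Pool.Agent.Lib.MP_ec260d_nt.Lam
import Pool.Agent.Lib.MP_ec260d_nt.Delta

/-!
# JOB LamSub: `lam (b ν) - lam (a ν)` is an analytic function of `1 / lam (a ν)`

Take `A = log b - log a = log (b/a)` and `d` from `exists_delta A`. Let `w = lam (a ν) > 0`, `t = 1 / w`, `x = lam (b ν) - w`.
By `lam_add_log`: `w + log w = log a + log ν`, `(w + x) + log (w + x) = log b + log ν`, so `x + log (1 + t x) = A`
(`w + x = lam (b ν) > 0`, `log (w + x) - log w = log ((w + x)/w)`). For fixed `t > 0` the function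
`x ↦ x + log (1 + t x)` is strictly increasing on `{x | 0 < 1 + t x}`, and `d t` is another solution when `t` is small
(`exists_delta`, and `t → 0+` as `ν → ∞` because `lam_tendsto`). So `x = d t`.
-/

open Real Set Filter Topology

namespace Pool.Agent.Lib.MP_ec260d_nt

theorem lam_sub (a b : ℝ) (ha : 0 < a) (hb : 0 < b) : ∃ d : ℝ → ℝ, AnalyticAt ℝ d 0 ∧
    ∀ᶠ ν in atTop, lam (b * ν) = lam (a * ν) + d (1 / lam (a * ν)) := by
  obtain ⟨d, hd, -, hev⟩ := exists_delta (Real.log b - Real.log a)
  refine ⟨d, hd, ?_⟩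
  have h1 : Tendsto (fun ν : ℝ => a * ν) atTop atTop := Tendsto.const_mul_atTop ha tendsto_id
  have h2 : Tendsto (fun ν : ℝ => lam (a * ν)) atTop atTop := lam_tendsto.comp h1
  have h3 : Tendsto (fun ν : ℝ => 1 / lam (a * ν)) atTop (𝓝 0) := by
    refine h2.inv_tendsto_atTop.congr (fun ν => ?_)
    rw [Pi.inv_apply, one_div]
  filter_upwards [h3.eventually hev, eventually_gt_atTop 0] with ν hν hν0
  have hwa : 0 < lam (a * ν) := lam_pos (by positivity)
  have hwb : 0 < lam (b * ν) := lam_pos (by positivity)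
  have ea := lam_add_log (x := a * ν) (by positivity)
  have eb := lam_add_log (x := b * ν) (by positivity)
  rw [Real.log_mul ha.ne' hν0.ne'] at ea
  rw [Real.log_mul hb.ne' hν0.ne'] at eb
  obtain ⟨hp, he⟩ := hν
  generalize lam (a * ν) = w at *
  generalize lam (b * ν) = v at *
  have hy : w + d (1 / w) = w * (1 + 1 / w * d (1 / w)) := by
    field_simp
  have hy0 : 0 < w + d (1 / w) := by
    rw [hy]
    exact mul_pos hwa hp
  have hly : Real.log (w + d (1 / w)) = Real.log w + Real.log (1 + 1 / w * d (1 / w)) := by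
    rw [hy, Real.log_mul hwa.ne' hp.ne']
  have key : v + Real.log v = (w + d (1 / w)) + Real.log (w + d (1 / w)) := by
    rw [hly]
    linarith
  rcases lt_trichotomy v (w + d (1 / w)) with h | h | h
  · have := Real.log_lt_log hwb h
    linarith
  · exact h
  · have := Real.log_lt_log hy0 h
    linarith

end Pool.Agent.Lib.MP_ec260d_nt
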