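import Mathlib

/-!
# JOB PolyRev: dehomogenisation and reversal of polynomials

`dehom_ne_zero`: let `p = 0`, i.e. `F(1, y) = 0` for all `y`, where `F` is homogeneous of degree `d`
(`MvPolynomial.IsHomogeneous.eval₂` / `IsHomogeneous.eval_smul`-type lemma: `F(x₀ (1, y)) = x₀ ^ d F(1, y)`).
For `x₀ ≠ 0` and any `x`, `F(x₀, x) = x₀ ^ d F(1, x / x₀) = 0`. So `X none * F` vanishes everywhere, hence is `0`
(`MvPolynomial.funext`), hence `F = 0`. State: the function `y ↦ F(1, y)` is given by the polynomial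
`p = MvPolynomial.aeval (fun o => o.elim 1 (fun i => X i)) F`.

`rev`: take `Q = ∑ m ∈ p.support, C (p.coeff m * ∏ i, κ i ^ m i) * ∏ i, X i ^ (d - m i)`. For `w` with all `w i ≠ 0`:
`w i ^ (d - m i) = w i ^ d / w i ^ m i` (`m i ≤ |m| ≤ totalDegree p ≤ d`), so `eval w Q = (∏ i, w i) ^ d * eval (κ / w) p`.
If `Q = 0` then `p` vanishes at every `y` with nonzero coordinates (take `w = κ / y`), so `(∏ i, X i) * p` vanishes
everywhere, `p = 0`.
-/

open MvPolynomial

namespace Pool.Agent.Lib.MP_ec260d_nt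

private lemma sum_deg {k d : ℕ} {F : MvPolynomial (Option (Fin k)) ℂ} (hF : F.IsHomogeneous d)
    {m : Option (Fin k) →₀ ℕ} (hm : m ∈ F.support) : m none + ∑ i : Fin k, m (some i) = d := by
  have h1 : Finsupp.weight 1 m = d := hF (mem_support_iff.1 hm)
  have h2 : m.degree = d := by
    rw [Finsupp.degree_eq_weight_one]
    exact h1
  rw [Finsupp.degree_eq_sum, Fintype.sum_option] at h2
  exact h2

theorem dehom {k d : ℕ} (F : MvPolynomial (Option (Fin k)) ℂ) (hF : F.IsHomogeneous d) (h0 : F ≠ 0) :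
    ∃ p : MvPolynomial (Fin k) ℂ, p ≠ 0 ∧ p.totalDegree ≤ d ∧
      ∀ (x₀ : ℂ) (y : Fin k → ℂ),
        eval (fun o : Option (Fin k) => o.elim x₀ (fun i => x₀ * y i)) F = x₀ ^ d * eval y p := by
  set p : MvPolynomial (Fin k) ℂ :=
    ∑ m ∈ F.support, C (F.coeff m) * ∏ i : Fin k, X i ^ m (some i) with hp
  have hev : ∀ (x₀ : ℂ) (y : Fin k → ℂ),
      eval (fun o : Option (Fin k) => o.elim x₀ (fun i => x₀ * y i)) F = x₀ ^ d * eval y p := by
    intro x₀ y
    rw [eval_eq', hp, map_sum, Finset.mul_sum]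
    refine Finset.sum_congr rfl fun m hm => ?_
    rw [Fintype.prod_option, map_mul, eval_C, map_prod]
    simp only [map_pow, eval_X, Option.elim_none, Option.elim_some, mul_pow]
    rw [Finset.prod_mul_distrib, Finset.prod_pow_eq_pow_sum, ← sum_deg hF hm, pow_add]
    ring
  refine ⟨p, ?_, ?_, hev⟩
  · intro hp0
    apply h0
    have hX : (X none : MvPolynomial (Option (Fin k)) ℂ) * F = 0 := by
      refine MvPolynomial.funext fun w => ?_
      rw [map_mul, eval_X, map_zero]
      by_cases hw : w none = 0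
      · rw [hw, zero_mul]
      · have h1 := hev (w none) (fun i => w (some i) / w none)
        rw [hp0, map_zero, mul_zero] at h1
        have h2 : (fun o : Option (Fin k) => o.elim (w none)
            (fun i => w none * (w (some i) / w none))) = w := by
          funext o
          cases o with
          | none => rfl
          | some i =>
            show w none * (w (some i) / w none) = w (some i)
            field_simp
        rw [h2] at h1
        rw [h1, mul_zero]
    rcases mul_eq_zero.1 hX with h | h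
    · exact absurd h (X_ne_zero _)
    · exact h
  · rw [hp]
    refine totalDegree_finsetSum_le fun m hm => ?_
    refine (totalDegree_mul _ _).trans ?_
    rw [totalDegree_C, zero_add]
    refine (totalDegree_finsetProd _ _).trans ?_
    simp only [totalDegree_X_pow]
    rw [← sum_deg hF hm]
    exact Nat.le_add_left _ _

theorem rev {k d : ℕ} (p : MvPolynomial (Fin k) ℂ) (hp : p ≠ 0) (hd : p.totalDegree ≤ d)
    (κ : Fin k → ℂ) (hκ : ∀ i, κ i ≠ 0) :
    ∃ Q : MvPolynomial (Fin k) ℂ, Q ≠ 0 ∧ ∀ w : Fin k → ℂ, (∀ i, w i ≠ 0) →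
      eval w Q = (∏ i, w i) ^ d * eval (fun i => κ i / w i) p := by
  set Q : MvPolynomial (Fin k) ℂ :=
    ∑ m ∈ p.support, C (p.coeff m * ∏ i, κ i ^ m i) * ∏ i, X i ^ (d - m i) with hQ
  have hev : ∀ w : Fin k → ℂ, (∀ i, w i ≠ 0) →
      eval w Q = (∏ i, w i) ^ d * eval (fun i => κ i / w i) p := by
    intro w hw
    rw [eval_eq' (fun i => κ i / w i), hQ, map_sum, Finset.mul_sum]
    refine Finset.sum_congr rfl fun m hm => ?_
    have hmi : ∀ i, m i ≤ d := by
      intro i
      have h1 : m i ≤ m.sum fun _ e => e := by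
        rw [Finsupp.sum_fintype _ _ (fun _ => rfl)]
        exact Finset.single_le_sum (f := fun j => m j) (fun _ _ => Nat.zero_le _) (Finset.mem_univ i)
      exact (h1.trans (le_totalDegree hm)).trans hd
    rw [map_mul, eval_C, map_prod]
    simp only [map_pow, eval_X]
    have h2 : ∏ i, w i ^ (d - m i) = (∏ i, w i) ^ d * ∏ i, (w i ^ m i)⁻¹ := by
      rw [← Finset.prod_pow, ← Finset.prod_mul_distrib]
      refine Finset.prod_congr rfl fun i _ => ?_
      rw [pow_sub₀ _ (hw i) (hmi i)]
    have h3 : ∏ i, (κ i / w i) ^ m i = (∏ i, κ i ^ m i) * ∏ i, (w i ^ m i)⁻¹ := by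
      rw [← Finset.prod_mul_distrib]
      refine Finset.prod_congr rfl fun i _ => ?_
      rw [div_pow, div_eq_mul_inv]
    rw [h2, h3]
    ring
  refine ⟨Q, ?_, hev⟩
  intro hQ0
  apply hp
  have hX : (∏ i : Fin k, (X i : MvPolynomial (Fin k) ℂ)) * p = 0 := by
    refine MvPolynomial.funext fun y => ?_
    rw [map_mul, map_prod, map_zero]
    simp only [eval_X]
    by_cases hy : ∀ i, y i ≠ 0
    · have h1 := hev (fun i => κ i / y i) (fun i => div_ne_zero (hκ i) (hy i))
      rw [hQ0, map_zero] at h1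
      have h2 : (fun i => κ i / (κ i / y i)) = y := by
        funext i
        have h3 := hκ i
        have h4 := hy i
        field_simp
      rw [h2] at h1
      have h5 : (∏ i, κ i / y i) ^ d ≠ 0 :=
        pow_ne_zero _ (Finset.prod_ne_zero_iff.2 fun i _ => div_ne_zero (hκ i) (hy i))
      rcases mul_eq_zero.1 h1.symm with h | h
      · exact absurd h h5
      · rw [h, mul_zero]
    · push Not at hy
      obtain ⟨i, hi⟩ := hy
      rw [Finset.prod_eq_zero (Finset.mem_univ i) hi, zero_mul]
  rcases mul_eq_zero.1 hX with h | h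
  · exact absurd h (Finset.prod_ne_zero_iff.2 fun i _ => X_ne_zero i)
  · exact h

end Pool.Agent.Lib.MP_ec260d_nt
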