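import Mathlib
import Pool.Agent.Lib.MP_ec260d_nt.Indep
import Pool.Agent.Lib.MP_ec260d_nt.LamSub
import Pool.Agent.Lib.MP_ec260d_nt.PolyRev

/-!
# JOB GermInd: the functions `κ i / lam (a i ν)` as analytic functions of `t = 1 / lam ν`, and their independence

For each `i` take `d i` from `lam_sub 1 (a i)` and put `y i t = κ i * t / (1 + t * d i t)`, analytic at `0`. For `ν` large, with
`t = 1 / lam ν` (`lam ν > 0`, `t → 0+`): `lam (a i ν) = lam ν + d i t = (1 + t * d i t) / t`, so `y i t = κ i / lam (a i ν)` (`1 + t d i t = t lam (a i ν) > 0`).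
Independence: let `∑_e b e * ∏ i, y i t ^ (e i) = 0` for `t` near `0`. Then for `ν` large (all `ν > ν₀`)
`∑_e b e * ∏ i, (κ i / lam (a i ν)) ^ (e i) = 0`. Let `p = ∑_e C (b e) * ∏ i, X i ^ (e i : ℕ) : MvPolynomial (Fin k) ℂ`. If `p ≠ 0`, `rev p` (with `d = max (totalDegree p) …`)
gives `Q ≠ 0` with `eval (lam (a i ν)) Q = (∏ lam (a i ν))^d * eval (κ / lam) p = 0` for `ν > ν₀`; `indep k` on the interval `(ν₀+1, ν₀+2)`
gives `Q = 0`. So `p = 0` and all `b e = 0` (the monomials for distinct `e : Fin k → Fin (D+1)` are distinct).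
-/

open Real Set Filter Topology

namespace Pool.Agent.Lib.MP_ec260d_nt

/-- The exponent vector of an index. -/
private noncomputable def GermInd_exp {k D : ℕ} (e : Fin k → Fin (D + 1)) : Fin k →₀ ℕ :=
  Finsupp.equivFunOnFinite.symm fun i => (e i : ℕ)

private theorem GermInd_exp_inj {k D : ℕ} :
    Function.Injective (GermInd_exp : (Fin k → Fin (D + 1)) → (Fin k →₀ ℕ)) := by
  intro e e' h
  have h1 := Finsupp.equivFunOnFinite.symm.injective h
  funext i
  exact Fin.ext (congrFun h1 i)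

/-- The polynomial of a coefficient family. -/
private noncomputable def GermInd_pol {k D : ℕ} (b : (Fin k → Fin (D + 1)) → ℝ) :
    MvPolynomial (Fin k) ℂ :=
  ∑ e, MvPolynomial.monomial (GermInd_exp e) ((b e : ℝ) : ℂ)

private theorem GermInd_eval {k D : ℕ} (b : (Fin k → Fin (D + 1)) → ℝ) (z : Fin k → ℝ) :
    MvPolynomial.eval (fun i => ((z i : ℝ) : ℂ)) (GermInd_pol b) =
      ((∑ e, b e * ∏ i, z i ^ (e i : ℕ) : ℝ) : ℂ) := by
  rw [GermInd_pol, map_sum, Complex.ofReal_sum]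
  refine Finset.sum_congr rfl fun e _ => ?_
  rw [MvPolynomial.eval_monomial, Complex.ofReal_mul, Complex.ofReal_prod]
  congr 1
  rw [Finsupp.prod_fintype _ _ (fun i => pow_zero _)]
  refine Finset.prod_congr rfl fun i _ => ?_
  rw [Complex.ofReal_pow]
  rfl

private theorem GermInd_zero {k D : ℕ} (b : (Fin k → Fin (D + 1)) → ℝ) (h : GermInd_pol b = 0) :
    b = 0 := by
  classical
  funext e
  have h1 := congrArg (MvPolynomial.coeff (GermInd_exp e)) h
  rw [GermInd_pol, MvPolynomial.coeff_sum, MvPolynomial.coeff_zero] at h1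
  rw [Finset.sum_eq_single e] at h1
  · rw [MvPolynomial.coeff_monomial, if_pos rfl] at h1
    exact_mod_cast h1
  · intro e' _ he'
    rw [MvPolynomial.coeff_monomial, if_neg]
    intro h2
    exact he' (GermInd_exp_inj h2)
  · intro h2
    exact absurd (Finset.mem_univ e) h2

theorem germ_ind (k D : ℕ) (a κ : Fin k → ℝ) (ha : ∀ i, 0 < a i) (hinj : Function.Injective a)
    (hκ : ∀ i, 0 < κ i) : ∃ y : Fin k → ℝ → ℝ, (∀ i, AnalyticAt ℝ (y i) 0) ∧
      (∀ᶠ ν in atTop, ∀ i, y i (1 / lam ν) = κ i / lam (a i * ν)) ∧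
      ∀ b : (Fin k → Fin (D + 1)) → ℝ,
        (∀ᶠ t in 𝓝 (0 : ℝ), ∑ e, b e * ∏ i, y i t ^ (e i : ℕ) = 0) → b = 0 := by
  choose d hd hdev using fun i => lam_sub 1 (a i) one_pos (ha i)
  have hT : Tendsto (fun ν : ℝ => 1 / lam ν) atTop (𝓝 0) := by
    refine lam_tendsto.inv_tendsto_atTop.congr (fun ν => ?_)
    rw [Pi.inv_apply, one_div]
  have hyev : ∀ᶠ ν in atTop, ∀ i,
      (fun (i : Fin k) (t : ℝ) => κ i * t / (1 + t * d i t)) i (1 / lam ν) = κ i / lam (a i * ν) := by
    rw [eventually_all]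
    intro i
    filter_upwards [hdev i, eventually_gt_atTop 0] with ν hν hν0
    rw [one_mul] at hν
    have h1 : 0 < lam ν := lam_pos hν0
    have h2 : 0 < lam (a i * ν) := lam_pos (mul_pos (ha i) hν0)
    show κ i * (1 / lam ν) / (1 + 1 / lam ν * d i (1 / lam ν)) = κ i / lam (a i * ν)
    have h3 : 1 + 1 / lam ν * d i (1 / lam ν) = lam (a i * ν) / lam ν := by
      rw [hν]
      field_simp
    rw [h3]
    field_simp
  refine ⟨fun i t => κ i * t / (1 + t * d i t), ?_, hyev, ?_⟩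
  · intro i
    have h1 : AnalyticAt ℝ (fun t : ℝ => t) 0 := analyticAt_id
    refine (analyticAt_const.mul h1).div (analyticAt_const.add (h1.mul (hd i))) ?_
    simp
  · intro b hb
    have h1 : ∀ᶠ ν in atTop, ∑ e, b e * ∏ i, (κ i / lam (a i * ν)) ^ (e i : ℕ) = 0 := by
      filter_upwards [hT.eventually hb, hyev] with ν h2 h3
      rw [← h2]
      refine Finset.sum_congr rfl fun e _ => ?_
      congr 1
      refine Finset.prod_congr rfl fun i _ => ?_
      rw [← h3 i]
    obtain ⟨ν₀, h0⟩ := eventually_atTop.1 (h1.and (eventually_gt_atTop 0))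
    apply GermInd_zero
    by_contra hp
    obtain ⟨Q, hQ, hQe⟩ := rev (GermInd_pol b) hp le_rfl (fun i => ((κ i : ℝ) : ℂ))
      (fun i => by exact_mod_cast (hκ i).ne')
    apply hQ
    refine indep k a ha hinj Q (max ν₀ 1) (max ν₀ 1 + 1) (by positivity) (by linarith) ?_
    intro ν hν
    have hν1 : ν₀ ≤ ν := (le_max_left _ _).trans hν.1.le
    obtain ⟨h4, h5⟩ := h0 ν hν1
    have h6 : ∀ i, ((lam (a i * ν) : ℝ) : ℂ) ≠ 0 := by
      intro i
      have := lam_pos (mul_pos (ha i) h5)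
      exact_mod_cast this.ne'
    rw [hQe _ h6]
    have h7 : (fun i => ((κ i : ℝ) : ℂ) / ((lam (a i * ν) : ℝ) : ℂ)) =
        fun i => ((κ i / lam (a i * ν) : ℝ) : ℂ) := by
      funext i
      rw [Complex.ofReal_div]
    rw [h7, GermInd_eval, h4, Complex.ofReal_zero, mul_zero]

end Pool.Agent.Lib.MP_ec260d_nt
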