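import Mathlib

/-!
# JOB IntTop: the top degree form of an integer polynomial at an approximate zero

Let `d = P.totalDegree`. For `e : Fin k → Fin (D + 1)` let `|e| = ∑ i, (e i : ℕ)`. Put `b e = P.coeff m_e` if `|e| ≤ d`, where
`m_e none = d - |e|`, `m_e (some i) = e i` (a finsupp on `Option (Fin k)`), and `b e = 0` if `|e| > d`. The monomials of `P` of degree exactly `d` are the `m_e` with
`|e| ≤ d` (`e i ≤ d ≤ D`), and one of them has a nonzero coefficient (`P ≠ 0`; `MvPolynomial.totalDegree` is attained on the support). So `b ≠ 0`, `|b e| ≤ H`.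
Let `eval (n, x) P = 0`, i.e. `∑_{m ∈ support} c_m n^(m none) ∏ x i ^ (m (some i)) = 0`. Divide by `n ^ d`, with `z i = x i / n`, `|z i| ≤ A`:
`∑_{|m| = d} c_m ∏ z i ^ m(some i) = - ∑_{|m| < d} c_m n^(|m| - d) ∏ z i ^ m(some i)`. The right side is at most `#(support) * H * (1 + A)^D / n`; the number
of monomials of degree `≤ D` in `k + 1` variables is at most `(D + 1)^(k + 1)`. The left side is `∑ e, b e * ∏ i, z i ^ (e i)`, and
`|∏ z i ^ e i - ∏ y i ^ e i| ≤ k D (1 + A)^(k D) ε` for `|z i|, |y i| ≤ A`, `|z i - y i| ≤ ε`. So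
`|∑ b e ∏ y i ^ e i| ≤ (D+1)^(k+1) H (1+A)^D / n + (D+1)^k H k D (1+A)^(k D) ε`.
-/

open MvPolynomial

namespace Pool.Agent.Lib.MP_ec260d_nt

theorem IntTop_pow (A : ℝ) (hA : 0 ≤ A) (z y ε : ℝ) (hz : |z| ≤ A) (hy : |y| ≤ A)
    (h : |z - y| ≤ ε) (e : ℕ) : |z ^ e - y ^ e| ≤ e * (1 + A) ^ e * ε := by
  have hε : 0 ≤ ε := (abs_nonneg _).trans h
  have hA1 : (1 : ℝ) ≤ 1 + A := by linarith
  have hz' : |z| ≤ 1 + A := by linarith
  have hy' : |y| ≤ 1 + A := by linarith
  induction e with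
  | zero => simp
  | succ e ih =>
    have e1 : z ^ (e + 1) - y ^ (e + 1) = z ^ e * (z - y) + y * (z ^ e - y ^ e) := by ring
    have e2 : (1 + A) ^ e ≤ (1 + A) ^ (e + 1) := pow_le_pow_right₀ hA1 (Nat.le_succ e)
    rw [e1]
    calc |z ^ e * (z - y) + y * (z ^ e - y ^ e)|
        ≤ |z ^ e * (z - y)| + |y * (z ^ e - y ^ e)| := abs_add_le _ _
      _ = |z| ^ e * |z - y| + |y| * |z ^ e - y ^ e| := by rw [abs_mul, abs_mul, abs_pow]
      _ ≤ (1 + A) ^ e * ε + (1 + A) * (e * (1 + A) ^ e * ε) := by gcongr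
      _ ≤ (1 + A) ^ (e + 1) * ε + (1 + A) * (e * (1 + A) ^ e * ε) := by gcongr
      _ = ((e + 1 : ℕ) : ℝ) * (1 + A) ^ (e + 1) * ε := by
          push_cast
          ring

theorem IntTop_prod {k : ℕ} (D : ℕ) (A : ℝ) (hA : 0 ≤ A) (z y : Fin k → ℝ) (ε : ℝ) (hε : 0 ≤ ε)
    (hz : ∀ i, |z i| ≤ A) (hy : ∀ i, |y i| ≤ A) (h : ∀ i, |z i - y i| ≤ ε) (e : Fin k → ℕ)
    (he : ∀ i, e i ≤ D) (s : Finset (Fin k)) :
    |∏ i ∈ s, z i ^ e i| ≤ (1 + A) ^ (s.card * D) ∧
      |∏ i ∈ s, z i ^ e i - ∏ i ∈ s, y i ^ e i| ≤ s.card * D * (1 + A) ^ (s.card * D) * ε := by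
  classical
  have hA1 : (1 : ℝ) ≤ 1 + A := by linarith
  have hpow : ∀ w : ℝ, |w| ≤ A → ∀ j, |w ^ e j| ≤ (1 + A) ^ D := by
    intro w hw j
    rw [abs_pow]
    calc |w| ^ e j ≤ (1 + A) ^ e j := by
          gcongr
          linarith
      _ ≤ (1 + A) ^ D := pow_le_pow_right₀ hA1 (he j)
  induction s using Finset.induction_on with
  | empty => simp
  | insert j s hj ih =>
    obtain ⟨ih1, ih2⟩ := ih
    rw [Finset.prod_insert hj, Finset.prod_insert hj, Finset.card_insert_of_notMem hj]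
    have hcd : (s.card + 1) * D = D + s.card * D := by ring
    constructor
    · rw [abs_mul, hcd, pow_add]
      exact mul_le_mul (hpow _ (hz j) j) ih1 (abs_nonneg _) (by positivity)
    · have e1 : z j ^ e j * ∏ i ∈ s, z i ^ e i - y j ^ e j * ∏ i ∈ s, y i ^ e i =
          (z j ^ e j - y j ^ e j) * ∏ i ∈ s, z i ^ e i +
            y j ^ e j * (∏ i ∈ s, z i ^ e i - ∏ i ∈ s, y i ^ e i) := by ring
      have e2 : |z j ^ e j - y j ^ e j| ≤ D * (1 + A) ^ D * ε := by
        refine (IntTop_pow A hA _ _ ε (hz j) (hy j) (h j) (e j)).trans ?_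
        have h1 : ((e j : ℕ) : ℝ) ≤ D := by exact_mod_cast he j
        have h2 : (1 + A) ^ e j ≤ (1 + A) ^ D := pow_le_pow_right₀ hA1 (he j)
        gcongr
      rw [e1, hcd, pow_add]
      calc |(z j ^ e j - y j ^ e j) * ∏ i ∈ s, z i ^ e i +
            y j ^ e j * (∏ i ∈ s, z i ^ e i - ∏ i ∈ s, y i ^ e i)|
          ≤ |z j ^ e j - y j ^ e j| * |∏ i ∈ s, z i ^ e i| +
            |y j ^ e j| * |∏ i ∈ s, z i ^ e i - ∏ i ∈ s, y i ^ e i| := by
            refine (abs_add_le _ _).trans ?_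
            rw [abs_mul, abs_mul]
        _ ≤ (D * (1 + A) ^ D * ε) * (1 + A) ^ (s.card * D) +
            (1 + A) ^ D * (s.card * D * (1 + A) ^ (s.card * D) * ε) := by
            have h3 := hpow _ (hy j) j
            gcongr
        _ = ((s.card + 1 : ℕ) : ℝ) * D * ((1 + A) ^ D * (1 + A) ^ (s.card * D)) * ε := by
            push_cast
            ring

/-- the exponent `(a, e)` -/
noncomputable def IntTop_mk {k : ℕ} (a : ℕ) (e : Fin k → ℕ) : Option (Fin k) →₀ ℕ :=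
  Finsupp.equivFunOnFinite.symm (fun o => o.elim a e)

theorem IntTop_mk_none {k : ℕ} (a : ℕ) (e : Fin k → ℕ) : IntTop_mk a e none = a := rfl

theorem IntTop_mk_some {k : ℕ} (a : ℕ) (e : Fin k → ℕ) (i : Fin k) :
    IntTop_mk a e (some i) = e i := rfl

theorem IntTop_mk_eta {k : ℕ} (m : Option (Fin k) →₀ ℕ) :
    IntTop_mk (m none) (fun i => m (some i)) = m := by
  ext o
  cases o with
  | none => rfl
  | some i => rfl

theorem IntTop_sum {k : ℕ} (m : Option (Fin k) →₀ ℕ) :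
    (m.sum fun _ e => e) = m none + ∑ i, m (some i) := by
  rw [Finsupp.sum_fintype _ _ (fun _ => rfl), Fintype.sum_option]

theorem IntTop_le {k : ℕ} (P : MvPolynomial (Option (Fin k)) ℤ) (m : Option (Fin k) →₀ ℕ)
    (h : P.coeff m ≠ 0) : m none + ∑ i, m (some i) ≤ P.totalDegree := by
  rw [← IntTop_sum]
  exact MvPolynomial.le_totalDegree (MvPolynomial.mem_support_iff.2 h)

theorem IntTop_img {ι κ : Type*} [Fintype ι] [DecidableEq κ] (φ : ι → κ)
    (hinj : Function.Injective φ) (G : κ → ℝ) :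
    ∑ u, G (φ u) = ∑ m ∈ Finset.univ.image φ, G m :=
  (Finset.sum_image (fun _ _ _ _ h => hinj h)).symm

theorem IntTop_eval {k : ℕ} (D : ℕ) (P : MvPolynomial (Option (Fin k)) ℤ) (hP : P.totalDegree ≤ D)
    (n : ℝ) (x : Fin k → ℝ) :
    MvPolynomial.aeval (fun o : Option (Fin k) => o.elim n (fun i => x i)) P =
      ∑ a : Fin (D + 1), ∑ e : Fin k → Fin (D + 1),
        ((P.coeff (IntTop_mk (a : ℕ) (fun i => (e i : ℕ))) : ℤ) : ℝ) *
          (n ^ (a : ℕ) * ∏ i, x i ^ (e i : ℕ)) := by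
  classical
  rw [MvPolynomial.aeval_def, MvPolynomial.eval₂_eq', ← Fintype.sum_prod_type']
  set φ : Fin (D + 1) × (Fin k → Fin (D + 1)) → (Option (Fin k) →₀ ℕ) :=
    fun u => IntTop_mk (u.1 : ℕ) (fun i => (u.2 i : ℕ)) with hφ
  have hinj : Function.Injective φ := by
    intro u v huv
    have h1 : (u.1 : ℕ) = v.1 := congrArg (fun m : Option (Fin k) →₀ ℕ => m none) huv
    have h2 : ∀ i, (u.2 i : ℕ) = v.2 i := fun i =>
      congrArg (fun m : Option (Fin k) →₀ ℕ => m (some i)) huv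
    refine Prod.ext (Fin.ext h1) (funext fun i => Fin.ext (h2 i))
  have hterm : ∀ u : Fin (D + 1) × (Fin k → Fin (D + 1)),
      ((P.coeff (IntTop_mk (u.1 : ℕ) (fun i => (u.2 i : ℕ))) : ℤ) : ℝ) *
          (n ^ (u.1 : ℕ) * ∏ i, x i ^ (u.2 i : ℕ)) =
        (fun m : Option (Fin k) →₀ ℕ => (algebraMap ℤ ℝ) (P.coeff m) *
          ∏ o, (fun o : Option (Fin k) => o.elim n (fun i => x i)) o ^ m o) (φ u) := by
    intro u
    show _ = (algebraMap ℤ ℝ) (P.coeff (φ u)) *
      ∏ o, (fun o : Option (Fin k) => o.elim n (fun i => x i)) o ^ (φ u) o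
    rw [Fintype.prod_option]
    rfl
  have himg : ∑ u, (fun m : Option (Fin k) →₀ ℕ => (algebraMap ℤ ℝ) (P.coeff m) *
          ∏ o, (fun o : Option (Fin k) => o.elim n (fun i => x i)) o ^ m o) (φ u) =
      ∑ m ∈ Finset.univ.image φ, (algebraMap ℤ ℝ) (P.coeff m) *
          ∏ o, (fun o : Option (Fin k) => o.elim n (fun i => x i)) o ^ m o :=
    IntTop_img φ hinj (fun m : Option (Fin k) →₀ ℕ => (algebraMap ℤ ℝ) (P.coeff m) *
          ∏ o, (fun o : Option (Fin k) => o.elim n (fun i => x i)) o ^ m o)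
  rw [Finset.sum_congr rfl (fun u _ => hterm u), himg]
  refine Finset.sum_subset ?_ ?_
  · intro m hm
    have h1 := (IntTop_le P m (MvPolynomial.mem_support_iff.1 hm)).trans hP
    have h2 : ∀ i, m (some i) ≤ ∑ i, m (some i) := fun i =>
      Finset.single_le_sum (f := fun i => m (some i)) (fun _ _ => Nat.zero_le _) (Finset.mem_univ i)
    have h3 : m none < D + 1 := by omega
    have h4 : ∀ i, m (some i) < D + 1 := fun i => by
      have := h2 i
      omega
    rw [Finset.mem_image]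
    exact ⟨(⟨m none, h3⟩, fun i => ⟨m (some i), h4 i⟩), Finset.mem_univ _, IntTop_mk_eta m⟩
  · intro m _ hm
    have h1 : P.coeff m = 0 := by
      by_contra hne
      exact hm (MvPolynomial.mem_support_iff.2 hne)
    rw [h1, map_zero, zero_mul]

theorem IntTop_W {k D : ℕ} (P : MvPolynomial (Option (Fin k)) ℤ) (H : ℝ)
    (hdeg : P.totalDegree ≤ D) (hH : ∀ m, |((P.coeff m : ℤ) : ℝ)| ≤ H) (e : Fin k → Fin (D + 1))
    (N : ℝ) (hN : 1 ≤ N) (be : ℤ)
    (hbe : be = if ∑ i, (e i : ℕ) ≤ P.totalDegree then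
      P.coeff (IntTop_mk (P.totalDegree - ∑ i, (e i : ℕ)) (fun i => (e i : ℕ))) else 0) :
    |(∑ a : Fin (D + 1), ((P.coeff (IntTop_mk (a : ℕ) (fun i => (e i : ℕ))) : ℤ) : ℝ) *
      (N ^ ((a : ℕ) + ∑ i, (e i : ℕ)) / N ^ P.totalDegree)) - (be : ℝ)| ≤
      (D + 1) * (H / N) := by
  have hN0 : 0 < N := by linarith
  have hH0 : 0 ≤ H := (abs_nonneg _).trans (hH 0)
  have hHN : 0 ≤ H / N := div_nonneg hH0 hN0.le
  have h1 : (be : ℝ) = ∑ a : Fin (D + 1), if (a : ℕ) + ∑ i, (e i : ℕ) = P.totalDegree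
      then (be : ℝ) else 0 := by
    by_cases hs : ∑ i, (e i : ℕ) ≤ P.totalDegree
    · rw [Finset.sum_eq_single (⟨P.totalDegree - ∑ i, (e i : ℕ), by omega⟩ : Fin (D + 1))]
      · rw [if_pos (by dsimp only; omega)]
      · intro a _ ha
        rw [if_neg]
        intro h
        apply ha
        apply Fin.ext
        dsimp only
        omega
      · intro h
        exact absurd (Finset.mem_univ _) h
    · have : be = 0 := by rw [hbe, if_neg hs]
      rw [this]
      simp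
  rw [h1, ← Finset.sum_sub_distrib]
  refine (Finset.abs_sum_le_sum_abs _ _).trans ?_
  have h2 : ∀ a ∈ (Finset.univ : Finset (Fin (D + 1))),
      |((P.coeff (IntTop_mk (a : ℕ) (fun i => (e i : ℕ))) : ℤ) : ℝ) *
      (N ^ ((a : ℕ) + ∑ i, (e i : ℕ)) / N ^ P.totalDegree) -
        (if (a : ℕ) + ∑ i, (e i : ℕ) = P.totalDegree then (be : ℝ) else 0)| ≤ H / N := by
    intro a _
    rcases lt_trichotomy ((a : ℕ) + ∑ i, (e i : ℕ)) P.totalDegree with hlt | heq | hgt
    · rw [if_neg hlt.ne, sub_zero, abs_mul, div_eq_mul_inv H N]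
      refine mul_le_mul (hH _) ?_ (abs_nonneg _) hH0
      rw [abs_of_nonneg (by positivity), div_le_iff₀ (by positivity), ← div_eq_inv_mul,
        le_div_iff₀ hN0, ← pow_succ]
      exact pow_le_pow_right₀ hN (by omega)
    · have h3 : be = P.coeff (IntTop_mk (a : ℕ) (fun i => (e i : ℕ))) := by
        rw [hbe, if_pos (by omega)]
        congr 2
        omega
      rw [if_pos heq, heq, div_self (by positivity), mul_one, ← h3, sub_self, abs_zero]
      exact hHN
    · have h3 : P.coeff (IntTop_mk (a : ℕ) (fun i => (e i : ℕ))) = 0 := by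
        by_contra hne
        have h4 := IntTop_le P _ hne
        rw [IntTop_mk_none] at h4
        simp only [IntTop_mk_some] at h4
        omega
      rw [if_neg hgt.ne', h3, Int.cast_zero, zero_mul, sub_zero, abs_zero]
      exact hHN
  refine (Finset.sum_le_card_nsmul _ _ _ h2).trans ?_
  rw [Finset.card_univ, Fintype.card_fin, nsmul_eq_mul, Nat.cast_add, Nat.cast_one]

theorem int_top (k D : ℕ) (A : ℝ) (hA : 0 ≤ A) : ∃ C : ℝ, 0 < C ∧
    ∀ (P : MvPolynomial (Option (Fin k)) ℤ) (H : ℝ), P ≠ 0 → P.totalDegree ≤ D →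
      (∀ m, |((P.coeff m : ℤ) : ℝ)| ≤ H) →
      ∃ b : (Fin k → Fin (D + 1)) → ℤ, (∃ e, b e ≠ 0) ∧ (∀ e, |((b e : ℤ) : ℝ)| ≤ H) ∧
        ∀ (n : ℕ) (x y : Fin k → ℝ) (ε : ℝ), 1 ≤ n → 0 ≤ ε → (∀ i, |x i| ≤ A * n) → (∀ i, |y i| ≤ A) →
          (∀ i, |x i / n - y i| ≤ ε) →
          MvPolynomial.aeval (fun o : Option (Fin k) => o.elim (n : ℝ) (fun i => x i)) P = 0 →
          |∑ e, ((b e : ℤ) : ℝ) * ∏ i, y i ^ (e i : ℕ)| ≤ C * H * (ε + 1 / n) := by
  classical
  have hA1 : (1 : ℝ) ≤ 1 + A := by linarith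
  set E : ℝ := (Fintype.card (Fin k → Fin (D + 1)) : ℝ) with hE
  set B : ℝ := (1 + A) ^ (k * D) with hB
  have hE0 : 0 ≤ E := Nat.cast_nonneg _
  have hB0 : 0 ≤ B := by positivity
  refine ⟨E * (k * D * B) + E * ((D + 1) * B) + 1, by positivity, ?_⟩
  intro P H hP0 hdeg hH
  have hH0 : 0 ≤ H := (abs_nonneg _).trans (hH 0)
  set b : (Fin k → Fin (D + 1)) → ℤ := fun e => if ∑ i, (e i : ℕ) ≤ P.totalDegree then
      P.coeff (IntTop_mk (P.totalDegree - ∑ i, (e i : ℕ)) (fun i => (e i : ℕ))) else 0 with hb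
  have hbH : ∀ e, |((b e : ℤ) : ℝ)| ≤ H := by
    intro e
    rw [hb]
    dsimp only
    split_ifs with h
    · exact hH _
    · rw [Int.cast_zero, abs_zero]
      exact hH0
  refine ⟨b, ?_, hbH, ?_⟩
  · have hne : P.support.Nonempty := by
      rw [Finset.nonempty_iff_ne_empty]
      intro h
      exact hP0 (MvPolynomial.support_eq_empty.1 h)
    obtain ⟨m, hm, hmd⟩ := Finset.exists_mem_eq_sup P.support hne (fun s => s.sum fun _ e => e)
    have hmd' : P.totalDegree = m none + ∑ i, m (some i) := by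
      rw [← IntTop_sum]
      exact hmd
    have h2 : ∀ i, m (some i) ≤ ∑ i, m (some i) := fun i =>
      Finset.single_le_sum (f := fun i => m (some i)) (fun _ _ => Nat.zero_le _) (Finset.mem_univ i)
    have h4 : ∀ i, m (some i) < D + 1 := fun i => by
      have := h2 i
      omega
    refine ⟨fun i => ⟨m (some i), h4 i⟩, ?_⟩
    rw [hb]
    dsimp only
    rw [if_pos (by omega)]
    have h5 : P.totalDegree - ∑ i, m (some i) = m none := by omega
    rw [h5, IntTop_mk_eta]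
    exact MvPolynomial.mem_support_iff.1 hm
  · intro n x y ε hn hε hx hy hxy h0
    have hN : (1 : ℝ) ≤ n := by exact_mod_cast hn
    have hN0 : (0 : ℝ) < n := by linarith
    rw [IntTop_eval D P hdeg] at h0
    have hz : ∀ i, |x i / n| ≤ A := by
      intro i
      rw [abs_div, abs_of_pos hN0, div_le_iff₀ hN0]
      exact hx i
    have hprod : ∀ e : Fin k → Fin (D + 1), |∏ i, (x i / n) ^ (e i : ℕ)| ≤ B ∧
        |∏ i, (x i / n) ^ (e i : ℕ) - ∏ i, y i ^ (e i : ℕ)| ≤ k * D * B * ε := by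
      intro e
      have h := IntTop_prod D A hA (fun i => x i / n) y ε hε hz hy hxy (fun i => (e i : ℕ))
        (fun i => Nat.lt_succ_iff.1 (e i).2) Finset.univ
      rw [Finset.card_univ, Fintype.card_fin] at h
      exact h
    have hxz : ∀ e : Fin k → Fin (D + 1), ∏ i, x i ^ (e i : ℕ) =
        (n : ℝ) ^ (∑ i, (e i : ℕ)) * ∏ i, (x i / n) ^ (e i : ℕ) := by
      intro e
      rw [← Finset.prod_pow_eq_pow_sum, ← Finset.prod_mul_distrib]
      refine Finset.prod_congr rfl fun i _ => ?_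
      rw [← mul_pow, mul_div_cancel₀ _ hN0.ne']
    set W : (Fin k → Fin (D + 1)) → ℝ := fun e =>
      ∑ a : Fin (D + 1), ((P.coeff (IntTop_mk (a : ℕ) (fun i => (e i : ℕ))) : ℤ) : ℝ) *
      ((n : ℝ) ^ ((a : ℕ) + ∑ i, (e i : ℕ)) / (n : ℝ) ^ P.totalDegree) with hW
    have hWb : ∀ e, |W e - (b e : ℝ)| ≤ (D + 1) * (H / n) := fun e =>
      IntTop_W P H hdeg hH e n hN (b e) rfl
    have hWsum : ∑ e, W e * ∏ i, (x i / n) ^ (e i : ℕ) = 0 := by
      have h1 : ∑ e, W e * ∏ i, (x i / n) ^ (e i : ℕ) =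
          (∑ a : Fin (D + 1), ∑ e : Fin k → Fin (D + 1),
        ((P.coeff (IntTop_mk (a : ℕ) (fun i => (e i : ℕ))) : ℤ) : ℝ) *
          ((n : ℝ) ^ (a : ℕ) * ∏ i, x i ^ (e i : ℕ))) / (n : ℝ) ^ P.totalDegree := by
        rw [Finset.sum_comm, Finset.sum_div]
        refine Finset.sum_congr rfl fun e _ => ?_
        rw [hW]
        dsimp only
        rw [Finset.sum_mul, Finset.sum_div]
        refine Finset.sum_congr rfl fun a _ => ?_
        rw [hxz e, pow_add]
        ring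
      rw [h1, h0, zero_div]
    have hfin : ∑ e, ((b e : ℤ) : ℝ) * ∏ i, y i ^ (e i : ℕ) =
        ∑ e, (((b e : ℝ) - W e) * ∏ i, (x i / n) ^ (e i : ℕ) -
          (b e : ℝ) * (∏ i, (x i / n) ^ (e i : ℕ) - ∏ i, y i ^ (e i : ℕ))) := by
      rw [← add_zero (∑ e, (((b e : ℝ) - W e) * ∏ i, (x i / n) ^ (e i : ℕ) -
          (b e : ℝ) * (∏ i, (x i / n) ^ (e i : ℕ) - ∏ i, y i ^ (e i : ℕ)))), ← hWsum,
        ← Finset.sum_add_distrib]
      refine Finset.sum_congr rfl fun e _ => ?_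
      ring
    rw [hfin]
    refine (Finset.abs_sum_le_sum_abs _ _).trans ?_
    have hterm : ∀ e ∈ (Finset.univ : Finset (Fin k → Fin (D + 1))),
        |((b e : ℝ) - W e) * ∏ i, (x i / n) ^ (e i : ℕ) -
          (b e : ℝ) * (∏ i, (x i / n) ^ (e i : ℕ) - ∏ i, y i ^ (e i : ℕ))| ≤
        (D + 1) * (H / n) * B + H * (k * D * B * ε) := by
      intro e _
      obtain ⟨p1, p2⟩ := hprod e
      refine (abs_sub _ _).trans ?_
      rw [abs_mul, abs_mul]
      refine add_le_add ?_ ?_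
      · refine mul_le_mul ?_ p1 (abs_nonneg _) (by positivity)
        rw [abs_sub_comm]
        exact hWb e
      · exact mul_le_mul (hbH e) p2 (abs_nonneg _) hH0
    refine (Finset.sum_le_card_nsmul _ _ _ hterm).trans ?_
    rw [nsmul_eq_mul, Finset.card_univ, ← hE]
    have q1 : 0 ≤ E * (k * D * B) := by positivity
    have q2 : 0 ≤ E * ((D + 1) * B) := by positivity
    have q3 : 0 ≤ (1 : ℝ) / n := by positivity
    have q4 : E * ((D + 1) * (H / n) * B + H * (k * D * B * ε)) =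
        E * ((D + 1) * B) * H * (1 / n) + E * (k * D * B) * H * ε := by
      ring
    rw [q4]
    have q5 : 0 ≤ E * ((D + 1) * B) * H * ε := by positivity
    have q6 : 0 ≤ E * (k * D * B) * H * (1 / n) := by positivity
    have q7 : 0 ≤ H * (ε + 1 / n) := by positivity
    nlinarith

end Pool.Agent.Lib.MP_ec260d_nt
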