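import Pool.Agent.Lib.MP_ec260d_nt.Lam0

/-!
# JOB Lam: properties of the Lambert function

`lam_unique`: `lam_spec` at `x = y exp y` (`x > -exp (-1)` by `mul_exp_strictMono` with `-1 < y`) and injectivity.
`lam_zero`: `y = 0`. `lam_strictMonoOn`: if `x < x'` and `lam x' ≤ lam x` then `x' ≤ x`. `lam_pos`: strict monotonicity
and `lam 0 = 0`. `lam_tendsto`: for every `M ≥ 0`, `x ≥ M exp M` implies `lam x ≥ M`. `lam_le_log`: `lam x ≥ 1` for
`x ≥ e` and then `exp (lam x) ≤ lam x * exp (lam x) = x`. `lam_add_log`: take logarithms of `lam x * exp (lam x) = x`.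
-/

open Real Set Filter Topology

namespace Pool.Agent.Lib.MP_ec260d_nt

/-- The Lambert function on `(-1/e, ∞)`: the solution `y > -1` of `y exp y = x`. -/
noncomputable def lam : ℝ → ℝ := Classical.choose exists_lam

theorem lam_spec {x : ℝ} (hx : -Real.exp (-1) < x) :
    -1 < lam x ∧ lam x * Real.exp (lam x) = x ∧ AnalyticAt ℝ lam x :=
  Classical.choose_spec exists_lam x hx

private theorem Lam_neg {y : ℝ} (hy : -1 < y) : -Real.exp (-1) < y * Real.exp y := by
  have h := mul_exp_strictMono (show (-1 : ℝ) ∈ Ici (-1 : ℝ) from Set.self_mem_Ici)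
    (show y ∈ Ici (-1 : ℝ) from hy.le) hy
  have h2 : (-1 : ℝ) * Real.exp (-1) < y * Real.exp y := h
  linarith

theorem lam_unique {y : ℝ} (hy : -1 < y) : lam (y * Real.exp y) = y := by
  obtain ⟨h1, h2, _⟩ := lam_spec (Lam_neg hy)
  exact mul_exp_strictMono.injOn (show lam (y * Real.exp y) ∈ Ici (-1 : ℝ) from h1.le)
    (show y ∈ Ici (-1 : ℝ) from hy.le) h2

theorem lam_zero : lam 0 = 0 := by
  have h := lam_unique (y := 0) (by norm_num)
  rwa [zero_mul] at h

theorem lam_strictMonoOn : StrictMonoOn lam (Ioi (-Real.exp (-1))) := by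
  intro x hx x' hx' hlt
  obtain ⟨h1, h2, _⟩ := lam_spec hx
  obtain ⟨h3, h4, _⟩ := lam_spec hx'
  by_contra hcon
  have hle : lam x' ≤ lam x := not_lt.1 hcon
  have h5 : lam x' * Real.exp (lam x') ≤ lam x * Real.exp (lam x) :=
    mul_exp_strictMono.monotoneOn (show lam x' ∈ Ici (-1 : ℝ) from h3.le)
      (show lam x ∈ Ici (-1 : ℝ) from h1.le) hle
  rw [h2, h4] at h5
  linarith

private theorem Lam_mem {x : ℝ} (hx : 0 ≤ x) : x ∈ Ioi (-Real.exp (-1)) :=
  lt_of_lt_of_le (by have := Real.exp_pos (-1); linarith) hx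

theorem lam_pos {x : ℝ} (hx : 0 < x) : 0 < lam x := by
  have h := lam_strictMonoOn (Lam_mem le_rfl) (Lam_mem hx.le) hx
  rwa [lam_zero] at h

theorem lam_tendsto : Tendsto lam atTop atTop := by
  refine tendsto_atTop.2 fun M => ?_
  have hM : 0 ≤ |M| := abs_nonneg M
  filter_upwards [eventually_ge_atTop (|M| * Real.exp |M|)] with x hx
  have h1 := lam_strictMonoOn.monotoneOn (Lam_mem (mul_nonneg hM (Real.exp_pos _).le))
    (Lam_mem ((mul_nonneg hM (Real.exp_pos _).le).trans hx)) hx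
  rw [lam_unique (by linarith)] at h1
  exact (le_abs_self M).trans h1

theorem lam_add_log {x : ℝ} (hx : 0 < x) : lam x + Real.log (lam x) = Real.log x := by
  have h1 := lam_pos hx
  obtain ⟨_, h2, _⟩ := lam_spec (Lam_mem hx.le)
  have h3 := congrArg Real.log h2
  rw [Real.log_mul h1.ne' (Real.exp_pos _).ne', Real.log_exp] at h3
  linarith

theorem lam_le_log {x : ℝ} (hx : Real.exp 1 ≤ x) : 1 ≤ lam x ∧ lam x ≤ Real.log x := by
  have hx0 : 0 < x := lt_of_lt_of_le (Real.exp_pos 1) hx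
  have h1 : 1 ≤ lam x := by
    have h2 := lam_strictMonoOn.monotoneOn (Lam_mem (Real.exp_pos 1).le) (Lam_mem hx0.le) hx
    have h3 := lam_unique (y := 1) (by norm_num)
    rw [one_mul] at h3
    rwa [h3] at h2
  refine ⟨h1, ?_⟩
  have h4 := lam_add_log hx0
  have h5 := Real.log_nonneg h1
  linarith

end Pool.Agent.Lib.MP_ec260d_nt
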