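import Mathlib
import Pool.Agent.Lib.MP_ec260d_nt.Lam

/-!
# JOB Spacing: the points `t n = 1 / lam (n / D₀)` are well spaced

For real `x > x' ≥ e`: `lam x > lam x' ≥ 1` (`lam_le_log`, `lam_strictMonoOn`), and by `lam_add_log`
`(lam x - lam x') + (log (lam x) - log (lam x')) = log x - log x' ≥ (x - x') / x`, while `log (lam x) - log (lam x') ≤ lam x - lam x'`
(`log u ≤ u - 1` with `u = lam x / lam x'`, and `lam x' ≥ 1`). So `lam x - lam x' ≥ (x - x')/(2x)` and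
`1/lam x' - 1/lam x = (lam x - lam x')/(lam x lam x') ≥ (x - x') / (2 x (log x)^2)`.
Let `M` be large (`M / D₀ ≥ e`, `log (2 M / D₀) ≤ 2 log M`). For `n, n' ∈ (M, 2M]` with `t n, t n' ∈ [p, q]`:
`|n - n'| ≤ (2 * (2M) * (2 log M)^2) (q - p) = 16 M (log M)^2 (q - p)` (`x = n/D₀`). So all such integers lie in a real interval of that length:
their number is at most `16 M (log M)^2 (q - p) + 1` (if the set is empty the bound needs `q - p ≥ 0`, which is assumed).
-/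

open Real Set Filter Topology

namespace Pool.Agent.Lib.MP_ec260d_nt

theorem Spacing_gap {x x' : ℝ} (hx' : Real.exp 1 ≤ x') (hxx : x' ≤ x) :
    (x - x') / (2 * x * (Real.log x) ^ 2) ≤ 1 / lam x' - 1 / lam x := by
  have he : (0 : ℝ) < Real.exp 1 := Real.exp_pos 1
  have hx'0 : 0 < x' := lt_of_lt_of_le he hx'
  have hx0 : 0 < x := lt_of_lt_of_le hx'0 hxx
  obtain ⟨a1, a2⟩ := lam_le_log hx'
  obtain ⟨b1, b2⟩ := lam_le_log (hx'.trans hxx)
  have hmem : ∀ y : ℝ, 0 < y → y ∈ Ioi (-Real.exp (-1)) :=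
    fun y hy => lt_trans (neg_lt_zero.2 (Real.exp_pos _)) hy
  have hmono : lam x' ≤ lam x := lam_strictMonoOn.monotoneOn (hmem _ hx'0) (hmem _ hx0) hxx
  have c1 := lam_add_log hx0
  have c2 := lam_add_log hx'0
  have hL' : 0 < lam x' := by linarith
  have hL : 0 < lam x := by linarith
  have d1 : Real.log (lam x) - Real.log (lam x') ≤ lam x - lam x' := by
    rw [← Real.log_div hL.ne' hL'.ne']
    have h1 := Real.log_le_sub_one_of_pos (div_pos hL hL')
    have h2 : lam x / lam x' - 1 ≤ lam x - lam x' := by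
      rw [div_sub_one hL'.ne', div_le_iff₀ hL']
      nlinarith
    linarith
  have d2 : (x - x') / x ≤ Real.log x - Real.log x' := by
    have h := Real.log_le_sub_one_of_pos (div_pos hx'0 hx0)
    rw [Real.log_div hx'0.ne' hx0.ne'] at h
    have h3 : (x - x') / x = 1 - x' / x := by
      rw [sub_div, div_self hx0.ne']
    rw [h3]
    linarith
  have d3 : (x - x') / x ≤ 2 * (lam x - lam x') := by linarith
  have hlog : 0 < Real.log x := by linarith
  rw [div_sub_div _ _ hL'.ne' hL.ne', div_le_div_iff₀ (by positivity) (mul_pos hL' hL)]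
  rw [div_le_iff₀ hx0] at d3
  have e1 : lam x' * lam x ≤ (Real.log x) ^ 2 := by
    rw [sq]
    exact mul_le_mul (hmono.trans b2) b2 hL.le hlog.le
  have e2 : 0 ≤ x - x' := by linarith
  calc (x - x') * (lam x' * lam x) ≤ (x - x') * (Real.log x) ^ 2 :=
        mul_le_mul_of_nonneg_left e1 e2
    _ ≤ (2 * (lam x - lam x') * x) * (Real.log x) ^ 2 :=
        mul_le_mul_of_nonneg_right d3 (sq_nonneg _)
    _ = (1 * lam x - lam x' * 1) * (2 * x * Real.log x ^ 2) := by ring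

theorem Spacing_count (F : Finset ℕ) (R : ℝ) (hR : 0 ≤ R)
    (h : ∀ a ∈ F, ∀ b ∈ F, a ≤ b → (b : ℝ) - a ≤ R) : (F.card : ℝ) ≤ R + 1 := by
  rcases F.eq_empty_or_nonempty with rfl | hne
  · rw [Finset.card_empty, Nat.cast_zero]
    linarith
  · have h1 := F.min'_mem hne
    have h2 := F.max'_mem hne
    have h3 : F.min' hne ≤ F.max' hne := F.min'_le_max' hne
    have h4 := h _ h1 _ h2 h3
    have h5 : F ⊆ Finset.Icc (F.min' hne) (F.max' hne) := fun a ha =>
      Finset.mem_Icc.2 ⟨F.min'_le a ha, F.le_max' a ha⟩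
    have h6 := Finset.card_le_card h5
    rw [Nat.card_Icc] at h6
    have h7 : (F.card : ℝ) ≤ ((F.max' hne + 1 - F.min' hne : ℕ) : ℝ) := by exact_mod_cast h6
    rw [Nat.cast_sub (by omega), Nat.cast_add, Nat.cast_one] at h7
    linarith

theorem spacing (D₀ : ℝ) (hD : 0 < D₀) : ∃ M₀ : ℕ, ∀ M : ℕ, M₀ ≤ M → ∀ p q : ℝ, p ≤ q →
    ((((Finset.Ioc M (2 * M)).filter (fun n : ℕ => p ≤ 1 / lam ((n : ℝ) / D₀) ∧
      1 / lam ((n : ℝ) / D₀) ≤ q)).card : ℕ) : ℝ) ≤ 16 * M * (Real.log M) ^ 2 * (q - p) + 1 := by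
  refine ⟨⌈max (Real.exp 1 * D₀) (2 / D₀)⌉₊ + 1, fun M hM p q hpq => ?_⟩
  have hM1 : max (Real.exp 1 * D₀) (2 / D₀) ≤ (M : ℝ) := by
    refine (Nat.le_ceil _).trans ?_
    exact_mod_cast (show ⌈max (Real.exp 1 * D₀) (2 / D₀)⌉₊ ≤ M by omega)
  have hMe : Real.exp 1 * D₀ ≤ (M : ℝ) := (le_max_left _ _).trans hM1
  have hMd : 2 / D₀ ≤ (M : ℝ) := (le_max_right _ _).trans hM1
  have hM0 : 1 ≤ M := by omega
  have hMr : (1 : ℝ) ≤ M := by exact_mod_cast hM0
  have hMpos : (0 : ℝ) < M := by linarith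
  refine Spacing_count _ _ ?_ ?_
  · exact mul_nonneg (by positivity) (by linarith)
  · intro a ha b hb hab
    rw [Finset.mem_filter, Finset.mem_Ioc] at ha hb
    obtain ⟨⟨ha1, ha2⟩, ha3, ha4⟩ := ha
    obtain ⟨⟨hb1, hb2⟩, hb3, hb4⟩ := hb
    have har : (M : ℝ) ≤ a := by exact_mod_cast ha1.le
    have hbr : (b : ℝ) ≤ 2 * M := by exact_mod_cast hb2
    have habr : (a : ℝ) ≤ b := by exact_mod_cast hab
    have hb0 : (0 : ℝ) < b := by linarith
    have hx' : Real.exp 1 ≤ (a : ℝ) / D₀ := by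
      rw [le_div_iff₀ hD]
      linarith
    have hxx : (a : ℝ) / D₀ ≤ (b : ℝ) / D₀ := div_le_div_of_nonneg_right habr hD.le
    have hgap := Spacing_gap hx' hxx
    have hle : 1 / lam ((a : ℝ) / D₀) - 1 / lam ((b : ℝ) / D₀) ≤ q - p := by linarith
    have hx1 : (1 : ℝ) < (b : ℝ) / D₀ := by
      have := Real.add_one_lt_exp (show (1 : ℝ) ≠ 0 by norm_num)
      linarith
    have hlog0 : 0 < Real.log ((b : ℝ) / D₀) := Real.log_pos hx1
    have hlog : Real.log ((b : ℝ) / D₀) ≤ 2 * Real.log M := by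
      rw [← Real.log_rpow hMpos]
      refine Real.log_le_log (by linarith) ?_
      rw [Real.rpow_two, div_le_iff₀ hD]
      rw [div_le_iff₀ hD] at hMd
      nlinarith
    have hlogM : 0 < Real.log M := by linarith
    have h1 : ((b : ℝ) / D₀ - (a : ℝ) / D₀) / (2 * ((b : ℝ) / D₀) * Real.log ((b : ℝ) / D₀) ^ 2) ≤ q - p :=
      hgap.trans hle
    have hden : 0 < 2 * ((b : ℝ) / D₀) * Real.log ((b : ℝ) / D₀) ^ 2 := by positivity
    rw [div_le_iff₀ hden] at h1
    have h2 : (b : ℝ) - a ≤ (q - p) * (2 * b * Real.log ((b : ℝ) / D₀) ^ 2) := by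
      have h3 : ((b : ℝ) / D₀ - (a : ℝ) / D₀) * D₀ = b - a := by
        rw [← sub_div, div_mul_cancel₀ _ hD.ne']
      have h4 : (q - p) * (2 * ((b : ℝ) / D₀) * Real.log ((b : ℝ) / D₀) ^ 2) * D₀ =
          (q - p) * (2 * b * Real.log ((b : ℝ) / D₀) ^ 2) := by
        field_simp
      rw [← h3, ← h4]
      exact mul_le_mul_of_nonneg_right h1 hD.le
    have h5 : 2 * (b : ℝ) * Real.log ((b : ℝ) / D₀) ^ 2 ≤ 16 * M * (Real.log M) ^ 2 := by
      calc 2 * (b : ℝ) * Real.log ((b : ℝ) / D₀) ^ 2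
          ≤ 2 * (2 * M) * (2 * Real.log M) ^ 2 := by gcongr
        _ = 16 * M * (Real.log M) ^ 2 := by ring
    calc (b : ℝ) - a ≤ (q - p) * (2 * b * Real.log ((b : ℝ) / D₀) ^ 2) := h2
      _ ≤ (q - p) * (16 * M * (Real.log M) ^ 2) := mul_le_mul_of_nonneg_left h5 (by linarith)
      _ = 16 * M * (Real.log M) ^ 2 * (q - p) := by ring

end Pool.Agent.Lib.MP_ec260d_nt
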