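import Mathlib
import Pool.Agent.Lib.MP_ec260d_nt.FinFam
import Pool.Agent.Lib.MP_ec260d_nt.GermInd
import Pool.Agent.Lib.MP_ec260d_nt.Spacing
import Pool.Agent.Lib.MP_ec260d_nt.IntTop

/-!
# JOB Block: few `n ∈ (M, 2M]` admit an integral relation of small height

We may assume `δ ≤ 1` and `C₀ ≥ 1`. Put `κ i = a i / B`. Take `y` from `germ_ind k D a κ`, `φ e t = ∏ i, y i t ^ (e i)` (analytic at `0`), and
`r, C₁, K, n₀` from `fin_fam φ`; `A` with `|κ i / lam (a i n / D₀)| ≤ A`, `|s i| ≤ A n` for all large `n` (`lam → ∞`, so the first is eventually `≤ 1`; `s i` is within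
`C₀ n^(1-δ) ≤ C₀ n` of `n κ i / lam (a i n/D₀)`), `C₂` from `int_top k D A`.
Let `n ∈ (M, 2M]` be bad: `P`, `s` with height `≤ n^c ≤ (2M)^c =: H` (`H ≥ 1`). With `ν = n / D₀`, `t = 1/lam ν ∈ [0, r]` (M large), `y i t = κ i / lam (a i ν)`. By `int_top` (`ε = C₀ n^(-δ)`) there is an integral
`b ≠ 0`, `|b e| ≤ H`, with `|∑ b e φ e t| ≤ C₂ H (C₀ n^(-δ) + 1/n) ≤ C₃ H M^(-δ) =: η` and `η ≤ 1` for `M` large if `c < δ/2`. Some `|b e| ≥ 1`.
So `t ∈` one of at most `n₀` intervals of length `≤ C₁ η^(1/K)` (depending on `b` only; enlarge each to length exactly/at least `0` so that `p ≤ q`, discard those with `q < p`). By `spacing` the number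
of such `n` is at most `n₀ (16 M (log M)^2 C₁ η^(1/K) + 1)` for each `b`. The number of `b` is at most `(2 H + 1)^((D+1)^k)`. Total
`≤ (2 (2M)^c + 1)^E * n₀ * (16 C₁ M (log M)^2 (C₃ (2M)^c M^(-δ))^(1/K) + 1)`, `E = (D+1)^k`. With `c` so small that
`c E + c/K - δ/K ≤ -2c` and `c E ≤ 1 - 2c` (e.g. `c = min (δ/(4 K (E + 3))) (1/(E+3))`), this is `≤ M^(1 - c)` for `M` large (constants and logs are absorbed by `M^c`).
The bad set is contained in the union over `b` of the sets counted (classical decidability; `Finset.card_biUnion_le`; the finite set of `b`: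
`Fintype.piFinset (fun _ => Finset.Icc (-⌊H⌋) ⌊H⌋)`).
-/

open Real Set Filter Topology

namespace Pool.Agent.Lib.MP_ec260d_nt

/-- `n` admits a nonzero integral relation of degree `≤ D`, height `≤ n ^ c`, at a point close to
`(a i n / B) / lam (a i n / D₀)` -/
def BadAt (k D : ℕ) (a : Fin k → ℝ) (B D₀ C₀ δ c : ℝ) (n : ℕ) : Prop :=
  ∃ P : MvPolynomial (Option (Fin k)) ℤ, P ≠ 0 ∧ P.totalDegree ≤ D ∧
    (∀ m, |((P.coeff m : ℤ) : ℝ)| ≤ (n : ℝ) ^ c) ∧ ∃ s : Fin k → ℝ,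
      (∀ i, |s i - (a i * n / B) / lam (a i * n / D₀)| ≤ C₀ * (n : ℝ) ^ (1 - δ)) ∧
      MvPolynomial.aeval (fun o : Option (Fin k) => o.elim (n : ℝ) (fun i => s i)) P = 0

/-- the final numerical estimate -/
private theorem Block_num (E K n₀ : ℕ) (C₁ C₃ δ c : ℝ) (hC₁ : 0 < C₁) (hC₃ : 0 < C₃) (hc : 0 < c)
    (hK : 1 ≤ K) (h1 : c * E + (c - δ) / K + 3 * c ≤ 0) (h2 : c * E + 3 * c ≤ 1) :
    ∀ᶠ x : ℝ in atTop, (3 * (2 * x) ^ c) ^ E * (n₀ * (16 * x * (Real.log x) ^ 2 *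
      (C₁ * (C₃ * (2 * x) ^ c * x ^ (-δ)) ^ ((1 : ℝ) / K)) + 1)) ≤ x ^ (1 - c) := by
  have hlog : ∀ᶠ x : ℝ in atTop, (Real.log x) ^ 2 ≤ x ^ c := by
    have h := (isLittleO_log_rpow_rpow_atTop (s := c) 2 hc).bound (show (0 : ℝ) < 1 by norm_num)
    filter_upwards [h, eventually_gt_atTop (1 : ℝ)] with x hx hx1
    have hl : 0 ≤ Real.log x := Real.log_nonneg hx1.le
    rw [Real.norm_of_nonneg (by positivity), Real.norm_of_nonneg (by positivity), one_mul] at hx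
    have h3 : Real.log x ^ (2 : ℝ) = (Real.log x) ^ 2 := by
      rw [← Real.rpow_natCast]
      norm_num
    rwa [h3] at hx
  set C₄ : ℝ := 3 ^ E * ((2 : ℝ) ^ c) ^ E * n₀ * (16 * C₁ * (C₃ * 2 ^ c) ^ ((1 : ℝ) / K)) with hC₄
  set C₅ : ℝ := 3 ^ E * ((2 : ℝ) ^ c) ^ E * n₀ with hC₅
  have hbig := (tendsto_rpow_atTop hc).eventually_ge_atTop (2 * C₄)
  have hbig2 := (tendsto_rpow_atTop hc).eventually_ge_atTop (2 * C₅)
  filter_upwards [hlog, hbig, hbig2, eventually_gt_atTop (1 : ℝ)] with x hx hx4 hx5 hx1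
  have hx0 : 0 < x := by linarith
  have hK0 : (0 : ℝ) < K := by exact_mod_cast hK
  have e1 : (3 * (2 * x) ^ c) ^ E = 3 ^ E * ((2 : ℝ) ^ c) ^ E * x ^ (c * E) := by
    rw [Real.mul_rpow (by norm_num) hx0.le, mul_pow, mul_pow, ← Real.rpow_natCast (x ^ c) E,
      ← Real.rpow_mul hx0.le, mul_assoc]
  have e2 : (C₃ * (2 * x) ^ c * x ^ (-δ)) ^ ((1 : ℝ) / K) =
      (C₃ * 2 ^ c) ^ ((1 : ℝ) / K) * x ^ ((c - δ) / K) := by
    have h3 : C₃ * (2 * x) ^ c * x ^ (-δ) = (C₃ * 2 ^ c) * x ^ (c - δ) := by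
      rw [Real.mul_rpow (by norm_num) hx0.le, sub_eq_add_neg, Real.rpow_add hx0]
      ring
    rw [h3, Real.mul_rpow (by positivity) (by positivity), ← Real.rpow_mul hx0.le]
    congr 2
    ring
  have hE1 : x ^ (c * E) * (x * x ^ c * x ^ ((c - δ) / K)) * x ^ c ≤ x ^ (1 - c) := by
    have h3 : x ^ (c * E) * (x * x ^ c * x ^ ((c - δ) / K)) * x ^ c =
        x ^ (c * E + (1 + c + (c - δ) / K) + c) := by
      rw [Real.rpow_add hx0, Real.rpow_add hx0, Real.rpow_add hx0, Real.rpow_add hx0,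
        Real.rpow_one]
    rw [h3]
    refine Real.rpow_le_rpow_of_exponent_le hx1.le ?_
    linarith
  have hE2 : x ^ (c * E) * x ^ c ≤ x ^ (1 - c) := by
    rw [← Real.rpow_add hx0]
    refine Real.rpow_le_rpow_of_exponent_le hx1.le ?_
    linarith
  rw [e1, e2]
  have hp1 : 0 < x ^ (c * E) := Real.rpow_pos_of_pos hx0 _
  have hp2 : 0 < x ^ ((c - δ) / K) := Real.rpow_pos_of_pos hx0 _
  have hp3 : 0 < x ^ c := Real.rpow_pos_of_pos hx0 _
  have hp4 : 0 < (C₃ * 2 ^ c) ^ ((1 : ℝ) / K) := by positivity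
  have hp5 : 0 < x ^ (1 - c) := Real.rpow_pos_of_pos hx0 _
  have hC₄0 : 0 ≤ C₄ := by positivity
  have hC₅0 : 0 ≤ C₅ := by positivity
  have hA : C₄ * (x ^ (c * E) * (x * x ^ c * x ^ ((c - δ) / K))) ≤ x ^ (1 - c) / 2 := by
    have h3 : 0 ≤ x ^ (c * E) * (x * x ^ c * x ^ ((c - δ) / K)) := by positivity
    have h4 := mul_le_mul_of_nonneg_left hx4 h3
    linarith
  have hB : C₅ * x ^ (c * E) ≤ x ^ (1 - c) / 2 := by
    have h4 := mul_le_mul_of_nonneg_left hx5 hp1.le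
    linarith
  calc 3 ^ E * ((2 : ℝ) ^ c) ^ E * x ^ (c * E) * (n₀ * (16 * x * (Real.log x) ^ 2 *
        (C₁ * ((C₃ * 2 ^ c) ^ ((1 : ℝ) / K) * x ^ ((c - δ) / K))) + 1))
      = C₄ * (x ^ (c * E) * (x * (Real.log x) ^ 2 * x ^ ((c - δ) / K))) + C₅ * x ^ (c * E) := by
        rw [hC₄, hC₅]
        ring
    _ ≤ C₄ * (x ^ (c * E) * (x * x ^ c * x ^ ((c - δ) / K))) + C₅ * x ^ (c * E) := by
        gcongr
    _ ≤ x ^ (1 - c) := by linarith

open Classical in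
/-- covering bound for one `b` -/
private theorem Block_cover (M : ℕ) (t : ℕ → ℝ) (S : Finset (ℝ × ℝ)) (n₀ : ℕ) (hS : S.card ≤ n₀)
    (L W : ℝ) (hW : 0 ≤ W) (hlen : ∀ J ∈ S, J.2 - J.1 ≤ L)
    (hsp : ∀ p q : ℝ, p ≤ q → ((((Finset.Ioc M (2 * M)).filter (fun n : ℕ => p ≤ t n ∧
      t n ≤ q)).card : ℕ) : ℝ) ≤ W * (q - p) + 1) (hL : 0 ≤ L) :
    ((((Finset.Ioc M (2 * M)).filter (fun n : ℕ => ∃ J ∈ S, J.1 ≤ t n ∧ t n ≤ J.2)).card : ℕ) : ℝ)
      ≤ n₀ * (W * L + 1) := by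
  have hsub : (Finset.Ioc M (2 * M)).filter (fun n : ℕ => ∃ J ∈ S, J.1 ≤ t n ∧ t n ≤ J.2) ⊆
      S.biUnion (fun J => (Finset.Ioc M (2 * M)).filter (fun n : ℕ => J.1 ≤ t n ∧ t n ≤ J.2)) := by
    intro n hn
    rw [Finset.mem_filter] at hn
    obtain ⟨h1, J, hJ, h2⟩ := hn
    rw [Finset.mem_biUnion]
    exact ⟨J, hJ, Finset.mem_filter.2 ⟨h1, h2⟩⟩
  have h1 : ((((Finset.Ioc M (2 * M)).filter
      (fun n : ℕ => ∃ J ∈ S, J.1 ≤ t n ∧ t n ≤ J.2)).card : ℕ) : ℝ) ≤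
      ∑ J ∈ S, ((((Finset.Ioc M (2 * M)).filter
        (fun n : ℕ => J.1 ≤ t n ∧ t n ≤ J.2)).card : ℕ) : ℝ) := by
    exact_mod_cast (Finset.card_le_card hsub).trans Finset.card_biUnion_le
  have hWL : 0 ≤ W * L + 1 := by positivity
  have h2 : ∀ J ∈ S, ((((Finset.Ioc M (2 * M)).filter
        (fun n : ℕ => J.1 ≤ t n ∧ t n ≤ J.2)).card : ℕ) : ℝ) ≤ W * L + 1 := by
    intro J hJ
    by_cases hle : J.1 ≤ J.2
    · refine (hsp J.1 J.2 hle).trans ?_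
      have := mul_le_mul_of_nonneg_left (hlen J hJ) hW
      linarith
    · have hemp : (Finset.Ioc M (2 * M)).filter (fun n : ℕ => J.1 ≤ t n ∧ t n ≤ J.2) = ∅ := by
        rw [Finset.filter_eq_empty_iff]
        rintro n - ⟨h3, h4⟩
        exact hle (h3.trans h4)
      rw [hemp, Finset.card_empty, Nat.cast_zero]
      exact hWL
  refine h1.trans ((Finset.sum_le_sum h2).trans ?_)
  rw [Finset.sum_const, nsmul_eq_mul]
  exact mul_le_mul_of_nonneg_right (by exact_mod_cast hS) hWL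

/-- the number of integral vectors of height at most `H` -/
private theorem Block_box {ι : Type} [Fintype ι] [DecidableEq ι] (H : ℝ) (hH : 1 ≤ H) :
    (((Fintype.piFinset (fun _ : ι => Finset.Icc (-⌊H⌋) ⌊H⌋)).card : ℕ) : ℝ) ≤
      (3 * H) ^ (Fintype.card ι) := by
  rw [Fintype.card_piFinset, Finset.prod_const, Finset.card_univ, Int.card_Icc]
  push_cast
  refine pow_le_pow_left₀ (Nat.cast_nonneg _) ?_ _
  have h0 : 0 ≤ ⌊H⌋ := Int.floor_nonneg.2 (by linarith)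
  have h1 : (((⌊H⌋ + 1 - -⌊H⌋).toNat : ℕ) : ℝ) = 2 * (⌊H⌋ : ℝ) + 1 := by
    have h2 : (((⌊H⌋ + 1 - -⌊H⌋).toNat : ℕ) : ℤ) = 2 * ⌊H⌋ + 1 := by
      rw [Int.toNat_of_nonneg (by linarith)]
      ring
    exact_mod_cast h2
  rw [h1]
  have h3 := Int.floor_le H
  linarith

open Classical in
theorem block (k D : ℕ) (a : Fin k → ℝ) (ha : ∀ i, 0 < a i) (hinj : Function.Injective a)
    (B D₀ C₀ δ : ℝ) (hB : 0 < B) (hD : 0 < D₀) (hδ : 0 < δ) :
    ∃ c : ℝ, 0 < c ∧ c ≤ 1 / 2 ∧ ∃ M₀ : ℕ, ∀ M : ℕ, M₀ ≤ M →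
      ((((Finset.Ioc M (2 * M)).filter (BadAt k D a B D₀ C₀ δ c)).card : ℕ) : ℝ) ≤ (M : ℝ) ^ (1 - c) := by
  obtain ⟨y, hy_an, hy_ev, hy_ind⟩ := germ_ind k D a (fun i => a i / B) ha hinj
    (fun i => div_pos (ha i) hB)
  obtain ⟨r, C₁, K, n₀, hr, hC₁, hK, hfam⟩ := fin_fam
    (fun (e : Fin k → Fin (D + 1)) (t : ℝ) => ∏ i, y i t ^ (e i : ℕ))
    (fun e => by
      refine Finset.analyticAt_fun_prod _ fun i _ => ?_
      exact (hy_an i).pow _) hy_ind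
  obtain ⟨C, hCdef⟩ : ∃ C, C = max C₀ 1 := ⟨_, rfl⟩
  obtain ⟨d, hddef⟩ : ∃ d, d = min δ 1 := ⟨_, rfl⟩
  have hC1 : 1 ≤ C := by rw [hCdef]; exact le_max_right _ _
  have hCC : C₀ ≤ C := by rw [hCdef]; exact le_max_left _ _
  have hd0 : 0 < d := by rw [hddef]; exact lt_min hδ one_pos
  have hd1 : d ≤ 1 := by rw [hddef]; exact min_le_right _ _
  have hdδ : d ≤ δ := by rw [hddef]; exact min_le_left _ _
  obtain ⟨C₂, hC₂, htop⟩ := int_top k D (1 + C) (by linarith)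
  obtain ⟨Ms, hMs⟩ := spacing D₀ hD
  obtain ⟨E, hEdef⟩ : ∃ E, E = Fintype.card (Fin k → Fin (D + 1)) := ⟨_, rfl⟩
  have hK0 : (0 : ℝ) < K := by exact_mod_cast hK
  have hK1 : (1 : ℝ) ≤ K := by exact_mod_cast hK
  have hE0 : (0 : ℝ) ≤ E := Nat.cast_nonneg E
  obtain ⟨c, hcdef⟩ : ∃ c : ℝ, c = d / (4 * K * (E + 3)) := ⟨_, rfl⟩
  have hden : 0 < 4 * (K : ℝ) * (E + 3) := by positivity
  have hc0 : 0 < c := by rw [hcdef]; exact div_pos hd0 hden
  have hcK : c * (E + 3) = d / (4 * K) := by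
    rw [hcdef]
    field_simp
  have hcE : c * (E + 3) ≤ 1 / 4 := by
    rw [hcK, div_le_iff₀ (by positivity)]
    linarith
  have hc3 : c * E + 3 * c ≤ 1 := by linarith
  have hc12 : c ≤ 1 / 2 := by
    have := mul_nonneg hc0.le hE0
    linarith
  have hexp : c * E + (c - d) / K + 3 * c ≤ 0 := by
    have h1 : (c - d) / K = c / K - d / K := sub_div _ _ _
    have h2 : c / K ≤ c := div_le_self hc0.le hK1
    have h3 : c ≤ c * (E + 3) := by
      have := mul_nonneg hc0.le hE0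
      linarith
    have h4 : d / (4 * K) = d / K / 4 := by
      field_simp
    have h5 : 0 < d / K := by positivity
    rw [h1]
    linarith
  have hcd : c ≤ d / 2 := by
    have h3 : c ≤ c * (E + 3) := by
      have := mul_nonneg hc0.le hE0
      linarith
    have h4 : d / (4 * K) ≤ d / 4 := by
      refine div_le_div_of_nonneg_left hd0.le (by norm_num) (by linarith)
    linarith
  obtain ⟨C₃, hC₃def⟩ : ∃ C₃, C₃ = C₂ * (C + 1) := ⟨_, rfl⟩
  have hC₃ : 0 < C₃ := by rw [hC₃def]; positivity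
  -- eventual facts
  have hnum := Block_num E K n₀ C₁ C₃ d c hC₁ hC₃ hc0 hK hexp hc3
  have hη : ∀ᶠ x : ℝ in atTop, C₃ * (2 * x) ^ c * x ^ (-d) ≤ 1 := by
    have h1 := (tendsto_rpow_atTop (show 0 < d - c by linarith)).eventually_ge_atTop (C₃ * 2 ^ c)
    filter_upwards [h1, eventually_gt_atTop (0 : ℝ)] with x hx hx0
    have h2 : C₃ * (2 * x) ^ c * x ^ (-d) = (C₃ * 2 ^ c) * (x ^ (d - c))⁻¹ := by
      rw [← Real.rpow_neg hx0.le, Real.mul_rpow (by norm_num) hx0.le,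
        show -(d - c) = c + -d by ring, Real.rpow_add hx0]
      ring
    rw [h2, ← div_eq_mul_inv, div_le_one (Real.rpow_pos_of_pos hx0 _)]
    exact hx
  have hevN : Tendsto (fun n : ℕ => (n : ℝ)) atTop atTop := tendsto_natCast_atTop_atTop
  have hν : Tendsto (fun n : ℕ => (n : ℝ) / D₀) atTop atTop := hevN.atTop_div_const hD
  have hlam : Tendsto (fun n : ℕ => lam ((n : ℝ) / D₀)) atTop atTop := lam_tendsto.comp hν
  have hpt : ∀ᶠ n : ℕ in atTop, (∀ i, y i (1 / lam ((n : ℝ) / D₀)) = a i / B / lam (a i * n / D₀)) ∧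
      (1 / lam ((n : ℝ) / D₀) ≤ r) ∧ (0 ≤ 1 / lam ((n : ℝ) / D₀)) ∧
      (∀ i, 0 ≤ a i / B / lam (a i * n / D₀) ∧ a i / B / lam (a i * n / D₀) ≤ 1) := by
    have h1 := hν.eventually hy_ev
    have h2 := hlam.eventually_ge_atTop (1 / r)
    have h3 : ∀ᶠ n : ℕ in atTop, ∀ i, a i / B ≤ lam (a i * n / D₀) := by
      rw [eventually_all]
      intro i
      have h4 : Tendsto (fun n : ℕ => a i * (n : ℝ) / D₀) atTop atTop :=
        (hevN.const_mul_atTop (ha i)).atTop_div_const hD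
      exact (lam_tendsto.comp h4).eventually_ge_atTop (a i / B)
    filter_upwards [h1, h2, h3] with n h1 h2 h3
    have hr' : 0 < 1 / r := by positivity
    have hl0 : 0 < lam ((n : ℝ) / D₀) := lt_of_lt_of_le hr' h2
    refine ⟨fun i => ?_, ?_, by positivity, fun i => ?_⟩
    · rw [h1 i, mul_div_assoc]
    · rw [div_le_iff₀ hl0]
      rw [div_le_iff₀ hr] at h2
      linarith
    · have h5 : 0 < a i / B := div_pos (ha i) hB
      have h6 : 0 < lam (a i * n / D₀) := lt_of_lt_of_le h5 (h3 i)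
      refine ⟨by positivity, ?_⟩
      rw [div_le_one h6]
      exact h3 i
  obtain ⟨N₁, hN₁⟩ := eventually_atTop.1 hpt
  obtain ⟨N₂, hN₂⟩ := eventually_atTop.1 (hevN.eventually (hnum.and hη))
  refine ⟨c, hc0, hc12, max (max N₁ N₂) (max Ms 1), fun M hM => ?_⟩
  have hM1 : N₁ ≤ M := (le_max_left _ _).trans ((le_max_left _ _).trans hM)
  have hM2 : N₂ ≤ M := (le_max_right _ _).trans ((le_max_left _ _).trans hM)
  have hM3 : Ms ≤ M := (le_max_left _ _).trans ((le_max_right _ _).trans hM)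
  have hM4 : 1 ≤ M := (le_max_right _ _).trans ((le_max_right _ _).trans hM)
  obtain ⟨hnumM, hηM⟩ := hN₂ M hM2
  have hMr1 : (1 : ℝ) ≤ M := by exact_mod_cast hM4
  have hMr0 : (0 : ℝ) < M := by linarith
  obtain ⟨H, hHdef⟩ : ∃ H : ℝ, H = (2 * (M : ℝ)) ^ c := ⟨_, rfl⟩
  have hH1 : 1 ≤ H := by
    rw [hHdef]
    exact Real.one_le_rpow (by linarith) hc0.le
  obtain ⟨η, hηdef⟩ : ∃ η : ℝ, η = C₃ * (2 * (M : ℝ)) ^ c * (M : ℝ) ^ (-d) := ⟨_, rfl⟩
  have hη0 : 0 < η := by rw [hηdef]; positivity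
  have hη1 : η ≤ 1 := by rw [hηdef]; exact hηM
  -- the intervals for each b
  have hchoice : ∀ b : (Fin k → Fin (D + 1)) → ℤ, ∃ S : Finset (ℝ × ℝ), S.card ≤ n₀ ∧
      (∀ J ∈ S, J.2 - J.1 ≤ C₁ * η ^ ((1 : ℝ) / K)) ∧ ((∃ e, b e ≠ 0) →
        ∀ t ∈ Icc 0 r, |∑ e, ((b e : ℤ) : ℝ) * ∏ i, y i t ^ (e i : ℕ)| ≤ η →
          ∃ J ∈ S, J.1 ≤ t ∧ t ≤ J.2) := by
    intro b
    by_cases hb : ∃ e, b e ≠ 0
    · obtain ⟨S, h1, h2, h3⟩ := hfam (fun e => ((b e : ℤ) : ℝ)) (by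
        obtain ⟨e, he⟩ := hb
        refine ⟨e, ?_⟩
        have h4 := Int.one_le_abs he
        exact_mod_cast h4) η hη0 hη1
      exact ⟨S, h1, h2, fun _ => h3⟩
    · exact ⟨∅, by simp, by simp, fun h => absurd h hb⟩
  choose S hS1 hS2 hS3 using hchoice
  -- inclusion
  have hincl : (Finset.Ioc M (2 * M)).filter (BadAt k D a B D₀ C₀ δ c) ⊆
      (Fintype.piFinset (fun _ : Fin k → Fin (D + 1) => Finset.Icc (-⌊H⌋) ⌊H⌋)).biUnion
        (fun b => (Finset.Ioc M (2 * M)).filter (fun n : ℕ => ∃ J ∈ S b,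
          J.1 ≤ 1 / lam ((n : ℝ) / D₀) ∧ 1 / lam ((n : ℝ) / D₀) ≤ J.2)) := by
    intro n hn
    rw [Finset.mem_filter, Finset.mem_Ioc] at hn
    obtain ⟨⟨hn1, hn2⟩, P, hP0, hPd, hPc, s, hs, hPs⟩ := hn
    have hMn : (M : ℝ) ≤ n := by exact_mod_cast hn1.le
    have hn2r : (n : ℝ) ≤ 2 * M := by exact_mod_cast hn2
    have hnr1 : (1 : ℝ) ≤ n := hMr1.trans hMn
    have hnr0 : (0 : ℝ) < n := by linarith
    obtain ⟨hp1, hp2, hp3, hp4⟩ := hN₁ n (hM1.trans hn1.le)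
    have hPH : ∀ m, |((P.coeff m : ℤ) : ℝ)| ≤ H := by
      intro m
      refine (hPc m).trans ?_
      rw [hHdef]
      exact Real.rpow_le_rpow hnr0.le hn2r hc0.le
    obtain ⟨b, hb0, hbH, hb⟩ := htop P H hP0 hPd hPH
    have hs' : ∀ i, |s i / n - a i / B / lam (a i * n / D₀)| ≤ C * (n : ℝ) ^ (-d) := by
      intro i
      have h1 : s i / n - a i / B / lam (a i * n / D₀) =
          (s i - (a i * n / B) / lam (a i * n / D₀)) / n := by
        rw [sub_div]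
        congr 1
        field_simp
      rw [h1, abs_div, abs_of_pos hnr0, div_le_iff₀ hnr0]
      refine (hs i).trans ?_
      have h2 : C * (n : ℝ) ^ (-d) * n = C * (n : ℝ) ^ (1 - d) := by
        rw [mul_assoc, sub_eq_neg_add, Real.rpow_add hnr0, Real.rpow_one]
      rw [h2]
      have h3 : (n : ℝ) ^ (1 - δ) ≤ (n : ℝ) ^ (1 - d) :=
        Real.rpow_le_rpow_of_exponent_le hnr1 (by linarith)
      have h4 : 0 < (n : ℝ) ^ (1 - δ) := Real.rpow_pos_of_pos hnr0 _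
      calc C₀ * (n : ℝ) ^ (1 - δ) ≤ C * (n : ℝ) ^ (1 - δ) :=
            mul_le_mul_of_nonneg_right hCC h4.le
        _ ≤ C * (n : ℝ) ^ (1 - d) := mul_le_mul_of_nonneg_left h3 (by linarith)
    have hnd1 : (n : ℝ) ^ (-d) ≤ 1 := Real.rpow_le_one_of_one_le_of_nonpos hnr1 (by linarith)
    have hndM : (n : ℝ) ^ (-d) ≤ (M : ℝ) ^ (-d) :=
      Real.rpow_le_rpow_of_nonpos hMr0 hMn (by linarith)
    have hinv : 1 / (n : ℝ) ≤ (M : ℝ) ^ (-d) := by
      have h1 : 1 / (n : ℝ) = (n : ℝ) ^ (-1 : ℝ) := by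
        rw [Real.rpow_neg_one, one_div]
      rw [h1]
      refine le_trans ?_ hndM
      exact Real.rpow_le_rpow_of_exponent_le hnr1 (by linarith)
    have hy1 : ∀ i, |a i / B / lam (a i * n / D₀)| ≤ 1 := by
      intro i
      rw [abs_of_nonneg (hp4 i).1]
      exact (hp4 i).2
    have hsA : ∀ i, |s i| ≤ (1 + C) * n := by
      intro i
      have h1 : |s i / n| ≤ 1 + C := by
        calc |s i / n| = |(s i / n - a i / B / lam (a i * n / D₀)) +
              a i / B / lam (a i * n / D₀)| := by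
                congr 1
                ring
          _ ≤ |s i / n - a i / B / lam (a i * n / D₀)| + |a i / B / lam (a i * n / D₀)| :=
              abs_add_le _ _
          _ ≤ C * (n : ℝ) ^ (-d) + 1 := add_le_add (hs' i) (hy1 i)
          _ ≤ C * 1 + 1 := by
              have := mul_le_mul_of_nonneg_left hnd1 (show 0 ≤ C by linarith)
              linarith
          _ = 1 + C := by ring
      rw [abs_div, abs_of_pos hnr0, div_le_iff₀ hnr0] at h1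
      exact h1
    have hfin := hb n s (fun i => a i / B / lam (a i * n / D₀)) (C * (n : ℝ) ^ (-d))
      (hM4.trans hn1.le) (by positivity) hsA (fun i => (hy1 i).trans (by linarith)) hs' hPs
    have hfin2 : |∑ e, ((b e : ℤ) : ℝ) * ∏ i, y i (1 / lam ((n : ℝ) / D₀)) ^ (e i : ℕ)| ≤ η := by
      have h1 : ∀ e : Fin k → Fin (D + 1), ∏ i, y i (1 / lam ((n : ℝ) / D₀)) ^ (e i : ℕ) =
          ∏ i, (a i / B / lam (a i * n / D₀)) ^ (e i : ℕ) :=
        fun e => Finset.prod_congr rfl fun i _ => by rw [hp1 i]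
      simp only [h1]
      refine hfin.trans ?_
      have h2 : C * (n : ℝ) ^ (-d) + 1 / n ≤ (C + 1) * (M : ℝ) ^ (-d) := by
        have := mul_le_mul_of_nonneg_left hndM (show 0 ≤ C by linarith)
        linarith
      calc C₂ * H * (C * (n : ℝ) ^ (-d) + 1 / n) ≤ C₂ * H * ((C + 1) * (M : ℝ) ^ (-d)) :=
            mul_le_mul_of_nonneg_left h2 (by positivity)
        _ = η := by
            rw [hηdef, hC₃def, hHdef]
            ring
    rw [Finset.mem_biUnion]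
    refine ⟨b, ?_, ?_⟩
    · rw [Fintype.mem_piFinset]
      intro e
      rw [Finset.mem_Icc]
      have h1 := abs_le.1 (hbH e)
      constructor
      · have h2 : -(⌊H⌋ : ℤ) ≤ b e := by
          have h3 : -(b e) ≤ ⌊H⌋ := by
            rw [Int.le_floor]
            push_cast
            linarith [h1.1]
          linarith
        exact h2
      · rw [Int.le_floor]
        exact h1.2
    · rw [Finset.mem_filter, Finset.mem_Ioc]
      exact ⟨⟨hn1, hn2⟩, hS3 b hb0 _ ⟨hp3, hp2⟩ hfin2⟩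
  -- counting
  have hW : 0 ≤ 16 * (M : ℝ) * (Real.log M) ^ 2 := by positivity
  have hL : 0 ≤ C₁ * η ^ ((1 : ℝ) / K) := by positivity
  have hone : ∀ b : (Fin k → Fin (D + 1)) → ℤ,
      ((((Finset.Ioc M (2 * M)).filter (fun n : ℕ => ∃ J ∈ S b,
          J.1 ≤ 1 / lam ((n : ℝ) / D₀) ∧ 1 / lam ((n : ℝ) / D₀) ≤ J.2)).card : ℕ) : ℝ) ≤
        n₀ * (16 * (M : ℝ) * (Real.log M) ^ 2 * (C₁ * η ^ ((1 : ℝ) / K)) + 1) := by
    intro b
    exact Block_cover M (fun n => 1 / lam ((n : ℝ) / D₀)) (S b) n₀ (hS1 b) _ _ hW (hS2 b)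
      (hMs M hM3) hL
  have hcard : ((((Finset.Ioc M (2 * M)).filter (BadAt k D a B D₀ C₀ δ c)).card : ℕ) : ℝ) ≤
      ∑ b ∈ Fintype.piFinset (fun _ : Fin k → Fin (D + 1) => Finset.Icc (-⌊H⌋) ⌊H⌋),
        ((((Finset.Ioc M (2 * M)).filter (fun n : ℕ => ∃ J ∈ S b,
          J.1 ≤ 1 / lam ((n : ℝ) / D₀) ∧ 1 / lam ((n : ℝ) / D₀) ≤ J.2)).card : ℕ) : ℝ) := by
    exact_mod_cast (Finset.card_le_card hincl).trans Finset.card_biUnion_le
  have hbox := Block_box (ι := Fin k → Fin (D + 1)) H hH1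
  rw [← hEdef] at hbox
  have hR : 0 ≤ n₀ * (16 * (M : ℝ) * (Real.log M) ^ 2 * (C₁ * η ^ ((1 : ℝ) / K)) + 1) := by
    positivity
  calc ((((Finset.Ioc M (2 * M)).filter (BadAt k D a B D₀ C₀ δ c)).card : ℕ) : ℝ)
      ≤ ∑ b ∈ Fintype.piFinset (fun _ : Fin k → Fin (D + 1) => Finset.Icc (-⌊H⌋) ⌊H⌋),
        (n₀ * (16 * (M : ℝ) * (Real.log M) ^ 2 * (C₁ * η ^ ((1 : ℝ) / K)) + 1)) :=
        hcard.trans (Finset.sum_le_sum fun b _ => hone b)
    _ = (((Fintype.piFinset (fun _ : Fin k → Fin (D + 1) =>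
          Finset.Icc (-⌊H⌋) ⌊H⌋)).card : ℕ) : ℝ) *
          (n₀ * (16 * (M : ℝ) * (Real.log M) ^ 2 * (C₁ * η ^ ((1 : ℝ) / K)) + 1)) := by
        rw [Finset.sum_const, nsmul_eq_mul]
    _ ≤ (3 * H) ^ E * (n₀ * (16 * (M : ℝ) * (Real.log M) ^ 2 * (C₁ * η ^ ((1 : ℝ) / K)) + 1)) :=
        mul_le_mul_of_nonneg_right hbox hR
    _ ≤ (M : ℝ) ^ (1 - c) := by
        rw [hHdef, hηdef]
        exact hnumM

end Pool.Agent.Lib.MP_ec260d_nt
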