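import Mathlib

/-!
# JOB Dyadic: from dyadic blocks to `[1, N]`

Strong induction on `N`: claim `#(filter Q (Icc 1 N)) ≤ C N^(1 - c)` with `C = 2 M₀ + 2 + 1/(2^{1/2} - 1) * 4`, say (any explicit large constant). If `N ≤ 2 M₀ + 2` the count is at most
`N ≤ C`, and `N^(1-c) ≥ 1`. Otherwise `M = ⌊N/2⌋ ≥ M₀`, `Icc 1 N ⊆ Icc 1 M ∪ Ioc M (2M) ∪ {N}`, so the count is at most
`C M^(1-c) + M^(1-c) + 1 ≤ (C + 2) (N/2)^(1-c)` and `(C + 2) 2^(-(1-c)) ≤ (C + 2) 2^(-1/2) ≤ C` as soon as `C ≥ 2 * 2^(-1/2)/(1 - 2^(-1/2))`, i.e. `C ≥ 5` is enough.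
-/

open Finset

namespace Pool.Agent.Lib.MP_ec260d_nt

open Classical in
theorem dyadic (Q : ℕ → Prop) (c : ℝ) (hc : 0 < c) (hc2 : c ≤ 1 / 2) (M₀ : ℕ)
    (h : ∀ M : ℕ, M₀ ≤ M → ((((Finset.Ioc M (2 * M)).filter Q).card : ℕ) : ℝ) ≤ (M : ℝ) ^ (1 - c)) :
    ∃ C : ℝ, ∀ N : ℕ, 1 ≤ N → ((((Finset.Icc 1 N).filter Q).card : ℕ) : ℝ) ≤ C * (N : ℝ) ^ (1 - c) := by
  set C : ℝ := 2 * M₀ + 8 with hC
  have hC8 : 8 ≤ C := by
    rw [hC]
    have : (0 : ℝ) ≤ M₀ := Nat.cast_nonneg _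
    linarith
  refine ⟨C, ?_⟩
  intro N
  induction N using Nat.strong_induction_on with
  | _ N ih =>
    intro hN
    have hN1 : (1 : ℝ) ≤ (N : ℝ) := by exact_mod_cast hN
    have hpow1 : (1 : ℝ) ≤ (N : ℝ) ^ (1 - c) := Real.one_le_rpow hN1 (by linarith)
    by_cases hsm : N ≤ 2 * M₀ + 2
    · have h1 : ((((Finset.Icc 1 N).filter Q).card : ℕ) : ℝ) ≤ N := by
        have h2 : ((Finset.Icc 1 N).filter Q).card ≤ (Finset.Icc 1 N).card := Finset.card_filter_le _ _
        rw [Nat.card_Icc] at h2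
        exact_mod_cast (by omega : ((Finset.Icc 1 N).filter Q).card ≤ N)
      have h3 : (N : ℝ) ≤ 2 * M₀ + 2 := by exact_mod_cast hsm
      have h4 : C ≤ C * (N : ℝ) ^ (1 - c) := le_mul_of_one_le_right (by linarith) hpow1
      linarith
    · push Not at hsm
      set M : ℕ := N / 2 with hM
      have hM0 : M₀ ≤ M := by omega
      have hM1 : 1 ≤ M := by omega
      have hMN : M < N := by omega
      have hsub : (Finset.Icc 1 N).filter Q ⊆
          ((Finset.Icc 1 M).filter Q ∪ (Finset.Ioc M (2 * M)).filter Q) ∪ {N} := by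
        intro x hx
        rw [Finset.mem_filter, Finset.mem_Icc] at hx
        simp only [Finset.mem_union, Finset.mem_filter, Finset.mem_Icc, Finset.mem_Ioc,
          Finset.mem_singleton]
        rcases lt_or_ge M x with h1 | h1
        · rcases lt_or_ge (2 * M) x with h2 | h2
          · right
            omega
          · left; right
            exact ⟨⟨h1, h2⟩, hx.2⟩
        · left; left
          exact ⟨⟨hx.1.1, h1⟩, hx.2⟩
      have hcard : ((Finset.Icc 1 N).filter Q).card ≤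
          ((Finset.Icc 1 M).filter Q).card + ((Finset.Ioc M (2 * M)).filter Q).card + 1 := by
        refine (Finset.card_le_card hsub).trans ?_
        refine (Finset.card_union_le _ _).trans ?_
        rw [Finset.card_singleton]
        exact Nat.add_le_add_right (Finset.card_union_le _ _) 1
      have hcard' : ((((Finset.Icc 1 N).filter Q).card : ℕ) : ℝ) ≤
          ((((Finset.Icc 1 M).filter Q).card : ℕ) : ℝ) +
          ((((Finset.Ioc M (2 * M)).filter Q).card : ℕ) : ℝ) + 1 := by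
        exact_mod_cast hcard
      have h1 := ih M hMN hM1
      have h2 := h M hM0
      have hMr : (1 : ℝ) ≤ (M : ℝ) := by exact_mod_cast hM1
      have hMp : (1 : ℝ) ≤ (M : ℝ) ^ (1 - c) := Real.one_le_rpow hMr (by linarith)
      have hMle : (M : ℝ) ≤ (N : ℝ) / 2 := by
        have : 2 * M ≤ N := by omega
        have h3 : (2 : ℝ) * M ≤ N := by exact_mod_cast this
        linarith
      have h3 : (M : ℝ) ^ (1 - c) ≤ ((N : ℝ) / 2) ^ (1 - c) :=
        Real.rpow_le_rpow (by linarith) hMle (by linarith)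
      have h4 : ((N : ℝ) / 2) ^ (1 - c) = (N : ℝ) ^ (1 - c) * ((1 : ℝ) / 2) ^ (1 - c) := by
        rw [← Real.mul_rpow (by linarith) (by norm_num)]
        congr 1
        ring
      have h5 : ((1 : ℝ) / 2) ^ (1 - c) ≤ ((1 : ℝ) / 2) ^ ((1 : ℝ) / 2) :=
        Real.rpow_le_rpow_of_exponent_ge (by norm_num) (by norm_num) (by linarith)
      have h6 : ((1 : ℝ) / 2) ^ ((1 : ℝ) / 2) ≤ 3 / 4 := by
        rw [← Real.sqrt_eq_rpow]
        rw [Real.sqrt_le_left (by norm_num)]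
        norm_num
      have h7 : (M : ℝ) ^ (1 - c) ≤ (N : ℝ) ^ (1 - c) * (3 / 4) := by
        rw [h4] at h3
        exact h3.trans (mul_le_mul_of_nonneg_left (h5.trans h6) (by linarith))
      have h8 : (C + 2) * (M : ℝ) ^ (1 - c) ≤ (C + 2) * ((N : ℝ) ^ (1 - c) * (3 / 4)) :=
        mul_le_mul_of_nonneg_left h7 (by linarith)
      have h9 : (C + 2) * ((N : ℝ) ^ (1 - c) * (3 / 4)) ≤ C * (N : ℝ) ^ (1 - c) := by
        nlinarith only [hC8, hpow1]
      nlinarith only [hcard', h1, h2, hMp, h8, h9]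

end Pool.Agent.Lib.MP_ec260d_nt
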