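import Mathlib

/-!
# JOB ExpPoly: polynomials in `Y` with coefficients analytic in `Y exp Y`

Proof. Suppose some `A m` (`m ≤ M`) does not vanish near `0`; let `e` be the minimum of the (finite) orders
`analyticOrderAt (A m) 0` over the `m ≤ M` for which it is finite. Then every `A m`, `m ≤ M`, can be written
`A m u = u ^ e * α m u` near `0` with `α m` analytic at `0` (for infinite order take `α m = 0`; otherwise
`natCast_le_analyticOrderAt`), and `α m 0 ≠ 0` for at least one `m` (the one of order `e`).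
As `Y → -∞`, `u = Y exp Y → 0` and `u ≠ 0`, so the hypothesis gives `∑ m, α m u * Y ^ m = 0`. Since `α m` is
differentiable at `0`, `‖α m u - α m 0‖ ≤ C |u|` near `0`, hence
`‖∑ m, α m 0 * Y ^ m‖ ≤ C |Y exp Y| (M + 1) (1 + |Y|) ^ M → 0` as `Y → -∞` (`Real.tendsto_pow_mul_exp_neg_atTop_nhds_zero`
with `Y = -x`). But `p(Y) = ∑ m, α m 0 Y ^ m` is a nonzero complex polynomial: if its degree is positive then
`‖p Y‖ → ∞` as `|Y| → ∞` (`Polynomial.tendsto_norm_atTop`), and if it is a constant it is a nonzero constant. Contradiction.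
-/

open Real Set Filter Topology

namespace Pool.Agent.Lib.MP_ec260d_nt

private theorem expPoly_lim (n : ℕ) : Tendsto (fun Y : ℝ => Y ^ n * Real.exp Y) atBot (𝓝 0) := by
  have h1 := (Real.tendsto_pow_mul_exp_neg_atTop_nhds_zero n).comp tendsto_neg_atBot_atTop
  have h2 := h1.const_mul ((-1 : ℝ) ^ n)
  rw [mul_zero] at h2
  refine h2.congr fun Y => ?_
  show (-1 : ℝ) ^ n * ((-Y) ^ n * Real.exp (- -Y)) = Y ^ n * Real.exp Y
  rw [neg_neg, ← mul_assoc, ← mul_pow, neg_one_mul, neg_neg]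

private theorem expPoly_term (α : ℝ → ℂ) (hα : AnalyticAt ℝ α 0) (m : ℕ) :
    Tendsto (fun Y : ℝ => (α (Y * Real.exp Y) - α 0) * (Y : ℂ) ^ m) atBot (𝓝 0) := by
  have hu : Tendsto (fun Y : ℝ => Y * Real.exp Y) atBot (𝓝 0) := by
    have h := expPoly_lim 1
    simp only [pow_one] at h
    exact h
  have h1 : (fun Y : ℝ => α (Y * Real.exp Y) - α 0) =O[atBot] (fun Y : ℝ => Y * Real.exp Y - 0) :=
    (hα.differentiableAt.isBigO_sub).comp_tendsto hu
  have h2 : (fun Y : ℝ => (Y : ℂ) ^ m) =O[atBot] (fun Y : ℝ => Y ^ m) := by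
    refine Asymptotics.isBigO_of_le _ fun Y => ?_
    rw [norm_pow, norm_pow, Complex.norm_real]
  have h3 := h1.mul h2
  refine h3.trans_tendsto ?_
  refine (expPoly_lim (m + 1)).congr fun Y => ?_
  ring

theorem expPoly_zero (M : ℕ) (A : ℕ → ℝ → ℂ) (hA : ∀ m, AnalyticAt ℝ (A m) 0) (Y0 : ℝ)
    (h : ∀ Y : ℝ, Y ≤ Y0 →
      ∑ m ∈ Finset.range (M + 1), A m (Y * Real.exp Y) * (Y : ℂ) ^ m = 0) :
    ∀ m ≤ M, A m =ᶠ[𝓝 0] 0 := by
  classical
  by_contra hcon
  push Not at hcon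
  obtain ⟨m0, hm0, hne0⟩ := hcon
  have hord0 : analyticOrderAt (A m0) 0 ≠ ⊤ := by
    intro h0
    exact hne0 (analyticOrderAt_eq_top.1 h0)
  have hex : ∃ e : ℕ, ∃ m ≤ M, analyticOrderAt (A m) 0 = e := by
    obtain ⟨e, he⟩ := ENat.ne_top_iff_exists.1 hord0
    exact ⟨e, m0, hm0, he.symm⟩
  obtain ⟨m1, hm1, hm1e⟩ := Nat.find_spec hex
  set e := Nat.find hex with he
  have hge : ∀ m ≤ M, (e : ℕ∞) ≤ analyticOrderAt (A m) 0 := by
    intro m hm
    by_cases htop : analyticOrderAt (A m) 0 = ⊤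
    · rw [htop]
      exact le_top
    · obtain ⟨f, hf⟩ := ENat.ne_top_iff_exists.1 htop
      rw [← hf]
      exact_mod_cast Nat.find_min' hex ⟨m, hm, hf.symm⟩
  have hch : ∀ m, ∃ α : ℝ → ℂ, m ≤ M → (AnalyticAt ℝ α 0 ∧
      (∀ᶠ u in 𝓝 (0 : ℝ), A m u = (u - 0) ^ e • α u) ∧ (m = m1 → α 0 ≠ 0)) := by
    intro m
    by_cases hm : m ≤ M
    · by_cases hmm : m = m1
      · obtain ⟨g, hg1, hg2, hg3⟩ := (hA m).analyticOrderAt_eq_natCast.1 (hmm ▸ hm1e)
        exact ⟨g, fun _ => ⟨hg1, hg3, fun _ => hg2⟩⟩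
      · obtain ⟨g, hg1, hg3⟩ := (natCast_le_analyticOrderAt (hA m)).1 (hge m hm)
        exact ⟨g, fun _ => ⟨hg1, hg3, fun h => absurd h hmm⟩⟩
    · exact ⟨0, fun h => absurd h hm⟩
  choose α hα using hch
  have hu : Tendsto (fun Y : ℝ => Y * Real.exp Y) atBot (𝓝 0) := by
    have h := expPoly_lim 1
    simp only [pow_one] at h
    exact h
  have hall : ∀ᶠ u in 𝓝 (0 : ℝ), ∀ m ∈ Finset.range (M + 1), A m u = (u - 0) ^ e • α m u := by
    rw [Filter.eventually_all_finset]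
    intro m hm
    exact (hα m (Nat.lt_succ_iff.1 (Finset.mem_range.1 hm))).2.1
  have hzero : ∀ᶠ Y : ℝ in atBot, ∑ m ∈ Finset.range (M + 1), α m (Y * Real.exp Y) * (Y : ℂ) ^ m = 0 := by
    filter_upwards [hu.eventually hall, eventually_le_atBot Y0, eventually_lt_atBot (0 : ℝ)] with Y h1 h2 h3
    have h4 := h Y h2
    have hune : Y * Real.exp Y ≠ 0 := mul_ne_zero h3.ne (Real.exp_pos Y).ne'
    have h5 : ∑ m ∈ Finset.range (M + 1), A m (Y * Real.exp Y) * (Y : ℂ) ^ m =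
        (((Y * Real.exp Y) ^ e : ℝ) : ℂ) * ∑ m ∈ Finset.range (M + 1), α m (Y * Real.exp Y) * (Y : ℂ) ^ m := by
      rw [Finset.mul_sum]
      refine Finset.sum_congr rfl fun m hm => ?_
      rw [h1 m hm, sub_zero, Complex.real_smul, mul_assoc]
    rw [h5] at h4
    rcases mul_eq_zero.1 h4 with h6 | h6
    · exfalso
      have h7 : (Y * Real.exp Y) ^ e = 0 := by exact_mod_cast h6
      exact pow_ne_zero e hune h7
    · exact h6
  set p : Polynomial ℂ := ∑ m ∈ Finset.range (M + 1), Polynomial.C (α m 0) * Polynomial.X ^ m with hp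
  have hpe : ∀ Y : ℝ, p.eval (Y : ℂ) = ∑ m ∈ Finset.range (M + 1), α m 0 * (Y : ℂ) ^ m := by
    intro Y
    rw [hp, Polynomial.eval_finsetSum]
    refine Finset.sum_congr rfl fun m _ => ?_
    rw [Polynomial.eval_mul, Polynomial.eval_C, Polynomial.eval_pow, Polynomial.eval_X]
  have hlim : Tendsto (fun Y : ℝ => p.eval (Y : ℂ)) atBot (𝓝 0) := by
    have h1 : Tendsto (fun Y : ℝ => -∑ m ∈ Finset.range (M + 1),
        (α m (Y * Real.exp Y) - α m 0) * (Y : ℂ) ^ m) atBot (𝓝 0) := by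
      have h2 : Tendsto (fun Y : ℝ => ∑ m ∈ Finset.range (M + 1),
          (α m (Y * Real.exp Y) - α m 0) * (Y : ℂ) ^ m) atBot (𝓝 (∑ m ∈ Finset.range (M + 1), (0 : ℂ))) := by
        refine tendsto_finsetSum _ fun m hm => ?_
        exact expPoly_term (α m) (hα m (Nat.lt_succ_iff.1 (Finset.mem_range.1 hm))).1 m
      rw [Finset.sum_const_zero] at h2
      have h3 := h2.neg
      rw [neg_zero] at h3
      exact h3
    refine h1.congr' ?_
    filter_upwards [hzero] with Y hY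
    rw [hpe]
    have h2 : ∑ m ∈ Finset.range (M + 1), (α m (Y * Real.exp Y) - α m 0) * (Y : ℂ) ^ m =
        ∑ m ∈ Finset.range (M + 1), α m (Y * Real.exp Y) * (Y : ℂ) ^ m -
        ∑ m ∈ Finset.range (M + 1), α m 0 * (Y : ℂ) ^ m := by
      rw [← Finset.sum_sub_distrib]
      refine Finset.sum_congr rfl fun m _ => ?_
      ring
    rw [h2, hY, zero_sub, neg_neg]
  have hpne : p ≠ 0 := by
    intro h0
    have h1 : p.coeff m1 = α m1 0 := by
      rw [hp, Polynomial.finsetSum_coeff]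
      simp only [Polynomial.coeff_C_mul, Polynomial.coeff_X_pow]
      rw [Finset.sum_eq_single m1]
      · rw [if_pos rfl, mul_one]
      · intro b _ hb
        rw [if_neg (Ne.symm hb), mul_zero]
      · intro h2
        exact absurd (Finset.mem_range.2 (Nat.lt_succ_iff.2 hm1)) h2
    rw [h0, Polynomial.coeff_zero] at h1
    exact (hα m1 hm1).2.2 rfl h1.symm
  rcases le_or_gt p.degree 0 with hdeg | hdeg
  · have hc := Polynomial.eq_C_of_degree_le_zero hdeg
    have hc0 : p.coeff 0 ≠ 0 := by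
      intro h0
      rw [h0, Polynomial.C_0] at hc
      exact hpne hc
    have h1 : (fun Y : ℝ => p.eval (Y : ℂ)) = fun _ => p.coeff 0 := by
      funext Y
      conv_lhs => rw [hc]
      rw [Polynomial.eval_C]
    rw [h1] at hlim
    exact hc0 (tendsto_nhds_unique tendsto_const_nhds hlim)
  · have habs : Tendsto (fun Y : ℝ => ‖(Y : ℂ)‖) atBot atTop := by
      simp only [Complex.norm_real, Real.norm_eq_abs]
      exact tendsto_abs_atBot_atTop
    have h1 := Polynomial.tendsto_norm_atTop p hdeg habs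
    have h2 := hlim.norm
    rw [norm_zero] at h2
    exact not_tendsto_nhds_of_tendsto_atTop h1 _ h2

end Pool.Agent.Lib.MP_ec260d_nt
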