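import Mathlib
import Pool.Agent.Lib.MP_ec260d_nt.Lam

/-!
# JOB GE: the function `gE X = lam (exp X)`, i.e. the solution `y > 0` of `y + log y = X`

`lam` is the Lambert function of `Lam0.lean`/`Lam.lean`. `gE_pos`: `lam_pos`. `gE_add_log`: `lam_add_log` at `exp X`.
`gE_unique`: `y * exp y = exp (log y + y) = exp X` and `lam_unique`. `gE_analytic`: `lam_spec` (analytic at `exp X > 0`) composed with
`exp`. `gE_tendsto`: `lam_tendsto` and `exp → ∞`. `gE_bounds`: for `X ≥ 1`, `exp X ≥ e`, so `lam_le_log` gives `1 ≤ gE X ≤ X`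
(`log (exp X) = X`), and `gE X = X - log (gE X) ≥ X - log X`. `gE_strictMono`: `lam_strictMonoOn` and `exp`.
-/

open Real Set Filter Topology

namespace Pool.Agent.Lib.MP_ec260d_nt

/-- the solution `y > 0` of `y + log y = X` -/
noncomputable def gE (X : ℝ) : ℝ := lam (Real.exp X)

private theorem GE_mem (X : ℝ) : -Real.exp (-1) < Real.exp X := by
  have h1 := Real.exp_pos X
  have h2 := Real.exp_pos (-1)
  linarith

theorem gE_pos (X : ℝ) : 0 < gE X := lam_pos (Real.exp_pos X)

theorem gE_add_log (X : ℝ) : gE X + Real.log (gE X) = X := by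
  have h := lam_add_log (Real.exp_pos X)
  rw [Real.log_exp] at h
  exact h

theorem gE_unique {X y : ℝ} (hy : 0 < y) (h : y + Real.log y = X) : gE X = y := by
  have h1 : Real.exp X = y * Real.exp y := by
    rw [← h, Real.exp_add, Real.exp_log hy, mul_comm]
  unfold gE
  rw [h1]
  exact lam_unique (by linarith)

theorem gE_analytic (X : ℝ) : AnalyticAt ℝ gE X :=
  (lam_spec (GE_mem X)).2.2.fun_comp analyticAt_rexp

theorem gE_strictMono : StrictMono gE := fun _ _ h =>
  lam_strictMonoOn (GE_mem _) (GE_mem _) (Real.exp_lt_exp.2 h)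

theorem gE_tendsto : Tendsto gE atTop atTop := lam_tendsto.comp Real.tendsto_exp_atTop

theorem gE_bounds {X : ℝ} (hX : 1 ≤ X) : 1 ≤ gE X ∧ gE X ≤ X ∧ X - Real.log X ≤ gE X := by
  have h1 := lam_le_log (Real.exp_le_exp.2 hX)
  rw [Real.log_exp] at h1
  have h2 : gE X ≤ X := h1.2
  refine ⟨h1.1, h2, ?_⟩
  have h3 := gE_add_log X
  have h4 : Real.log (gE X) ≤ Real.log X := Real.log_le_log (gE_pos X) h2
  linarith

end Pool.Agent.Lib.MP_ec260d_nt
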