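import Mathlib
import Pool.Agent.Lib.MP_ec260d_nt.ZCount
import Pool.Agent.Lib.MP_ec260d_nt.Gap

/-!
# JOB GamGap: the set `Gam` of positive ordinates: gaps and local density

`Gam_gap`: `gap (ε/2)` at `T + ε/2`, and `mem_Gam_iff`. `Gam_local`: `Gam ∩ Icc T (T + 1)` is finite with at most
`C log (2 + T)` elements: for a finite subset `F` choose for each `γ ∈ F` a zero `a` with `a.im = γ` (`mem_Gam_iff`); these
zeros are distinct, `mx a ≥ 1` (`mx_ne_zero_iff`), `|a.im - T| ≤ 1`; `local_count` bounds the cardinality of every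
finite subset, so the set is finite (`Set.finite_of_encard_le_coe`-type or `Set.Infinite.exists_subset_card_eq`) and `ncard ≤ …`.
-/

open Complex Set Filter Topology

namespace Pool.Agent.Lib.MP_ec260d_nt

open Pool.Agent.Lib.MP_00e05b_nt

theorem Gam_gap (ε : ℝ) (hε : 0 < ε) : ∃ T₀ : ℝ, ∀ T : ℝ, T₀ ≤ T →
    (Gam ∩ Icc T (T + ε)).Nonempty := by
  obtain ⟨T1, h1⟩ := gap (ε / 2) (by positivity)
  refine ⟨max T1 1, fun T hT => ?_⟩
  have hT1 : T1 ≤ T := (le_max_left _ _).trans hT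
  have hT2 : 1 ≤ T := (le_max_right _ _).trans hT
  obtain ⟨a, ha, ha2⟩ := h1 (T + ε / 2) (by linarith)
  rw [abs_lt] at ha2
  refine ⟨a.im, (mem_Gam_iff _).2 ⟨by linarith [ha2.1], a, ha, rfl⟩, by linarith [ha2.1],
    by linarith [ha2.2]⟩

theorem Gam_local : ∃ C : ℝ, 0 ≤ C ∧ ∀ T : ℝ, 0 ≤ T → (Gam ∩ Icc T (T + 1)).Finite ∧
    ((Gam ∩ Icc T (T + 1)).ncard : ℝ) ≤ C * Real.log (2 + T) := by
  classical
  obtain ⟨C, hC, hloc⟩ := local_count
  refine ⟨C, hC, fun T hT => ?_⟩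
  have key : ∀ F : Finset ℝ, (F : Set ℝ) ⊆ Gam ∩ Icc T (T + 1) →
      (F.card : ℝ) ≤ C * Real.log (2 + T) := by
    intro F hF
    have hch : ∀ γ : ℝ, γ ∈ F → ∃ a : ℂ, xi a = 0 ∧ a.im = γ := fun γ hγ =>
      ((mem_Gam_iff γ).1 (hF hγ).1).2
    choose! a ha hb using hch
    have hinj : Set.InjOn a F := by
      intro x hx y hy hxy
      rw [← hb x hx, ← hb y hy, hxy]
    have h1 := hloc T (F.image a) (by
      intro z hz
      obtain ⟨γ, hγ, rfl⟩ := Finset.mem_image.1 hz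
      refine ⟨ha γ hγ, ?_⟩
      rw [hb γ hγ, abs_le]
      have h2 := (hF hγ).2
      constructor
      · linarith [h2.1]
      · linarith [h2.2])
    rw [abs_of_nonneg hT] at h1
    refine le_trans ?_ h1
    have h3 : (F.card : ℝ) = ∑ z ∈ F.image a, (1 : ℝ) := by
      rw [Finset.sum_const, nsmul_eq_mul, mul_one, Finset.card_image_of_injOn hinj]
    rw [h3]
    apply Finset.sum_le_sum
    intro z hz
    obtain ⟨γ, hγ, rfl⟩ := Finset.mem_image.1 hz
    have h4 : mx (a γ) ≠ 0 := (mx_ne_zero_iff _).2 (ha γ hγ)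
    exact_mod_cast Nat.one_le_iff_ne_zero.2 h4
  have hfin : (Gam ∩ Icc T (T + 1)).Finite := by
    by_contra hinf
    obtain ⟨n, hn⟩ := exists_nat_gt (C * Real.log (2 + T))
    obtain ⟨F, hF, hcard⟩ := Set.Infinite.exists_subset_card_eq hinf n
    have := key F hF
    rw [hcard] at this
    linarith
  refine ⟨hfin, ?_⟩
  have h5 := key hfin.toFinset (by simp)
  rwa [Set.ncard_eq_toFinset_card _ hfin]

end Pool.Agent.Lib.MP_ec260d_nt
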