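import Mathlib
import Pool.Agent.Lib.MP_ec260d_nt.GE

/-!
# JOB ImplW: `gE (A + c z - s)` as an analytic function of two variables

The function `F (w, t, u) = w + t * log w - t * A - c - (c - 1) * u` is analytic near `(c, 0, 0)` (`c > 0`), `F (c, 0, 0) = 0`
and `∂F/∂w = 1` there. So there is `w` analytic at `(0, 0)` with `w (0,0) = c` and `F (w (t,u), t, u) = 0` near `(0,0)`. One way to get it: the map
`Ψ (w, t, u) = (F (w, t, u), t, u)` (on `ℝ × ℝ × ℝ`) is analytic at `(c, 0, 0)` with derivative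
`(h₁, h₂, h₃) ↦ (h₁ + (log c - A) h₂ - (c - 1) h₃, h₂, h₃)`, a linear equivalence; its local inverse is analytic
(`HasStrictFDerivAt.toOpenPartialHomeomorph`, `OpenPartialHomeomorph.analyticAt_symm'`, or `AnalyticAt.analyticAt_localInverse`-type lemmas; or
`ContDiffAt.to_localInverse` with smoothness `ω` and `ContDiffAt` `ω` iff analytic); put `w (t, u) =` first component of `Ψ⁻¹ (0, t, u)`. (Or use an
implicit function theorem of Mathlib, e.g. `ContDiffAt`-version with `ω`.)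
Near `(0,0)`, `w > 0`. For `t > 0` put `y = w / t > 0`: then `y + log y = w/t + log w - log t = A + c/t + (c - 1) u / t - log t
= A + c * ((1 + u)/t) - (u / t + log t)` (from `F = 0` divided by `t`), so `gE_unique` gives the claim.
-/

open Real Set Filter Topology
open scoped ContDiff

namespace Pool.Agent.Lib.MP_ec260d_nt

/-- the implicit equation -/
private noncomputable def ImplW_F (A c : ℝ) (x : (ℝ × ℝ) × ℝ) : ℝ :=
  x.2 + x.1.1 * Real.log x.2 - x.1.1 * A - c - (c - 1) * x.1.2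

private lemma ImplW_log {c : ℝ} (hc : 0 < c) : AnalyticAt ℝ Real.log c :=
  analyticAt_log hc

private lemma ImplW_F_analytic (A c : ℝ) (hc : 0 < c) :
    AnalyticAt ℝ (ImplW_F A c) ((0, 0), c) := by
  have h2 : AnalyticAt ℝ (fun x : (ℝ × ℝ) × ℝ => x.2) ((0, 0), c) := analyticAt_snd
  have h11 : AnalyticAt ℝ (fun x : (ℝ × ℝ) × ℝ => x.1.1) ((0, 0), c) :=
    analyticAt_fst.comp analyticAt_fst
  have h12 : AnalyticAt ℝ (fun x : (ℝ × ℝ) × ℝ => x.1.2) ((0, 0), c) :=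
    analyticAt_snd.comp analyticAt_fst
  have hl : AnalyticAt ℝ (fun x : (ℝ × ℝ) × ℝ => Real.log x.2) ((0, 0), c) :=
    (ImplW_log hc).comp_of_eq h2 rfl
  exact (((h2.add (h11.mul hl)).sub (h11.mul analyticAt_const)).sub analyticAt_const).sub
    (analyticAt_const.mul h12)

private lemma ImplW_inv (A c : ℝ) (hc : 0 < c) :
    (fderiv ℝ (ImplW_F A c) ((0, 0), c) ∘L .inr ℝ (ℝ × ℝ) ℝ).IsInvertible := by
  have h1 : HasFDerivAt (fun w : ℝ => ImplW_F A c ((0, 0), w))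
      (fderiv ℝ (ImplW_F A c) ((0, 0), c) ∘L .inr ℝ (ℝ × ℝ) ℝ) c :=
    (ImplW_F_analytic A c hc).differentiableAt.hasFDerivAt.comp c
      (hasFDerivAt_prodMk_right ((0, 0) : ℝ × ℝ) c)
  have h2 : HasFDerivAt (fun w : ℝ => ImplW_F A c ((0, 0), w)) (ContinuousLinearMap.id ℝ ℝ) c := by
    have h3 : (fun w : ℝ => ImplW_F A c ((0, 0), w)) = fun w => w - c := by
      funext w
      simp [ImplW_F]
    rw [h3]
    exact (hasFDerivAt_id c).sub_const c
  rw [h1.unique h2]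
  exact ⟨ContinuousLinearEquiv.refl ℝ ℝ, rfl⟩

theorem impl_w (A c : ℝ) (hc : 0 < c) : ∃ w : ℝ × ℝ → ℝ, AnalyticAt ℝ w 0 ∧ w 0 = c ∧
    ∀ᶠ p in 𝓝 (0 : ℝ × ℝ), 0 < p.1 →
      gE (A + c * ((1 + p.2) / p.1) - (p.2 / p.1 + Real.log p.1)) = w p / p.1 := by
  have hcd : ContDiffAt ℝ ω (ImplW_F A c) ((0, 0), c) := (ImplW_F_analytic A c hc).contDiffAt
  have hn : (ω : WithTop ℕ∞) ≠ 0 := by simp
  obtain ⟨w, hw⟩ : ∃ w : ℝ × ℝ → ℝ, w = hcd.implicitFunction hn (ImplW_inv A c hc) := ⟨_, rfl⟩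
  have hwa : AnalyticAt ℝ w 0 := by
    rw [hw]
    exact (hcd.contDiffAt_implicitFunction hn (ImplW_inv A c hc)).analyticAt
  have hw0 : w 0 = c := by
    rw [hw]
    exact hcd.implicitFunction_apply_self hn (ImplW_inv A c hc)
  have hwe : ∀ᶠ p in 𝓝 (0 : ℝ × ℝ), ImplW_F A c (p, w p) = 0 := by
    have h1 := hcd.eventually_apply_implicitFunction hn (ImplW_inv A c hc)
    rw [← hw] at h1
    have h2 : ImplW_F A c ((0, 0), c) = 0 := by simp [ImplW_F]
    rw [h2] at h1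
    exact h1
  have hwp : ∀ᶠ p in 𝓝 (0 : ℝ × ℝ), 0 < w p := by
    refine hwa.continuousAt.eventually (lt_mem_nhds ?_)
    rw [hw0]
    exact hc
  refine ⟨w, hwa, hw0, ?_⟩
  filter_upwards [hwe, hwp] with p h1 h2 hp
  have h3 : w p + p.1 * Real.log (w p) - p.1 * A - c - (c - 1) * p.2 = 0 := h1
  refine gE_unique (div_pos h2 hp) ?_
  rw [Real.log_div h2.ne' hp.ne']
  have hp' := hp.ne'
  field_simp
  linarith

end Pool.Agent.Lib.MP_ec260d_nt
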