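import Mathlib
import Pool.Agent.Lib.MP_ec260d_nt.ImplW

/-!
# JOB GermPoly: a polynomial in the functions `gE (A i + c i z - s)` as an analytic function of two variables

Take `w i` from `impl_w (A i) (c i)`, `D = Q.totalDegree`, and
`Φ p = ∑ m ∈ Q.support, Q.coeff m * (p.1 : ℂ) ^ (D - m.degree) * ∏ i, ((w i p : ℝ) : ℂ) ^ m i` (`m.degree = ∑ m i ≤ D`, `MvPolynomial.le_totalDegree`; any form of `|m|` will do), analytic at
`0` (finite sums and products of analytic functions; `fst`, `ofReal` are continuous linear). For `p` near `0` with `p.1 > 0` all the equations of `impl_w` hold (finitely many `i`), and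
`Q (w i p / p.1) = ∑ coeff m ∏ (w i p)^(m i) / p.1 ^ |m|`, so `Φ p = p.1 ^ D * Q(...)` (`MvPolynomial.eval_eq'`).
-/

open Real Set Filter Topology

namespace Pool.Agent.Lib.MP_ec260d_nt

theorem germ_poly (k : ℕ) (A c : Fin k → ℝ) (hc : ∀ i, 0 < c i) (Q : MvPolynomial (Fin k) ℂ) :
    ∃ Φ : ℝ × ℝ → ℂ, AnalyticAt ℝ Φ 0 ∧ ∃ D : ℕ, ∀ᶠ p in 𝓝 (0 : ℝ × ℝ), 0 < p.1 →
      Φ p = (p.1 : ℂ) ^ D * MvPolynomial.eval (fun i =>
        ((gE (A i + c i * ((1 + p.2) / p.1) - (p.2 / p.1 + Real.log p.1)) : ℝ) : ℂ)) Q := by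
  choose w hwa hw0 hw using fun i => impl_w (A i) (c i) (hc i)
  refine ⟨fun p => ∑ m ∈ Q.support, Q.coeff m * (p.1 : ℂ) ^ (Q.totalDegree - ∑ i, m i) *
    ∏ i, ((w i p : ℝ) : ℂ) ^ m i, ?_, Q.totalDegree, ?_⟩
  · refine Finset.analyticAt_fun_sum _ fun m _ => ?_
    refine AnalyticAt.mul (AnalyticAt.mul analyticAt_const ?_) ?_
    · have h1 : AnalyticAt ℝ (fun p : ℝ × ℝ => (p.1 : ℂ)) 0 :=
        (Complex.ofRealCLM.analyticAt _).fun_comp analyticAt_fst
      exact h1.pow _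
    · refine Finset.analyticAt_fun_prod _ fun i _ => ?_
      have h1 : AnalyticAt ℝ (fun p : ℝ × ℝ => ((w i p : ℝ) : ℂ)) 0 :=
        (Complex.ofRealCLM.analyticAt _).fun_comp (hwa i)
      exact h1.pow _
  · filter_upwards [eventually_all.2 hw] with p hp ht
    have ht0 : (p.1 : ℂ) ≠ 0 := by exact_mod_cast ht.ne'
    rw [MvPolynomial.eval_eq', Finset.mul_sum]
    refine Finset.sum_congr rfl fun m hm => ?_
    have hdeg : ∑ i, m i ≤ Q.totalDegree := by
      have h1 := MvPolynomial.le_totalDegree hm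
      rw [Finsupp.sum_fintype _ _ fun _ => rfl] at h1
      exact h1
    have h2 : ∏ i, ((gE (A i + c i * ((1 + p.2) / p.1) - (p.2 / p.1 + Real.log p.1)) : ℝ) : ℂ) ^ m i =
        (∏ i, ((w i p : ℝ) : ℂ) ^ m i) / (p.1 : ℂ) ^ (∑ i, m i) := by
      rw [← Finset.prod_pow_eq_pow_sum, ← Finset.prod_div_distrib]
      refine Finset.prod_congr rfl fun i _ => ?_
      rw [hp i ht]
      push_cast
      rw [div_pow]
    rw [h2]
    have h3 : (p.1 : ℂ) ^ Q.totalDegree =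
        (p.1 : ℂ) ^ (Q.totalDegree - ∑ i, m i) * (p.1 : ℂ) ^ (∑ i, m i) := by
      rw [← pow_add, Nat.sub_add_cancel hdeg]
    rw [h3]
    have h4 : (p.1 : ℂ) ^ (∑ i, m i) ≠ 0 := pow_ne_zero _ ht0
    field_simp

end Pool.Agent.Lib.MP_ec260d_nt
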