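import Mathlib

/-!
# JOB LogGerm: an analytic function of two variables along the curve `u = - t log t`

Let `p` be the power series of `Φ` at `0` (`HasFPowerSeriesAt`). If `p n (fun _ => v) = 0` for all `n` and all `v`, then `Φ = 0` near `0` (`HasFPowerSeriesOnBall.hasSum`).
Otherwise let `m` be the least `n` such that `p n (fun _ => v) ≠ 0` for some `v = (t₀, u₀)`. By continuity we may assume `t₀ ≠ 0`. Put
`q ℓ = p m (fun _ => (1, ℓ))`; it is a polynomial in `ℓ` (expand `(1, ℓ) = (1, 0) + ℓ • (0, 1)` by multilinearity, `MultilinearMap.map_add_univ` or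
`ContinuousMultilinearMap.map_add_univ` and `map_smul_univ`/`map_piecewise_smul`), and `p m (fun _ => (t, t ℓ)) = t ^ m * q ℓ`, so `q (u₀ / t₀) ≠ 0`: `q` is a nonzero polynomial, hence there are
`c > 0`, `ℓ₀` with `‖q ℓ‖ ≥ c` for `ℓ ≥ ℓ₀` (constant nonzero polynomial, or `Polynomial.tendsto_norm_atTop`).
By `HasFPowerSeriesAt.isBigO_sub_partialSum_pow` with `n = m + 1` (the partial sum is just the term `m`), `‖Φ v - p m (fun _ => v)‖ ≤ C ‖v‖ ^ (m + 1)` near `0`. For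
`v = (t, -t log t)`, `t → 0+`, `ℓ = - log t → ∞`, `‖v‖ ≤ t (1 + |log t|)`, so `‖Φ v‖ ≥ c t ^ m - C t ^ (m+1) (1 + |log t|) ^ (m + 1) ≥ (c/2) t ^ m` for `t` small
(`t (1 + |log t|) ^ (m+1) → 0`).
-/

open Real Set Filter Topology

namespace Pool.Agent.Lib.MP_ec260d_nt

/-- a multilinear map on the vectors `(1, ℓ)` is a polynomial in `ℓ` -/
private theorem LogGerm_poly (m : ℕ) (f : MultilinearMap ℝ (fun _ : Fin m => ℝ × ℝ) ℂ) :
    ∃ Q : Polynomial ℂ, ∀ ℓ : ℝ, f (fun _ => ((1 : ℝ), ℓ)) = Q.eval (ℓ : ℂ) := by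
  classical
  refine ⟨∑ s : Finset (Fin m),
    Polynomial.C (f (s.piecewise (fun _ => ((0 : ℝ), (1 : ℝ))) fun _ => ((1 : ℝ), (0 : ℝ)))) *
      Polynomial.X ^ s.card, fun ℓ => ?_⟩
  have h1 : (fun _ : Fin m => ((1 : ℝ), ℓ)) =
      (fun _ : Fin m => ℓ • ((0 : ℝ), (1 : ℝ))) + fun _ : Fin m => ((1 : ℝ), (0 : ℝ)) := by
    funext i
    ext <;> simp
  rw [h1, f.map_add_univ, Polynomial.eval_finsetSum]
  refine Finset.sum_congr rfl fun s _ => ?_
  have h2 : s.piecewise (fun _ : Fin m => ℓ • ((0 : ℝ), (1 : ℝ)))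
      (fun _ : Fin m => ((1 : ℝ), (0 : ℝ))) =
      s.piecewise (fun i => (fun _ : Fin m => ℓ) i •
        (s.piecewise (fun _ => ((0 : ℝ), (1 : ℝ))) fun _ => ((1 : ℝ), (0 : ℝ))) i)
        (s.piecewise (fun _ => ((0 : ℝ), (1 : ℝ))) fun _ => ((1 : ℝ), (0 : ℝ))) := by
    funext i
    by_cases hi : i ∈ s
    · simp [hi]
    · simp [hi]
  rw [h2, f.map_piecewise_smul, Finset.prod_const]
  simp only [Polynomial.eval_mul, Polynomial.eval_C, Polynomial.eval_pow, Polynomial.eval_X]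
  rw [Complex.real_smul, mul_comm]
  push_cast
  rfl

private theorem LogGerm_large (Q : Polynomial ℂ) (hQ : Q ≠ 0) :
    ∃ c : ℝ, 0 < c ∧ ∀ᶠ ℓ : ℝ in atTop, c ≤ ‖Q.eval (ℓ : ℂ)‖ := by
  by_cases hd : 0 < Q.degree
  · refine ⟨1, one_pos, ?_⟩
    have h1 : Tendsto (fun ℓ : ℝ => ‖(ℓ : ℂ)‖) atTop atTop := by
      simp only [Complex.norm_real, Real.norm_eq_abs]
      exact tendsto_abs_atTop_atTop
    exact (Q.tendsto_norm_atTop hd h1).eventually_ge_atTop 1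
  · rw [not_lt] at hd
    have h1 := Polynomial.eq_C_of_degree_le_zero hd
    have h2 : Q.coeff 0 ≠ 0 := by
      intro h
      rw [h, Polynomial.C_0] at h1
      exact hQ h1
    refine ⟨‖Q.coeff 0‖, norm_pos_iff.2 h2, Eventually.of_forall fun ℓ => ?_⟩
    rw [h1, Polynomial.eval_C, Polynomial.coeff_C_zero]

private theorem LogGerm_lim (m : ℕ) :
    Tendsto (fun t : ℝ => t * (1 - Real.log t) ^ (m + 1)) (𝓝[>] 0) (𝓝 0) := by
  have ha : (0 : ℝ) < 1 / (m + 1 : ℝ) := by positivity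
  have h1 : Tendsto (fun t : ℝ => t ^ (1 / (m + 1 : ℝ))) (𝓝[>] 0) (𝓝 0) := by
    have h2 : ContinuousAt (fun t : ℝ => t ^ (1 / (m + 1 : ℝ))) 0 :=
      Real.continuousAt_rpow_const 0 _ (Or.inr ha.le)
    have h3 := h2.tendsto
    rw [Real.zero_rpow ha.ne'] at h3
    exact h3.mono_left nhdsWithin_le_nhds
  have h2 := h1.sub (tendsto_log_mul_rpow_nhdsGT_zero ha)
  rw [sub_zero] at h2
  have h3 := h2.pow (m + 1)
  rw [zero_pow (Nat.succ_ne_zero m)] at h3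
  refine h3.congr' ?_
  filter_upwards [self_mem_nhdsWithin] with t ht
  have ht0 : (0 : ℝ) < t := ht
  have h4 : t ^ (1 / (m + 1 : ℝ)) - Real.log t * t ^ (1 / (m + 1 : ℝ)) =
      t ^ (1 / (m + 1 : ℝ)) * (1 - Real.log t) := by ring
  rw [h4, mul_pow]
  congr 1
  rw [← Real.rpow_natCast, ← Real.rpow_mul ht0.le]
  have h5 : 1 / (m + 1 : ℝ) * ((m + 1 : ℕ) : ℝ) = 1 := by
    push_cast
    field_simp
  rw [h5, Real.rpow_one]

theorem log_germ (Φ : ℝ × ℝ → ℂ) (hΦ : AnalyticAt ℝ Φ 0) :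
    (∀ᶠ p in 𝓝 (0 : ℝ × ℝ), Φ p = 0) ∨
      ∃ c : ℝ, 0 < c ∧ ∃ K : ℕ, ∀ᶠ t in 𝓝[>] (0 : ℝ), c * t ^ K ≤ ‖Φ (t, -t * Real.log t)‖ := by
  classical
  obtain ⟨p, hp⟩ := hΦ
  by_cases hz : ∀ n : ℕ, ∀ v : ℝ × ℝ, p n (fun _ => v) = 0
  · left
    obtain ⟨r, hr⟩ := hp
    filter_upwards [Metric.eball_mem_nhds (0 : ℝ × ℝ) hr.r_pos] with y hy
    have h1 := hr.hasSum hy
    simp only [hz, zero_add] at h1
    exact (hasSum_zero.unique h1).symm
  right
  push Not at hz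
  -- the least degree
  obtain ⟨m, ⟨v, hv⟩, hmin⟩ : ∃ m, (∃ v : ℝ × ℝ, p m (fun _ => v) ≠ 0) ∧
      ∀ n < m, ∀ v : ℝ × ℝ, p n (fun _ => v) = 0 := by
    refine ⟨Nat.find hz, Nat.find_spec hz, fun n hn v => ?_⟩
    have := Nat.find_min hz hn
    push Not at this
    exact this v
  have hcont : Continuous fun v : ℝ × ℝ => p m (fun _ => v) :=
    (p m).cont.comp (continuous_pi fun _ => continuous_id)
  obtain ⟨t₀, ht₀, hne⟩ : ∃ t₀ : ℝ, t₀ ≠ 0 ∧ p m (fun _ => (t₀, v.2)) ≠ 0 := by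
    have h1 : Continuous fun t : ℝ => p m (fun _ => (t, v.2)) :=
      hcont.comp (by fun_prop : Continuous fun t : ℝ => (t, v.2))
    have h2 : ∀ᶠ t in 𝓝 v.1, p m (fun _ => (t, v.2)) ≠ 0 := h1.continuousAt.eventually_ne hv
    have h3 : ∃ᶠ t in 𝓝 v.1, t ≠ (0 : ℝ) := by
      have h4 : Dense ({0}ᶜ : Set ℝ) := dense_compl_singleton 0
      exact mem_closure_iff_frequently.1 (h4 v.1)
    obtain ⟨t, ht⟩ := (h3.and_eventually h2).exists
    exact ⟨t, ht.1, ht.2⟩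
  obtain ⟨Q, hQ⟩ := LogGerm_poly m (p m).toMultilinearMap
  have hQ' : ∀ ℓ : ℝ, p m (fun _ => ((1 : ℝ), ℓ)) = Q.eval (ℓ : ℂ) := hQ
  have hscale : ∀ t ℓ : ℝ, p m (fun _ => (t, t * ℓ)) = (t : ℂ) ^ m * Q.eval (ℓ : ℂ) := by
    intro t ℓ
    have h1 : (fun _ : Fin m => (t, t * ℓ)) =
        fun i : Fin m => (fun _ : Fin m => t) i • (fun _ : Fin m => ((1 : ℝ), ℓ)) i := by
      funext i
      ext <;> simp
    rw [h1, (p m).map_smul_univ, Finset.prod_const, Finset.card_univ, Fintype.card_fin, hQ',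
      Complex.real_smul]
    push_cast
    rfl
  have hQ0 : Q ≠ 0 := by
    rintro rfl
    apply hne
    have h1 : (t₀, v.2) = (t₀, t₀ * (v.2 / t₀)) := by
      rw [mul_div_cancel₀ _ ht₀]
    rw [h1, hscale]
    simp
  obtain ⟨c, hc, hlarge⟩ := LogGerm_large Q hQ0
  -- the remainder
  have hO := hp.isBigO_sub_partialSum_pow (m + 1)
  obtain ⟨C, hC, hO⟩ := hO.exists_pos
  rw [Asymptotics.isBigOWith_iff] at hO
  have hpart : ∀ y : ℝ × ℝ, p.partialSum (m + 1) y = p m (fun _ => y) := by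
    intro y
    unfold FormalMultilinearSeries.partialSum
    rw [Finset.sum_range_succ, Finset.sum_eq_zero, zero_add]
    intro n hn
    exact hmin n (Finset.mem_range.1 hn) y
  simp only [zero_add, hpart] at hO
  -- the curve
  have hcurve : Tendsto (fun t : ℝ => (t, -t * Real.log t)) (𝓝[>] 0) (𝓝 (0 : ℝ × ℝ)) := by
    have h1 : Tendsto (fun t : ℝ => t) (𝓝[>] 0) (𝓝 (0 : ℝ)) := nhdsWithin_le_nhds
    have h2 : Tendsto (fun t : ℝ => -t * Real.log t) (𝓝[>] 0) (𝓝 (0 : ℝ)) := by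
      have h3 := (tendsto_log_mul_rpow_nhdsGT_zero one_pos).neg
      rw [neg_zero] at h3
      refine h3.congr fun t => ?_
      rw [Real.rpow_one]
      ring
    exact h1.prodMk_nhds h2
  have hlog : Tendsto (fun t : ℝ => -Real.log t) (𝓝[>] 0) atTop :=
    tendsto_neg_atBot_atTop.comp Real.tendsto_log_nhdsGT_zero
  have hsmall : ∀ᶠ t in 𝓝[>] (0 : ℝ), t * (1 - Real.log t) ^ (m + 1) < c / (2 * C) :=
    (LogGerm_lim m).eventually_lt_const (by positivity)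
  refine ⟨c / 2, by positivity, m, ?_⟩
  filter_upwards [hcurve.eventually hO, hlog.eventually hlarge, hsmall,
    Ioo_mem_nhdsGT (zero_lt_one (α := ℝ))] with t h1 h2 h3 h4
  have ht0 : 0 < t := h4.1
  have hl0 : Real.log t < 0 := Real.log_neg h4.1 h4.2
  have h5 : p m (fun _ => (t, -t * Real.log t)) = (t : ℂ) ^ m * Q.eval ((-Real.log t : ℝ) : ℂ) := by
    rw [← hscale]
    congr 1
    funext i
    ext
    · rfl
    · simp
  have h6 : ‖((t, -t * Real.log t) : ℝ × ℝ)‖ ≤ t * (1 - Real.log t) := by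
    rw [Prod.norm_mk, Real.norm_eq_abs, Real.norm_eq_abs, abs_of_pos ht0]
    have h7 : |-t * Real.log t| = t * -Real.log t := by
      rw [abs_of_nonneg (by nlinarith)]
      ring
    rw [h7]
    refine max_le ?_ ?_
    · nlinarith
    · nlinarith
  have h7 : ‖((t, -t * Real.log t) : ℝ × ℝ)‖ ^ (m + 1) ≤ t ^ m * (t * (1 - Real.log t) ^ (m + 1)) := by
    calc _ ≤ (t * (1 - Real.log t)) ^ (m + 1) := by gcongr
      _ = _ := by
        rw [mul_pow, pow_succ t m]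
        ring
  rw [norm_pow, norm_norm] at h1
  have h8 : ‖p m (fun _ => (t, -t * Real.log t))‖ - ‖Φ (t, -t * Real.log t)‖ ≤
      ‖Φ (t, -t * Real.log t) - p m (fun _ => (t, -t * Real.log t))‖ := by
    rw [norm_sub_rev]
    exact norm_sub_norm_le _ _
  have h9 : c * t ^ m ≤ ‖p m (fun _ => (t, -t * Real.log t))‖ := by
    rw [h5, norm_mul, norm_pow, Complex.norm_real, Real.norm_eq_abs, abs_of_pos ht0, mul_comm]
    gcongr
  have h10 : C * ‖((t, -t * Real.log t) : ℝ × ℝ)‖ ^ (m + 1) ≤ t ^ m * (c / 2) := by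
    calc _ ≤ C * (t ^ m * (c / (2 * C))) := by
          gcongr
          exact h7.trans (mul_le_mul_of_nonneg_left h3.le (by positivity))
      _ = t ^ m * (c / 2) := by field_simp
  linarith

end Pool.Agent.Lib.MP_ec260d_nt
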