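import Mathlib
import Pool.Agent.Lib.MP_ec260d_nt.LogGerm
import Pool.Agent.Lib.MP_ec260d_nt.GermPoly

/-!
# JOB Unlock: a relation along the line `s = 0` holds for all `(z, s)`

Hypothesis: `Q (gE (A i + c i z)) = 0` for all `z ∈ (p, q)`; the function is analytic on `ℝ` (`gE_analytic`; a polynomial in analytic functions is analytic, `MvPolynomial.induction_on` or
`eval_eq'`), so it vanishes for all real `z` (`AnalyticOnNhd.eqOn_zero_of_preconnected_of_eventuallyEq_zero`).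
Take `Φ, D` from `germ_poly`. For small `t > 0` put `u = -t log t` (`(t, u) → 0`): `(1 + u)/t = 1/t - log t =: z`, `u/t + log t = 0`. So
`Φ (t, -t log t) = t ^ D * Q (gE (A i + c i z)) = 0`, and the second alternative of `log_germ` fails. So `Φ = 0` near `0`.
Let `|s| ≤ 1` and `z` large; put `t = 1 / gE (z - s)`, `u = z t - 1`. As `z → ∞` (uniformly in `|s| ≤ 1`): `gE (z - s) → ∞` (`gE_tendsto`, `gE_strictMono`: `gE (z - s) ≥ gE (z - 1)`), so `t → 0+`; with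
`X = z - s`, `X - log X ≤ gE X ≤ X` (`gE_bounds`), so `u = (z - gE X)/gE X` satisfies `|u| ≤ (1 + log X)/(X - log X) → 0`. So for `z ≥ Z₀`, `|s| ≤ 1`
the point `(t, u)` is in the neighbourhood where `Φ = 0` and the formula holds; `(1 + u)/t = z` and `u/t + log t = z - 1/t + log t = z - (gE X + log (gE X)) = z - X = s`.
Hence `Q (gE (A i + c i z - s)) = 0` for `z ≥ Z₀`, `|s| ≤ 1`. The function `(z, s) ↦ Q (gE (A i + c i z - s))` is analytic on
`ℝ × ℝ` and vanishes near `(Z₀ + 1, 0)`, so it vanishes everywhere (identity theorem, `AnalyticOnNhd.eqOn_zero_of_preconnected_of_eventuallyEq_zero` on `ℝ × ℝ`).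
-/

open Real Set Filter Topology

namespace Pool.Agent.Lib.MP_ec260d_nt

/-- a polynomial in analytic functions is analytic -/
private theorem Unlock_an {E : Type*} [NormedAddCommGroup E] [NormedSpace ℝ E] {k : ℕ}
    (g : Fin k → E → ℝ) (x : E) (hg : ∀ i, AnalyticAt ℝ (g i) x) (Q : MvPolynomial (Fin k) ℂ) :
    AnalyticAt ℝ (fun y => MvPolynomial.eval (fun i => ((g i y : ℝ) : ℂ)) Q) x := by
  induction Q using MvPolynomial.induction_on with
  | C a =>
    have h : (fun y => MvPolynomial.eval (fun i => ((g i y : ℝ) : ℂ))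
        (MvPolynomial.C a : MvPolynomial (Fin k) ℂ)) = fun _ => a := by
      funext y
      exact MvPolynomial.eval_C a
    rw [h]
    exact analyticAt_const
  | add P R hP hR =>
    have h : (fun y => MvPolynomial.eval (fun i => ((g i y : ℝ) : ℂ)) (P + R)) =
        (fun y => MvPolynomial.eval (fun i => ((g i y : ℝ) : ℂ)) P) +
        fun y => MvPolynomial.eval (fun i => ((g i y : ℝ) : ℂ)) R := by
      funext y
      exact map_add _ _ _
    rw [h]
    exact hP.add hR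
  | mul_X P n hP =>
    have h : (fun y => MvPolynomial.eval (fun i => ((g i y : ℝ) : ℂ))
        (P * MvPolynomial.X n)) =
        (fun y => MvPolynomial.eval (fun i => ((g i y : ℝ) : ℂ)) P) *
        fun y => ((g n y : ℝ) : ℂ) := by
      funext y
      simp only [Pi.mul_apply, map_mul, MvPolynomial.eval_X]
    rw [h]
    refine hP.mul ?_
    exact (Complex.ofRealCLM.analyticAt (g n x)).comp (hg n)

/-- the relation on a half strip -/
private theorem Unlock_strip (ε : ℝ) (hε : 0 < ε) : ∃ Z : ℝ, ∀ z ≥ Z, ∀ s : ℝ, |s| ≤ 1 →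
    ∃ t u : ℝ, 0 < t ∧ t < ε ∧ |u| < ε ∧ (1 + u) / t = z ∧ u / t + Real.log t = s := by
  have hlim : Tendsto (fun Y : ℝ => Y⁻¹ + Real.log Y / Y) atTop (𝓝 (0 + 0)) := by
    refine tendsto_inv_atTop_zero.add ?_
    have h1 := Real.isLittleO_log_id_atTop.tendsto_div_nhds_zero
    exact h1
  rw [add_zero] at hlim
  have hev : ∀ᶠ Y : ℝ in atTop, Y⁻¹ + Real.log Y / Y < ε :=
    hlim.eventually (gt_mem_nhds hε)
  obtain ⟨Y0, hY0⟩ := (hev.and (eventually_ge_atTop (1 : ℝ))).exists_forall_of_atTop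
  obtain ⟨X0, hX0⟩ := (gE_tendsto.eventually (eventually_ge_atTop Y0)).exists_forall_of_atTop
  refine ⟨X0 + 1, fun z hz s hs => ?_⟩
  rw [abs_le] at hs
  obtain ⟨Y, hY⟩ : ∃ Y : ℝ, Y = gE (z - s) := ⟨_, rfl⟩
  have hYge : Y0 ≤ Y := by
    rw [hY]
    exact hX0 (z - s) (by linarith [hs.2])
  obtain ⟨h1, h2⟩ := hY0 Y hYge
  have hY1 : 0 < Y := by linarith
  have hlog : 0 ≤ Real.log Y := Real.log_nonneg h2
  have hsum : Y + Real.log Y = z - s := by
    rw [hY]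
    exact gE_add_log (z - s)
  have hYi : 0 < Y⁻¹ := inv_pos.2 hY1
  refine ⟨Y⁻¹, (s + Real.log Y) / Y, hYi, ?_, ?_, ?_, ?_⟩
  · have : 0 ≤ Real.log Y / Y := div_nonneg hlog hY1.le
    linarith
  · rw [abs_div, abs_of_pos hY1]
    have h3 : |s + Real.log Y| ≤ 1 + Real.log Y := by
      rw [abs_le]
      constructor <;> linarith [hs.1, hs.2]
    calc |s + Real.log Y| / Y ≤ (1 + Real.log Y) / Y := div_le_div_of_nonneg_right h3 hY1.le
      _ = Y⁻¹ + Real.log Y / Y := by rw [add_div, one_div]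
      _ < ε := h1
  · rw [div_inv_eq_mul, add_mul, one_mul, div_mul_cancel₀ _ hY1.ne']
    linarith
  · rw [div_inv_eq_mul, div_mul_cancel₀ _ hY1.ne', Real.log_inv]
    ring

/-- the function of two variables -/
private noncomputable def Unlock_F (k : ℕ) (A c : Fin k → ℝ) (Q : MvPolynomial (Fin k) ℂ)
    (z s : ℝ) : ℂ :=
  MvPolynomial.eval (fun i => ((gE (A i + c i * z - s) : ℝ) : ℂ)) Q

private theorem Unlock_line (k : ℕ) (A c : Fin k → ℝ) (Q : MvPolynomial (Fin k) ℂ)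
    (p q : ℝ) (hpq : p < q)
    (h : ∀ z ∈ Ioo p q, Unlock_F k A c Q z 0 = 0) : ∀ z : ℝ, Unlock_F k A c Q z 0 = 0 := by
  have han : AnalyticOnNhd ℝ (fun z : ℝ => Unlock_F k A c Q z 0) univ := by
    intro z _
    refine Unlock_an (fun i z => gE (A i + c i * z - 0)) z (fun i => ?_) Q
    have h1 : AnalyticAt ℝ (fun z : ℝ => A i + c i * z - 0) z :=
      (analyticAt_const.add (analyticAt_const.mul analyticAt_id)).sub analyticAt_const
    exact (gE_analytic _).comp h1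
  have hz0 : (p + q) / 2 ∈ Ioo p q := ⟨by linarith, by linarith⟩
  have hev : (fun z : ℝ => Unlock_F k A c Q z 0) =ᶠ[𝓝 ((p + q) / 2)] 0 := by
    filter_upwards [isOpen_Ioo.mem_nhds hz0] with z hz
    exact h z hz
  have hall := han.eqOn_zero_of_preconnected_of_eventuallyEq_zero isPreconnected_univ
    (mem_univ _) hev
  intro z
  exact hall (mem_univ z)

private theorem Unlock_an2 (k : ℕ) (A c : Fin k → ℝ) (Q : MvPolynomial (Fin k) ℂ) :
    AnalyticOnNhd ℝ (fun x : ℝ × ℝ => Unlock_F k A c Q x.1 x.2) univ := by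
  intro x _
  refine Unlock_an (fun i (x : ℝ × ℝ) => gE (A i + c i * x.1 - x.2)) x (fun i => ?_) Q
  have h1 : AnalyticAt ℝ (fun x : ℝ × ℝ => A i + c i * x.1 - x.2) x :=
    (analyticAt_const.add (analyticAt_const.mul analyticAt_fst)).sub analyticAt_snd
  exact (gE_analytic _).comp h1

private theorem Unlock_ev2 (k : ℕ) (A c : Fin k → ℝ) (Q : MvPolynomial (Fin k) ℂ) (Z : ℝ)
    (h : ∀ z ≥ Z, ∀ s : ℝ, |s| ≤ 1 → Unlock_F k A c Q z s = 0) :
    (fun x : ℝ × ℝ => Unlock_F k A c Q x.1 x.2) =ᶠ[𝓝 ((Z + 1, 0) : ℝ × ℝ)] 0 := by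
  have hopen : IsOpen {x : ℝ × ℝ | Z < x.1 ∧ |x.2| < 1} :=
    (isOpen_lt continuous_const continuous_fst).inter
      (isOpen_lt (continuous_abs.comp continuous_snd) continuous_const)
  have hmem : ((Z + 1, 0) : ℝ × ℝ) ∈ {x : ℝ × ℝ | Z < x.1 ∧ |x.2| < 1} := by
    constructor
    · change Z < Z + 1
      linarith
    · change |(0 : ℝ)| < 1
      rw [abs_zero]
      norm_num
  filter_upwards [hopen.mem_nhds hmem] with x hx
  exact h x.1 hx.1.le x.2 hx.2.le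

private theorem Unlock_ident (G : ℝ × ℝ → ℂ) (h : AnalyticOnNhd ℝ G univ) (x0 : ℝ × ℝ)
    (h1 : G =ᶠ[𝓝 x0] 0) : ∀ x, G x = 0 := by
  have hall := h.eqOn_zero_of_preconnected_of_eventuallyEq_zero isPreconnected_univ
    (mem_univ _) h1
  intro x
  exact hall (mem_univ x)

private theorem Unlock_plane (k : ℕ) (A c : Fin k → ℝ) (Q : MvPolynomial (Fin k) ℂ) (Z : ℝ)
    (h : ∀ z ≥ Z, ∀ s : ℝ, |s| ≤ 1 → Unlock_F k A c Q z s = 0) :
    ∀ z s : ℝ, Unlock_F k A c Q z s = 0 := by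
  have h1 := Unlock_ident _ (Unlock_an2 k A c Q) _ (Unlock_ev2 k A c Q Z h)
  intro z s
  exact h1 (z, s)

private theorem Unlock_curve : Tendsto (fun t : ℝ => ((t, -t * Real.log t) : ℝ × ℝ)) (𝓝[>] 0)
    (𝓝 (0 : ℝ × ℝ)) := by
  have h2 : (fun t : ℝ => -t * Real.log t) = fun t : ℝ => -(t * Real.log t) := by
    funext t
    ring
  have h1 : Continuous (fun t : ℝ => ((t, -t * Real.log t) : ℝ × ℝ)) := by
    refine continuous_id.prodMk ?_
    rw [h2]
    exact Real.continuous_mul_log.neg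
  have h4 : ((fun t : ℝ => ((t, -t * Real.log t) : ℝ × ℝ)) 0) = 0 := by
    simp
  have h3 := h1.continuousAt (x := (0 : ℝ))
  unfold ContinuousAt at h3
  rw [h4] at h3
  exact h3.mono_left nhdsWithin_le_nhds

private theorem Unlock_germ (k : ℕ) (A c : Fin k → ℝ) (Q : MvPolynomial (Fin k) ℂ)
    (Φ : ℝ × ℝ → ℂ) (hΦ : AnalyticAt ℝ Φ 0) (D : ℕ)
    (hD : ∀ᶠ p in 𝓝 (0 : ℝ × ℝ), 0 < p.1 →
      Φ p = (p.1 : ℂ) ^ D * Unlock_F k A c Q ((1 + p.2) / p.1) (p.2 / p.1 + Real.log p.1))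
    (hline : ∀ z : ℝ, Unlock_F k A c Q z 0 = 0) : ∀ᶠ p in 𝓝 (0 : ℝ × ℝ), Φ p = 0 := by
  rcases log_germ Φ hΦ with h1 | ⟨c', hc', K, hK⟩
  · exact h1
  · exfalso
    obtain ⟨t, ht1, ht2, ht3⟩ :=
      (hK.and ((Unlock_curve.eventually hD).and self_mem_nhdsWithin)).exists
    have ht0 : 0 < t := ht3
    have h5 := ht2 ht0
    have h6 : (-t * Real.log t) / t + Real.log t = 0 := by
      field_simp
      ring
    have h7 : Φ (t, -t * Real.log t) = (t : ℂ) ^ D * Unlock_F k A c Q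
        ((1 + -t * Real.log t) / t) ((-t * Real.log t) / t + Real.log t) := h5
    rw [h6, hline, mul_zero] at h7
    rw [h7, norm_zero] at ht1
    have : 0 < c' * t ^ K := by positivity
    linarith

private theorem Unlock_half (k : ℕ) (A c : Fin k → ℝ) (Q : MvPolynomial (Fin k) ℂ)
    (Φ : ℝ × ℝ → ℂ) (D : ℕ)
    (hD : ∀ᶠ p in 𝓝 (0 : ℝ × ℝ), 0 < p.1 →
      Φ p = (p.1 : ℂ) ^ D * Unlock_F k A c Q ((1 + p.2) / p.1) (p.2 / p.1 + Real.log p.1))
    (h0 : ∀ᶠ p in 𝓝 (0 : ℝ × ℝ), Φ p = 0) :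
    ∃ Z : ℝ, ∀ z ≥ Z, ∀ s : ℝ, |s| ≤ 1 → Unlock_F k A c Q z s = 0 := by
  obtain ⟨ε, hε, hball⟩ := Metric.eventually_nhds_iff.1 (h0.and hD)
  obtain ⟨Z, hZ⟩ := Unlock_strip ε hε
  refine ⟨Z, fun z hz s hs => ?_⟩
  obtain ⟨t, u, ht0, ht, hu, h1, h2⟩ := hZ z hz s hs
  have hd : dist ((t, u) : ℝ × ℝ) 0 < ε := by
    rw [dist_zero_right, Prod.norm_def]
    refine max_lt ?_ ?_
    · rw [Real.norm_eq_abs, abs_of_pos ht0]
      exact ht
    · rw [Real.norm_eq_abs]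
      exact hu
  obtain ⟨h3, h4⟩ := hball hd
  have h5 : Φ (t, u) = (t : ℂ) ^ D * Unlock_F k A c Q ((1 + u) / t) (u / t + Real.log t) :=
    h4 ht0
  rw [h1, h2, h3] at h5
  have h6 : (t : ℂ) ^ D ≠ 0 := pow_ne_zero D (by exact_mod_cast ht0.ne')
  exact (mul_eq_zero.1 h5.symm).resolve_left h6

theorem unlock (k : ℕ) (A c : Fin k → ℝ) (hc : ∀ i, 0 < c i) (Q : MvPolynomial (Fin k) ℂ)
    (p q : ℝ) (hpq : p < q)
    (h : ∀ z ∈ Ioo p q, MvPolynomial.eval (fun i => ((gE (A i + c i * z) : ℝ) : ℂ)) Q = 0) :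
    ∀ z s : ℝ, MvPolynomial.eval (fun i => ((gE (A i + c i * z - s) : ℝ) : ℂ)) Q = 0 := by
  have h0 : ∀ z ∈ Ioo p q, Unlock_F k A c Q z 0 = 0 := by
    intro z hz
    have h1 := h z hz
    unfold Unlock_F
    simp only [sub_zero]
    exact h1
  have hline := Unlock_line k A c Q p q hpq h0
  obtain ⟨Φ, hΦ, D, hD⟩ := germ_poly k A c hc Q
  have hΦ0 := Unlock_germ k A c Q Φ hΦ D hD hline
  obtain ⟨Z, hZ⟩ := Unlock_half k A c Q Φ D hD hΦ0
  exact Unlock_plane k A c Q Z hZ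

end Pool.Agent.Lib.MP_ec260d_nt
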