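import Mathlib
import Pool.Agent.Lib.MP_ec260d_nt.Unlock
import Pool.Agent.Lib.MP_ec260d_nt.Indep

/-!
# JOB IndepPairs: algebraic independence of the functions `gE (A i + c i z)`, distinct pairs `(A i, c i)`

Strong induction on `k` (the statement for all smaller `k`; it transfers to any finite index type `ι` with fewer than `k` elements by
`Fintype.equivFin` and `MvPolynomial.rename`). `k = 0`: `Q` is a constant.
`k ≥ 1`: let `c₁` be the minimum of the `c i`, `L₁ = {i | c i = c₁}` (nonempty), `L₂` its complement.
Case `L₂` empty: all `c i = c₁`, so `A` is injective; put `a i = exp (A i)` (positive, injective), `ν = exp (c₁ z)`: `gE (A i + c₁ z) = lam (a i * ν)`. For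
`ν ∈ (exp (c₁ p), exp (c₁ q))` the relation holds (`z = log ν / c₁ ∈ (p, q)`), and `indep k` gives `Q = 0`.
Case `L₂` nonempty: both subtypes `{i // c i = c₁}`, `{i // c i ≠ c₁}` have fewer than `k` elements. By `unlock` with `s = c₁ z - x`: for all real `z, x`,
`Q (gE (A i + x) (i ∈ L₁), gE (A i + (c i - c₁) z + x) (i ∈ L₂)) = 0`.
Write `Q` as a polynomial in the variables of `L₂` with coefficients in `ℂ[L₁]` (`MvPolynomial.rename` along `Equiv.sumCompl`, `MvPolynomial.sumAlgEquiv`/`sumToIter`/`iterToSum`, or work directly: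
for a finsupp `m₂` on `L₂` let `q_{m₂} ∈ ℂ[L₁]` be the sum of the terms of `Q` whose restriction to `L₂` is `m₂`). For fixed `x` let `Q_x ∈ ℂ[L₂]` be `Q` with the `L₁`-variables evaluated
at `gE (A i + x)`. It vanishes at `gE ((A i + x) + (c i - c₁) z)` for all `z`; the pairs `(A i + x, c i - c₁)`, `i ∈ L₂`, are distinct, `c i - c₁ > 0`; by the induction hypothesis
`Q_x = 0`. So for every `m₂` and every `x`: `eval (gE (A i + x)) q_{m₂} = 0`, and by the first case (for `L₁` with `c = 1`: `gE (A i + 1 * x)`; or by the induction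
hypothesis, since `L₁` has fewer than `k` elements) `q_{m₂} = 0`. Hence `Q = 0`.
-/

open Real Set Filter Topology

namespace Pool.Agent.Lib.MP_ec260d_nt

/-- the statement for a finite index type -/
private def IndepPairs_at (ι : Type) : Prop :=
  ∀ A c : ι → ℝ, (∀ i, 0 < c i) → Function.Injective (fun i => (A i, c i)) →
    ∀ (Q : MvPolynomial ι ℂ) (p q : ℝ), p < q →
    (∀ z ∈ Ioo p q, MvPolynomial.eval (fun i => ((gE (A i + c i * z) : ℝ) : ℂ)) Q = 0) → Q = 0

private theorem IndepPairs_transfer {ι κ : Type} (e : ι ≃ κ) (h : IndepPairs_at κ) :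
    IndepPairs_at ι := by
  intro A c hc hinj Q p q hpq hQ
  have key : MvPolynomial.rename e Q = 0 := by
    refine h (A ∘ e.symm) (c ∘ e.symm) (fun i => hc _) ?_ _ p q hpq ?_
    · intro i j hij
      exact e.symm.injective (hinj hij)
    · intro z hz
      rw [MvPolynomial.eval_rename]
      have he : ((fun i => ((gE ((A ∘ e.symm) i + (c ∘ e.symm) i * z) : ℝ) : ℂ)) ∘ e) =
          fun i => ((gE (A i + c i * z) : ℝ) : ℂ) := by
        funext i
        simp
      rw [he]
      exact hQ z hz
  exact MvPolynomial.rename_injective _ e.injective (by rw [key, map_zero])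

/-- the case of equal `c i` -/
private theorem IndepPairs_same (k : ℕ) (A : Fin k → ℝ) (c₁ : ℝ) (hc : 0 < c₁)
    (hinj : Function.Injective A) (Q : MvPolynomial (Fin k) ℂ) (p q : ℝ) (hpq : p < q)
    (h : ∀ z ∈ Ioo p q, MvPolynomial.eval (fun i => ((gE (A i + c₁ * z) : ℝ) : ℂ)) Q = 0) :
    Q = 0 := by
  refine indep k (fun i => Real.exp (A i)) (fun i => Real.exp_pos _)
    (Real.exp_injective.comp hinj) Q (Real.exp (c₁ * p)) (Real.exp (c₁ * q)) (Real.exp_pos _)
    (Real.exp_lt_exp.2 (mul_lt_mul_of_pos_left hpq hc)) ?_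
  intro ν hν
  have hν0 : 0 < ν := (Real.exp_pos _).trans hν.1
  have hz : Real.log ν / c₁ ∈ Ioo p q := by
    constructor
    · rw [lt_div_iff₀ hc, Real.lt_log_iff_exp_lt hν0, mul_comm]
      exact hν.1
    · rw [div_lt_iff₀ hc, Real.log_lt_iff_lt_exp hν0, mul_comm]
      exact hν.2
  have h1 := h _ hz
  have he : (fun i => ((gE (A i + c₁ * (Real.log ν / c₁)) : ℝ) : ℂ)) =
      fun i => ((lam (Real.exp (A i) * ν) : ℝ) : ℂ) := by
    funext i
    unfold gE
    rw [mul_div_cancel₀ _ hc.ne', Real.exp_add, Real.exp_log hν0]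
  rw [he] at h1
  exact h1

/-- evaluation of a polynomial over a sum type in two steps -/
private theorem IndepPairs_eval {S T : Type} (w : S → ℂ) (v : T → ℂ)
    (P : MvPolynomial (S ⊕ T) ℂ) :
    MvPolynomial.eval w (MvPolynomial.map (MvPolynomial.eval v)
      (MvPolynomial.sumAlgEquiv ℂ S T P)) = MvPolynomial.eval (Sum.elim w v) P := by
  have h : ((MvPolynomial.eval w).comp ((MvPolynomial.map (MvPolynomial.eval v)).comp
      ((MvPolynomial.sumAlgEquiv ℂ S T).toRingEquiv : MvPolynomial (S ⊕ T) ℂ →+* _))) =
      MvPolynomial.eval (Sum.elim w v) := by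
    refine MvPolynomial.ringHom_ext (fun a => ?_) (fun i => ?_)
    · simp
    · rcases i with i | i <;> simp
  exact RingHom.congr_fun h P

private theorem IndepPairs_step (k : ℕ)
    (ih : ∀ m < k, IndepPairs_at (Fin m)) : IndepPairs_at (Fin k) := by
  classical
  intro A c hc hinj Q p q hpq h
  rcases Nat.eq_zero_or_pos k with hk | hk
  · subst hk
    exact IndepPairs_same 0 A 1 one_pos (fun i => i.elim0) Q p q hpq (by
      intro z hz
      have h1 := h z hz
      have he : (fun i : Fin 0 => ((gE (A i + 1 * z) : ℝ) : ℂ)) =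
          fun i => ((gE (A i + c i * z) : ℝ) : ℂ) := by
        funext i
        exact i.elim0
      rw [he]
      exact h1)
  · have : Nonempty (Fin k) := ⟨⟨0, hk⟩⟩
    obtain ⟨i₀, hi₀⟩ := Finite.exists_min c
    by_cases hall : ∀ i, c i = c i₀
    · refine IndepPairs_same k A (c i₀) (hc i₀) ?_ Q p q hpq ?_
      · intro i j hij
        refine hinj ?_
        change (A i, c i) = (A j, c j)
        rw [hij, hall i, hall j]
      · intro z hz
        have h1 := h z hz
        have he : (fun i => ((gE (A i + c i₀ * z) : ℝ) : ℂ)) =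
            fun i => ((gE (A i + c i * z) : ℝ) : ℂ) := by
          funext i
          rw [hall i]
        rw [he]
        exact h1
    · push Not at hall
      obtain ⟨i₁, hi₁⟩ := hall
      have hcardS : Fintype.card {i // ¬ c i = c i₀} < k := by
        have h1 := Fintype.card_subtype_lt (p := fun i => ¬ c i = c i₀) (x := i₀)
          (fun h => h rfl)
        rw [Fintype.card_fin] at h1
        exact h1
      have hcardT : Fintype.card {i // c i = c i₀} < k := by
        have h1 := Fintype.card_subtype_lt (p := fun i => c i = c i₀) (x := i₁) hi₁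
        rw [Fintype.card_fin] at h1
        exact h1
      have hS : IndepPairs_at {i // ¬ c i = c i₀} :=
        IndepPairs_transfer (Fintype.equivFin _) (ih _ hcardS)
      have hT : IndepPairs_at {i // c i = c i₀} :=
        IndepPairs_transfer (Fintype.equivFin _) (ih _ hcardT)
      have hun := unlock k A c hc Q p q hpq h
      obtain ⟨e, he⟩ : ∃ e : {i // ¬ c i = c i₀} ⊕ {i // c i = c i₀} ≃ Fin k,
          e = (Equiv.sumComm _ _).trans (Equiv.sumCompl (fun i => c i = c i₀)) := ⟨_, rfl⟩
      have hel : ∀ i : {i // ¬ c i = c i₀}, e (Sum.inl i) = i := fun i => by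
        rw [he]
        rfl
      have her : ∀ i : {i // c i = c i₀}, e (Sum.inr i) = i := fun i => by
        rw [he]
        rfl
      obtain ⟨P, hP⟩ : ∃ P : MvPolynomial ({i // ¬ c i = c i₀} ⊕ {i // c i = c i₀}) ℂ,
          P = MvPolynomial.rename e.symm Q := ⟨_, rfl⟩
      have hrel : ∀ z x : ℝ, MvPolynomial.eval (Sum.elim
          (fun i : {i // ¬ c i = c i₀} => ((gE ((A i + x) + (c i - c i₀) * z) : ℝ) : ℂ))
          (fun i : {i // c i = c i₀} => ((gE (A i + 1 * x) : ℝ) : ℂ))) P = 0 := by
        intro z x
        have h1 := hun z (c i₀ * z - x)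
        rw [hP, MvPolynomial.eval_rename]
        have h2 : ((Sum.elim
          (fun i : {i // ¬ c i = c i₀} => ((gE ((A i + x) + (c i - c i₀) * z) : ℝ) : ℂ))
          (fun i : {i // c i = c i₀} => ((gE (A i + 1 * x) : ℝ) : ℂ))) ∘ e.symm) =
            fun i => ((gE (A i + c i * z - (c i₀ * z - x)) : ℝ) : ℂ) := by
          funext j
          obtain ⟨i, rfl⟩ := e.surjective j
          rw [Function.comp_apply, Equiv.symm_apply_apply]
          rcases i with i | i
          · rw [hel, Sum.elim_inl]
            congr 2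
            ring
          · rw [her, Sum.elim_inr, i.2]
            congr 2
            ring
        rw [h2]
        exact h1
      obtain ⟨R, hR⟩ : ∃ R : MvPolynomial {i // ¬ c i = c i₀} (MvPolynomial {i // c i = c i₀} ℂ),
          R = MvPolynomial.sumAlgEquiv ℂ _ _ P := ⟨_, rfl⟩
      have hRx : ∀ x : ℝ, MvPolynomial.map (MvPolynomial.eval
          (fun i : {i // c i = c i₀} => ((gE (A i + 1 * x) : ℝ) : ℂ))) R = 0 := by
        intro x
        refine hS (fun i => A i + x) (fun i => c i - c i₀) (fun i => ?_) ?_ _ 0 1 zero_lt_one ?_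
        · exact sub_pos.2 (lt_of_le_of_ne (hi₀ i) (fun h => i.2 h.symm))
        · intro i j hij
          have h1 := Prod.mk.injEq _ _ _ _ ▸ hij
          have h2 : A i + x = A j + x := h1.1
          have h3 : c i - c i₀ = c j - c i₀ := h1.2
          apply Subtype.ext
          refine hinj ?_
          change (A i, c i) = (A j, c j)
          rw [add_right_cancel h2, sub_left_injective h3]
        · intro z _
          rw [hR, IndepPairs_eval]
          exact hrel z x
      have hR0 : R = 0 := by
        ext1 m
        rw [MvPolynomial.coeff_zero]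
        refine hT (fun i => A i) (fun _ => 1) (fun _ => one_pos) ?_ _ 0 1 zero_lt_one ?_
        · intro i j hij
          have h1 : A i = A j := congrArg Prod.fst hij
          apply Subtype.ext
          refine hinj ?_
          change (A i, c i) = (A j, c j)
          rw [h1, i.2, j.2]
        · intro x _
          have h1 := congrArg (MvPolynomial.coeff m) (hRx x)
          rw [MvPolynomial.coeff_map, MvPolynomial.coeff_zero] at h1
          exact h1
      have hP0 : P = 0 := by
        have h1 : MvPolynomial.sumAlgEquiv ℂ _ _ P = 0 := by rw [← hR, hR0]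
        exact (MvPolynomial.sumAlgEquiv ℂ _ _).injective (by rw [h1, map_zero])
      exact MvPolynomial.rename_injective _ e.symm.injective (by rw [← hP, hP0, map_zero])

private theorem IndepPairs_all (k : ℕ) : IndepPairs_at (Fin k) :=
  Nat.strong_induction_on k fun k ih => IndepPairs_step k ih

theorem indep_pairs (k : ℕ) (A c : Fin k → ℝ) (hc : ∀ i, 0 < c i)
    (hinj : Function.Injective (fun i => (A i, c i))) (Q : MvPolynomial (Fin k) ℂ)
    (p q : ℝ) (hpq : p < q)
    (h : ∀ z ∈ Ioo p q, MvPolynomial.eval (fun i => ((gE (A i + c i * z) : ℝ) : ℂ)) Q = 0) :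
    Q = 0 :=
  IndepPairs_all k A c hc hinj Q p q hpq h

end Pool.Agent.Lib.MP_ec260d_nt
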