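import Pool.Agent.Lib.MP_ec260d_nt.Lam
import Pool.Agent.Lib.MP_ec260d_nt.ExpPoly

/-!
# JOB IndepStep: the induction step for the algebraic independence of `lam (a i * ν)`

`IndepAt k` is the statement for `k` functions. Step: let `a : Fin (k + 1) → ℝ` be positive, injective, with largest
element `a 0`. Let `Q` vanish on `(lam (a i ν))` for `ν` in an open interval `(u, v) ⊂ (0, ∞)`.

1. For a polynomial `Q`, `x ↦ eval (fun i => (z i x : ℂ)) Q` is analytic where the `z i` are (`MvPolynomial.induction_on`).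
2. For `j : Fin k` put `b j = a j.succ / a 0 ∈ (0, 1)`. For every real `Y`, `Y exp Y ≥ -exp (-1)` (the minimum is at
   `Y = -1`; e.g. `Real.add_one_le_exp (-Y-1)`), so `b j * (Y exp Y) > -exp (-1)` and `z j Y = lam (b j * (Y exp Y))` is
   analytic on all of `ℝ`. The function
   `Φ Y = eval (Fin.cons (Y : ℂ) (fun j => (z j Y : ℂ))) Q` is analytic on `ℝ`. It vanishes for `Y` in a nonempty open
   interval: for `Y = lam (a 0 * ν)`, `ν ∈ (u, v)`, we have `Y exp Y = a 0 ν`, so `z j Y = lam (a j.succ ν)`;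
   equivalently for `Y` with `Y > 0` and `Y exp Y / a 0 ∈ (u, v)` (an open set, nonempty because it contains
   `lam (a 0 (u+v)/2)`), where `lam_unique` gives `lam (a 0 * (Y exp Y / a 0)) = Y`. Hence `Φ = 0` on `ℝ`
   (`AnalyticOnNhd.eqOn_zero_of_preconnected_of_eventuallyEq_zero` / `AnalyticOnNhd.eq_of_eventuallyEq`).
3. Write `Q` through `MvPolynomial.finSuccEquiv ℂ k` (`MvPolynomial.eval_eq_eval_mv_eval'` or similar):
   `eval (Fin.cons y s) Q = ∑ m ∈ range (M + 1), eval s (q m) * y ^ m` with `q m = (finSuccEquiv ℂ k Q).coeff m` and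
   `M` the degree. Put `A m u = eval (fun j => (lam (b j * u) : ℂ)) (q m)`, analytic at `u = 0`.
   Then `∑ m, A m (Y exp Y) Y ^ m = Φ Y = 0` for all `Y`; `expPoly_zero` gives `A m = 0` near `0`.
4. So for `u` in a small interval `(ε/3, ε/2)` all `A m u = 0`; the `b j` are positive and injective; by `IndepAt k`
   all `q m = 0`, hence `Q = 0`.
-/

open Real Set Filter Topology

namespace Pool.Agent.Lib.MP_ec260d_nt

private theorem IndepStep_an {k : ℕ} (Q : MvPolynomial (Fin k) ℂ) (z : Fin k → ℝ → ℝ) (x : ℝ)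
    (hz : ∀ i, AnalyticAt ℝ (z i) x) :
    AnalyticAt ℝ (fun y => MvPolynomial.eval (fun i => ((z i y : ℝ) : ℂ)) Q) x := by
  induction Q using MvPolynomial.induction_on with
  | C c =>
    simp only [MvPolynomial.eval_C]
    exact analyticAt_const
  | add p q hp hq =>
    simp only [map_add]
    exact hp.add hq
  | mul_X p i hp =>
    simp only [map_mul, MvPolynomial.eval_X]
    exact hp.mul ((Complex.ofRealCLM.analyticAt _).comp (hz i))

private theorem IndepStep_min (Y : ℝ) : -Real.exp (-1) ≤ Y * Real.exp Y := by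
  have h1 := Real.add_one_le_exp (-Y - 1)
  have h2 : Real.exp (-Y - 1) * Real.exp Y = Real.exp (-1) := by
    rw [← Real.exp_add]
    congr 1
    ring
  have h3 : (-Y - 1 + 1) * Real.exp Y ≤ Real.exp (-Y - 1) * Real.exp Y :=
    mul_le_mul_of_nonneg_right h1 (Real.exp_pos Y).le
  rw [h2] at h3
  linarith

private theorem IndepStep_gt {b : ℝ} (hb : 0 < b) (hb1 : b < 1) (Y : ℝ) :
    -Real.exp (-1) < b * (Y * Real.exp Y) := by
  have h := IndepStep_min Y
  have he : 0 < Real.exp (-1) := Real.exp_pos _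
  rcases le_or_gt 0 (Y * Real.exp Y) with h0 | h0
  · have : 0 ≤ b * (Y * Real.exp Y) := mul_nonneg hb.le h0
    linarith
  · nlinarith

/-- algebraic independence of `k` functions `lam (a i * ν)` on intervals -/
def IndepAt (k : ℕ) : Prop :=
  ∀ a : Fin k → ℝ, (∀ i, 0 < a i) → Function.Injective a → ∀ Q : MvPolynomial (Fin k) ℂ,
    ∀ u v : ℝ, 0 < u → u < v →
      (∀ ν ∈ Ioo u v, MvPolynomial.eval (fun i => ((lam (a i * ν) : ℝ) : ℂ)) Q = 0) → Q = 0

theorem indep_step (k : ℕ) (ih : IndepAt k) (a : Fin (k + 1) → ℝ) (ha : ∀ i, 0 < a i)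
    (hinj : Function.Injective a) (hmax : ∀ j : Fin k, a j.succ < a 0)
    (Q : MvPolynomial (Fin (k + 1)) ℂ) (u v : ℝ) (hu : 0 < u) (huv : u < v)
    (h : ∀ ν ∈ Ioo u v, MvPolynomial.eval (fun i => ((lam (a i * ν) : ℝ) : ℂ)) Q = 0) : Q = 0 := by
  have ha0 : 0 < a 0 := ha 0
  set b : Fin k → ℝ := fun j => a j.succ / a 0 with hb
  have hbpos : ∀ j, 0 < b j := fun j => div_pos (ha _) ha0
  have hblt : ∀ j, b j < 1 := fun j => (div_lt_one ha0).2 (hmax j)
  have hbinj : Function.Injective b := by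
    intro i j hij
    have h1 : a i.succ = a j.succ := by
      have := congrArg (fun x => x * a 0) hij
      simp only [hb] at this
      rwa [div_mul_cancel₀ _ ha0.ne', div_mul_cancel₀ _ ha0.ne'] at this
    exact Fin.succ_injective _ (hinj h1)
  set z : Fin k → ℝ → ℝ := fun j Y => lam (b j * (Y * Real.exp Y)) with hz
  have hzan : ∀ j Y, AnalyticAt ℝ (z j) Y := by
    intro j Y
    have h1 : AnalyticAt ℝ (fun Y : ℝ => b j * (Y * Real.exp Y)) Y :=
      analyticAt_const.mul (analyticAt_id.mul analyticAt_rexp)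
    have h2 : AnalyticAt ℝ lam ((fun Y : ℝ => b j * (Y * Real.exp Y)) Y) :=
      (lam_spec (IndepStep_gt (hbpos j) (hblt j) Y)).2.2
    exact AnalyticAt.comp (g := lam) (f := fun Y : ℝ => b j * (Y * Real.exp Y)) h2 h1
  set w : Fin (k + 1) → ℝ → ℝ := Fin.cons (fun Y => Y) z with hw
  have hwan : ∀ i Y, AnalyticAt ℝ (w i) Y := by
    intro i Y
    refine Fin.cases ?_ (fun j => ?_) i
    · exact analyticAt_id
    · simpa [hw] using hzan j Y
  set Φ : ℝ → ℂ := fun Y => MvPolynomial.eval (fun i => ((w i Y : ℝ) : ℂ)) Q with hΦ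
  have hΦan : AnalyticOnNhd ℝ Φ univ := fun Y _ => IndepStep_an Q w Y (fun i => hwan i Y)
  set ν0 : ℝ := (u + v) / 2 with hν0
  have hν0pos : 0 < ν0 := by rw [hν0]; linarith
  set Y0 : ℝ := lam (a 0 * ν0) with hY0
  have hY0pos : 0 < Y0 := lam_pos (mul_pos ha0 hν0pos)
  have hY0eq : Y0 * Real.exp Y0 = a 0 * ν0 := by
    have : -Real.exp (-1) < a 0 * ν0 := by
      have := Real.exp_pos (-1)
      have := mul_pos ha0 hν0pos
      linarith
    exact (lam_spec this).2.1
  have hcont : ContinuousAt (fun Y : ℝ => Y * Real.exp Y / a 0) Y0 := by fun_prop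
  have hmem : Y0 * Real.exp Y0 / a 0 ∈ Ioo u v := by
    rw [hY0eq, mul_div_cancel_left₀ _ ha0.ne']
    constructor <;> rw [hν0] <;> linarith
  have hev : Φ =ᶠ[𝓝 Y0] 0 := by
    filter_upwards [hcont.preimage_mem_nhds (isOpen_Ioo.mem_nhds hmem), Ioi_mem_nhds hY0pos]
      with Y hY1 hY2
    have hY2' : 0 < Y := hY2
    have h1 := h _ hY1
    have h2 : (fun i => ((lam (a i * (Y * Real.exp Y / a 0)) : ℝ) : ℂ)) =
        fun i => ((w i Y : ℝ) : ℂ) := by
      funext i
      congr 1
      refine Fin.cases ?_ (fun j => ?_) i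
      · have e1 : a 0 * (Y * Real.exp Y / a 0) = Y * Real.exp Y := by field_simp
        rw [e1, lam_unique (by linarith)]
        simp [hw]
      · have e1 : a j.succ * (Y * Real.exp Y / a 0) = b j * (Y * Real.exp Y) := by
          simp only [hb]
          ring
        rw [e1]
        simp [hw, hz]
    rw [h2] at h1
    exact h1
  have hzero : ∀ Y, Φ Y = 0 := by
    have := hΦan.eqOn_zero_of_preconnected_of_eventuallyEq_zero isPreconnected_univ (mem_univ Y0) hev
    intro Y
    exact this (mem_univ Y)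
  set F := MvPolynomial.finSuccEquiv ℂ k Q with hF
  set A : ℕ → ℝ → ℂ := fun m x =>
    MvPolynomial.eval (fun j => ((lam (b j * x) : ℝ) : ℂ)) (F.coeff m) with hA
  have hAan : ∀ m, AnalyticAt ℝ (A m) 0 := by
    intro m
    refine IndepStep_an (F.coeff m) (fun j x => lam (b j * x)) 0 (fun j => ?_)
    have h1 : AnalyticAt ℝ (fun x : ℝ => b j * x) 0 := analyticAt_const.mul analyticAt_id
    have h2 : AnalyticAt ℝ lam ((fun x : ℝ => b j * x) 0) := by
      apply (lam_spec _).2.2
      simp only [mul_zero]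
      have := Real.exp_pos (-1)
      linarith
    exact AnalyticAt.comp (g := lam) (f := fun x : ℝ => b j * x) h2 h1
  have hsum : ∀ Y : ℝ, ∑ m ∈ Finset.range (F.natDegree + 1),
      A m (Y * Real.exp Y) * (Y : ℂ) ^ m = 0 := by
    intro Y
    have h1 := hzero Y
    have h2 : (fun i => ((w i Y : ℝ) : ℂ)) =
        (Fin.cons (Y : ℂ) (fun j => ((z j Y : ℝ) : ℂ)) : Fin (k + 1) → ℂ) := by
      funext i
      refine Fin.cases ?_ (fun j => ?_) i
      · simp [hw]
      · simp [hw]
    rw [hΦ] at h1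
    simp only at h1
    rw [h2, MvPolynomial.eval_eq_eval_mv_eval', ← hF,
      Polynomial.eval_eq_sum_range' (n := F.natDegree + 1)
        (lt_of_le_of_lt Polynomial.natDegree_map_le (Nat.lt_succ_self _))] at h1
    rw [← h1]
    refine Finset.sum_congr rfl fun m _ => ?_
    rw [Polynomial.coeff_map]
  have hcoef := expPoly_zero F.natDegree A hAan 0 (fun Y _ => hsum Y)
  have hF0 : F = 0 := by
    ext1 m
    rw [Polynomial.coeff_zero]
    rcases le_or_gt m F.natDegree with hm | hm
    · have h1 := hcoef m hm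
      obtain ⟨ε, hε, h2⟩ := Metric.eventually_nhds_iff.1 h1
      refine ih b hbpos hbinj (F.coeff m) (ε / 3) (ε / 2) (by positivity) (by linarith) ?_
      intro ν hν
      have h3 : dist ν 0 < ε := by
        rw [Real.dist_eq, sub_zero, abs_of_pos (by linarith [hν.1])]
        linarith [hν.2]
      exact h2 h3
    · exact Polynomial.coeff_eq_zero_of_natDegree_lt hm
  exact (MvPolynomial.finSuccEquiv ℂ k).injective (by rw [← hF, hF0, map_zero])

end Pool.Agent.Lib.MP_ec260d_nt
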