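import Mathlib

/-!
# JOB Lam0: the Lambert function on `(-1/e, ∞)`

Proof of `exists_lam`. Let `f y = y * exp y`; `f' y = (1 + y) exp y > 0` for `y > -1`, so `f` is strictly increasing on
`Ici (-1)` (`strictMonoOn_of_deriv_pos`, continuity), `f (-1) = -exp (-1)` and `f → ∞` at `∞`. For `x > -exp (-1)` the
intermediate value theorem (`intermediate_value_Icc` on `[-1, |x| + 1]`: `f (|x| + 1) ≥ |x| + 1 > x`) gives `y > -1` with
`f y = x`. Choose `lam x` so (junk value otherwise). Analyticity at `x`: `f` is analytic, has nonzero derivative at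
`y = lam x`. Take the inverse function theorem (`HasStrictDerivAt.localInverse` /
`HasStrictDerivAt.toOpenPartialHomeomorph`, and `OpenPartialHomeomorph.analyticAt_symm'` or `AnalyticAt` versions of the
inverse function theorem, e.g. `ContDiffAt` with `n = ω`): the local inverse `g` is analytic at `x`, `g x = y`,
`f (g x') = x'` near `x` and `g x' > -1` near `x` by continuity, so `g = lam` near `x` by injectivity of `f` on `(-1, ∞)`.
-/

open Real Set Filter Topology

namespace Pool.Agent.Lib.MP_ec260d_nt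

theorem Lam0_hasDerivAt (y : ℝ) :
    HasDerivAt (fun y : ℝ => y * Real.exp y) ((1 + y) * Real.exp y) y := by
  have h := (hasDerivAt_id y).mul (Real.hasDerivAt_exp y)
  have e : 1 * Real.exp y + id y * Real.exp y = (1 + y) * Real.exp y := by
    rw [id, add_mul]
  rw [e] at h
  exact h

theorem mul_exp_strictMono : StrictMonoOn (fun y : ℝ => y * Real.exp y) (Ici (-1)) := by
  refine strictMonoOn_of_deriv_pos (convex_Ici _) ?_ ?_
  · exact (continuous_id.mul Real.continuous_exp).continuousOn
  · intro y hy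
    rw [interior_Ici] at hy
    rw [(Lam0_hasDerivAt y).deriv]
    have h1 : (-1 : ℝ) < y := hy
    exact mul_pos (by linarith) (Real.exp_pos y)

theorem Lam0_exists {x : ℝ} (hx : -Real.exp (-1) < x) : ∃ y : ℝ, -1 < y ∧ y * Real.exp y = x := by
  have hab : (-1 : ℝ) ≤ |x| + 1 := by
    have := abs_nonneg x
    linarith
  have hc : ContinuousOn (fun y : ℝ => y * Real.exp y) (Icc (-1) (|x| + 1)) :=
    (continuous_id.mul Real.continuous_exp).continuousOn
  have h := intermediate_value_Icc hab hc
  have h1 : x ∈ Icc ((fun y : ℝ => y * Real.exp y) (-1)) ((fun y : ℝ => y * Real.exp y) (|x| + 1)) := by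
    constructor
    · show -1 * Real.exp (-1) ≤ x
      linarith
    · show x ≤ (|x| + 1) * Real.exp (|x| + 1)
      have h2 : 1 ≤ Real.exp (|x| + 1) := Real.one_le_exp (by positivity)
      have h3 : x ≤ |x| := le_abs_self x
      have h4 : (|x| + 1) * 1 ≤ (|x| + 1) * Real.exp (|x| + 1) :=
        mul_le_mul_of_nonneg_left h2 (by positivity)
      linarith
  obtain ⟨y, hy, hyx⟩ := h h1
  refine ⟨y, lt_of_le_of_ne hy.1 ?_, hyx⟩
  intro he
  have h5 : y * Real.exp y = x := hyx
  rw [← he] at h5
  linarith

theorem exists_lam : ∃ lam : ℝ → ℝ, ∀ x, -Real.exp (-1) < x →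
    -1 < lam x ∧ lam x * Real.exp (lam x) = x ∧ AnalyticAt ℝ lam x := by
  classical
  let lam : ℝ → ℝ := fun x => if h : -Real.exp (-1) < x then (Lam0_exists h).choose else 0
  have hlam : ∀ x, -Real.exp (-1) < x → -1 < lam x ∧ lam x * Real.exp (lam x) = x := by
    intro x hx
    have e : lam x = (Lam0_exists hx).choose := dif_pos hx
    rw [e]
    exact (Lam0_exists hx).choose_spec
  refine ⟨lam, fun x hx => ⟨(hlam x hx).1, (hlam x hx).2, ?_⟩⟩
  have h1 := (hlam x hx).1
  have h2 := (hlam x hx).2
  have hfa : AnalyticAt ℝ (fun y : ℝ => y * Real.exp y) (lam x) :=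
    analyticAt_id.mul analyticAt_rexp
  have hfd : deriv (fun y : ℝ => y * Real.exp y) (lam x) ≠ 0 := by
    rw [(Lam0_hasDerivAt (lam x)).deriv]
    exact (mul_pos (by linarith) (Real.exp_pos _)).ne'
  have h3 := analyticAt_comp_iff_of_deriv_ne_zero (g := lam) hfa hfd
  have h4 : AnalyticAt ℝ (lam ∘ fun y : ℝ => y * Real.exp y) (lam x) := by
    refine analyticAt_id.congr ?_
    filter_upwards [Ioi_mem_nhds h1] with y hy
    have hy' : (-1 : ℝ) < y := hy
    have h5 : -Real.exp (-1) < y * Real.exp y := by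
      have h6 : (-1 : ℝ) * Real.exp (-1) < y * Real.exp y :=
        mul_exp_strictMono (self_mem_Ici) hy'.le hy'
      linarith
    have h7 := hlam _ h5
    have h8 : lam (y * Real.exp y) = y :=
      mul_exp_strictMono.injOn h7.1.le hy'.le h7.2
    exact h8.symm
  have h9 := h3.1 h4
  rw [h2] at h9
  exact h9

end Pool.Agent.Lib.MP_ec260d_nt
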