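import Mathlib

/-!
# JOB LinRec: a linear recurrent sequence tending to `0` is summable

`d : ℕ → ℂ` tends to `0` and `∑_{i ≤ k} a i d (n + i) = 0` for all `n ≥ n₀`, with `a` not all zero. Shifting the sequence, we may assume `n₀ = 0`
(summability of `n ↦ d (n + n₀)` gives that of `d`, `summable_nat_add_iff`). Let `j` be the largest index with `a j ≠ 0`; if `j = 0` then `d = 0` eventually and we
are done; so the recurrence has the form `d (n + j) = ∑_{i < j} b i d (n + i)`. Let `V` be the set of sequences `v : ℕ → ℂ`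
satisfying this recurrence and tending to `0`: a finite-dimensional complex vector space (the first `j` values determine the sequence) which
contains `d` and is stable under the shift `S`. If `S v = λ v` with `v ≠ 0`, `v ∈ V`, then `v n = λ^n v 0`, `v 0 ≠ 0`, tends to
`0`, so `|λ| < 1`. So all eigenvalues of `S : V → V` have modulus `< 1`; put a norm on `V` (e.g. transport from
`Fin j → ℂ`), the spectral radius of `S` as a continuous linear map is `< 1`, so `‖S^n‖ ≤ C q^n` with `q < 1`
(`spectrum.pow_nnnorm_pow_one_div_tendsto_nhds_spectralRadius`), and `d n = (S^n d) 0` is `O(q^n)`, hence summable.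
(Alternative without operator theory: induction on the order `j` of the recurrence by factoring the characteristic polynomial
`X^j - ∑ b i X^i = (X - λ) Q`: `e = Q(S) d` satisfies `e (n+1) = λ e n` and tends to `0`; if `|λ| < 1` or `e = 0`, then `e n = λ^n e 0` is
summable (geometric), otherwise `e 0 = 0` and `e = 0`. General statement by induction on the degree: if `Q(S) d = e` with `|e n| ≤ C q^n`, `q < 1`,
`d → 0`, then `d` is summable (indeed `O(q'^n)` for some `q' < 1`): for `Q = X - λ`: `d (n+1) = λ d n + e n`. If `|λ| < 1`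
geometric convolution; if `|λ| ≥ 1`, then `d n = -∑_{m ≥ n} λ^{n - m - 1} e m` because `d → 0`, again `O(q^n)`.)
-/

open Filter Topology

namespace Pool.Agent.Lib.MP_ec260d_nt

private noncomputable def linrecS : Module.End ℂ (ℕ → ℂ) where
  toFun d n := d (n + 1)
  map_add' _ _ := rfl
  map_smul' _ _ := rfl

private theorem linrecS_pow (i : ℕ) (d : ℕ → ℂ) (n : ℕ) :
    ((linrecS ^ i) d) n = d (n + i) := by
  induction i generalizing n with
  | zero => simp
  | succ i ih =>
    rw [pow_succ', Module.End.mul_apply]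
    show ((linrecS ^ i) d) (n + 1) = _
    rw [ih]
    congr 1
    ring

private def linrecE (e : ℕ → ℂ) : Prop :=
  ∃ C q : ℝ, 0 ≤ C ∧ 0 < q ∧ q < 1 ∧ ∀ n, ‖e n‖ ≤ C * q ^ n

private theorem linrec_step (d e : ℕ → ℂ) (r : ℂ) (hd : Tendsto d atTop (𝓝 0))
    (h : ∀ n, d (n + 1) = r * d n + e n) (he : linrecE e) : linrecE d := by
  obtain ⟨C, q, hC, hq0, hq1, hb⟩ := he
  rcases lt_or_ge ‖r‖ 1 with hr | hr
  · obtain ⟨q', h1, h2⟩ := exists_between (max_lt hq1 hr)
    have hqq : q < q' := lt_of_le_of_lt (le_max_left _ _) h1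
    have hrq : ‖r‖ < q' := lt_of_le_of_lt (le_max_right _ _) h1
    have hq'0 : 0 < q' := hq0.trans hqq
    have hpos : 0 < q' - ‖r‖ := sub_pos.2 hrq
    set K : ℝ := max ‖d 0‖ (C / (q' - ‖r‖)) with hK
    have hK0 : 0 ≤ K := (norm_nonneg _).trans (le_max_left _ _)
    have hKC : C ≤ K * (q' - ‖r‖) := by
      have : C / (q' - ‖r‖) ≤ K := le_max_right _ _
      exact (div_le_iff₀ hpos).1 this
    refine ⟨K, q', hK0, hq'0, h2, fun n => ?_⟩
    induction n with
    | zero =>
      rw [pow_zero, mul_one]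
      exact le_max_left ‖d 0‖ (C / (q' - ‖r‖))
    | succ n ih =>
      have e1 : q ^ n ≤ q' ^ n := pow_le_pow_left₀ hq0.le hqq.le n
      have e2 : 0 < q' ^ n := pow_pos hq'0 n
      calc ‖d (n + 1)‖ = ‖r * d n + e n‖ := by rw [h n]
        _ ≤ ‖r * d n‖ + ‖e n‖ := norm_add_le _ _
        _ = ‖r‖ * ‖d n‖ + ‖e n‖ := by rw [norm_mul]
        _ ≤ ‖r‖ * (K * q' ^ n) + C * q' ^ n := by
          refine add_le_add (mul_le_mul_of_nonneg_left ih (norm_nonneg _)) ?_
          exact (hb n).trans (mul_le_mul_of_nonneg_left e1 hC)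
        _ ≤ ‖r‖ * (K * q' ^ n) + (K * (q' - ‖r‖)) * q' ^ n := by
          have := mul_le_mul_of_nonneg_right hKC e2.le
          linarith
        _ = K * q' ^ (n + 1) := by ring
  · have hpos : 0 < 1 - q := by linarith
    set K : ℝ := C / (1 - q) with hK
    have hKC : K * (1 - q) = C := div_mul_cancel₀ C hpos.ne'
    have hK0 : 0 ≤ K := div_nonneg hC hpos.le
    refine ⟨K, q, hK0, hq0, hq1, fun n => ?_⟩
    have hmono : Monotone (fun n : ℕ => ‖d n‖ - K * q ^ n) := by
      refine monotone_nat_of_le_succ fun n => ?_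
      have h1 : ‖d n‖ ≤ ‖r‖ * ‖d n‖ := le_mul_of_one_le_left (norm_nonneg _) hr
      have h2 : ‖r‖ * ‖d n‖ ≤ ‖d (n + 1)‖ + ‖e n‖ := by
        rw [← norm_mul]
        have h3 : r * d n = d (n + 1) - e n := by rw [h n]; ring
        rw [h3]
        exact norm_sub_le _ _
      have h4 := hb n
      have h5 : K * q ^ n - K * q ^ (n + 1) = C * q ^ n := by rw [← hKC]; ring
      show ‖d n‖ - K * q ^ n ≤ ‖d (n + 1)‖ - K * q ^ (n + 1)
      linarith
    have hlim : Tendsto (fun n : ℕ => ‖d n‖ - K * q ^ n) atTop (𝓝 0) := by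
      have h1 : Tendsto (fun n : ℕ => ‖d n‖) atTop (𝓝 0) := by
        simpa using hd.norm
      have h2 : Tendsto (fun n : ℕ => K * q ^ n) atTop (𝓝 0) := by
        simpa using (tendsto_pow_atTop_nhds_zero_of_lt_one hq0.le hq1).const_mul K
      simpa using h1.sub h2
    have h9 : ‖d n‖ - K * q ^ n ≤ 0 := hmono.ge_of_tendsto hlim n
    linarith

private theorem linrec_main (N : ℕ) : ∀ (Q : Polynomial ℂ), Q ≠ 0 → Q.natDegree = N →
    ∀ d : ℕ → ℂ, Tendsto d atTop (𝓝 0) → linrecE (Polynomial.aeval linrecS Q d) → linrecE d := by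
  induction N with
  | zero =>
    intro Q hQ hdeg d _ he
    rw [Polynomial.eq_C_of_natDegree_eq_zero hdeg] at he hQ
    set c := Q.coeff 0 with hc
    have hc0 : c ≠ 0 := fun h0 => hQ (by rw [h0, map_zero])
    obtain ⟨C, q, hC, hq0, hq1, hb⟩ := he
    refine ⟨‖c‖⁻¹ * C, q, by positivity, hq0, hq1, fun n => ?_⟩
    have h1 := hb n
    rw [Polynomial.aeval_C, Module.algebraMap_end_apply, Pi.smul_apply, smul_eq_mul, norm_mul] at h1
    have h2 : 0 < ‖c‖ := norm_pos_iff.2 hc0
    calc ‖d n‖ = ‖c‖⁻¹ * (‖c‖ * ‖d n‖) := by rw [← mul_assoc, inv_mul_cancel₀ h2.ne', one_mul]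
      _ ≤ ‖c‖⁻¹ * (C * q ^ n) := mul_le_mul_of_nonneg_left h1 (inv_nonneg.2 h2.le)
      _ = ‖c‖⁻¹ * C * q ^ n := by ring
  | succ N ih =>
    intro Q hQ hdeg d hd he
    obtain ⟨z, hz⟩ := IsAlgClosed.exists_root Q (by
      intro h0
      rw [Polynomial.natDegree_eq_of_degree_eq_some h0] at hdeg
      exact absurd hdeg (by simp))
    obtain ⟨Q', hQ'⟩ := Polynomial.dvd_iff_isRoot.2 hz
    have hQ'0 : Q' ≠ 0 := by
      rintro rfl
      exact hQ (by rw [hQ', mul_zero])
    have hdeg' : Q'.natDegree = N := by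
      rw [hQ', Polynomial.natDegree_mul (Polynomial.X_sub_C_ne_zero z) hQ'0,
        Polynomial.natDegree_X_sub_C] at hdeg
      omega
    have he' : linrecE (Polynomial.aeval linrecS Q' (fun n => d (n + 1) - z * d n)) := by
      have h1 : Polynomial.aeval linrecS Q d =
          Polynomial.aeval linrecS Q' (fun n => d (n + 1) - z * d n) := by
        rw [hQ', mul_comm, map_mul, Module.End.mul_apply]
        congr 1
        rw [map_sub, Polynomial.aeval_X, Polynomial.aeval_C]
        rfl
      rw [← h1]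
      exact he
    have hd' : Tendsto (fun n => d (n + 1) - z * d n) atTop (𝓝 0) := by
      have h1 : Tendsto (fun n => d (n + 1)) atTop (𝓝 0) := hd.comp (tendsto_add_atTop_nat 1)
      simpa using h1.sub (hd.const_mul z)
    refine linrec_step d _ z hd (fun n => ?_) (ih Q' hQ'0 hdeg' _ hd' he')
    ring

theorem lin_rec (k : ℕ) (a : Fin (k + 1) → ℂ) (ha : a ≠ 0) (d : ℕ → ℂ) (hd : Tendsto d atTop (𝓝 0))
    (n₀ : ℕ) (h : ∀ n : ℕ, n₀ ≤ n → ∑ i : Fin (k + 1), a i * d (n + i) = 0) : Summable d := by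
  classical
  set D : ℕ → ℂ := fun n => d (n + n₀) with hD
  have hDlim : Tendsto D atTop (𝓝 0) := hd.comp (tendsto_add_atTop_nat n₀)
  set Q : Polynomial ℂ := ∑ i : Fin (k + 1), Polynomial.monomial (i : ℕ) (a i) with hQ
  have hQ0 : Q ≠ 0 := by
    intro h0
    apply ha
    funext i
    have h1 : Q.coeff (i : ℕ) = a i := by
      rw [hQ, Polynomial.finsetSum_coeff]
      rw [Finset.sum_eq_single i]
      · rw [Polynomial.coeff_monomial, if_pos rfl]
      · intro j _ hj
        rw [Polynomial.coeff_monomial, if_neg (fun h => hj (Fin.ext h))]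
      · intro h
        exact absurd (Finset.mem_univ i) h
    rw [← h1, h0]
    simp
  have hev : ∀ n, (Polynomial.aeval linrecS Q D) n = 0 := by
    intro n
    have h1 : (Polynomial.aeval linrecS Q D) n = ∑ i : Fin (k + 1), a i * D (n + i) := by
      rw [hQ, map_sum, LinearMap.sum_apply, Finset.sum_apply]
      refine Finset.sum_congr rfl fun i _ => ?_
      rw [Polynomial.aeval_monomial, Module.End.mul_apply, Module.algebraMap_end_apply,
        Pi.smul_apply, smul_eq_mul, linrecS_pow]
    rw [h1, ← h (n + n₀) (Nat.le_add_left _ _)]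
    refine Finset.sum_congr rfl fun i _ => ?_
    simp only [hD]
    congr 2
    ring
  have hE : linrecE (Polynomial.aeval linrecS Q D) :=
    ⟨0, 1 / 2, le_rfl, by norm_num, by norm_num, fun n => by rw [hev n]; simp⟩
  obtain ⟨C, q, hC, hq0, hq1, hb⟩ := linrec_main _ Q hQ0 rfl D hDlim hE
  have hS : Summable D :=
    Summable.of_norm_bounded ((summable_geometric_of_lt_one hq0.le hq1).mul_left C) hb
  exact (summable_nat_add_iff n₀).1 hS

end Pool.Agent.Lib.MP_ec260d_nt
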