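import Mathlib

/-!
# JOB TwoVar: zeros `(x, x + u)` of a polynomial in two variables, `u` small, `x` large

Write `P (x, x + u) = ∑_{l ≤ d} x^l q_l(u)` with polynomials `q_l ∈ ℂ[u]` and `q_d ≠ 0` (substitute `X 1 → X 0 + U`, an automorphism of
the polynomial ring, so the result is a nonzero polynomial in `x` with coefficients in `ℂ[u]`; e.g. the ring hom
`MvPolynomial.aeval ![Polynomial.X, Polynomial.X + Polynomial.C Polynomial.X] : MvPolynomial (Fin 2) ℂ →ₐ Polynomial (Polynomial ℂ)`, which is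
injective: it has a left inverse, or: if the image vanishes then `P (x, y) = 0` for all complex `x, y` because `y = x + u` with `u = y - x`,
so `P = 0` by `MvPolynomial.funext`). Let `d` be its degree in `x`.
Write `q_d = u ^ e * h` with `h 0 ≠ 0` (`Polynomial.rootMultiplicity`, `Polynomial.exists_eq_pow_rootMultiplicity_mul_and_not_dvd`).
Choose `δ ∈ (0, 1]` with `‖h u‖ ≥ ‖h 0‖ / 2 =: c` for `|u| ≤ δ`; let `M ≥ ∑_{l < d} ‖q_l u‖` for `|u| ≤ δ`.
If `P (x, x + u) = 0`, `x ≥ 1`, `0 < u ≤ δ`: `c x^d u^e ≤ ‖x^d q_d u‖ ≤ ∑_{l < d} x^l ‖q_l u‖ ≤ M x^(d-1)` (if `d = 0` the right side is `0`: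
contradiction with `u > 0`, so nothing to prove), so `u ^ e ≤ (M/c) / x`. If `e = 0` this fails for `x > M/c`: choose `x₀` larger. If
`e ≥ 1`: `u ≤ ((M/c)/x)^(1/e)`. So with `θ = 1 / max e 1`, `K = max 1 (M/c)` and `x₀ = max 1 (2 M/c + 1)` the claim
`u ≤ K x^(-θ)` holds.
-/

open Set Filter Topology

namespace Pool.Agent.Lib.MP_ec260d_nt

/-- the substitution `y = x + u` -/
private noncomputable def TwoVar_phi : MvPolynomial (Fin 2) ℂ →ₐ[ℂ] Polynomial (Polynomial ℂ) :=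
  MvPolynomial.aeval ![Polynomial.X, Polynomial.X + Polynomial.C Polynomial.X]

private theorem TwoVar_eval (P : MvPolynomial (Fin 2) ℂ) (x u : ℂ) :
    Polynomial.eval u (Polynomial.eval (Polynomial.C x) (TwoVar_phi P)) =
      MvPolynomial.eval ![x, x + u] P := by
  have key : ((Polynomial.evalRingHom u).comp (Polynomial.evalRingHom (Polynomial.C x))).comp
      (TwoVar_phi : MvPolynomial (Fin 2) ℂ →+* Polynomial (Polynomial ℂ)) =
      MvPolynomial.eval ![x, x + u] := by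
    apply MvPolynomial.ringHom_ext
    · intro r
      simp [TwoVar_phi, Polynomial.algebraMap_apply]
    · intro i
      fin_cases i
      · simp [TwoVar_phi]
      · simp [TwoVar_phi]
  exact RingHom.congr_fun key P

private theorem TwoVar_ne (P : MvPolynomial (Fin 2) ℂ) (hP : P ≠ 0) : TwoVar_phi P ≠ 0 := by
  intro h
  apply hP
  apply MvPolynomial.funext
  intro v
  have h1 := TwoVar_eval P (v 0) (v 1 - v 0)
  rw [h] at h1
  have h2 : ![v 0, v 0 + (v 1 - v 0)] = v := by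
    funext i
    fin_cases i
    · simp
    · simp
  rw [h2] at h1
  rw [← h1]
  simp

private theorem TwoVar_sum (P : MvPolynomial (Fin 2) ℂ) (x u : ℂ) :
    MvPolynomial.eval ![x, x + u] P =
      ∑ l ∈ Finset.range ((TwoVar_phi P).natDegree + 1),
        Polynomial.eval u ((TwoVar_phi P).coeff l) * x ^ l := by
  rw [← TwoVar_eval, Polynomial.eval_eq_sum_range (p := TwoVar_phi P) (Polynomial.C x),
    Polynomial.eval_finsetSum]
  refine Finset.sum_congr rfl fun l _ => ?_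
  rw [Polynomial.eval_mul, ← Polynomial.C_pow, Polynomial.eval_C]

private theorem TwoVar_real {e : ℕ} {u x K K0 : ℝ} (he : e ≠ 0) (hx : 0 < x)
    (hK : 1 ≤ K) (hK0 : K0 ≤ K) (h : u ^ e * x ≤ K0) : u ≤ K * x ^ (-(1 / (e : ℝ))) := by
  by_contra hc
  rw [not_le] at hc
  have h0 : 0 ≤ K * x ^ (-(1 / (e : ℝ))) := by positivity
  have h1 : (K * x ^ (-(1 / (e : ℝ)))) ^ e < u ^ e := pow_lt_pow_left₀ hc h0 he
  have h2 : (x ^ (-(1 / (e : ℝ)))) ^ e = x⁻¹ := by
    have he' : (e : ℝ) ≠ 0 := by exact_mod_cast he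
    rw [← Real.rpow_natCast, ← Real.rpow_mul hx.le]
    have h3 : -(1 / (e : ℝ)) * (e : ℝ) = -1 := by field_simp
    rw [h3, Real.rpow_neg_one]
  rw [mul_pow, h2] at h1
  have h4 : K ≤ K ^ e := le_self_pow₀ hK he
  have h5 : K ^ e * x⁻¹ * x < u ^ e * x := mul_lt_mul_of_pos_right h1 hx
  rw [mul_assoc, inv_mul_cancel₀ hx.ne', mul_one] at h5
  linarith

theorem two_var (P : MvPolynomial (Fin 2) ℂ) (hP : P ≠ 0) : ∃ δ : ℝ, 0 < δ ∧ δ ≤ 1 ∧
    ∃ θ : ℝ, 0 < θ ∧ ∃ K x₀ : ℝ, 0 < K ∧ 1 ≤ x₀ ∧ ∀ x u : ℝ, x₀ ≤ x → 0 < u → u ≤ δ →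
      MvPolynomial.eval ![(x : ℂ), ((x + u : ℝ) : ℂ)] P = 0 → u ≤ K * x ^ (-θ) := by
  obtain ⟨Q, hQ⟩ : ∃ Q, Q = TwoVar_phi P := ⟨_, rfl⟩
  have hQ0 : Q ≠ 0 := by
    rw [hQ]
    exact TwoVar_ne P hP
  obtain ⟨d, hd⟩ : ∃ d, d = Q.natDegree := ⟨_, rfl⟩
  have hlead : Q.coeff d ≠ 0 := by
    rw [hd]
    exact Polynomial.leadingCoeff_ne_zero.2 hQ0
  obtain ⟨h, hh, hnd⟩ := Polynomial.exists_eq_pow_rootMultiplicity_mul_and_not_dvd (Q.coeff d) hlead 0
  obtain ⟨e, he⟩ : ∃ e, e = (Q.coeff d).rootMultiplicity 0 := ⟨_, rfl⟩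
  rw [← he] at hh
  have hh0 : h.eval 0 ≠ 0 := by
    intro h1
    exact hnd (Polynomial.dvd_iff_isRoot.2 h1)
  have hpos : 0 < ‖h.eval 0‖ := norm_pos_iff.2 hh0
  have hev : ∀ᶠ z : ℂ in 𝓝 0, ‖h.eval 0‖ / 2 < ‖h.eval z‖ := by
    have h1 : Tendsto (fun z : ℂ => ‖h.eval z‖) (𝓝 0) (𝓝 ‖h.eval 0‖) :=
      (h.continuous.norm).tendsto 0
    exact h1.eventually (lt_mem_nhds (by linarith))
  obtain ⟨δ₁, hδ₁, hball⟩ := Metric.eventually_nhds_iff.1 hev
  obtain ⟨M, hM⟩ := (isCompact_closedBall (0 : ℂ) 1).exists_bound_of_continuousOn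
    (f := fun z : ℂ => ∑ l ∈ Finset.range d, ‖(Q.coeff l).eval z‖)
    (Continuous.continuousOn (continuous_finsetSum _ fun l _ => (Q.coeff l).continuous.norm))
  have hM0 : 0 ≤ M := (norm_nonneg _).trans (hM 0 (by simp))
  obtain ⟨c, hc⟩ : ∃ c, c = ‖h.eval 0‖ / 2 := ⟨_, rfl⟩
  have hcpos : 0 < c := by rw [hc]; positivity
  refine ⟨min 1 (δ₁ / 2), by positivity, min_le_left _ _, 1 / (max e 1 : ℕ), by positivity,
    max 1 (M / c), M / c + 1, by positivity, ?_, ?_⟩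
  · have : 0 ≤ M / c := by positivity
    linarith
  intro x u hx hu hud hP0
  have hMc : 0 ≤ M / c := by positivity
  have hx1 : 1 ≤ x := by linarith
  have hx0 : 0 < x := by linarith
  have hu1 : u ≤ 1 := hud.trans (min_le_left _ _)
  have hu2 : u < δ₁ := by
    have := hud.trans (min_le_right _ _)
    linarith
  have hucast : ((x + u : ℝ) : ℂ) = (x : ℂ) + (u : ℂ) := by push_cast; ring
  rw [hucast, TwoVar_sum, ← hQ, ← hd, Finset.sum_range_succ] at hP0
  have hnormu : ‖(u : ℂ)‖ = u := by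
    rw [Complex.norm_real, Real.norm_of_nonneg hu.le]
  have hnormx : ‖(x : ℂ)‖ = x := by
    rw [Complex.norm_real, Real.norm_of_nonneg hx0.le]
  have hcu : c < ‖h.eval (u : ℂ)‖ := by
    rw [hc]
    refine hball ?_
    rw [dist_zero_right, hnormu]
    exact hu2
  have h1 : ‖(Q.coeff d).eval (u : ℂ)‖ = u ^ e * ‖h.eval (u : ℂ)‖ := by
    rw [hh]
    simp only [Polynomial.eval_mul, Polynomial.eval_pow, Polynomial.eval_sub, Polynomial.eval_X,
      Polynomial.eval_C, sub_zero, norm_mul, norm_pow, hnormu]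
  have h2 : ‖(Q.coeff d).eval (u : ℂ) * (x : ℂ) ^ d‖ ≤
      ∑ l ∈ Finset.range d, ‖(Q.coeff l).eval (u : ℂ)‖ * x ^ l := by
    rw [eq_neg_of_add_eq_zero_right hP0, norm_neg]
    refine (norm_sum_le _ _).trans (Finset.sum_le_sum fun l _ => ?_)
    rw [norm_mul, norm_pow, hnormx]
  have h3 : (∑ l ∈ Finset.range d, ‖(Q.coeff l).eval (u : ℂ)‖ * x ^ l) * x ≤ M * x ^ d := by
    rw [Finset.sum_mul]
    have h4 : ∀ l ∈ Finset.range d, ‖(Q.coeff l).eval (u : ℂ)‖ * x ^ l * x ≤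
        ‖(Q.coeff l).eval (u : ℂ)‖ * x ^ d := by
      intro l hl
      rw [mul_assoc, ← pow_succ]
      exact mul_le_mul_of_nonneg_left (pow_le_pow_right₀ hx1 (Finset.mem_range.1 hl))
        (norm_nonneg _)
    refine (Finset.sum_le_sum h4).trans ?_
    rw [← Finset.sum_mul]
    refine mul_le_mul_of_nonneg_right ?_ (by positivity)
    have h5 := hM (u : ℂ) (by
      rw [mem_closedBall_zero_iff, hnormu]
      exact hu1)
    exact (le_abs_self _).trans h5
  rw [norm_mul, norm_pow, hnormx, h1] at h2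
  have h6 : u ^ e * x * c ≤ M := by
    have h7 : u ^ e * c * x ^ d ≤ u ^ e * ‖h.eval (u : ℂ)‖ * x ^ d :=
      mul_le_mul_of_nonneg_right (mul_le_mul_of_nonneg_left hcu.le (by positivity)) (by positivity)
    have h8 : u ^ e * c * x ^ d * x ≤ M * x ^ d :=
      (mul_le_mul_of_nonneg_right (h7.trans h2) hx0.le).trans h3
    have h9 : (u ^ e * x * c) * x ^ d ≤ M * x ^ d := by
      have : (u ^ e * x * c) * x ^ d = u ^ e * c * x ^ d * x := by ring
      rw [this]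
      exact h8
    exact le_of_mul_le_mul_right h9 (by positivity)
  have h10 : u ^ e * x ≤ M / c := by
    rw [le_div_iff₀ hcpos]
    exact h6
  rcases Nat.eq_zero_or_pos e with he0 | he0
  · exfalso
    rw [he0, pow_zero, one_mul] at h10
    linarith
  · have h11 : max e 1 = e := max_eq_left he0
    rw [h11]
    exact TwoVar_real he0.ne' hx0 (le_max_left _ _) (le_max_right _ _) h10

end Pool.Agent.Lib.MP_ec260d_nt
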