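import Mathlib
import Pool.Agent.Lib.MP_ec260d_nt.GamGap
import Pool.Agent.Lib.MP_ec260d_nt.TwoVar

/-!
# JOB MainB: pairs of close ordinates satisfy no fixed algebraic relation

Let `δ, θ, K, x₀` be from `two_var P`. Given `ε > 0` we may assume `ε ≤ 1`, `ε ≤ δ`. Let `T` be large and suppose
every `s ∈ Gam ∩ [T, T + ε]` has some `s' ∈ Gam`, `s < s' ≤ s + δ`, `P (s, s') = 0`. By `two_var` (`x = s ≥ T ≥ x₀`, `u = s' - s`):
`s' - s ≤ K s^(-θ) ≤ K T^(-θ) =: τ`. So every `s ∈ Gam ∩ [T, T + ε]` is followed by an element of `Gam` in `(s, s + τ]`. Start from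
`s₀ ∈ Gam ∩ [T, T + ε/2]` (`Gam_gap (ε/2)`) and iterate: as long as `s_i ≤ T + ε` we get `s_{i+1} ∈ (s_i, s_i + τ] ∩ Gam`. Since
`s_i ≤ s₀ + i τ`, the points `s_0 < s_1 < … < s_m` with `m = ⌊(ε/2)/τ⌋` all lie in `[T, T + ε] ⊆ [T, T + 1]`, so
`Gam ∩ [T, T+1]` has at least `m + 1 ≥ (ε/2)/τ = (ε/(2K)) T^θ` elements, which contradicts `Gam_local` (`≤ C log (2 + T)`) for `T` large
(`isLittleO_log_rpow_atTop`).
-/

open Complex Set Filter Topology

namespace Pool.Agent.Lib.MP_ec260d_nt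

private theorem MainB_chain (G : Set ℝ) (T ε τ : ℝ) (hτ : 0 < τ)
    (hstep : ∀ s ∈ G, T ≤ s → s ≤ T + ε → ∃ s' ∈ G, s < s' ∧ s' ≤ s + τ)
    (s₀ : ℝ) (h0 : s₀ ∈ G) (hT : T ≤ s₀) (hT2 : s₀ ≤ T + ε / 2) (m : ℕ) (hm : m * τ ≤ ε / 2) :
    ∃ F : Finset ℝ, F.card = m + 1 ∧ ∀ x ∈ F, x ∈ G ∧ T ≤ x ∧ x ≤ T + ε := by
  classical
  set next : ℝ → ℝ := fun s => if h : s ∈ G ∧ T ≤ s ∧ s ≤ T + ε then
    Classical.choose (hstep s h.1 h.2.1 h.2.2) else s + 1 with hnext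
  have hn1 : ∀ s, s < next s := by
    intro s
    simp only [hnext]
    split_ifs with h
    · exact (Classical.choose_spec (hstep s h.1 h.2.1 h.2.2)).2.1
    · linarith
  have hn2 : ∀ s, s ∈ G → T ≤ s → s ≤ T + ε → next s ∈ G ∧ next s ≤ s + τ := by
    intro s h1 h2 h3
    simp only [hnext]
    rw [dif_pos ⟨h1, h2, h3⟩]
    have h4 := Classical.choose_spec (hstep s h1 h2 h3)
    exact ⟨h4.1, h4.2.2⟩
  set f : ℕ → ℝ := fun n => next^[n] s₀ with hf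
  have hfs : ∀ n, f (n + 1) = next (f n) := fun n => by
    simp only [hf]
    rw [Function.iterate_succ_apply']
  have hmono : StrictMono f := strictMono_nat_of_lt_succ (fun n => by rw [hfs]; exact hn1 _)
  have hf0 : f 0 = s₀ := rfl
  have hind : ∀ i : ℕ, (i : ℝ) * τ ≤ ε / 2 → f i ∈ G ∧ T ≤ f i ∧ f i ≤ s₀ + i * τ := by
    intro i
    induction i with
    | zero => intro _; exact ⟨h0, hT, by simp [hf0]⟩
    | succ i ih =>
      intro hi
      push_cast at hi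
      obtain ⟨h1, h2, h3⟩ := ih (by nlinarith)
      obtain ⟨h4, h5⟩ := hn2 (f i) h1 h2 (by nlinarith)
      rw [hfs]
      refine ⟨h4, le_trans h2 (hn1 _).le, ?_⟩
      push_cast
      linarith
  refine ⟨(Finset.range (m + 1)).image f, ?_, ?_⟩
  · rw [Finset.card_image_of_injective _ hmono.injective, Finset.card_range]
  · intro x hx
    rw [Finset.mem_image] at hx
    obtain ⟨i, hi, rfl⟩ := hx
    rw [Finset.mem_range] at hi
    have him : (i : ℝ) ≤ m := by exact_mod_cast (by omega : i ≤ m)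
    have h1 : (i : ℝ) * τ ≤ ε / 2 := le_trans (mul_le_mul_of_nonneg_right him hτ.le) hm
    obtain ⟨h2, h3, h4⟩ := hind i h1
    exact ⟨h2, h3, by linarith⟩

private theorem MainB_growth (C c θ : ℝ) (hC : 0 ≤ C) (hc : 0 < c) (hθ : 0 < θ) :
    ∃ T₀ : ℝ, 2 ≤ T₀ ∧ ∀ T : ℝ, T₀ ≤ T → C * Real.log (2 + T) < c * T ^ θ := by
  have h1 := (isLittleO_log_rpow_atTop hθ).bound (c := c / (2 * (C + 1))) (by positivity)
  obtain ⟨A, hA⟩ := Filter.eventually_atTop.1 h1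
  refine ⟨max A 2, le_max_right _ _, fun T hT => ?_⟩
  have hTA : A ≤ T := le_trans (le_max_left _ _) hT
  have hT2 : 2 ≤ T := le_trans (le_max_right _ _) hT
  have hT0 : 0 < T := by linarith
  have h2 := hA T hTA
  have hlog : 0 < Real.log T := Real.log_pos (by linarith)
  have hrp : 0 < T ^ θ := Real.rpow_pos_of_pos hT0 θ
  rw [Real.norm_of_nonneg hlog.le, Real.norm_of_nonneg hrp.le] at h2
  have h3 : Real.log (2 + T) ≤ 2 * Real.log T := by
    rw [show (2 : ℝ) * Real.log T = Real.log (T ^ 2) by rw [Real.log_pow]; norm_num]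
    apply Real.log_le_log (by linarith)
    nlinarith
  calc C * Real.log (2 + T) ≤ C * (2 * Real.log T) := mul_le_mul_of_nonneg_left h3 hC
    _ < (C + 1) * (2 * Real.log T) := by
        apply mul_lt_mul_of_pos_right _ (by positivity)
        linarith
    _ ≤ (C + 1) * (2 * (c / (2 * (C + 1)) * T ^ θ)) := by gcongr
    _ = c * T ^ θ := by
        have : C + 1 ≠ 0 := by linarith
        field_simp

theorem mainB (P : MvPolynomial (Fin 2) ℂ) (hP : P ≠ 0) : ∃ δ : ℝ, 0 < δ ∧ ∀ ε : ℝ, 0 < ε →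
    ∃ T₀ : ℝ, ∀ T : ℝ, T₀ ≤ T → ∃ s ∈ Gam, T ≤ s ∧ s ≤ T + ε ∧
      ∀ s' ∈ Gam, s < s' → s' ≤ s + δ → MvPolynomial.eval ![(s : ℂ), (s' : ℂ)] P ≠ 0 := by
  obtain ⟨δ, hδ, hδ1, θ, hθ, K, x₀, hK, hx₀, hP2⟩ := two_var P hP
  refine ⟨δ, hδ, fun ε' hε' => ?_⟩
  set ε : ℝ := min ε' 1 with hεdef
  have hε : 0 < ε := lt_min hε' one_pos
  have hε1 : ε ≤ 1 := min_le_right _ _
  have hεε' : ε ≤ ε' := min_le_left _ _
  obtain ⟨T₁, hT₁⟩ := Gam_gap (ε / 2) (by positivity)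
  obtain ⟨C, hC, hloc⟩ := Gam_local
  obtain ⟨T₂, hT₂, hgr⟩ := MainB_growth C (ε / (2 * K)) θ hC (by positivity) hθ
  refine ⟨max (max T₁ T₂) x₀, fun T hT => ?_⟩
  have h1 : T₁ ≤ T := le_trans (le_trans (le_max_left _ _) (le_max_left _ _)) hT
  have h2 : T₂ ≤ T := le_trans (le_trans (le_max_right _ _) (le_max_left _ _)) hT
  have h3 : x₀ ≤ T := le_trans (le_max_right _ _) hT
  have hTpos : 0 < T := by linarith
  by_contra hcon
  push Not at hcon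
  set τ : ℝ := K * T ^ (-θ) with hτdef
  have hτ : 0 < τ := mul_pos hK (Real.rpow_pos_of_pos hTpos _)
  have hstep : ∀ s ∈ Gam, T ≤ s → s ≤ T + ε → ∃ s' ∈ Gam, s < s' ∧ s' ≤ s + τ := by
    intro s hs hTs hsT
    obtain ⟨s', hs', hlt, hle, h0⟩ := hcon s hs hTs (by linarith)
    refine ⟨s', hs', hlt, ?_⟩
    have h4 := hP2 s (s' - s) (by linarith) (by linarith) (by linarith) (by
      have : s + (s' - s) = s' := by ring
      rw [this]
      exact h0)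
    have h5 : s ^ (-θ) ≤ T ^ (-θ) := Real.rpow_le_rpow_of_nonpos hTpos hTs (by linarith)
    have h6 : K * s ^ (-θ) ≤ τ := mul_le_mul_of_nonneg_left h5 hK.le
    linarith
  obtain ⟨s₀, hs₀, hs₀1, hs₀2⟩ := hT₁ T h1
  set m : ℕ := ⌊(ε / 2) / τ⌋₊ with hm
  have hmle : (m : ℝ) * τ ≤ ε / 2 := by
    have := Nat.floor_le (a := (ε / 2) / τ) (by positivity)
    rw [← hm] at this
    rwa [le_div_iff₀ hτ] at this
  obtain ⟨F, hFc, hF⟩ := MainB_chain Gam T ε τ hτ hstep s₀ hs₀ hs₀1 hs₀2 m hmle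
  obtain ⟨hfin, hcard⟩ := hloc T hTpos.le
  have hsub : (F : Set ℝ) ⊆ Gam ∩ Icc T (T + 1) := by
    intro x hx
    obtain ⟨h5, h6, h7⟩ := hF x hx
    exact ⟨h5, h6, by linarith⟩
  have hcle : (m : ℝ) + 1 ≤ ((Gam ∩ Icc T (T + 1)).ncard : ℝ) := by
    have h8 := Set.ncard_le_ncard hsub hfin
    rw [Set.ncard_coe_finset, hFc] at h8
    exact_mod_cast h8
  have hfl : (ε / 2) / τ < m + 1 := Nat.lt_floor_add_one _
  have heq : (ε / 2) / τ = ε / (2 * K) * T ^ θ := by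
    rw [hτdef, Real.rpow_neg hTpos.le]
    have : T ^ θ ≠ 0 := (Real.rpow_pos_of_pos hTpos θ).ne'
    field_simp
  have := hgr T h2
  rw [heq] at hfl
  linarith

end Pool.Agent.Lib.MP_ec260d_nt
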