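import Mathlib
import Pool.Agent.Lib.MP_ec260d_nt.GamGap
import Pool.Agent.Lib.MP_ec260d_nt.LinRec

/-!
# JOB MainC: consecutive ordinates satisfy no affine linear recurrence

Let `g` be the increasing enumeration of `Gam`. `g` is unbounded (`Gam` is unbounded by `Gam_gap`, `range g = Gam`, `g` strictly
increasing), so `g n → ∞`. `d n = g (n + 1) - g n > 0` tends to `0`: for `ε > 0` and `n` large, `Gam_gap ε` at
`T = g n + ε'` with small `ε'`: precisely `Gam ∩ [T, T + ε/2]` is nonempty for `T = g n + ε/2`, so the next ordinate is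
`≤ g n + ε` (`g (n+1)` is the least element of `Gam` above `g n`).
Suppose `∑ a i * g (n + i) = b` for all `n ≥ n₀`. Subtract the relations for `n + 1` and `n`: `∑ a i * d (n + i) = 0`. By `lin_rec` (complex
cast of `d`) `d` is summable, so `g n = g 0 + ∑_{m < n} d m` is bounded. Contradiction. So for every `n₀` there is `n ≥ n₀` with
`∑ a i * g (n + i) ≠ b`.
-/

open Complex Set Filter Topology

namespace Pool.Agent.Lib.MP_ec260d_nt

private theorem MainC_unbdd (x : ℝ) : ∃ s ∈ Gam, x < s := by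
  obtain ⟨T₀, hT⟩ := Gam_gap 1 one_pos
  obtain ⟨s, hs1, hs2⟩ := hT (max T₀ (x + 1)) (le_max_left _ _)
  refine ⟨s, hs1, ?_⟩
  have h1 := le_max_right T₀ (x + 1)
  linarith [hs2.1]

theorem mainC (g : ℕ → ℝ) (hg : StrictMono g) (hr : Set.range g = Gam) (k : ℕ)
    (a : Fin (k + 1) → ℂ) (ha : a ≠ 0) (b : ℂ) (n₀ : ℕ) :
    ∃ n : ℕ, n₀ ≤ n ∧ ∑ i : Fin (k + 1), a i * ((g (n + i) : ℝ) : ℂ) ≠ b := by
  by_contra hcon
  have hcon' : ∀ n : ℕ, n₀ ≤ n → ∑ i : Fin (k + 1), a i * ((g (n + i) : ℝ) : ℂ) = b := by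
    intro n hn
    by_contra h
    exact hcon ⟨n, hn, h⟩
  have htop : Tendsto g atTop atTop := by
    refine Filter.tendsto_atTop_atTop_of_monotone hg.monotone fun x => ?_
    obtain ⟨s, hs, hxs⟩ := MainC_unbdd x
    rw [← hr] at hs
    obtain ⟨m, rfl⟩ := hs
    exact ⟨m, hxs.le⟩
  have hgap : ∀ ε : ℝ, 0 < ε → ∀ᶠ n in atTop, g (n + 1) - g n ≤ ε := by
    intro ε hε
    obtain ⟨T₀, hT⟩ := Gam_gap (ε / 2) (by linarith)
    filter_upwards [htop.eventually_ge_atTop T₀] with n hn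
    obtain ⟨s, hs1, hs2⟩ := hT (g n + ε / 2) (by linarith)
    rw [← hr] at hs1
    obtain ⟨m, rfl⟩ := hs1
    have h1 : g n < g m := by linarith [hs2.1]
    have h2 : n < m := hg.lt_iff_lt.1 h1
    have h3 : g (n + 1) ≤ g m := hg.monotone h2
    linarith [hs2.2]
  have hnn : ∀ n, 0 ≤ g (n + 1) - g n := fun n => sub_nonneg.2 (hg.monotone (Nat.le_succ n))
  have hd : Tendsto (fun n : ℕ => ((g (n + 1) - g n : ℝ) : ℂ)) atTop (𝓝 0) := by
    rw [tendsto_zero_iff_norm_tendsto_zero]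
    have h1 : (fun n : ℕ => ‖((g (n + 1) - g n : ℝ) : ℂ)‖) = fun n => g (n + 1) - g n := by
      funext n
      rw [Complex.norm_real, Real.norm_of_nonneg (hnn n)]
    rw [h1]
    rw [Metric.tendsto_atTop]
    intro ε hε
    obtain ⟨N, hN⟩ := Filter.eventually_atTop.1 (hgap (ε / 2) (by linarith))
    refine ⟨N, fun n hn => ?_⟩
    rw [Real.dist_eq, sub_zero, abs_of_nonneg (hnn n)]
    linarith [hN n hn]
  have hrec : ∀ n : ℕ, n₀ ≤ n →
      ∑ i : Fin (k + 1), a i * (fun n : ℕ => ((g (n + 1) - g n : ℝ) : ℂ)) (n + i) = 0 := by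
    intro n hn
    have h1 := hcon' n hn
    have h2 := hcon' (n + 1) (by omega)
    have h3 : ∑ i : Fin (k + 1), a i * (fun n : ℕ => ((g (n + 1) - g n : ℝ) : ℂ)) (n + i) =
        ∑ i : Fin (k + 1), a i * ((g (n + 1 + i) : ℝ) : ℂ) -
          ∑ i : Fin (k + 1), a i * ((g (n + i) : ℝ) : ℂ) := by
      rw [← Finset.sum_sub_distrib]
      refine Finset.sum_congr rfl fun i _ => ?_
      have h4 : n + (i : ℕ) + 1 = n + 1 + i := by ring
      simp only [h4, Complex.ofReal_sub]
      ring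
    rw [h3, h1, h2, sub_self]
  have hsum := lin_rec k a ha _ hd n₀ hrec
  have hsum' : Summable (fun n : ℕ => g (n + 1) - g n) := by
    refine hsum.norm.congr fun n => ?_
    rw [Complex.norm_real, Real.norm_of_nonneg (hnn n)]
  have hlim := hsum'.hasSum.tendsto_sum_nat
  have h5 : (fun n => ∑ i ∈ Finset.range n, (g (i + 1) - g i)) = fun n => g n - g 0 := by
    funext n
    exact Finset.sum_range_sub g n
  rw [h5] at hlim
  have h6 : Tendsto (fun n => g n - g 0) atTop atTop :=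
    Filter.tendsto_atTop_add_const_right _ (-g 0) htop
  exact not_tendsto_nhds_of_tendsto_atTop h6 _ hlim

private theorem MainC_fin (n : ℕ) : (Gam ∩ Icc (0 : ℝ) n).Finite := by
  obtain ⟨C, _, hC⟩ := Gam_local
  induction n with
  | zero =>
    refine (hC 0 le_rfl).1.subset ?_
    intro x hx
    refine ⟨hx.1, hx.2.1, ?_⟩
    have h1 : x ≤ 0 := by simpa using hx.2.2
    linarith
  | succ n ih =>
    refine (ih.union (hC n (Nat.cast_nonneg n)).1).subset ?_
    intro x hx
    have h1 : x ≤ (n : ℝ) + 1 := by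
      have := hx.2.2
      push_cast at this
      exact this
    rcases le_total x n with h | h
    · exact Or.inl ⟨hx.1, hx.2.1, h⟩
    · exact Or.inr ⟨hx.1, h, h1⟩

private theorem MainC_least (x : ℝ) : ∃ m, m ∈ Gam ∧ x < m ∧ ∀ s ∈ Gam, x < s → m ≤ s := by
  obtain ⟨y, hy, hxy⟩ := MainC_unbdd x
  have hfin : (Gam ∩ Ioc x y).Finite := by
    refine (MainC_fin ⌈y⌉₊).subset ?_
    intro z hz
    exact ⟨hz.1, hz.1.1.le, hz.2.2.trans (Nat.le_ceil y)⟩
  obtain ⟨m, hm, hmin⟩ := Set.exists_min_image (Gam ∩ Ioc x y) id hfin ⟨y, hy, hxy, le_rfl⟩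
  refine ⟨m, hm.1, hm.2.1, fun s hs hxs => ?_⟩
  rcases le_total s y with h | h
  · exact hmin s ⟨hs, hxs, h⟩
  · exact hm.2.2.trans h

/-- the increasing enumeration of `Gam` exists: `Gam` is infinite, bounded below and locally finite
(`Gam_gap`, `Gam_local`); e.g. `Nat.orderEmbeddingOfSet`-type construction or recursion with `sInf (Gam ∩ Ioi x)`. -/
theorem exists_enum : ∃ g : ℕ → ℝ, StrictMono g ∧ Set.range g = Gam := by
  choose nx h1 h2 h3 using MainC_least
  let g : ℕ → ℝ := fun n => Nat.rec (nx 0) (fun _ y => nx y) n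
  have hg0 : g 0 = nx 0 := rfl
  have hgs : ∀ n, g (n + 1) = nx (g n) := fun n => rfl
  have hmono : StrictMono g := strictMono_nat_of_lt_succ fun n => by
    rw [hgs]
    exact h2 (g n)
  have hmem : ∀ n, g n ∈ Gam := by
    intro n
    cases n with
    | zero => exact h1 0
    | succ n => exact h1 (g n)
  refine ⟨g, hmono, Set.Subset.antisymm ?_ ?_⟩
  · rintro _ ⟨n, rfl⟩
    exact hmem n
  · intro s hs
    by_contra hns
    have hlt : ∀ n, g n < s := by
      intro n
      induction n with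
      | zero => exact lt_of_le_of_ne (h3 0 s hs hs.1) fun h => hns ⟨0, h⟩
      | succ n ih => exact lt_of_le_of_ne (h3 (g n) s hs ih) fun h => hns ⟨n + 1, h⟩
    have hinf : (Gam ∩ Icc (0 : ℝ) ⌈s⌉₊).Infinite :=
      Set.infinite_of_injective_forall_mem hmono.injective fun n =>
        ⟨hmem n, (hmem n).1.le, (hlt n).le.trans (Nat.le_ceil s)⟩
    exact hinf (MainC_fin _)

end Pool.Agent.Lib.MP_ec260d_nt
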