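import Mathlib
import Pool.Agent.Lib.MP_ec260d_nt.OrdApprox
import Pool.Agent.Lib.MP_ec260d_nt.Block
import Pool.Agent.Lib.MP_ec260d_nt.Dyadic

/-!
# JOB MainD: for almost all `n` no integral relation of small height

`ord_approx` for each `i : Fin k`; let `C₀` be the maximum of the constants (or their sum, nonnegative), `n₁` the maximum of the `n0`, `δ' = min δ (1/2)`. For `n ≥ n₁` a bad `n` (in the sense of the
theorem) satisfies `BadAt k D a B D₀ C₀ δ' c n`. Let `c, M₀` be from `block` with `δ'`. Apply `dyadic` to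
`Q n = (the condition of the theorem)` with `M₀' = max M₀ n₁`: for `n ∈ Ioc M (2M)`, `M ≥ n₁`, the condition implies `BadAt`.
-/

open Complex Set Filter Topology

namespace Pool.Agent.Lib.MP_ec260d_nt

open Classical in
theorem mainD (k D : ℕ) (a : Fin k → ℝ) (ha : ∀ i, 0 < a i) (hinj : Function.Injective a)
    (δ : ℝ) (hδ : 0 < δ) : ∃ c : ℝ, 0 < c ∧ ∃ C : ℝ, ∀ N : ℕ, 1 ≤ N →
      ((((Finset.Icc 1 N).filter (fun n : ℕ =>
        ∃ P : MvPolynomial (Option (Fin k)) ℤ, P ≠ 0 ∧ P.totalDegree ≤ D ∧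
          (∀ m, |((P.coeff m : ℤ) : ℝ)| ≤ (n : ℝ) ^ c) ∧ ∃ s : Fin k → ℝ,
            (∀ i, |(zeroCount (s i) : ℝ) - a i * n| ≤ (n : ℝ) ^ (1 - δ)) ∧
            MvPolynomial.aeval (fun o : Option (Fin k) => o.elim (n : ℝ) (fun i => s i)) P = 0)).card : ℕ) : ℝ)
        ≤ C * (N : ℝ) ^ (1 - c) := by
  obtain ⟨B, D₀, hB, hD₀, hord⟩ := ord_approx
  have hone : ∀ i : Fin k, _ := fun i => hord (a i) δ (ha i) hδ
  choose C n0 hC using hone
  set δ' : ℝ := min δ (1 / 2) with hδ'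
  have hδ'0 : 0 < δ' := lt_min hδ (by norm_num)
  set C₀ : ℝ := ∑ i, |C i| with hC₀
  have hCle : ∀ i, C i ≤ C₀ := fun i => (le_abs_self (C i)).trans
    (Finset.single_le_sum (f := fun i => |C i|) (fun j _ => abs_nonneg _) (Finset.mem_univ i))
  set n₁ : ℕ := ∑ i, n0 i with hn₁
  have hnle : ∀ i, n0 i ≤ n₁ := fun i =>
    Finset.single_le_sum (f := n0) (fun j _ => Nat.zero_le _) (Finset.mem_univ i)
  obtain ⟨c, hc, hc2, M₀, hblock⟩ := block k D a ha hinj B D₀ C₀ δ' hB hD₀ hδ'0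
  refine ⟨c, hc, ?_⟩
  refine dyadic (fun n : ℕ => ∃ P : MvPolynomial (Option (Fin k)) ℤ, P ≠ 0 ∧ P.totalDegree ≤ D ∧
          (∀ m, |((P.coeff m : ℤ) : ℝ)| ≤ (n : ℝ) ^ c) ∧ ∃ s : Fin k → ℝ,
            (∀ i, |(zeroCount (s i) : ℝ) - a i * n| ≤ (n : ℝ) ^ (1 - δ)) ∧
            MvPolynomial.aeval (fun o : Option (Fin k) => o.elim (n : ℝ) (fun i => s i)) P = 0)
    c hc hc2 (max M₀ n₁) fun M hM => ?_
  refine le_trans ?_ (hblock M ((le_max_left _ _).trans hM))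
  refine Nat.cast_le.2 (Finset.card_le_card fun n hn => ?_)
  rw [Finset.mem_filter] at hn ⊢
  obtain ⟨hnM, P, hP, hPd, hPc, s, hs, hPs⟩ := hn
  refine ⟨hnM, P, hP, hPd, hPc, s, fun i => ?_, hPs⟩
  have hnn : n₁ ≤ n := ((le_max_right _ _).trans hM).trans (Finset.mem_Ioc.1 hnM).1.le
  have h1 := hC i n ((hnle i).trans hnn) (s i) (hs i)
  refine h1.trans (mul_le_mul_of_nonneg_right (hCle i) (by positivity))

end Pool.Agent.Lib.MP_ec260d_nt
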