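import Mathlib
import Pool.Agent.Lib.MP_ec260d_nt.ZCount
import Pool.Agent.Lib.MP_ec260d_nt.Lam

/-!
# JOB OrdRealL: the ordinate with index close to `a y`, relative tolerance `τ`

The same proof as in OrdReal.lean (done: copy and adapt): with `G x = B x (log x - c)`, `G' ≥ B` on `[X₀, ∞)`, `|G s - a y| ≤ |N s - a y| + C₀ s ^ (1/2) ≤ τ y + C₁ y ^ (1/2)`
(`s ≤ N s ≤ (a + τ) y ≤ 2 a y` for `y` large; `N s ≥ (a - τ) y ≥ (a / 2) y → ∞`), and `G (g) = a y` for `g = (a y / B) / lam (a y / D₀)`. So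
`|s - g| ≤ (τ y + C₁ y ^ (1/2)) / B`.
-/

open Complex Set Filter Topology

namespace Pool.Agent.Lib.MP_ec260d_nt

open Pool.Agent.Lib.MP_00e05b_nt

private lemma OrdRealL_summ (T : ℝ) :
    Summable (fun a : ℂ => (mx a : ℝ) * (if 0 < a.im ∧ a.im ≤ T then 1 else 0)) := by
  obtain ⟨C, _, h⟩ := zero_sum 2 (by norm_num)
  refine Summable.of_norm_bounded (((h 0).1).mul_left ((1 + |T|) ^ (2 : ℝ))) fun a => ?_
  have hm : (0 : ℝ) ≤ (mx a : ℝ) := Nat.cast_nonneg _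
  have h1 : 0 < 1 + |0 - a.im| := by positivity
  have h2 : 0 < (1 + |0 - a.im|) ^ (2 : ℝ) := Real.rpow_pos_of_pos h1 _
  have h3 : 0 < (1 + |T|) ^ (2 : ℝ) := Real.rpow_pos_of_pos (by positivity) _
  split_ifs with hc
  · rw [mul_one, Real.norm_of_nonneg hm]
    have h4 : |0 - a.im| ≤ |T| := by
      rw [zero_sub, abs_neg, abs_of_pos hc.1]
      exact hc.2.trans (le_abs_self T)
    have h5 : (1 + |0 - a.im|) ^ (2 : ℝ) ≤ (1 + |T|) ^ (2 : ℝ) :=
      Real.rpow_le_rpow h1.le (by linarith) (by norm_num)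
    have h6 : (mx a : ℝ) * (1 + |0 - a.im|) ^ (2 : ℝ) ≤ (1 + |T|) ^ (2 : ℝ) * mx a := by
      rw [mul_comm]
      exact mul_le_mul_of_nonneg_right h5 hm
    rw [← mul_div_assoc, le_div_iff₀ h2]
    exact h6
  · rw [mul_zero, norm_zero]
    positivity

private lemma OrdRealL_mono {S T : ℝ} (h : S ≤ T) : NZ S ≤ NZ T := by
  refine (OrdRealL_summ S).tsum_le_tsum (fun a => ?_) (OrdRealL_summ T)
  have hm : (0 : ℝ) ≤ (mx a : ℝ) := Nat.cast_nonneg _
  refine mul_le_mul_of_nonneg_left ?_ hm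
  split_ifs with h1 h2 h2
  · exact le_rfl
  · exact absurd ⟨h1.1, h1.2.trans h⟩ h2
  · norm_num
  · exact le_rfl

private lemma OrdRealL_G {B c x y : ℝ} (hB : 0 < B) (hy : Real.exp c ≤ y) (hxy : y ≤ x) :
    B * (x - y) ≤ B * x * (Real.log x - c) - B * y * (Real.log y - c) := by
  have hy0 : 0 < y := (Real.exp_pos c).trans_le hy
  have hx0 : 0 < x := hy0.trans_le hxy
  have h1 : c ≤ Real.log y := by
    rw [Real.le_log_iff_exp_le hy0]
    exact hy
  have h2 : 1 - (x / y)⁻¹ ≤ Real.log (x / y) := Real.one_sub_inv_le_log_of_pos (div_pos hx0 hy0)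
  rw [Real.log_div hx0.ne' hy0.ne', inv_div] at h2
  have h3 : x * (1 - y / x) ≤ x * (Real.log x - Real.log y) := mul_le_mul_of_nonneg_left h2 hx0.le
  have h4 : x * (1 - y / x) = x - y := by field_simp
  rw [h4] at h3
  have h5 : 0 ≤ (x - y) * (Real.log y - c) := mul_nonneg (by linarith) (by linarith)
  have h6 : x - y ≤ x * (Real.log x - c) - y * (Real.log y - c) := by nlinarith only [h3, h5]
  have h7 := mul_le_mul_of_nonneg_left h6 hB.le
  linarith only [h7]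

private lemma OrdRealL_G2 {B c x y : ℝ} (hB : 0 < B) (hx : Real.exp c ≤ x) (hy : Real.exp c ≤ y) :
    B * |x - y| ≤ |B * x * (Real.log x - c) - B * y * (Real.log y - c)| := by
  rcases le_total y x with h | h
  · have h1 := OrdRealL_G hB hy h
    rw [abs_of_nonneg (by linarith : 0 ≤ x - y)]
    exact h1.trans (le_abs_self _)
  · have h1 := OrdRealL_G hB hx h
    rw [abs_sub_comm x y, abs_of_nonneg (by linarith : 0 ≤ y - x), abs_sub_comm]
    exact h1.trans (le_abs_self _)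

private lemma OrdRealL_one {c C0 : ℝ} (hC0 : 0 ≤ C0)
    (hr : ∀ T : ℝ, 1 ≤ T → |NZ T - T / (2 * Real.pi) * (Real.log T - c)| ≤ C0 * T ^ ((1 : ℝ) / 2))
    {a : ℝ} (ha : 0 < a) :
    ∃ C : ℝ, 0 ≤ C ∧ ∀ᶠ n : ℝ in atTop, ∀ E : ℝ, 0 ≤ E → E ≤ n * (a / 2) → ∀ x : ℝ, |NZ x - a * n| ≤ E →
      |x - (a * n / (1 / (2 * Real.pi))) / lam (a * n / (1 / (2 * Real.pi) * Real.exp c))| ≤
        C * (E + n ^ ((1 : ℝ) / 2)) := by
  set B : ℝ := 1 / (2 * Real.pi) with hBdef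
  have hπ := Real.pi_pos
  have hB : 0 < B := by positivity
  set D : ℝ := B * Real.exp c with hDdef
  have hD : 0 < D := mul_pos hB (Real.exp_pos c)
  set M : ℝ := 2 * Real.pi * (1 + C0) with hM
  have hM0 : 0 ≤ M := by positivity
  set X1 : ℝ := max 1 (Real.exp (c + M)) with hX1
  set C1 : ℝ := 1 + C0 * (2 * a) ^ ((1 : ℝ) / 2) with hC1
  have hC2 : 0 ≤ C0 * (2 * a) ^ ((1 : ℝ) / 2) := by positivity
  have hC10 : 0 ≤ C1 := by positivity
  refine ⟨C1 / B, by positivity, ?_⟩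
  -- eventual facts
  have hcast : Tendsto (fun n : ℝ => n) atTop atTop := tendsto_id
  have ev2 : ∀ᶠ n : ℝ in atTop, 2 * (|NZ X1| + 1) / a ≤ n := hcast.eventually_ge_atTop _
  have ev3 : ∀ᶠ n : ℝ in atTop, (1 : ℝ) ≤ n := hcast.eventually_ge_atTop _
  have ev4 : ∀ᶠ n : ℝ in atTop, max M (-c) ≤ lam (a * n / D) := by
    have h1 : Tendsto (fun n : ℝ => a * n / D) atTop atTop :=
      (hcast.const_mul_atTop ha).atTop_div_const hD
    exact (lam_tendsto.comp h1).eventually_ge_atTop _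
  filter_upwards [ev2, ev3, ev4] with n e2 e3 e4 E hE0 hE x hx
  have hn0 : (0 : ℝ) < n := by linarith
  have hnh : 0 ≤ n ^ ((1 : ℝ) / 2) := by positivity
  obtain ⟨hx1, hx2⟩ := abs_le.1 hx
  -- (i)
  have hxX : X1 ≤ x := by
    by_contra hlt
    push Not at hlt
    have h1 := OrdRealL_mono hlt.le
    have h2 : 2 * (|NZ X1| + 1) ≤ n * a := by
      rw [div_le_iff₀ ha] at e2
      exact e2
    have h3 := le_abs_self (NZ X1)
    linarith
  have hx1' : 1 ≤ x := (le_max_left _ _).trans hxX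
  have hx0 : 0 < x := by linarith
  have hxe : Real.exp (c + M) ≤ x := (le_max_right _ _).trans hxX
  have hlog : c + M ≤ Real.log x := (Real.le_log_iff_exp_le hx0).2 hxe
  have hrx := hr x hx1'
  obtain ⟨hr1, hr2⟩ := abs_le.1 hrx
  -- (ii)
  have hsq : x ^ ((1 : ℝ) / 2) ≤ x := by
    have := Real.rpow_le_rpow_of_exponent_le hx1' (by norm_num : (1 : ℝ) / 2 ≤ 1)
    rwa [Real.rpow_one] at this
  have hxN : x ≤ NZ x := by
    have h1 : x / (2 * Real.pi) * M ≤ x / (2 * Real.pi) * (Real.log x - c) :=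
      mul_le_mul_of_nonneg_left (by linarith) (by positivity)
    have h2 : x / (2 * Real.pi) * M = x * (1 + C0) := by
      rw [hM]
      field_simp
    have h3 := mul_le_mul_of_nonneg_left hsq hC0
    linarith
  have hxn : x ≤ (2 * a) * n := by
    have han : 0 < a * n := mul_pos ha hn0
    linarith
  -- (iii)
  have hG : |B * x * (Real.log x - c) - a * n| ≤ C1 * (E + n ^ ((1 : ℝ) / 2)) := by
    have h1 : B * x * (Real.log x - c) = x / (2 * Real.pi) * (Real.log x - c) := by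
      rw [hBdef]
      ring
    have h2 : x ^ ((1 : ℝ) / 2) ≤ (2 * a) ^ ((1 : ℝ) / 2) * n ^ ((1 : ℝ) / 2) := by
      have h3 : x ^ ((1 : ℝ) / 2) ≤ ((2 * a) * n) ^ ((1 : ℝ) / 2) :=
        Real.rpow_le_rpow hx0.le hxn (by norm_num)
      rwa [Real.mul_rpow (by linarith) hn0.le] at h3
    have h4 := mul_le_mul_of_nonneg_left h2 hC0
    have h5 : B * x * (Real.log x - c) - a * n =
        (NZ x - a * n) - (NZ x - x / (2 * Real.pi) * (Real.log x - c)) := by
      rw [h1]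
      ring
    rw [h5]
    refine (abs_sub _ _).trans ?_
    have h6 : C1 * (E + n ^ ((1 : ℝ) / 2)) = E +
        C0 * ((2 * a) ^ ((1 : ℝ) / 2) * n ^ ((1 : ℝ) / 2)) +
        (n ^ ((1 : ℝ) / 2) + C0 * (2 * a) ^ ((1 : ℝ) / 2) * E) := by
      rw [hC1]
      ring
    rw [h6]
    have h7 : 0 ≤ n ^ ((1 : ℝ) / 2) + C0 * (2 * a) ^ ((1 : ℝ) / 2) * E :=
      add_nonneg hnh (mul_nonneg hC2 hE0)
    have h8 := add_le_add hx (hrx.trans h4)
    linarith
  -- (iv)
  have hy0 : 0 < a * n / D := by positivity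
  have hye : -Real.exp (-1) < a * n / D := by
    have := Real.exp_pos (-1)
    linarith
  obtain ⟨_, hw2, _⟩ := lam_spec hye
  have hw0 := lam_pos hy0
  set w := lam (a * n / D) with hw
  have hg : a * n / B / w = Real.exp (c + w) := by
    have h1 : a * n / B = a * n / D * Real.exp c := by
      rw [hDdef]
      have := (Real.exp_pos c).ne'
      field_simp
    rw [h1, ← hw2, Real.exp_add]
    field_simp
  rw [hg]
  have e5 : -c ≤ w := (le_max_right _ _).trans e4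
  have hge : Real.exp c ≤ Real.exp (c + w) := Real.exp_le_exp.2 (by linarith)
  have hxc : Real.exp c ≤ x := (Real.exp_le_exp.2 (by linarith)).trans hxe
  have hGg : B * Real.exp (c + w) * (Real.log (Real.exp (c + w)) - c) = a * n := by
    rw [Real.log_exp, Real.exp_add]
    have h1 : B * (Real.exp c * Real.exp w) * (c + w - c) = D * (w * Real.exp w) := by
      rw [hDdef]
      ring
    rw [h1, hw2]
    field_simp
  have hfin := OrdRealL_G2 hB hxc hge
  rw [hGg] at hfin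
  rw [div_mul_eq_mul_div, le_div_iff₀ hB, mul_comm]
  exact hfin.trans hG

theorem ord_realL : ∃ B D₀ : ℝ, 0 < B ∧ 0 < D₀ ∧ ∀ a : ℝ, 0 < a →
    ∃ (C y₀ : ℝ), 0 ≤ C ∧ ∀ y : ℝ, y₀ ≤ y → ∀ τ : ℝ, 0 ≤ τ → τ ≤ a / 2 → ∀ s : ℝ,
      |(zeroCount s : ℝ) - a * y| ≤ τ * y →
      |s - (a * y / B) / lam (a * y / D₀)| ≤ C * (τ * y + y ^ ((1 : ℝ) / 2)) := by
  obtain ⟨c, C0, hC0, hr⟩ := rvm
  refine ⟨1 / (2 * Real.pi), 1 / (2 * Real.pi) * Real.exp c, by positivity, by positivity, ?_⟩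
  intro a ha
  obtain ⟨C, hCnn, hC⟩ := OrdRealL_one hC0 hr ha
  obtain ⟨n1, hn1⟩ := eventually_atTop.1 hC
  refine ⟨C, max n1 1, hCnn, fun y hy τ hτ0 hτ s hs => ?_⟩
  have hy1 : n1 ≤ y := (le_max_left _ _).trans hy
  have hy2 : 1 ≤ y := (le_max_right _ _).trans hy
  have hy0 : 0 ≤ y := by linarith
  refine hn1 y hy1 (τ * y) (mul_nonneg hτ0 hy0) ?_ s ?_
  · rw [mul_comm]
    exact mul_le_mul_of_nonneg_left hτ hy0
  · rw [← zeroCount_eq]
    exact hs

end Pool.Agent.Lib.MP_ec260d_nt
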