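import Mathlib
import Pool.Agent.Lib.MP_ec260d_nt.IndepPairs

/-!
# JOB PairLower: lower bound for polynomials in `gE (A i + c i z)`

Take `Φ, D` from `germ_poly` and apply `log_germ`. First alternative (`Φ = 0` near `0`): for `z` large put `t = 1 / gE z`, `u = -t log t`; since `gE z + log (gE z) = z` we have
`1/t - log t = z`, i.e. `(1 + u)/t = z` and `u/t + log t = 0`; `(t, u) → 0` as `z → ∞` (`gE_tendsto`, `t log t → 0`). So `Q (gE (A i + c i z)) = 0` for all large `z`, and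
`indep_pairs` (on some interval) gives `Q = 0`, contradiction. Second alternative: for `z` large, with the same `t`: `‖Φ (t, u)‖ ≥ c' t ^ K`, and `Φ (t, u) = t ^ D * Q(...)`, `0 < t ≤ 1`, so
`‖Q(...)‖ ≥ c' t ^ K / t ^ D ≥ c' t ^ K ≥ c' / z ^ K` (`t = 1/gE z ≥ 1/z`, `gE_bounds`).
-/

open Real Set Filter Topology

namespace Pool.Agent.Lib.MP_ec260d_nt

theorem pair_lower (k : ℕ) (A c : Fin k → ℝ) (hc : ∀ i, 0 < c i)
    (hinj : Function.Injective (fun i => (A i, c i))) (Q : MvPolynomial (Fin k) ℂ) (hQ : Q ≠ 0) :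
    ∃ C : ℝ, 0 < C ∧ ∃ K : ℕ, ∀ᶠ z in atTop,
      C / z ^ K ≤ ‖MvPolynomial.eval (fun i => ((gE (A i + c i * z) : ℝ) : ℂ)) Q‖ := by
  obtain ⟨Φ, hΦ, D, hΦD⟩ := germ_poly k A c hc Q
  -- the curve
  have ht0 : Tendsto (fun z : ℝ => (gE z)⁻¹) atTop (𝓝 0) :=
    tendsto_inv_atTop_zero.comp gE_tendsto
  have ht : Tendsto (fun z : ℝ => (gE z)⁻¹) atTop (𝓝[>] 0) := by
    refine tendsto_nhdsWithin_iff.2 ⟨ht0, ?_⟩
    filter_upwards with z
    exact inv_pos.2 (gE_pos z)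
  have hu : Tendsto (fun z : ℝ => -(gE z)⁻¹ * Real.log ((gE z)⁻¹)) atTop (𝓝 0) := by
    have h1 : Tendsto (fun t : ℝ => Real.log t * t) (𝓝[>] 0) (𝓝 0) := by
      have h2 := tendsto_log_mul_rpow_nhdsGT_zero (r := 1) one_pos
      simpa using h2
    have h3 := (h1.comp ht).neg
    rw [neg_zero] at h3
    refine h3.congr fun z => ?_
    simp only [Function.comp]
    ring
  have hcurve : Tendsto (fun z : ℝ => (((gE z)⁻¹, -(gE z)⁻¹ * Real.log ((gE z)⁻¹)) : ℝ × ℝ)) atTop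
      (𝓝 0) := by
    exact ht0.prodMk_nhds hu
  have hval : ∀ᶠ z : ℝ in atTop, Φ ((gE z)⁻¹, -(gE z)⁻¹ * Real.log ((gE z)⁻¹)) =
      (((gE z)⁻¹ : ℝ) : ℂ) ^ D *
        MvPolynomial.eval (fun i => ((gE (A i + c i * z) : ℝ) : ℂ)) Q := by
    filter_upwards [hcurve.eventually hΦD] with z hz
    have hg := gE_pos z
    have hlog := gE_add_log z
    rw [hz (inv_pos.2 hg)]
    have e1 : (1 + -(gE z)⁻¹ * Real.log ((gE z)⁻¹)) / (gE z)⁻¹ = z := by
      rw [Real.log_inv]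
      field_simp
      linarith
    have e2 : -(gE z)⁻¹ * Real.log ((gE z)⁻¹) / (gE z)⁻¹ + Real.log ((gE z)⁻¹) = 0 := by
      rw [Real.log_inv]
      field_simp
      ring
    simp only [e1, e2, sub_zero]
  rcases log_germ Φ hΦ with h0 | ⟨c', hc', K, hK⟩
  · exfalso
    apply hQ
    have hz : ∀ᶠ z : ℝ in atTop,
        MvPolynomial.eval (fun i => ((gE (A i + c i * z) : ℝ) : ℂ)) Q = 0 := by
      filter_upwards [hcurve.eventually h0, hval] with z h1 h2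
      rw [h1] at h2
      have hg : (((gE z)⁻¹ : ℝ) : ℂ) ^ D ≠ 0 := by
        apply pow_ne_zero
        exact_mod_cast (inv_pos.2 (gE_pos z)).ne'
      exact (mul_eq_zero.1 h2.symm).resolve_left hg
    obtain ⟨z₀, hz₀⟩ := eventually_atTop.1 hz
    refine indep_pairs k A c hc hinj Q z₀ (z₀ + 1) (by linarith) ?_
    intro z hz'
    exact hz₀ z hz'.1.le
  · refine ⟨c', hc', K, ?_⟩
    filter_upwards [ht.eventually hK, hval, eventually_ge_atTop (1 : ℝ)] with z h1 h2 h3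
    obtain ⟨hb1, hb2, -⟩ := gE_bounds h3
    have hg : 0 < gE z := gE_pos z
    have htpos : 0 < (gE z)⁻¹ := inv_pos.2 hg
    have ht1 : (gE z)⁻¹ ≤ 1 := inv_le_one_of_one_le₀ hb1
    have htz : z⁻¹ ≤ (gE z)⁻¹ := inv_anti₀ hg hb2
    have h4 : ‖Φ ((gE z)⁻¹, -(gE z)⁻¹ * Real.log ((gE z)⁻¹))‖ ≤
        ‖MvPolynomial.eval (fun i => ((gE (A i + c i * z) : ℝ) : ℂ)) Q‖ := by
      rw [h2, norm_mul, norm_pow, Complex.norm_real, Real.norm_of_nonneg htpos.le]
      calc (gE z)⁻¹ ^ D * ‖MvPolynomial.eval (fun i => ((gE (A i + c i * z) : ℝ) : ℂ)) Q‖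
          ≤ 1 * ‖MvPolynomial.eval (fun i => ((gE (A i + c i * z) : ℝ) : ℂ)) Q‖ := by
            apply mul_le_mul_of_nonneg_right _ (norm_nonneg _)
            exact pow_le_one₀ htpos.le ht1
        _ = _ := one_mul _
    calc c' / z ^ K = c' * (z⁻¹) ^ K := by rw [inv_pow, div_eq_mul_inv]
      _ ≤ c' * (gE z)⁻¹ ^ K := by
          apply mul_le_mul_of_nonneg_left _ hc'.le
          exact pow_le_pow_left₀ (inv_nonneg.2 (by linarith)) htz K
      _ ≤ _ := h1.trans h4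

end Pool.Agent.Lib.MP_ec260d_nt
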