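import Mathlib

/-!
# JOB WPertL: perturbation of a polynomial with real weights, relative tolerance `τ`

This is `w_pert` of WPert.lean (done: copy and adapt the proof) with the hypothesis `|s i - g i| ≤ C * τ * x ^ (b i)` for a number `0 ≤ τ ≤ 1` instead of
`|s i - g i| ≤ C * (x ^ (b i)) ^ (1 - δ)`.
The weight of `X none` is `1`, of `X (some i)` is `b i > 0`; `wt m = m none + ∑ i, b i * m (some i)`; `d` is the maximum of `wt m` over the support, `p = ∑ m ∈ P.support with wt m = d,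
monomial m.some (P.coeff m) ≠ 0`. Error: monomials with `wt m < d` contribute at most `C' x ^ (d - δ₁)`; for `wt m = d`:
`|∏ s i ^ (m (some i)) - ∏ g i ^ (m (some i))| ≤ C₁ x ^ (∑ b i m (some i)) τ` (telescoping; `|s i|, |g i| ≤ 2 |C| x ^ (b i)`).
-/

open MvPolynomial

namespace Pool.Agent.Lib.MP_ec260d_nt

private noncomputable def WPertL_wt {k : ℕ} (b : Fin k → ℝ) (m : Option (Fin k) →₀ ℕ) : ℝ :=
  (m none : ℝ) + ∑ i, b i * (m (some i) : ℝ)

private lemma WPertL_scale {k : ℕ} (b : Fin k → ℝ) (m : Option (Fin k) →₀ ℕ) (x : ℝ) (hx : 0 < x)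
    (s : Fin k → ℝ) : x ^ (m none) * ∏ i, s i ^ (m (some i)) =
      x ^ (WPertL_wt b m) * ∏ i, (s i / x ^ (b i)) ^ (m (some i)) := by
  have h1 : x ^ (WPertL_wt b m) = x ^ (m none) * ∏ i, (x ^ (b i)) ^ (m (some i)) := by
    unfold WPertL_wt
    rw [Real.rpow_add hx, Real.rpow_natCast, Real.rpow_sum_of_pos hx]
    congr 1
    apply Finset.prod_congr rfl
    intro i _
    rw [Real.rpow_mul hx.le, Real.rpow_natCast]
  rw [h1, mul_assoc, ← Finset.prod_mul_distrib]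
  congr 1
  apply Finset.prod_congr rfl
  intro i _
  have h2 : x ^ (b i) ≠ 0 := (Real.rpow_pos_of_pos hx _).ne'
  rw [← mul_pow]
  congr 1
  field_simp

private lemma WPertL_prod {k : ℕ} (n : Fin k → ℕ) (A : ℝ) (hA : 1 ≤ A) (S : Finset (Fin k)) :
    ∃ M : ℝ, 0 ≤ M ∧ ∀ (u v : Fin k → ℝ) (η : ℝ), 0 ≤ η → (∀ i, |u i| ≤ A) → (∀ i, |v i| ≤ A) →
      (∀ i, |u i - v i| ≤ η) → |∏ i ∈ S, u i ^ n i| ≤ M ∧
        |∏ i ∈ S, u i ^ n i - ∏ i ∈ S, v i ^ n i| ≤ M * η := by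
  classical
  induction S using Finset.induction_on with
  | empty =>
    refine ⟨1, zero_le_one, fun u v η hη _ _ _ => ?_⟩
    simp [hη]
  | insert a S ha ih =>
    obtain ⟨M, hM, h⟩ := ih
    have hA0 : 0 ≤ A := by linarith
    refine ⟨A ^ n a * M + (n a * A ^ (n a - 1)) * M, by positivity, ?_⟩
    intro u v η hη hu hv huv
    obtain ⟨h1, h2⟩ := h u v η hη hu hv huv
    rw [Finset.prod_insert ha, Finset.prod_insert ha]
    have h3 : |u a ^ n a| ≤ A ^ n a := by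
      rw [abs_pow]
      exact pow_le_pow_left₀ (abs_nonneg _) (hu a) _
    have h3' : |v a ^ n a| ≤ A ^ n a := by
      rw [abs_pow]
      exact pow_le_pow_left₀ (abs_nonneg _) (hv a) _
    have h4 : |u a ^ n a - v a ^ n a| ≤ η * n a * A ^ (n a - 1) := by
      refine (abs_pow_sub_pow_le _ _ _).trans ?_
      have h5 : (max |u a| |v a|) ^ (n a - 1) ≤ A ^ (n a - 1) :=
        pow_le_pow_left₀ (le_trans (abs_nonneg _) (le_max_left _ _)) (max_le (hu a) (hv a)) _
      have h6 : |u a - v a| * n a ≤ η * n a :=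
        mul_le_mul_of_nonneg_right (huv a) (Nat.cast_nonneg _)
      exact mul_le_mul h6 h5 (by positivity) (by positivity)
    constructor
    · rw [abs_mul]
      have h5 : |u a ^ n a| * |∏ i ∈ S, u i ^ n i| ≤ A ^ n a * M :=
        mul_le_mul h3 h1 (abs_nonneg _) (by positivity)
      have h6 : 0 ≤ (n a * A ^ (n a - 1)) * M := by positivity
      linarith
    · have h5 : u a ^ n a * ∏ i ∈ S, u i ^ n i - v a ^ n a * ∏ i ∈ S, v i ^ n i =
          (u a ^ n a - v a ^ n a) * ∏ i ∈ S, u i ^ n i +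
            v a ^ n a * (∏ i ∈ S, u i ^ n i - ∏ i ∈ S, v i ^ n i) := by ring
      rw [h5]
      refine (abs_add_le _ _).trans ?_
      rw [abs_mul, abs_mul]
      have h6 : |u a ^ n a - v a ^ n a| * |∏ i ∈ S, u i ^ n i| ≤ η * n a * A ^ (n a - 1) * M :=
        mul_le_mul h4 h1 (abs_nonneg _) (by positivity)
      have h7 : |v a ^ n a| * |∏ i ∈ S, u i ^ n i - ∏ i ∈ S, v i ^ n i| ≤ A ^ n a * (M * η) :=
        mul_le_mul h3' h2 (abs_nonneg _) (by positivity)
      calc _ ≤ η * n a * A ^ (n a - 1) * M + A ^ n a * (M * η) := add_le_add h6 h7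
        _ = _ := by ring

private lemma WPertL_term {k : ℕ} (b : Fin k → ℝ) (hb : ∀ i, 0 < b i) (d : ℝ)
    (m : Option (Fin k) →₀ ℕ) (hm : WPertL_wt b m ≤ d) : ∃ δ' : ℝ, 0 < δ' ∧ ∀ C : ℝ, ∃ K : ℝ, 0 ≤ K ∧
      ∀ x : ℝ, 1 ≤ x → ∀ τ : ℝ, 0 ≤ τ → τ ≤ 1 → ∀ s g : Fin k → ℝ,
        (∀ i, |g i| ≤ C * x ^ (b i)) → (∀ i, |s i - g i| ≤ C * τ * x ^ (b i)) →
          |x ^ (m none) * ∏ i, s i ^ (m (some i)) -
            x ^ d * (if WPertL_wt b m = d then ∏ i, (g i / x ^ (b i)) ^ (m (some i)) else 0)|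
              ≤ K * (τ * x ^ d + x ^ (d - δ')) := by
  -- general bounds
  have hgen : ∀ C : ℝ, ∀ x : ℝ, 1 ≤ x → ∀ τ : ℝ, 0 ≤ τ → τ ≤ 1 → ∀ s g : Fin k → ℝ,
        (∀ i, |g i| ≤ C * x ^ (b i)) → (∀ i, |s i - g i| ≤ C * τ * x ^ (b i)) →
        (∀ i, |s i / x ^ (b i)| ≤ 2 * |C| + 1) ∧ (∀ i, |g i / x ^ (b i)| ≤ 2 * |C| + 1) ∧
        (∀ i, |s i / x ^ (b i) - g i / x ^ (b i)| ≤ |C| * τ) := by
    intro C x hx τ hτ0 hτ1 s g hg hs
    have hx0 : 0 < x := by linarith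
    have hX0 : ∀ i, 0 < x ^ (b i) := fun i => Real.rpow_pos_of_pos hx0 _
    have h1 : ∀ i, |g i / x ^ (b i)| ≤ |C| := by
      intro i
      rw [abs_div, abs_of_pos (hX0 i), div_le_iff₀ (hX0 i)]
      exact (hg i).trans (mul_le_mul_of_nonneg_right (le_abs_self C) (hX0 i).le)
    have h6 : ∀ i, |s i / x ^ (b i) - g i / x ^ (b i)| ≤ |C| * τ := by
      intro i
      rw [← sub_div, abs_div, abs_of_pos (hX0 i), div_le_iff₀ (hX0 i)]
      refine (hs i).trans ?_
      exact mul_le_mul_of_nonneg_right (mul_le_mul_of_nonneg_right (le_abs_self C) hτ0) (hX0 i).le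
    refine ⟨fun i => ?_, fun i => ?_, h6⟩
    · have h7 : |s i / x ^ (b i)| ≤ |s i / x ^ (b i) - g i / x ^ (b i)| + |g i / x ^ (b i)| := by
        have := abs_add_le (s i / x ^ (b i) - g i / x ^ (b i)) (g i / x ^ (b i))
        rwa [sub_add_cancel] at this
      have h8 : |C| * τ ≤ |C| * 1 := mul_le_mul_of_nonneg_left hτ1 (abs_nonneg C)
      have h9 := h6 i
      have h10 := h1 i
      linarith
    · have h10 := h1 i
      have h11 := abs_nonneg C
      linarith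
  rcases hm.eq_or_lt with hmd | hmd
  · refine ⟨1, one_pos, fun C => ?_⟩
    obtain ⟨M, hM, hMb⟩ := WPertL_prod (fun i => m (some i)) (2 * |C| + 1)
      (by have := abs_nonneg C; linarith) Finset.univ
    refine ⟨M * |C|, by positivity, fun x hx τ hτ0 hτ1 s g hg hs => ?_⟩
    have hx0 : 0 < x := by linarith
    obtain ⟨h1, h2, h3⟩ := hgen C x hx τ hτ0 hτ1 s g hg hs
    rw [WPertL_scale b m x hx0, if_pos hmd, hmd, ← mul_sub, abs_mul,
      abs_of_pos (Real.rpow_pos_of_pos hx0 _)]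
    have h4 := (hMb _ _ (|C| * τ) (by positivity) h1 h2 h3).2
    have h5 : 0 ≤ M * |C| * x ^ (d - 1) :=
      mul_nonneg (by positivity) (Real.rpow_pos_of_pos hx0 _).le
    calc _ ≤ x ^ d * (M * (|C| * τ)) :=
          mul_le_mul_of_nonneg_left h4 (Real.rpow_pos_of_pos hx0 _).le
      _ ≤ x ^ d * (M * (|C| * τ)) + M * |C| * x ^ (d - 1) := by linarith
      _ = _ := by ring
  · refine ⟨d - WPertL_wt b m, by linarith, fun C => ?_⟩
    obtain ⟨M, hM, hMb⟩ := WPertL_prod (fun i => m (some i)) (2 * |C| + 1)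
      (by have := abs_nonneg C; linarith) Finset.univ
    refine ⟨M, hM, fun x hx τ hτ0 hτ1 s g hg hs => ?_⟩
    have hx0 : 0 < x := by linarith
    obtain ⟨h1, h2, h3⟩ := hgen C x hx τ hτ0 hτ1 s g hg hs
    rw [WPertL_scale b m x hx0, if_neg hmd.ne, mul_zero, sub_zero, sub_sub_cancel, abs_mul,
      abs_of_pos (Real.rpow_pos_of_pos hx0 _), mul_comm]
    have h4 := (hMb _ _ (|C| * τ) (by positivity) h1 h2 h3).1
    have h5 : 0 ≤ M * (τ * x ^ d) :=
      mul_nonneg hM (mul_nonneg hτ0 (Real.rpow_pos_of_pos hx0 _).le)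
    have h6 := mul_le_mul_of_nonneg_right h4 (Real.rpow_pos_of_pos hx0 (WPertL_wt b m)).le
    rw [mul_add]
    linarith

theorem w_pertL (k : ℕ) (b : Fin k → ℝ) (hb : ∀ i, 0 < b i) (P : MvPolynomial (Option (Fin k)) ℂ)
    (hP : P ≠ 0) : ∃ (d : ℝ) (p : MvPolynomial (Fin k) ℂ) (δ' : ℝ), p ≠ 0 ∧ 0 < δ' ∧
      ∀ C : ℝ, ∃ C' : ℝ, ∀ x : ℝ, 1 ≤ x → ∀ τ : ℝ, 0 ≤ τ → τ ≤ 1 → ∀ s g : Fin k → ℝ,
        (∀ i, |g i| ≤ C * x ^ (b i)) → (∀ i, |s i - g i| ≤ C * τ * x ^ (b i)) →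
          ‖eval (fun o : Option (Fin k) => o.elim (x : ℂ) (fun i => ((s i : ℝ) : ℂ))) P -
              ((x ^ d : ℝ) : ℂ) * eval (fun i => ((g i / x ^ (b i) : ℝ) : ℂ)) p‖ ≤
            C' * (τ * x ^ d + x ^ (d - δ')) := by
  classical
  have hne : P.support.Nonempty := MvPolynomial.support_nonempty.2 hP
  obtain ⟨m0, hm0, hmax⟩ := Finset.exists_max_image P.support (WPertL_wt b) hne
  obtain ⟨d, hd⟩ : ∃ d, d = WPertL_wt b m0 := ⟨_, rfl⟩
  rw [← hd] at hmax
  have hterm : ∀ m : Option (Fin k) →₀ ℕ, ∃ δ' : ℝ, 0 < δ' ∧ (m ∈ P.support → ∀ C : ℝ, ∃ K : ℝ, 0 ≤ K ∧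
      ∀ x : ℝ, 1 ≤ x → ∀ τ : ℝ, 0 ≤ τ → τ ≤ 1 → ∀ s g : Fin k → ℝ,
        (∀ i, |g i| ≤ C * x ^ (b i)) → (∀ i, |s i - g i| ≤ C * τ * x ^ (b i)) →
          |x ^ (m none) * ∏ i, s i ^ (m (some i)) -
            x ^ d * (if WPertL_wt b m = d then ∏ i, (g i / x ^ (b i)) ^ (m (some i)) else 0)|
              ≤ K * (τ * x ^ d + x ^ (d - δ'))) := by
    intro m
    by_cases hm : m ∈ P.support
    · obtain ⟨δ', h1, h2⟩ := WPertL_term b hb d m (hmax m hm)
      exact ⟨δ', h1, fun _ => h2⟩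
    · exact ⟨1, one_pos, fun h => absurd h hm⟩
  choose δm hδm hK using hterm
  obtain ⟨m1, hm1, hmin⟩ := Finset.exists_min_image P.support δm hne
  obtain ⟨p, hp⟩ : ∃ p : MvPolynomial (Fin k) ℂ, p = ∑ m ∈ P.support.filter (fun m => WPertL_wt b m = d),
      monomial m.some (P.coeff m) := ⟨_, rfl⟩
  refine ⟨d, p, δm m1, ?_, hδm m1, ?_⟩
  · intro h0
    have h1 : p.coeff m0.some = P.coeff m0 := by
      rw [hp, coeff_sum, Finset.sum_eq_single m0]
      · rw [coeff_monomial, if_pos rfl]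
      · intro m hm hmm
        rw [coeff_monomial, if_neg]
        intro h2
        apply hmm
        have h3 : ∀ i, m (some i) = m0 (some i) := by
          intro i
          have := DFunLike.congr_fun h2 i
          simpa using this
        have h4 : WPertL_wt b m = WPertL_wt b m0 := by
          rw [(Finset.mem_filter.1 hm).2, hd]
        unfold WPertL_wt at h4
        have h5 : (m none : ℝ) = (m0 none : ℝ) := by
          have h6 : ∑ i, b i * (m (some i) : ℝ) = ∑ i, b i * (m0 (some i) : ℝ) :=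
            Finset.sum_congr rfl (fun i _ => by rw [h3 i])
          linarith
        have h7 : m none = m0 none := by exact_mod_cast h5
        ext o
        rcases o with _ | i
        · exact h7
        · exact h3 i
      · intro h2
        exact absurd (Finset.mem_filter.2 ⟨hm0, hd.symm⟩) h2
    rw [h0, coeff_zero] at h1
    exact mem_support_iff.1 hm0 h1.symm
  · intro C
    have hK' : ∀ m : Option (Fin k) →₀ ℕ, ∃ K : ℝ, 0 ≤ K ∧ (m ∈ P.support →
      ∀ x : ℝ, 1 ≤ x → ∀ τ : ℝ, 0 ≤ τ → τ ≤ 1 → ∀ s g : Fin k → ℝ,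
        (∀ i, |g i| ≤ C * x ^ (b i)) → (∀ i, |s i - g i| ≤ C * τ * x ^ (b i)) →
          |x ^ (m none) * ∏ i, s i ^ (m (some i)) -
            x ^ d * (if WPertL_wt b m = d then ∏ i, (g i / x ^ (b i)) ^ (m (some i)) else 0)|
              ≤ K * (τ * x ^ d + x ^ (d - δm m))) := by
      intro m
      by_cases hm : m ∈ P.support
      · obtain ⟨K, h1, h2⟩ := hK m hm C
        exact ⟨K, h1, fun _ => h2⟩
      · exact ⟨0, le_rfl, fun h => absurd h hm⟩
    choose Km hKm0 hKm using hK'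
    refine ⟨∑ m ∈ P.support, ‖P.coeff m‖ * Km m, fun x hx τ hτ0 hτ1 s g hg hs => ?_⟩
    have hx0 : 0 < x := by linarith
    have e1 : eval (fun o : Option (Fin k) => o.elim (x : ℂ) (fun i => ((s i : ℝ) : ℂ))) P =
        ∑ m ∈ P.support, P.coeff m * ((x ^ (m none) * ∏ i, s i ^ (m (some i)) : ℝ) : ℂ) := by
      rw [eval_eq']
      apply Finset.sum_congr rfl
      intro m _
      rw [Fintype.prod_option]
      push_cast
      rfl
    have e2 : ((x ^ d : ℝ) : ℂ) * eval (fun i => ((g i / x ^ (b i) : ℝ) : ℂ)) p =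
        ∑ m ∈ P.support, P.coeff m * ((x ^ d * (if WPertL_wt b m = d then
          ∏ i, (g i / x ^ (b i)) ^ (m (some i)) else 0) : ℝ) : ℂ) := by
      rw [hp, map_sum, Finset.sum_filter, Finset.mul_sum]
      apply Finset.sum_congr rfl
      intro m _
      split_ifs with h1
      · rw [eval_monomial, Finsupp.prod_fintype _ _ (fun i => pow_zero _)]
        simp only [Finsupp.some_apply]
        push_cast
        ring
      · simp
    rw [e1, e2, ← Finset.sum_sub_distrib, Finset.sum_mul]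
    refine (norm_sum_le _ _).trans (Finset.sum_le_sum fun m hm => ?_)
    rw [← mul_sub, ← Complex.ofReal_sub, norm_mul, Complex.norm_real, Real.norm_eq_abs, mul_assoc]
    apply mul_le_mul_of_nonneg_left _ (norm_nonneg _)
    refine (hKm m hm x hx τ hτ0 hτ1 s g hg hs).trans (mul_le_mul_of_nonneg_left ?_ (hKm0 m))
    have h8 : x ^ (d - δm m) ≤ x ^ (d - δm m1) := by
      apply Real.rpow_le_rpow_of_exponent_le hx
      have := hmin m hm
      linarith
    linarith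

end Pool.Agent.Lib.MP_ec260d_nt
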