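import Mathlib
import Pool.Agent.Lib.MP_ec260d_nt.PairLower
import Pool.Agent.Lib.MP_ec260d_nt.WPertL
import Pool.Agent.Lib.MP_ec260d_nt.PolyRev

/-!
# JOB WMainL: like WMain.lean (done: copy and adapt) with a tolerance that is a power of `log x`

Put `y i = a i x ^ (b i)`, `g i = (y i / B) / lam (y i / D)`, `κ i = a i / B > 0`,
`w i = lam (y i / D) = gE (A i + b i z)` with `A i = log (a i / D)`, `z = log x`. For `x` large, `1 ≤ w i ≤ (b i + 1) log x`, so `|g i| ≤ C₁ x ^ (b i)` with `C₁ ≥ κ i`, and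
`g i / x ^ (b i) = κ i / w i`. Let `d, p, δ'` be from `w_pertL`. As in WMain, `rev` and `pair_lower` give `c > 0`, `K' : ℕ` (depending only on `P, a, b, B, D`) with
`‖eval (κ / w) p‖ ≥ c / (log x) ^ K'` for large `x`. Take `K = K' + 1`. Given `C`, let `C'` be the constant of `w_pertL` for `C₂ = max C₁ |C|`; with `τ = 1 / (log x) ^ K` (`x ≥ e`):
`‖eval (x, s) P‖ ≥ x ^ d (c / (log x) ^ K' - C' / (log x) ^ (K' + 1) - C' x ^ (-δ')) > 0` for `x` large.
-/

open Real Set Filter Topology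

namespace Pool.Agent.Lib.MP_ec260d_nt

private lemma WMainL_little (δ c C' B : ℝ) (hδ : 0 < δ) (hc : 0 < c) (hC : 0 ≤ C') (hB : 0 < B)
    (M : ℕ) : ∀ᶠ n : ℝ in atTop, C' * (B * Real.log n) ^ M < c * n ^ δ := by
  have h1 := isLittleO_log_rpow_rpow_atTop (M : ℝ) hδ
  have h2 := h1.def (c := c / (2 * (C' + 1) * B ^ M)) (by positivity)
  filter_upwards [h2, eventually_ge_atTop (1 : ℝ)] with n hn hn1
  have hlog : 0 ≤ Real.log n := Real.log_nonneg hn1
  have hpos : 0 < n ^ δ := Real.rpow_pos_of_pos (by linarith) _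
  rw [Real.rpow_natCast, Real.norm_of_nonneg (pow_nonneg hlog _), Real.norm_of_nonneg hpos.le] at hn
  rw [mul_pow]
  have h3 : 0 ≤ Real.log n ^ M := pow_nonneg hlog _
  have h4 : (0 : ℝ) < B ^ M := by positivity
  calc C' * (B ^ M * Real.log n ^ M) ≤ (C' + 1) * (B ^ M * Real.log n ^ M) := by
        gcongr
        linarith
    _ ≤ (C' + 1) * (B ^ M * (c / (2 * (C' + 1) * B ^ M) * n ^ δ)) := by gcongr
    _ = c * n ^ δ / 2 := by field_simp
    _ < c * n ^ δ := by
        have : 0 < c * n ^ δ := mul_pos hc hpos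
        linarith

theorem w_mainL (k : ℕ) (a b : Fin k → ℝ) (ha : ∀ i, 0 < a i) (hb : ∀ i, 0 < b i)
    (hinj : Function.Injective (fun i => (a i, b i)))
    (B D : ℝ) (hB : 0 < B) (hD : 0 < D)
    (P : MvPolynomial (Option (Fin k)) ℂ) (hP : P ≠ 0) :
    ∃ K : ℕ, 1 ≤ K ∧ ∀ C : ℝ, ∃ x₀ : ℝ, 1 < x₀ ∧ ∀ x : ℝ, x₀ ≤ x → ∀ s : Fin k → ℝ,
      (∀ i, |s i - (a i * x ^ (b i) / B) / lam (a i * x ^ (b i) / D)| ≤ C * (x ^ (b i) / (Real.log x) ^ K)) →
      MvPolynomial.eval (fun o : Option (Fin k) => o.elim (x : ℂ) (fun i => ((s i : ℝ) : ℂ))) P ≠ 0 := by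
  obtain ⟨d, p, δ', hp0, hδ', hpert⟩ := w_pertL k b hb P hP
  set κ : Fin k → ℝ := fun i => a i / B with hκ
  have hκ0 : ∀ i, 0 < κ i := fun i => div_pos (ha i) hB
  obtain ⟨Q, hQ0, hQ⟩ := rev p hp0 le_rfl (fun i => ((κ i : ℝ) : ℂ)) (fun i => by
    exact_mod_cast (hκ0 i).ne')
  set A : Fin k → ℝ := fun i => Real.log (a i / D) with hA
  have hAinj : Function.Injective (fun i => (A i, b i)) := by
    intro i j hij
    have h1 : A i = A j := (Prod.ext_iff.1 hij).1
    have h2 : b i = b j := (Prod.ext_iff.1 hij).2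
    have h3 : a i / D = a j / D :=
      Real.log_injOn_pos (Set.mem_Ioi.2 (div_pos (ha i) hD)) (Set.mem_Ioi.2 (div_pos (ha j) hD)) h1
    have h4 : a i = a j := by
      field_simp at h3
      exact h3
    exact hinj (Prod.ext h4 h2)
  obtain ⟨c, hc, K, hlow⟩ := pair_lower k A b hb hAinj Q hQ0
  obtain ⟨M, hM⟩ : ∃ M : ℕ, M = K + k * p.totalDegree := ⟨_, rfl⟩
  refine ⟨M + 1, Nat.le_add_left 1 M, fun C => ?_⟩
  have hS0 : 0 ≤ ∑ i, κ i := Finset.sum_nonneg fun i _ => (hκ0 i).le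
  obtain ⟨C1, hC1⟩ : ∃ C1 : ℝ, C1 = ∑ i, κ i + |C| := ⟨_, rfl⟩
  obtain ⟨C', hpert'⟩ := hpert C1
  have hb0 : 0 ≤ ∑ i, b i := Finset.sum_nonneg fun i _ => (hb i).le
  obtain ⟨Mb, hMb⟩ : ∃ Mb : ℝ, Mb = 1 + ∑ i, b i := ⟨_, rfl⟩
  have hMb1 : 1 ≤ Mb := by rw [hMb]; linarith
  have hMbi : ∀ i, b i + 1 ≤ Mb := fun i => by
    have := Finset.single_le_sum (f := b) (fun j _ => (hb j).le) (Finset.mem_univ i)
    rw [hMb]
    linarith
  have hev : ∀ᶠ x : ℝ in atTop, 1 ≤ x ∧ 1 ≤ Real.log x ∧ (∀ i, 1 ≤ A i + b i * Real.log x) ∧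
      (∀ i, A i ≤ Real.log x) ∧
      c / Real.log x ^ K ≤
        ‖MvPolynomial.eval (fun i => ((gE (A i + b i * Real.log x) : ℝ) : ℂ)) Q‖ ∧
      |C'| * (Mb * Real.log x) ^ M < c / 2 * x ^ δ' ∧
      2 * |C'| * Mb ^ M / c ≤ Real.log x := by
    refine (eventually_ge_atTop (1 : ℝ)).and ((tendsto_log_atTop.eventually_ge_atTop 1).and
      (Eventually.and ?_ (Eventually.and ?_ (Eventually.and ?_ (Eventually.and ?_ ?_)))))
    · rw [eventually_all]
      intro i
      have h1 : Tendsto (fun x : ℝ => A i + b i * Real.log x) atTop atTop :=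
        tendsto_atTop_add_const_left _ _ (tendsto_log_atTop.const_mul_atTop (hb i))
      exact h1.eventually_ge_atTop 1
    · rw [eventually_all]
      intro i
      exact tendsto_log_atTop.eventually_ge_atTop _
    · exact tendsto_log_atTop.eventually hlow
    · exact WMainL_little _ _ _ _ hδ' (by linarith) (abs_nonneg _) (by linarith) _
    · exact tendsto_log_atTop.eventually_ge_atTop _
  obtain ⟨x₀, hx₀⟩ := eventually_atTop.1 hev
  refine ⟨max x₀ 2, lt_of_lt_of_le one_lt_two (le_max_right _ _), fun x hx s hs hzero => ?_⟩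
  obtain ⟨h1, h2, h3, h4, h5, h6, h7L⟩ := hx₀ x ((le_max_left _ _).trans hx)
  have hx0 : (0 : ℝ) < x := by linarith
  have hz0 : 0 < Real.log x := by linarith
  have hxb : ∀ i, 0 < x ^ (b i) := fun i => Real.rpow_pos_of_pos hx0 _
  have hgl : ∀ i, gE (A i + b i * Real.log x) = lam (a i * x ^ (b i) / D) := by
    intro i
    unfold gE
    congr 1
    rw [Real.exp_add, hA, Real.exp_log (div_pos (ha i) hD), mul_comm (b i),
      ← Real.rpow_def_of_pos hx0]
    ring
  have hlam : ∀ i, 1 ≤ lam (a i * x ^ (b i) / D) ∧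
      lam (a i * x ^ (b i) / D) ≤ Mb * Real.log x := by
    intro i
    obtain ⟨h7, h8, -⟩ := gE_bounds (h3 i)
    rw [hgl] at h7 h8
    refine ⟨h7, h8.trans ?_⟩
    have h9 := mul_le_mul_of_nonneg_right (hMbi i) hz0.le
    have h10 := h4 i
    linarith
  simp only [hgl] at h5
  set w : Fin k → ℂ := fun i => ((lam (a i * x ^ (b i) / D) : ℝ) : ℂ) with hw
  have hlam0 : ∀ i, 0 < lam (a i * x ^ (b i) / D) := fun i => by linarith [(hlam i).1]
  have hw0 : ∀ i, w i ≠ 0 := fun i => Complex.ofReal_ne_zero.2 (hlam0 i).ne'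
  set g : Fin k → ℝ := fun i => (a i * x ^ (b i) / B) / lam (a i * x ^ (b i) / D) with hg
  have hg0 : ∀ i, 0 ≤ g i := fun i => by
    have h8 := hlam0 i
    have h9 := ha i
    have h10 := hxb i
    simp only [hg]
    positivity
  have hgle : ∀ i, |g i| ≤ C1 * x ^ (b i) := fun i => by
    rw [abs_of_nonneg (hg0 i)]
    have h9 := ha i
    have h10 := hxb i
    calc g i ≤ (a i * x ^ (b i) / B) / 1 := by
          apply div_le_div_of_nonneg_left (by positivity) one_pos (hlam i).1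
      _ = κ i * x ^ (b i) := by simp only [hκ]; ring
      _ ≤ C1 * x ^ (b i) := by
          refine mul_le_mul_of_nonneg_right ?_ h10.le
          have h11 := Finset.single_le_sum (f := κ) (fun j _ => (hκ0 j).le) (Finset.mem_univ i)
          have h12 := abs_nonneg C
          rw [hC1]
          linarith
  have hLM : 1 ≤ Real.log x ^ (M + 1) := one_le_pow₀ h2
  obtain ⟨τ, hτ⟩ : ∃ τ : ℝ, τ = 1 / Real.log x ^ (M + 1) := ⟨_, rfl⟩
  have hτ0 : 0 ≤ τ := by rw [hτ]; positivity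
  have hτ1 : τ ≤ 1 := by
    rw [hτ]
    exact (div_le_one (by linarith)).2 hLM
  have hsg : ∀ i, |s i - g i| ≤ C1 * τ * x ^ (b i) := fun i => by
    refine (hs i).trans ?_
    have h13 : C * (x ^ (b i) / Real.log x ^ (M + 1)) = C * (τ * x ^ (b i)) := by
      rw [hτ]; ring
    rw [h13, mul_assoc]
    refine mul_le_mul_of_nonneg_right ?_ (mul_nonneg hτ0 (hxb i).le)
    have h12 := le_abs_self C
    rw [hC1]
    linarith
  have hfin := hpert' x h1 τ hτ0 hτ1 s g hgle hsg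
  have hgw : (fun i => ((g i / x ^ (b i) : ℝ) : ℂ)) = fun i => ((κ i : ℝ) : ℂ) / w i := by
    funext i
    have h10 := (hxb i).ne'
    have h11 := (hlam0 i).ne'
    have h12 := hB.ne'
    have h13 : g i / x ^ (b i) = κ i / lam (a i * x ^ (b i) / D) := by
      simp only [hg, hκ]
      field_simp
    rw [h13]
    simp only [hw]
    push_cast
    rfl
  rw [hzero, zero_sub, norm_neg, hgw, norm_mul, Complex.norm_real, Real.norm_eq_abs,
    abs_of_pos (Real.rpow_pos_of_pos hx0 _)] at hfin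
  have hQw := hQ w hw0
  have hL0 : 0 < Mb * Real.log x := by positivity
  have hprod : ‖(∏ i, w i) ^ p.totalDegree‖ ≤ (Mb * Real.log x) ^ (k * p.totalDegree) := by
    rw [norm_pow, norm_prod, pow_mul]
    gcongr
    calc ∏ i, ‖w i‖ ≤ ∏ _i : Fin k, (Mb * Real.log x) := by
          apply Finset.prod_le_prod
          · intro i _
            exact norm_nonneg _
          · intro i _
            rw [hw, Complex.norm_real, Real.norm_eq_abs, abs_of_nonneg (hlam0 i).le]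
            exact (hlam i).2
      _ = (Mb * Real.log x) ^ k := by simp
  rw [hQw, norm_mul] at h5
  obtain ⟨E, hE⟩ : ∃ E : ℝ, E = ‖MvPolynomial.eval (fun i => ((κ i : ℝ) : ℂ) / w i) p‖ := ⟨_, rfl⟩
  have hE0 : 0 ≤ E := by rw [hE]; exact norm_nonneg _
  rw [← hE] at h5 hfin
  have h8 : c / (Mb * Real.log x) ^ K ≤ c / Real.log x ^ K := by
    apply div_le_div_of_nonneg_left hc.le (by positivity)
    gcongr
    exact le_mul_of_one_le_left hz0.le hMb1
  have h9 : c ≤ (Mb * Real.log x) ^ M * E := by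
    have h10 := h8.trans (h5.trans (mul_le_mul_of_nonneg_right hprod hE0))
    rw [div_le_iff₀ (by positivity)] at h10
    rw [hM, pow_add]
    linarith
  have h11 : x ^ (d - δ') * x ^ δ' = x ^ d := by
    rw [← Real.rpow_add hx0, sub_add_cancel]
  have h12 : 0 < x ^ (d - δ') := Real.rpow_pos_of_pos hx0 _
  have hxd : 0 < x ^ d := Real.rpow_pos_of_pos hx0 _
  have h13 : 0 < (Mb * Real.log x) ^ M := by positivity
  have hCC : C' * (τ * x ^ d + x ^ (d - δ')) ≤ |C'| * (τ * x ^ d + x ^ (d - δ')) :=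
    mul_le_mul_of_nonneg_right (le_abs_self _) (add_nonneg (mul_nonneg hτ0 hxd.le) h12.le)
  have h14 : c * x ^ d ≤ (Mb * Real.log x) ^ M * (|C'| * (τ * x ^ d + x ^ (d - δ'))) := by
    calc c * x ^ d ≤ ((Mb * Real.log x) ^ M * E) * x ^ d :=
          mul_le_mul_of_nonneg_right h9 hxd.le
      _ = (Mb * Real.log x) ^ M * (x ^ d * E) := by ring
      _ ≤ _ := mul_le_mul_of_nonneg_left (hfin.trans hCC) h13.le
  have h15 : (|C'| * (Mb * Real.log x) ^ M) * x ^ (d - δ') <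
      (c / 2 * x ^ δ') * x ^ (d - δ') := mul_lt_mul_of_pos_right h6 h12
  have h16 : (c / 2 * x ^ δ') * x ^ (d - δ') = c / 2 * x ^ d := by
    rw [← h11]
    ring
  have h17 : (Mb * Real.log x) ^ M * (|C'| * (τ * x ^ d + x ^ (d - δ'))) =
      (|C'| * (Mb * Real.log x) ^ M) * x ^ (d - δ') + (|C'| * Mb ^ M / Real.log x) * x ^ d := by
    rw [hτ, mul_pow, pow_succ]
    field_simp
    ring
  have h18 : |C'| * Mb ^ M / Real.log x ≤ c / 2 := by
    rw [div_le_iff₀ hc] at h7L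
    rw [div_le_iff₀ hz0]
    linarith
  have h19 : (|C'| * Mb ^ M / Real.log x) * x ^ d ≤ c / 2 * x ^ d :=
    mul_le_mul_of_nonneg_right h18 hxd.le
  rw [h17] at h14
  rw [h16] at h15
  linarith

end Pool.Agent.Lib.MP_ec260d_nt
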