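import Mathlib
import Pool.Agent.Lib.MP_ec260d_nt.OrdRealL
import Pool.Agent.Lib.MP_ec260d_nt.WMainL

/-!
# JOB MainEL: ordinates with indices close to `a i x ^ (b i)`, relative tolerance a power of `log x`

Take `B, D₀` from `ord_realL` and `K ≥ 1` from `w_mainL` (with `D = D₀`). For each `i` take `C i, y₀ i` from `ord_realL` at `a i`; let `C = 2 ∑ C i` (or a bound `≥ 2 C i`) and `x₀` from `w_mainL` for this
`C`. For `x` large: `y = x ^ (b i) ≥ y₀ i`, `τ = 1 / (log x) ^ K ≤ a i / 2`, and `y ^ (1/2) ≤ y / (log x) ^ K` (`(log x) ^ K ≤ x ^ (b i / 2)` for large `x`,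
`isLittleO_log_rpow_atTop` / `isLittleO_pow_log_id_atTop`-type lemmas), so `C i (τ y + y ^ (1/2)) ≤ 2 C i y / (log x) ^ K`.
-/

open Complex Set Filter Topology

namespace Pool.Agent.Lib.MP_ec260d_nt

theorem mainEL (k : ℕ) (a b : Fin k → ℝ) (ha : ∀ i, 0 < a i) (hb : ∀ i, 0 < b i)
    (hinj : Function.Injective (fun i => (a i, b i)))
    (P : MvPolynomial (Option (Fin k)) ℂ) (hP : P ≠ 0) :
    ∃ K : ℕ, ∃ x₀ : ℝ, 1 < x₀ ∧ ∀ x : ℝ, x₀ ≤ x → ∀ s : Fin k → ℝ,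
      (∀ i, |(zeroCount (s i) : ℝ) - a i * x ^ (b i)| ≤ x ^ (b i) / (Real.log x) ^ K) →
      MvPolynomial.eval (fun o : Option (Fin k) => o.elim (x : ℂ) (fun i => ((s i : ℝ) : ℂ))) P ≠ 0 := by
  obtain ⟨B, D₀, hB, hD, hor⟩ := ord_realL
  obtain ⟨K, hK, hmain⟩ := w_mainL k a b ha hb hinj B D₀ hB hD P hP
  have h1 : ∀ i, ∃ C y₀ : ℝ, 0 ≤ C ∧ ∀ y : ℝ, y₀ ≤ y → ∀ τ : ℝ, 0 ≤ τ → τ ≤ a i / 2 → ∀ s : ℝ,
      |(zeroCount s : ℝ) - a i * y| ≤ τ * y →
      |s - (a i * y / B) / lam (a i * y / D₀)| ≤ C * (τ * y + y ^ ((1 : ℝ) / 2)) :=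
    fun i => hor (a i) (ha i)
  choose Cf y₀ hC0 hC using h1
  obtain ⟨x₁, hx₁, hx₁'⟩ := hmain (2 * ∑ i, Cf i)
  have hKpos : K ≠ 0 := by omega
  have hev1 : ∀ᶠ x : ℝ in atTop, ∀ i, y₀ i ≤ x ^ (b i) := by
    rw [Filter.eventually_all]
    intro i
    exact (tendsto_rpow_atTop (hb i)).eventually_ge_atTop _
  have hev2 : ∀ᶠ x : ℝ in atTop, ∀ i, 1 / (Real.log x) ^ K ≤ a i / 2 := by
    rw [Filter.eventually_all]
    intro i
    have h2 : Tendsto (fun x : ℝ => (Real.log x) ^ K) atTop atTop :=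
      (tendsto_pow_atTop hKpos).comp Real.tendsto_log_atTop
    have h3 : Tendsto (fun x : ℝ => 1 / (Real.log x) ^ K) atTop (𝓝 0) := by
      refine h2.inv_tendsto_atTop.congr fun x => ?_
      show ((Real.log x) ^ K)⁻¹ = 1 / (Real.log x) ^ K
      rw [one_div]
    have h4 : (0 : ℝ) < a i / 2 := by
      have := ha i
      positivity
    exact (h3.eventually (gt_mem_nhds h4)).mono fun _ h => h.le
  have hev3 : ∀ᶠ x : ℝ in atTop, ∀ i, (Real.log x) ^ K ≤ x ^ (b i / 2) := by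
    rw [Filter.eventually_all]
    intro i
    have hs : 0 < b i / 2 / K := by
      have := hb i
      have h5 : (0 : ℝ) < K := by exact_mod_cast Nat.pos_of_ne_zero hKpos
      positivity
    have h2 := (isLittleO_log_rpow_atTop hs).bound (c := 1) one_pos
    filter_upwards [h2, eventually_ge_atTop (1 : ℝ)] with x hx hx1
    have hlog : 0 ≤ Real.log x := Real.log_nonneg hx1
    rw [one_mul, Real.norm_of_nonneg hlog,
      Real.norm_of_nonneg (Real.rpow_nonneg (by linarith) _)] at hx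
    have h5 := pow_le_pow_left₀ hlog hx K
    rw [← Real.rpow_mul_natCast (by linarith)] at h5
    have h6 : b i / 2 / (K : ℝ) * (K : ℝ) = b i / 2 := by
      have h7 : (K : ℝ) ≠ 0 := by exact_mod_cast hKpos
      field_simp
    rwa [h6] at h5
  obtain ⟨x₂, hx₂⟩ := eventually_atTop.1 (hev1.and (hev2.and hev3))
  refine ⟨K, max x₁ x₂, lt_of_lt_of_le hx₁ (le_max_left _ _), ?_⟩
  intro x hx s hs
  have hxx₁ : x₁ ≤ x := (le_max_left _ _).trans hx
  have hx1 : 1 < x := lt_of_lt_of_le hx₁ hxx₁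
  have hx0 : 0 < x := by linarith
  have hlog : 0 < Real.log x := Real.log_pos hx1
  have hlK : 0 < (Real.log x) ^ K := pow_pos hlog K
  obtain ⟨e1, e2, e3⟩ := hx₂ x ((le_max_right _ _).trans hx)
  refine hx₁' x hxx₁ s (fun i => ?_)
  have hy0 : 0 < x ^ (b i) := Real.rpow_pos_of_pos hx0 _
  have h2 := hC i (x ^ (b i)) (e1 i) (1 / (Real.log x) ^ K) (by positivity) (e2 i) (s i)
    (by rw [one_div_mul_eq_div]; exact hs i)
  have h3 : (x ^ (b i)) ^ ((1 : ℝ) / 2) ≤ x ^ (b i) / (Real.log x) ^ K := by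
    rw [le_div_iff₀ hlK, ← Real.rpow_mul hx0.le]
    have h4 : b i * (1 / 2) = b i / 2 := by ring
    rw [h4]
    have h5 : x ^ (b i) = x ^ (b i / 2) * x ^ (b i / 2) := by
      rw [← Real.rpow_add hx0]
      congr 1
      ring
    rw [h5]
    exact mul_le_mul_of_nonneg_left (e3 i) (Real.rpow_nonneg hx0.le _)
  have h6 : Cf i ≤ ∑ i, Cf i :=
    Finset.single_le_sum (f := fun i => Cf i) (fun i _ => hC0 i) (Finset.mem_univ i)
  have h7 : 0 ≤ x ^ (b i) / (Real.log x) ^ K := by positivity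
  calc |s i - (a i * x ^ (b i) / B) / lam (a i * x ^ (b i) / D₀)|
      ≤ Cf i * (1 / (Real.log x) ^ K * x ^ (b i) + (x ^ (b i)) ^ ((1 : ℝ) / 2)) := h2
    _ ≤ Cf i * (x ^ (b i) / (Real.log x) ^ K + x ^ (b i) / (Real.log x) ^ K) := by
        refine mul_le_mul_of_nonneg_left ?_ (hC0 i)
        rw [one_div_mul_eq_div]
        exact add_le_add le_rfl h3
    _ = 2 * Cf i * (x ^ (b i) / (Real.log x) ^ K) := by ring
    _ ≤ 2 * (∑ i, Cf i) * (x ^ (b i) / (Real.log x) ^ K) :=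
        mul_le_mul_of_nonneg_right (mul_le_mul_of_nonneg_left h6 (by norm_num)) h7

end Pool.Agent.Lib.MP_ec260d_nt
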