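import Mathlib
import Pool.Agent.Lib.MP_ec260d_nt.ZDefs

/-!
# The `m`-th ordinate, counted with multiplicity
-/

namespace Pool.Agent.Lib.MP_ec260d_nt

/-- the `m`-th ordinate, with multiplicity: the infimum of the `T` with `N(T) ≥ m` -/
noncomputable def ordinate (m : ℕ) : ℝ := sInf {T : ℝ | m ≤ zeroCount T}

end Pool.Agent.Lib.MP_ec260d_nt
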