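import Mathlib
import Pool.Agent.Lib.MP_ec260d_nt.ZCount
import Pool.Agent.Lib.MP_ec260d_nt.ODefs

/-!
# The `m`-th ordinate, counted with multiplicity
-/

open Complex Set Filter Topology

namespace Pool.Agent.Lib.MP_ec260d_nt

open Pool.Agent.Lib.MP_00e05b_nt

private lemma OrdIdx_summ (T : ℝ) :
    Summable (fun a : ℂ => (mx a : ℝ) * (if 0 < a.im ∧ a.im ≤ T then 1 else 0)) := by
  obtain ⟨C, -, hz⟩ := zero_sum 2 (by norm_num)
  refine Summable.of_norm_bounded (((hz 0).1).mul_left ((1 + |T|) ^ (2 : ℝ))) fun a => ?_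
  have hm : (0 : ℝ) ≤ (mx a : ℝ) := Nat.cast_nonneg _
  have h1 : 0 < 1 + |0 - a.im| := by positivity
  have h2 : 0 < (1 + |0 - a.im|) ^ (2 : ℝ) := Real.rpow_pos_of_pos h1 _
  split_ifs with hc
  · rw [mul_one, Real.norm_of_nonneg hm]
    have h4 : |0 - a.im| ≤ |T| := by
      rw [zero_sub, abs_neg, abs_of_pos hc.1]
      exact hc.2.trans (le_abs_self T)
    have h5 : (1 + |0 - a.im|) ^ (2 : ℝ) ≤ (1 + |T|) ^ (2 : ℝ) :=
      Real.rpow_le_rpow h1.le (by linarith) (by norm_num)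
    have h6 : (mx a : ℝ) * (1 + |0 - a.im|) ^ (2 : ℝ) ≤ (1 + |T|) ^ (2 : ℝ) * mx a := by
      rw [mul_comm]
      exact mul_le_mul_of_nonneg_right h5 hm
    rw [← mul_div_assoc, le_div_iff₀ h2]
    exact h6
  · rw [mul_zero, norm_zero]
    positivity

theorem NZ_mono {S T : ℝ} (h : S ≤ T) : NZ S ≤ NZ T := by
  refine (OrdIdx_summ S).tsum_le_tsum (fun a => ?_) (OrdIdx_summ T)
  have hm : (0 : ℝ) ≤ (mx a : ℝ) := Nat.cast_nonneg _
  refine mul_le_mul_of_nonneg_left ?_ hm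
  split_ifs with h1 h2 h2
  · exact le_rfl
  · exact absurd ⟨h1.1, h1.2.trans h⟩ h2
  · norm_num
  · exact le_rfl

theorem zeroCount_mono {S T : ℝ} (h : S ≤ T) : zeroCount S ≤ zeroCount T := by
  have h1 := NZ_mono h
  rw [← zeroCount_eq, ← zeroCount_eq] at h1
  exact_mod_cast h1

theorem zeroCount_nonpos {T : ℝ} (h : T ≤ 0) : zeroCount T = 0 := by
  have h1 : NZ T = 0 := by
    unfold NZ
    have : (fun a : ℂ => (mx a : ℝ) * (if 0 < a.im ∧ a.im ≤ T then 1 else 0)) = fun _ => 0 := by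
      funext a
      rw [if_neg (fun hc => by linarith [hc.1, hc.2]), mul_zero]
    rw [this, tsum_zero]
  rw [← zeroCount_eq] at h1
  exact_mod_cast h1

private lemma OrdIdx_lower : ∃ X : ℝ, 1 ≤ X ∧ ∀ T : ℝ, X ≤ T → T ≤ NZ T := by
  obtain ⟨c, C, hC, hr⟩ := rvm
  have hπ := Real.pi_pos
  refine ⟨max 1 (Real.exp (c + 2 * Real.pi * (1 + C))), le_max_left _ _, fun T hT => ?_⟩
  have hT1 : 1 ≤ T := (le_max_left _ _).trans hT
  have hT0 : 0 < T := by linarith
  have hlog : c + 2 * Real.pi * (1 + C) ≤ Real.log T :=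
    (Real.le_log_iff_exp_le hT0).2 ((le_max_right _ _).trans hT)
  have h1 := (abs_le.1 (hr T hT1)).1
  have h2 : T ^ ((1 : ℝ) / 2) ≤ T := by
    have := Real.rpow_le_rpow_of_exponent_le hT1 (by norm_num : (1 : ℝ) / 2 ≤ 1)
    rwa [Real.rpow_one] at this
  have h3 : T / (2 * Real.pi) * (2 * Real.pi * (1 + C)) ≤ T / (2 * Real.pi) * (Real.log T - c) :=
    mul_le_mul_of_nonneg_left (by linarith) (by positivity)
  have h4 : T / (2 * Real.pi) * (2 * Real.pi * (1 + C)) = T * (1 + C) := by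
    field_simp
  have h5 : C * T ^ ((1 : ℝ) / 2) ≤ C * T := mul_le_mul_of_nonneg_left h2 hC
  nlinarith

/-- the index of the `m`-th ordinate is `m` up to `O(m^(1/2))` -/
theorem ordinate_spec : ∃ C : ℝ, 0 ≤ C ∧ ∃ m₀ : ℕ, ∀ m : ℕ, m₀ ≤ m →
    |(zeroCount (ordinate m) : ℝ) - m| ≤ C * (m : ℝ) ^ ((1 : ℝ) / 2) := by
  obtain ⟨c, C, hC, hr⟩ := rvm
  obtain ⟨X, hX1, hX⟩ := OrdIdx_lower
  have hπ := Real.pi_pos
  -- constants
  set C1 : ℝ := (|c| + 2) * 2 + 2 * C with hC1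
  refine ⟨(C1 * 2) * 2, by positivity, zeroCount (X + 3) + 1, fun m hm => ?_⟩
  set g : ℝ := ordinate m with hg
  have hbdd : BddBelow {T : ℝ | m ≤ zeroCount T} := by
    refine ⟨0, fun T hT => ?_⟩
    by_contra hneg
    push Not at hneg
    have h1 := zeroCount_nonpos hneg.le
    have h2 : m ≤ zeroCount T := hT
    omega
  have hne : {T : ℝ | m ≤ zeroCount T}.Nonempty := by
    refine ⟨max X m, ?_⟩
    have h1 := hX (max X m) (le_max_left _ _)
    rw [← zeroCount_eq] at h1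
    have h2 : (m : ℝ) ≤ zeroCount (max X m) := (le_max_right _ _).trans h1
    exact_mod_cast h2
  have hup : ∀ T : ℝ, g < T → m ≤ zeroCount T := by
    intro T hT
    obtain ⟨T', hT', hlt⟩ := (csInf_lt_iff hbdd hne).1 hT
    exact le_trans hT' (zeroCount_mono hlt.le)
  have hlo : ∀ T : ℝ, T < g → zeroCount T < m := by
    intro T hT
    by_contra hcon
    push Not at hcon
    exact absurd (csInf_le hbdd hcon) (not_le.2 hT)
  have hgX : X + 3 ≤ g := by
    by_contra hcon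
    push Not at hcon
    have := hup (X + 3) hcon
    omega
  have hA : zeroCount (g - 1) < m := hlo _ (by linarith)
  have hB : m ≤ zeroCount (g + 1) := hup _ (by linarith)
  have hA' : zeroCount (g - 1) ≤ zeroCount g := zeroCount_mono (by linarith)
  have hB' : zeroCount g ≤ zeroCount (g + 1) := zeroCount_mono (by linarith)
  have hA1 : (zeroCount (g - 1) : ℝ) ≤ m := by exact_mod_cast hA.le
  have hB1 : (m : ℝ) ≤ zeroCount (g + 1) := by exact_mod_cast hB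
  have hA2 : (zeroCount (g - 1) : ℝ) ≤ zeroCount g := by exact_mod_cast hA'
  have hB2 : (zeroCount g : ℝ) ≤ zeroCount (g + 1) := by exact_mod_cast hB'
  have hdiff : |(zeroCount g : ℝ) - m| ≤ zeroCount (g + 1) - zeroCount (g - 1) := by
    rw [abs_le]
    constructor <;> linarith
  -- upper bound for the difference
  have hgm : g - 1 ≤ m := by
    have h1 := hX (g - 1) (by linarith)
    rw [← zeroCount_eq] at h1
    linarith
  have hm4 : (4 : ℝ) ≤ m + 1 := by linarith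
  have hg4 : 4 ≤ g := by linarith
  have h1 := (abs_le.1 (hr (g + 1) (by linarith))).2
  have h2 := (abs_le.1 (hr (g - 1) (by linarith))).1
  rw [← zeroCount_eq] at h1 h2
  -- the main terms
  have hl1 : Real.log (g + 1) - Real.log (g - 1) ≤ 2 / (g - 1) := by
    have h3 : Real.log ((g + 1) / (g - 1)) ≤ (g + 1) / (g - 1) - 1 :=
      Real.log_le_sub_one_of_pos (by apply div_pos <;> linarith)
    rw [Real.log_div (by linarith) (by linarith)] at h3
    have h4 : (g + 1) / (g - 1) - 1 = 2 / (g - 1) := by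
      have : g - 1 ≠ 0 := by linarith
      field_simp
      ring
    linarith
  have hl2 : Real.log (g + 1) ≤ 2 * (g + 1) ^ ((1 : ℝ) / 2) := by
    have h3 := Real.log_le_rpow_div (by linarith : (0 : ℝ) ≤ g + 1) (by norm_num : (0 : ℝ) < 1 / 2)
    linarith
  have hmain : (g + 1) / (2 * Real.pi) * (Real.log (g + 1) - c) -
      (g - 1) / (2 * Real.pi) * (Real.log (g - 1) - c) ≤
      2 * (g + 1) ^ ((1 : ℝ) / 2) + 2 + |c| * 2 := by
    have h3 : (g + 1) * (Real.log (g + 1) - c) - (g - 1) * (Real.log (g - 1) - c) =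
        2 * (Real.log (g + 1) - c) + (g - 1) * (Real.log (g + 1) - Real.log (g - 1)) := by ring
    have h4 : (g - 1) * (Real.log (g + 1) - Real.log (g - 1)) ≤ (g - 1) * (2 / (g - 1)) :=
      mul_le_mul_of_nonneg_left hl1 (by linarith)
    have h5 : (g - 1) * (2 / (g - 1)) = 2 := by
      have : g - 1 ≠ 0 := by linarith
      field_simp
    have h6 : (g + 1) / (2 * Real.pi) * (Real.log (g + 1) - c) -
      (g - 1) / (2 * Real.pi) * (Real.log (g - 1) - c) =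
      ((g + 1) * (Real.log (g + 1) - c) - (g - 1) * (Real.log (g - 1) - c)) / (2 * Real.pi) := by
      field_simp
    rw [h6, h3, div_le_iff₀ (by positivity)]
    have h7 : -c ≤ |c| := neg_le_abs c
    have h8 : 3 < Real.pi := Real.pi_gt_three
    have h9 : 0 ≤ (g + 1) ^ ((1 : ℝ) / 2) := by positivity
    have h10 : 0 ≤ |c| := abs_nonneg c
    nlinarith [mul_nonneg (by linarith : (0:ℝ) ≤ 2 * Real.pi - 2) h9, mul_nonneg (by linarith : (0:ℝ) ≤ 2 * Real.pi - 1) h10]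
  have hs1 : (g - 1) ^ ((1 : ℝ) / 2) ≤ (g + 1) ^ ((1 : ℝ) / 2) :=
    Real.rpow_le_rpow (by linarith) (by linarith) (by norm_num)
  have hs2 : (1 : ℝ) ≤ (g + 1) ^ ((1 : ℝ) / 2) := Real.one_le_rpow (by linarith) (by norm_num)
  have hs3 : (g + 1) ^ ((1 : ℝ) / 2) ≤ 2 * (m : ℝ) ^ ((1 : ℝ) / 2) := by
    have h3 : g + 1 ≤ 4 * m := by linarith
    have h4 : (g + 1) ^ ((1 : ℝ) / 2) ≤ (4 * (m : ℝ)) ^ ((1 : ℝ) / 2) :=
      Real.rpow_le_rpow (by linarith) h3 (by norm_num)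
    rw [Real.mul_rpow (by norm_num) (by positivity)] at h4
    have h5 : (4 : ℝ) ^ ((1 : ℝ) / 2) = 2 := by
      rw [show (4 : ℝ) = 2 ^ (2 : ℝ) by norm_num, ← Real.rpow_mul (by norm_num)]
      norm_num
    rw [h5] at h4
    exact h4
  have hs4 : 0 ≤ |c| := abs_nonneg c
  have hC2 : C * (g - 1) ^ ((1 : ℝ) / 2) ≤ C * (g + 1) ^ ((1 : ℝ) / 2) :=
    mul_le_mul_of_nonneg_left hs1 hC
  have hfin : (zeroCount (g + 1) : ℝ) - zeroCount (g - 1) ≤ (C1 * 2) * (g + 1) ^ ((1 : ℝ) / 2) := by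
    have h3 : (zeroCount (g + 1) : ℝ) - zeroCount (g - 1) ≤
        2 * (g + 1) ^ ((1 : ℝ) / 2) + 2 + |c| * 2 + 2 * (C * (g + 1) ^ ((1 : ℝ) / 2)) := by
      linarith
    have h4 : |c| * 2 ≤ |c| * 2 * (g + 1) ^ ((1 : ℝ) / 2) := by nlinarith
    rw [hC1]
    nlinarith [mul_nonneg hC (by linarith : (0:ℝ) ≤ (g + 1) ^ ((1 : ℝ) / 2))]
  have hC10 : 0 ≤ C1 * 2 := by rw [hC1]; positivity
  calc |(zeroCount g : ℝ) - m| ≤ zeroCount (g + 1) - zeroCount (g - 1) := hdiff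
    _ ≤ (C1 * 2) * (g + 1) ^ ((1 : ℝ) / 2) := hfin
    _ ≤ (C1 * 2) * (2 * (m : ℝ) ^ ((1 : ℝ) / 2)) := mul_le_mul_of_nonneg_left hs3 hC10
    _ = (C1 * 2) * 2 * (m : ℝ) ^ ((1 : ℝ) / 2) := by ring

end Pool.Agent.Lib.MP_ec260d_nt
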