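import Mathlib
import Pool.Agent.Lib.MP_ec260d_nt.OrdIdx
import Pool.Agent.Lib.MP_ec260d_nt.MainEL

/-!
# Theorem E for the ordinates with index `⌊a i * n ^ (b i)⌋`
-/

open Complex Set Filter Topology

namespace Pool.Agent.Lib.MP_ec260d_nt

theorem ordCor (k : ℕ) (a b : Fin k → ℝ) (ha : ∀ i, 0 < a i) (hb : ∀ i, 0 < b i)
    (hinj : Function.Injective (fun i => (a i, b i)))
    (P : MvPolynomial (Option (Fin k)) ℂ) (hP : P ≠ 0) :
    ∃ n₀ : ℕ, ∀ n : ℕ, n₀ ≤ n →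
      MvPolynomial.eval (fun o : Option (Fin k) =>
        o.elim (n : ℂ) (fun i => ((ordinate ⌊a i * (n : ℝ) ^ (b i)⌋₊ : ℝ) : ℂ))) P ≠ 0 := by
  obtain ⟨K, x₀, hx₀, hmain⟩ := mainEL k a b ha hb hinj P hP
  obtain ⟨C, hC, m₀, hord⟩ := ordinate_spec
  have hev : ∀ i : Fin k, ∀ᶠ x : ℝ in atTop,
      (C * (a i) ^ ((1 : ℝ) / 2) + 1) * (Real.log x) ^ K ≤ x ^ (b i / 2) ∧
      (m₀ : ℝ) + 1 ≤ a i * x ^ (b i) := by
    intro i
    have hbi : 0 < b i / 2 := by have := hb i; linarith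
    have h1 : (fun x : ℝ => Real.log x ^ (K : ℝ)) =o[atTop] fun x => x ^ (b i / 2) :=
      isLittleO_log_rpow_rpow_atTop (K : ℝ) hbi
    set c : ℝ := C * (a i) ^ ((1 : ℝ) / 2) + 1 with hc
    have hc0 : 0 < c := by
      have : 0 ≤ (a i) ^ ((1 : ℝ) / 2) := Real.rpow_nonneg (ha i).le _
      positivity
    have h2 := h1.bound (inv_pos.2 hc0)
    have h3 : Tendsto (fun x : ℝ => a i * x ^ (b i)) atTop atTop :=
      (tendsto_rpow_atTop (hb i)).const_mul_atTop (ha i)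
    filter_upwards [h2, h3.eventually_ge_atTop ((m₀ : ℝ) + 1), eventually_ge_atTop (1 : ℝ)] with x e1 e2 e3
    refine ⟨?_, e2⟩
    have hl : 0 ≤ Real.log x := Real.log_nonneg e3
    rw [Real.rpow_natCast, Real.norm_of_nonneg (pow_nonneg hl K),
      Real.norm_of_nonneg (Real.rpow_nonneg (by linarith) _)] at e1
    have h4 := mul_le_mul_of_nonneg_left e1 hc0.le
    rwa [← mul_assoc, mul_inv_cancel₀ hc0.ne', one_mul] at h4
  have hall := eventually_all.2 hev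
  obtain ⟨X, hX⟩ := eventually_atTop.1 (hall.and (eventually_ge_atTop x₀))
  refine ⟨⌈X⌉₊, fun n hn => ?_⟩
  have hnX : X ≤ (n : ℝ) := (Nat.le_ceil X).trans (by exact_mod_cast hn)
  obtain ⟨hi, hx⟩ := hX n hnX
  have key := hmain n hx (fun i => ordinate ⌊a i * (n : ℝ) ^ (b i)⌋₊) ?_
  · simpa using key
  · intro i
    obtain ⟨h1, h2⟩ := hi i
    have hn1 : (1 : ℝ) < n := lt_of_lt_of_le hx₀ hx
    have hn0 : (0 : ℝ) < n := by linarith
    have hlog : 0 < Real.log n := Real.log_pos hn1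
    set y : ℝ := (n : ℝ) ^ (b i) with hy
    have hy0 : 0 < y := Real.rpow_pos_of_pos hn0 _
    have hy1 : 1 ≤ y := Real.one_le_rpow hn1.le (hb i).le
    set m : ℕ := ⌊a i * y⌋₊ with hm
    have hay : 0 ≤ a i * y := by have := ha i; positivity
    have hm1 : (m : ℝ) ≤ a i * y := Nat.floor_le hay
    have hm2 : a i * y < m + 1 := Nat.lt_floor_add_one _
    have hm3 : m₀ ≤ m := by
      have : (m₀ : ℝ) < m + 1 := by linarith
      have : m₀ < m + 1 := by exact_mod_cast this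
      omega
    have h3 := hord m hm3
    have h4 : |(zeroCount (ordinate m) : ℝ) - a i * y| ≤ C * (m : ℝ) ^ ((1 : ℝ) / 2) + 1 := by
      have h5 : (zeroCount (ordinate m) : ℝ) - a i * y =
          ((zeroCount (ordinate m) : ℝ) - m) + (m - a i * y) := by ring
      rw [h5]
      refine (abs_add_le _ _).trans (add_le_add h3 ?_)
      rw [abs_le]
      constructor <;> linarith
    refine h4.trans ?_
    have h5 : (m : ℝ) ^ ((1 : ℝ) / 2) ≤ (a i) ^ ((1 : ℝ) / 2) * y ^ ((1 : ℝ) / 2) := by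
      rw [← Real.mul_rpow (ha i).le hy0.le]
      exact Real.rpow_le_rpow (Nat.cast_nonneg _) hm1 (by norm_num)
    have h6 : y ^ ((1 : ℝ) / 2) = (n : ℝ) ^ (b i / 2) := by
      rw [hy, ← Real.rpow_mul hn0.le]
      congr 1
      ring
    have h7 : (1 : ℝ) ≤ y ^ ((1 : ℝ) / 2) := Real.one_le_rpow hy1 (by norm_num)
    have h8 : y ^ ((1 : ℝ) / 2) * y ^ ((1 : ℝ) / 2) = y := by
      rw [← Real.rpow_add hy0]
      norm_num
    have hC5 := mul_le_mul_of_nonneg_left h5 hC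
    have h9 : C * (m : ℝ) ^ ((1 : ℝ) / 2) + 1 ≤
        (C * (a i) ^ ((1 : ℝ) / 2) + 1) * y ^ ((1 : ℝ) / 2) := by
      nlinarith
    refine h9.trans ?_
    rw [le_div_iff₀ (pow_pos hlog K)]
    have h10 : (C * (a i) ^ ((1 : ℝ) / 2) + 1) * (Real.log n) ^ K ≤ y ^ ((1 : ℝ) / 2) := by
      rw [h6]
      exact h1
    calc (C * (a i) ^ ((1 : ℝ) / 2) + 1) * y ^ ((1 : ℝ) / 2) * (Real.log n) ^ K
        = y ^ ((1 : ℝ) / 2) * ((C * (a i) ^ ((1 : ℝ) / 2) + 1) * (Real.log n) ^ K) := by ring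
      _ ≤ y ^ ((1 : ℝ) / 2) * y ^ ((1 : ℝ) / 2) :=
          mul_le_mul_of_nonneg_left h10 (by positivity)
      _ = y := h8

end Pool.Agent.Lib.MP_ec260d_nt
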